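import Mathlib

/-!
# Closed equivalence relations with connected classes on a compact plane set
-/

namespace Pool.Agent.Carp

open Set Metric Topology

/-- `r` is a closed equivalence relation on the compact set `B` with connected classes, such that
every preconnected set of points with classes of diameter `≥ ε` lies in one class. The class
of `x` is `{y | r x y}`; it is empty for `x ∉ B`. -/
structure PreRel (B : Set ℂ) (r : ℂ → ℂ → Prop) : Prop where
  compact : IsCompact B
  refl : ∀ x ∈ B, r x x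
  symm : ∀ x y, r x y → r y x
  trans : ∀ x y z, r x y → r y z → r x z
  mem : ∀ x y, r x y → x ∈ B ∧ y ∈ B
  closed : IsClosed {p : ℂ × ℂ | r p.1 p.2}
  conn : ∀ x ∈ B, IsConnected {y | r x y}
  comp : ∀ ε > 0, ∀ A ⊆ {x | x ∈ B ∧ ε ≤ diam {y | r x y}}, IsPreconnected A →
    ∀ x ∈ A, ∀ y ∈ A, r x y

/-- In addition no class separates the plane. -/
structure FullRel (B : Set ℂ) (r : ℂ → ℂ → Prop) : Prop extends PreRel B r where
  full : ∀ x ∈ B, IsPreconnected {y | r x y}ᶜ

/-- the connected open subsets of the interior of `B` which are unions of classes -/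
def GR (B : Set ℂ) (r : ℂ → ℂ → Prop) : Set (Set ℂ) :=
  {U | IsOpen U ∧ IsConnected U ∧ U ⊆ interior B ∧ ∀ x ∈ U, ∀ y, r x y → y ∈ U}

/-- the points with a class of diameter `≥ 1/(n+1)`, and the classes of `q 0, …, q n` -/
def ZR (B : Set ℂ) (r : ℂ → ℂ → Prop) (q : ℕ → ℂ) (n : ℕ) : Set ℂ :=
  {x | x ∈ B ∧ 1 / ((n : ℝ) + 1) ≤ diam {y | r x y}} ∪ {y | ∃ i ≤ n, r (q i) y}

end Pool.Agent.Carp
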