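import Mathlib

/-!
# Kernel estimates in the plane
-/

namespace Pool.Agent.Carp

open Set Metric Topology MeasureTheory Filter

theorem pa_ker0 {s : ℝ} (hs : 0 < s) :
    IntegrableOn (fun z : ℂ => ‖z‖⁻¹) (ball 0 s) ∧
      ∫ z in ball (0 : ℂ) s, ‖z‖⁻¹ = 2 * Real.pi * s := by
  have hdim : Module.finrank ℝ ℂ = 2 := Complex.finrank_real_complex
  have hind : (ball (0 : ℂ) s).indicator (fun z : ℂ => ‖z‖⁻¹) =
      fun z : ℂ => (Iio s).indicator (fun y : ℝ => y⁻¹) ‖z‖ := by
    funext z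
    by_cases hz : z ∈ ball (0 : ℂ) s
    · rw [indicator_of_mem hz, indicator_of_mem]
      simpa using hz
    · rw [indicator_of_notMem hz, indicator_of_notMem]
      simpa using hz
  have hfun : ∀ y ∈ Ioi (0 : ℝ), y ^ (Module.finrank ℝ ℂ - 1) •
      (Iio s).indicator (fun y : ℝ => y⁻¹) y = (Iio s).indicator (fun _ => (1 : ℝ)) y := by
    intro y hy
    have hy0 : y ≠ 0 := ne_of_gt hy
    rw [hdim]
    by_cases hys : y ∈ Iio s
    · rw [indicator_of_mem hys, indicator_of_mem hys]
      simp [hy0]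
    · rw [indicator_of_notMem hys, indicator_of_notMem hys]
      simp
  have hfin : IntegrableOn ((Iio s).indicator (fun _ => (1 : ℝ))) (Ioi (0 : ℝ)) := by
    rw [← integrable_indicator_iff measurableSet_Ioi, indicator_indicator, Ioi_inter_Iio]
    rw [integrable_indicator_iff measurableSet_Ioo]
    exact integrableOn_const (by simp) (by simp)
  constructor
  · rw [← integrable_indicator_iff measurableSet_ball, hind,
      integrable_fun_norm_addHaar volume (f := (Iio s).indicator (fun y : ℝ => y⁻¹))]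
    exact hfin.congr_fun (fun y hy => (hfun y hy).symm) measurableSet_Ioi
  · rw [← integral_indicator measurableSet_ball, hind,
      integral_fun_norm_addHaar volume ((Iio s).indicator (fun y : ℝ => y⁻¹)),
      setIntegral_congr_fun measurableSet_Ioi hfun, setIntegral_indicator measurableSet_Iio,
      Ioi_inter_Iio, hdim]
    have hv : (volume : Measure ℂ).real (ball 0 1) = Real.pi := by
      rw [Measure.real, Complex.volume_ball]
      simp
    rw [hv]
    simp [hs.le]
    ring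

theorem pa_ker (w : ℂ) {s : ℝ} (hs : 0 < s) :
    IntegrableOn (fun z : ℂ => ‖w - z‖⁻¹) (ball w s) ∧
      ∫ z in ball w s, ‖w - z‖⁻¹ = 2 * Real.pi * s := by
  obtain ⟨h1, h2⟩ := pa_ker0 hs
  rw [← integrable_indicator_iff measurableSet_ball] at h1
  rw [← integral_indicator measurableSet_ball] at h2
  have hind : (ball w s).indicator (fun z : ℂ => ‖w - z‖⁻¹) =
      fun z => (ball (0 : ℂ) s).indicator (fun z : ℂ => ‖z‖⁻¹) (w - z) := by
    funext z
    by_cases hz : z ∈ ball w s
    · rw [indicator_of_mem hz, indicator_of_mem]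
      rw [mem_ball, dist_comm, dist_eq_norm] at hz
      simpa using hz
    · rw [indicator_of_notMem hz, indicator_of_notMem]
      rw [mem_ball, dist_comm, dist_eq_norm] at hz
      simpa using hz
  constructor
  · rw [← integrable_indicator_iff measurableSet_ball, hind]
    exact h1.comp_sub_left w
  · rw [← integral_indicator measurableSet_ball, hind, ← h2]
    exact integral_sub_left_eq_self _ volume w

theorem pa_far {x w : ℂ} {ρ c : ℝ} (hρ : 0 < ρ) (hc : 0 < c)
    (h : ∀ z ∈ ball x ρ, c ≤ ‖w - z‖) :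
    IntegrableOn (fun z => ‖w - z‖⁻¹) (ball x ρ) ∧
      ∫ z in ball x ρ, ‖w - z‖⁻¹ ≤ c⁻¹ * (Real.pi * ρ ^ 2) := by
  have hb : ∀ z ∈ ball x ρ, ‖‖w - z‖⁻¹‖ ≤ c⁻¹ := by
    intro z hz
    rw [norm_inv, norm_norm]
    exact inv_anti₀ hc (h z hz)
  have hv : volume (ball x ρ) < ⊤ := measure_ball_lt_top
  have hvr : (volume : Measure ℂ).real (ball x ρ) = Real.pi * ρ ^ 2 := by
    rw [Measure.real, Complex.volume_ball]
    simp [hρ.le]
    ring
  have hint : IntegrableOn (fun z => ‖w - z‖⁻¹) (ball x ρ) := by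
    refine Measure.integrableOn_of_bounded hv.ne ?_ (M := c⁻¹) ?_
    · exact ((measurable_const.sub measurable_id).norm.inv).aestronglyMeasurable
    · rw [ae_restrict_iff' measurableSet_ball]
      exact Filter.Eventually.of_forall hb
  refine ⟨hint, ?_⟩
  have h1 := norm_setIntegral_le_of_norm_le_const (f := fun z : ℂ => ‖w - z‖⁻¹) hv hb
  rw [hvr] at h1
  exact (Real.le_norm_self _).trans h1

/-- The kernel `1/|w - z|` is integrable on balls of radius `ρ`, with integral at most `20 ρ`.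
Proof: if `|w - x| < 2ρ` the ball is contained in `ball w (3ρ)` and `∫_{ball w s} 1/|w-z| = 2πs`
(translate to `w = 0` and use `integral_fun_norm_addHaar` (polar coordinates), `6π < 20`; integrability
by `integrable_fun_norm_addHaar`), otherwise
`|w - z| ≥ ρ` on the ball and the integral is at most `πρ²/ρ`. -/
theorem ker_ball (x w : ℂ) {ρ : ℝ} (hρ : 0 < ρ) :
    IntegrableOn (fun z => ‖w - z‖⁻¹) (ball x ρ) ∧ ∫ z in ball x ρ, ‖w - z‖⁻¹ ≤ 20 * ρ := by
  have hpi := Real.pi_lt_d2
  by_cases h : ‖w - x‖ < 2 * ρ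
  · have hsub : ball x ρ ⊆ ball w (3 * ρ) := by
      intro z hz
      rw [mem_ball, dist_eq_norm] at hz ⊢
      have h1 : z - w = (z - x) - (w - x) := by ring
      calc ‖z - w‖ = ‖(z - x) - (w - x)‖ := by rw [h1]
        _ ≤ ‖z - x‖ + ‖w - x‖ := norm_sub_le _ _
        _ < 3 * ρ := by linarith
    obtain ⟨h1, h2⟩ := pa_ker w (s := 3 * ρ) (by positivity)
    refine ⟨h1.mono_set hsub, ?_⟩
    calc ∫ z in ball x ρ, ‖w - z‖⁻¹ ≤ ∫ z in ball w (3 * ρ), ‖w - z‖⁻¹ := by
          refine setIntegral_mono_set h1 ?_ hsub.eventuallyLE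
          exact Filter.Eventually.of_forall (fun z => by positivity)
      _ = 2 * Real.pi * (3 * ρ) := h2
      _ ≤ 20 * ρ := by nlinarith
  · rw [not_lt] at h
    obtain ⟨h1, h2⟩ := pa_far (x := x) (w := w) hρ hρ (by
      intro z hz
      rw [mem_ball, dist_eq_norm] at hz
      have h3 : w - z = (w - x) - (z - x) := by ring
      have := norm_sub_norm_le (w - x) (z - x)
      rw [h3]
      linarith)
    refine ⟨h1, h2.trans ?_⟩
    have : ρ⁻¹ * (Real.pi * ρ ^ 2) = Real.pi * ρ := by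
      field_simp
    rw [this]
    nlinarith

/-- For `w ≠ x` the averages tend to zero: for `ρ < |w-x|/2` the integral is `≤ πρ² · 2/|w-x|`. -/
theorem ker_tendsto {x w : ℂ} (h : w ≠ x) :
    Tendsto (fun ρ : ℝ => ρ⁻¹ * ∫ z in ball x ρ, ‖w - z‖⁻¹) (𝓝[>] 0) (𝓝 0) := by
  have hd : 0 < ‖w - x‖ / 2 := half_pos (norm_pos_iff.mpr (sub_ne_zero.mpr h))
  set d := ‖w - x‖ / 2 with hdd
  have hlim : Tendsto (fun ρ : ℝ => d⁻¹ * Real.pi * ρ) (𝓝[>] 0) (𝓝 0) := by
    have : Tendsto (fun ρ : ℝ => d⁻¹ * Real.pi * ρ) (𝓝 0) (𝓝 (d⁻¹ * Real.pi * 0)) :=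
      (continuous_const.mul continuous_id).tendsto 0
    rw [mul_zero] at this
    exact this.mono_left nhdsWithin_le_nhds
  refine tendsto_of_tendsto_of_tendsto_of_le_of_le' tendsto_const_nhds hlim ?_ ?_
  · filter_upwards [self_mem_nhdsWithin] with ρ hρ
    have hρ' : (0 : ℝ) < ρ := hρ
    have : 0 ≤ ∫ z in ball x ρ, ‖w - z‖⁻¹ := integral_nonneg (fun z => by positivity)
    positivity
  · filter_upwards [self_mem_nhdsWithin, nhdsWithin_le_nhds (gt_mem_nhds hd)] with ρ hρ hρd
    have hρ' : (0 : ℝ) < ρ := hρ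
    obtain ⟨-, h2⟩ := pa_far (x := x) (w := w) (c := d) hρ' hd (by
      intro z hz
      rw [mem_ball, dist_eq_norm] at hz
      have h3 : w - z = (w - x) - (z - x) := by ring
      have := norm_sub_norm_le (w - x) (z - x)
      rw [h3]
      linarith)
    calc ρ⁻¹ * ∫ z in ball x ρ, ‖w - z‖⁻¹ ≤ ρ⁻¹ * (d⁻¹ * (Real.pi * ρ ^ 2)) :=
          mul_le_mul_of_nonneg_left h2 (by positivity)
      _ = d⁻¹ * Real.pi * ρ := by
          field_simp

/-- Measurability of the parametric integral: `(fun p : ℂ × ℂ => ‖p.1 - p.2‖⁻¹)` is measurable,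
use `StronglyMeasurable.integral_prod_right`. -/
theorem ker_measurable (x : ℂ) (ρ : ℝ) :
    Measurable (fun w : ℂ => ∫ z in ball x ρ, ‖w - z‖⁻¹) := by
  have h : StronglyMeasurable (Function.uncurry (fun w z : ℂ => ‖w - z‖⁻¹)) := by
    have : Measurable (Function.uncurry (fun w z : ℂ => ‖w - z‖⁻¹)) :=
      (measurable_fst.sub measurable_snd).norm.inv
    exact this.stronglyMeasurable
  exact h.integral_prod_right.measurable

end Pool.Agent.Carp
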