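import Mathlib
import Pool.Agent.Lib.CauchyPompeiu
import Pool.Agent.Carp.PA

/-!
# The Cauchy transform of `g m`
-/

namespace Pool.Agent.Carp

open Set Metric Topology MeasureTheory Filter

/-- The Cauchy transform of the complex measure `g m`. -/
noncomputable def cau (m : Measure ℂ) (g : ℂ → ℂ) (z : ℂ) : ℂ := ∫ w, g w / (w - z) ∂m

variable {m : Measure ℂ} [IsFiniteMeasure m] {g : ℂ → ℂ}

omit [IsFiniteMeasure m] in
theorem pb_meas_ker (hgm : Measurable g) :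
    Measurable (fun p : ℂ × ℂ => g p.1 / (p.1 - p.2)) :=
  (hgm.comp measurable_fst).div (measurable_fst.sub measurable_snd)

theorem measurable_cau (hgm : Measurable g) : Measurable (cau m g) := by
  have h : Measurable (fun p : ℂ × ℂ => g p.2 / (p.2 - p.1)) :=
    (hgm.comp measurable_snd).div (measurable_snd.sub measurable_fst)
  exact (h.stronglyMeasurable.integral_prod_right' (ν := m)).measurable

omit [IsFiniteMeasure m] in
theorem pb_norm (w z : ℂ) : ‖g w / (w - z)‖ = ‖g w‖ * ‖w - z‖⁻¹ := by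
  rw [norm_div, div_eq_mul_inv]

omit [IsFiniteMeasure m] in
/-- Fubini on `m × volume.restrict (ball x ρ)`: `(w,z) ↦ g w / (w - z)` is integrable there
(`integrable_prod_iff`, `ker_ball`). -/
theorem integrable_kernel (hgm : Measurable g) (hg : Integrable g m) (x : ℂ) {ρ : ℝ} (hρ : 0 < ρ) :
    Integrable (fun p : ℂ × ℂ => g p.1 / (p.1 - p.2)) (m.prod (volume.restrict (ball x ρ))) := by
  rw [integrable_prod_iff (pb_meas_ker hgm).aestronglyMeasurable]
  refine ⟨Eventually.of_forall fun w => ?_, ?_⟩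
  · have h1 : Integrable (fun z => ‖g w‖ * ‖w - z‖⁻¹) (volume.restrict (ball x ρ)) :=
      (ker_ball x w hρ).1.const_mul _
    refine h1.mono' ((pb_meas_ker hgm).comp measurable_prodMk_left).aestronglyMeasurable
      (Eventually.of_forall fun z => ?_)
    exact (pb_norm w z).le
  · have e : (fun w => ∫ z, ‖g w / (w - z)‖ ∂(volume.restrict (ball x ρ))) =
        fun w => ‖g w‖ * ∫ z in ball x ρ, ‖w - z‖⁻¹ := by
      funext w
      rw [← integral_const_mul]
      refine integral_congr_ae (Eventually.of_forall fun z => ?_)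
      exact pb_norm w z
    simp only
    rw [e]
    refine (hg.norm.mul_const (20 * ρ)).mono'
      (hgm.norm.mul (ker_measurable x ρ)).aestronglyMeasurable (Eventually.of_forall fun w => ?_)
    have h0 : 0 ≤ ∫ z in ball x ρ, ‖w - z‖⁻¹ :=
      integral_nonneg fun z => inv_nonneg.2 (norm_nonneg _)
    rw [Real.norm_eq_abs, abs_of_nonneg (mul_nonneg (norm_nonneg _) h0)]
    exact mul_le_mul_of_nonneg_left (ker_ball x w hρ).2 (norm_nonneg _)

theorem cau_integrableOn (hgm : Measurable g) (hg : Integrable g m) (x : ℂ) {ρ : ℝ} (hρ : 0 < ρ) :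
    IntegrableOn (cau m g) (ball x ρ) ∧
      ∫ z in ball x ρ, ‖cau m g z‖ ≤ ∫ w, ‖g w‖ * (∫ z in ball x ρ, ‖w - z‖⁻¹) ∂m := by
  have hk := integrable_kernel hgm hg x hρ
  have h1 : IntegrableOn (cau m g) (ball x ρ) := hk.integral_prod_right
  refine ⟨h1, ?_⟩
  have h2 : Integrable (fun z => ∫ w, ‖g w / (w - z)‖ ∂m) (volume.restrict (ball x ρ)) :=
    hk.norm.integral_prod_right
  calc ∫ z in ball x ρ, ‖cau m g z‖ ≤ ∫ z in ball x ρ, ∫ w, ‖g w / (w - z)‖ ∂m :=
        integral_mono h1.norm h2 fun z => norm_integral_le_integral_norm _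
    _ = ∫ w, (∫ z in ball x ρ, ‖g w / (w - z)‖) ∂m :=
        (integral_integral_swap (f := fun w z => ‖g w / (w - z)‖) hk.norm).symm
    _ = ∫ w, ‖g w‖ * (∫ z in ball x ρ, ‖w - z‖⁻¹) ∂m := by
        refine integral_congr_ae (Eventually.of_forall fun w => ?_)
        simp only
        rw [← integral_const_mul]
        refine integral_congr_ae (Eventually.of_forall fun z => ?_)
        exact pb_norm w z

/-- By dominated convergence (`ker_ball`, `ker_tendsto`): `ρ⁻¹ ∫_{ball x ρ} |cau|` is eventually at most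
`20 ∫_{{x}} |g| dm + ε`. -/
theorem cau_point (hgm : Measurable g) (hg : Integrable g m) (x : ℂ) {ε : ℝ} (hε : 0 < ε) :
    ∀ᶠ ρ : ℝ in 𝓝[>] 0, ρ⁻¹ * ∫ z in ball x ρ, ‖cau m g z‖ ≤ 20 * (∫ w in {x}, ‖g w‖ ∂m) + ε := by
  have hker0 : ∀ (ρ : ℝ) (w : ℂ), 0 ≤ ∫ z in ball x ρ, ‖w - z‖⁻¹ := fun ρ w =>
    integral_nonneg fun z => inv_nonneg.2 (norm_nonneg _)
  have hbd : ∀ ρ : ℝ, 0 < ρ → ∀ w : ℂ, ‖g w‖ * (ρ⁻¹ * ∫ z in ball x ρ, ‖w - z‖⁻¹) ≤
      ‖g w‖ * 20 := by
    intro ρ hρ w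
    refine mul_le_mul_of_nonneg_left ?_ (norm_nonneg _)
    have h1 := (ker_ball x w hρ).2
    calc ρ⁻¹ * ∫ z in ball x ρ, ‖w - z‖⁻¹ ≤ ρ⁻¹ * (20 * ρ) :=
          mul_le_mul_of_nonneg_left h1 (inv_nonneg.2 hρ.le)
      _ = 20 := by field_simp
  have hnn : ∀ ρ : ℝ, 0 < ρ → ∀ w : ℂ, 0 ≤ ‖g w‖ * (ρ⁻¹ * ∫ z in ball x ρ, ‖w - z‖⁻¹) :=
    fun ρ hρ w => mul_nonneg (norm_nonneg _) (mul_nonneg (inv_nonneg.2 hρ.le) (hker0 ρ w))
  have hmeas : ∀ ρ : ℝ, Measurable (fun w => ‖g w‖ * (ρ⁻¹ * ∫ z in ball x ρ, ‖w - z‖⁻¹)) :=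
    fun ρ => hgm.norm.mul ((ker_measurable x ρ).const_mul _)
  have hT : Tendsto (fun ρ : ℝ => ∫ w in {x}ᶜ, ‖g w‖ * (ρ⁻¹ * ∫ z in ball x ρ, ‖w - z‖⁻¹) ∂m)
      (𝓝[>] 0) (𝓝 0) := by
    have h0 : ∫ w in ({x}ᶜ : Set ℂ), (0 : ℝ) ∂m = 0 := by simp
    have hgoal : Tendsto (fun ρ : ℝ => ∫ w in {x}ᶜ, ‖g w‖ * (ρ⁻¹ * ∫ z in ball x ρ, ‖w - z‖⁻¹) ∂m)
      (𝓝[>] 0) (𝓝 (∫ w in ({x}ᶜ : Set ℂ), (0 : ℝ) ∂m)) := ?_
    · rwa [h0] at hgoal
    refine tendsto_integral_filter_of_dominated_convergence (fun w => ‖g w‖ * 20) ?_ ?_ ?_ ?_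
    · exact Eventually.of_forall fun ρ => (hmeas ρ).aestronglyMeasurable
    · filter_upwards [self_mem_nhdsWithin] with ρ hρ
      refine Eventually.of_forall fun w => ?_
      rw [Real.norm_eq_abs, abs_of_nonneg (hnn ρ hρ w)]
      exact hbd ρ hρ w
    · exact (hg.norm.mul_const 20).integrableOn
    · refine (ae_restrict_iff' (measurableSet_singleton x).compl).2
        (Eventually.of_forall fun w hw => ?_)
      have h1 := (ker_tendsto (x := x) (w := w) hw).const_mul ‖g w‖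
      rwa [mul_zero] at h1
  have hev := hT.eventually (gt_mem_nhds hε)
  filter_upwards [hev, self_mem_nhdsWithin] with ρ h1 hρ
  have hρ' : (0 : ℝ) < ρ := hρ
  have h2 := (cau_integrableOn hgm hg x hρ').2
  have hint : Integrable (fun w => ‖g w‖ * (ρ⁻¹ * ∫ z in ball x ρ, ‖w - z‖⁻¹)) m := by
    refine (hg.norm.mul_const 20).mono' (hmeas ρ).aestronglyMeasurable
      (Eventually.of_forall fun w => ?_)
    rw [Real.norm_eq_abs, abs_of_nonneg (hnn ρ hρ' w)]
    exact hbd ρ hρ' w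
  calc ρ⁻¹ * ∫ z in ball x ρ, ‖cau m g z‖
      ≤ ρ⁻¹ * ∫ w, ‖g w‖ * (∫ z in ball x ρ, ‖w - z‖⁻¹) ∂m :=
        mul_le_mul_of_nonneg_left h2 (inv_nonneg.2 hρ'.le)
    _ = ∫ w, ‖g w‖ * (ρ⁻¹ * ∫ z in ball x ρ, ‖w - z‖⁻¹) ∂m := by
        rw [← integral_const_mul]
        refine integral_congr_ae (Eventually.of_forall fun w => ?_)
        simp only
        ring
    _ = (∫ w in {x}, ‖g w‖ * (ρ⁻¹ * ∫ z in ball x ρ, ‖w - z‖⁻¹) ∂m) +
          ∫ w in {x}ᶜ, ‖g w‖ * (ρ⁻¹ * ∫ z in ball x ρ, ‖w - z‖⁻¹) ∂m :=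
        (integral_add_compl (measurableSet_singleton x) hint).symm
    _ ≤ 20 * (∫ w in {x}, ‖g w‖ ∂m) + ε := by
        refine add_le_add ?_ h1.le
        rw [← integral_const_mul]
        refine integral_mono hint.integrableOn (hg.norm.const_mul 20).integrableOn fun w => ?_
        have := hbd ρ hρ' w
        simp only at this ⊢
        linarith

/-- The weak form of `∂̄ cau = -π g m`: Fubini and `Pool.Lib.integral_dbar_div_sub`
(`∫ ∂̄φ(z)/(w - z) dz = π φ(w)`). -/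
theorem cau_weak (hgm : Measurable g) (hg : Integrable g m) {φ : ℂ → ℂ} (hφ : ContDiff ℝ 1 φ)
    (hc : HasCompactSupport φ) :
    ∫ z, cau m g z * Pool.Lib.dbar φ z = Real.pi * ∫ w, φ w * g w ∂m := by
  obtain ⟨ρ0, hρ0⟩ : ∃ R : ℝ, tsupport φ ⊆ ball 0 R := hc.isCompact.isBounded.subset_ball 0
  obtain ⟨ρ, hρd⟩ : ∃ ρ : ℝ, ρ = max ρ0 1 := ⟨_, rfl⟩
  have hρ : 0 < ρ := by
    rw [hρd]
    exact lt_of_lt_of_le one_pos (le_max_right _ _)
  have hsub : tsupport φ ⊆ ball 0 ρ := hρ0.trans (ball_subset_ball (by rw [hρd]; exact le_max_left _ _))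
  have hcont := Pool.Lib.continuous_dbar hφ
  have hz : ∀ z, z ∉ ball (0 : ℂ) ρ → Pool.Lib.dbar φ z = 0 := fun z hzb =>
    image_eq_zero_of_notMem_tsupport fun h => hzb (hsub (Pool.Lib.tsupport_dbar_subset φ h))
  have hcc : HasCompactSupport (Pool.Lib.dbar φ) :=
    HasCompactSupport.of_support_subset_isCompact hc.isCompact
      ((subset_tsupport _).trans (Pool.Lib.tsupport_dbar_subset φ))
  obtain ⟨D, hD⟩ := hcc.exists_bound_of_continuous hcont
  have e1 : ∫ z, cau m g z * Pool.Lib.dbar φ z =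
      ∫ z in ball 0 ρ, cau m g z * Pool.Lib.dbar φ z := by
    refine (setIntegral_eq_integral_of_forall_compl_eq_zero fun z hzb => ?_).symm
    rw [hz z hzb, mul_zero]
  have e2 : ∀ z, cau m g z * Pool.Lib.dbar φ z =
      ∫ w, g w / (w - z) * Pool.Lib.dbar φ z ∂m := by
    intro z
    rw [integral_mul_const]
    rfl
  have hint : Integrable (fun p : ℂ × ℂ => g p.1 / (p.1 - p.2) * Pool.Lib.dbar φ p.2)
      (m.prod (volume.restrict (ball 0 ρ))) := by
    refine (integrable_kernel hgm hg 0 hρ).mul_bdd (c := D)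
      (hcont.comp continuous_snd).aestronglyMeasurable (Eventually.of_forall fun p => hD _)
  have e3 : ∀ w : ℂ, ∫ z in ball 0 ρ, g w / (w - z) * Pool.Lib.dbar φ z =
      Real.pi * (φ w * g w) := by
    intro w
    have h1 : ∫ z in ball 0 ρ, g w / (w - z) * Pool.Lib.dbar φ z =
        ∫ z, g w / (w - z) * Pool.Lib.dbar φ z := by
      refine setIntegral_eq_integral_of_forall_compl_eq_zero fun z hzb => ?_
      rw [hz z hzb, mul_zero]
    have h2 : ∫ z, g w / (w - z) * Pool.Lib.dbar φ z =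
        ∫ z, (- g w) * (Pool.Lib.dbar φ z / (z - w)) := by
      refine integral_congr_ae (Eventually.of_forall fun z => ?_)
      simp only
      rw [← neg_sub z w, div_neg]
      ring
    rw [h1, h2, integral_const_mul, Pool.Lib.integral_dbar_div_sub φ hφ hc w]
    ring
  rw [e1]
  calc ∫ z in ball 0 ρ, cau m g z * Pool.Lib.dbar φ z
      = ∫ z in ball 0 ρ, ∫ w, g w / (w - z) * Pool.Lib.dbar φ z ∂m := by
        refine integral_congr_ae (Eventually.of_forall fun z => ?_)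
        exact e2 z
    _ = ∫ w, (∫ z in ball 0 ρ, g w / (w - z) * Pool.Lib.dbar φ z) ∂m :=
        (integral_integral_swap (f := fun w z => g w / (w - z) * Pool.Lib.dbar φ z) hint).symm
    _ = ∫ w, Real.pi * (φ w * g w) ∂m := by
        refine integral_congr_ae (Eventually.of_forall fun w => ?_)
        exact e3 w
    _ = Real.pi * ∫ w, φ w * g w ∂m := by
        rw [integral_const_mul]

end Pool.Agent.Carp
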