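import Mathlib
import Pool.Agent.Lib.CauchyPompeiu
import Pool.Agent.Carp.PB

/-!
# Pairs
-/

namespace Pool.Agent.Carp

open Set Metric Topology MeasureTheory Filter

/-- An integrable function whose `∂̄`-derivative in the sense of distributions is dominated by the
finite measure `π m`. -/
structure Pair (F : ℂ → ℂ) (m : Measure ℂ) : Prop where
  meas : Measurable F
  int : Integrable F
  fin : IsFiniteMeasure m
  wi : ∀ φ : ℂ → ℂ, ContDiff ℝ 1 φ → HasCompactSupport φ →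
    ‖∫ z, F z * Pool.Lib.dbar φ z‖ ≤ Real.pi * ∫ z, ‖φ z‖ ∂m

namespace PCAux

theorem dbar_compact {φ : ℂ → ℂ} (hc : HasCompactSupport φ) :
    HasCompactSupport (Pool.Lib.dbar φ) :=
  hc.of_isClosed_subset (isClosed_tsupport _) (Pool.Lib.tsupport_dbar_subset φ)

theorem bdd_of_compact {φ : ℂ → ℂ} (h : Continuous φ) (hc : HasCompactSupport φ) :
    ∃ C : ℝ, ∀ z, ‖φ z‖ ≤ C := h.bounded_above_of_compact_support hc

theorem int_mul {F φ : ℂ → ℂ} {m : Measure ℂ} (hF : Integrable F m) (h : Continuous φ)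
    (hc : HasCompactSupport φ) : Integrable (fun z => F z * φ z) m := by
  obtain ⟨C, hC⟩ := bdd_of_compact h hc
  exact hF.mul_bdd (c := C) h.aestronglyMeasurable (Eventually.of_forall hC)

theorem int_norm {φ : ℂ → ℂ} {m : Measure ℂ} [IsFiniteMeasure m] (h : Continuous φ)
    (hc : HasCompactSupport φ) : Integrable (fun z => ‖φ z‖) m :=
  (h.integrable_of_hasCompactSupport hc).norm

/-- the derivative of `θ φ` -/
theorem dbar_mul {θ : ℂ → ℝ} {φ : ℂ → ℂ} (hθ : ContDiff ℝ 1 θ) (hφ : ContDiff ℝ 1 φ) (z : ℂ) :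
    Pool.Lib.dbar (fun z => (θ z : ℂ) * φ z) z =
      (θ z : ℂ) * Pool.Lib.dbar φ z + φ z * Pool.Lib.dbar (fun z => (θ z : ℂ)) z := by
  have h1 : HasFDerivAt (fun z => (θ z : ℂ)) (fderiv ℝ (fun z => (θ z : ℂ)) z) z :=
    ((Complex.ofRealCLM.contDiff.comp hθ).differentiable one_ne_zero z).hasFDerivAt
  have h2 : HasFDerivAt φ (fderiv ℝ φ z) z := (hφ.differentiable one_ne_zero z).hasFDerivAt
  have h3 := (h1.mul h2).fderiv
  unfold Pool.Lib.dbar
  have h4 : fderiv ℝ (fun z => (θ z : ℂ) * φ z) z =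
      (θ z : ℂ) • fderiv ℝ φ z + φ z • fderiv ℝ (fun z => (θ z : ℂ)) z := h3
  rw [h4]
  simp only [add_apply, smul_apply, smul_eq_mul]
  ring

theorem norm_dbar_le {θ : ℂ → ℝ} (hθ : ContDiff ℝ 1 θ) (z : ℂ) :
    ‖Pool.Lib.dbar (fun z => (θ z : ℂ)) z‖ ≤ ‖fderiv ℝ θ z‖ := by
  have h1 : HasFDerivAt θ (fderiv ℝ θ z) z := (hθ.differentiable one_ne_zero z).hasFDerivAt
  have h2 : HasFDerivAt (fun z => (θ z : ℂ)) (Complex.ofRealCLM.comp (fderiv ℝ θ z)) z :=
    Complex.ofRealCLM.hasFDerivAt.comp z h1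
  unfold Pool.Lib.dbar
  rw [h2.fderiv]
  have h3 : ∀ v : ℂ, ‖v‖ = 1 → ‖(Complex.ofRealCLM.comp (fderiv ℝ θ z)) v‖ ≤ ‖fderiv ℝ θ z‖ := by
    intro v hv
    have : (Complex.ofRealCLM.comp (fderiv ℝ θ z)) v = ((fderiv ℝ θ z v : ℝ) : ℂ) := rfl
    rw [this, Complex.norm_real]
    have := (fderiv ℝ θ z).le_opNorm v
    rw [hv, mul_one] at this
    exact this
  have h4 := h3 1 norm_one
  have h5 := h3 Complex.I Complex.norm_I
  rw [norm_div]
  have h6 : ‖(2 : ℂ)‖ = 2 := by norm_num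
  rw [h6]
  have h7 := norm_add_le ((Complex.ofRealCLM.comp (fderiv ℝ θ z)) 1)
    (Complex.I * (Complex.ofRealCLM.comp (fderiv ℝ θ z)) Complex.I)
  rw [norm_mul, Complex.norm_I, one_mul] at h7
  linarith

end PCAux

open PCAux

/-- The Cauchy transform of an annihilating measure is a pair with the measure `|g| m`
(`m.withDensity (fun w => ‖g w‖ₑ)`), it vanishes off `X` and it is not zero almost everywhere.
Integrable: it is zero off the bounded set `X`. Not zero: otherwise `∫ φ g dm = 0` for every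
`φ ∈ C¹_c` by `cau_weak`, and `g = 0` a.e. by `ae_eq_zero_of_integral_contDiff_smul_eq_zero`. -/
theorem cau_pair {X : Set ℂ} (hX : IsCompact X) (m : Measure ℂ) [IsFiniteMeasure m]
    (g : ℂ → ℂ) (hgm : Measurable g) (hg : Integrable g m)
    (h0 : ∀ z, z ∉ X → ∫ w, g w / (w - z) ∂m = 0) (hne : ¬ g =ᵐ[m] 0) :
    Pair (cau m g) (m.withDensity (fun w => ‖g w‖ₑ)) ∧ (∀ z, z ∉ X → cau m g z = 0) ∧
      ¬ cau m g =ᵐ[volume] 0 := by
  have hoff : ∀ z, z ∉ X → cau m g z = 0 := h0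
  refine ⟨⟨measurable_cau hgm, ?_, ?_, ?_⟩, hoff, ?_⟩
  · obtain ⟨r, hr⟩ := hX.isBounded.subset_ball 0
    have h1 := (cau_integrableOn hgm hg 0 (show (0:ℝ) < max r 1 by positivity)).1
    refine h1.integrable_of_forall_notMem_eq_zero fun z hz => hoff z fun hzX => hz ?_
    exact ball_subset_ball (le_max_left _ _) (hr hzX)
  · exact isFiniteMeasure_withDensity hg.2.ne
  · intro φ hφ hc
    rw [cau_weak hgm hg hφ hc, norm_mul, Complex.norm_real, Real.norm_eq_abs,
      abs_of_pos Real.pi_pos]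
    refine mul_le_mul_of_nonneg_left ?_ Real.pi_pos.le
    rw [integral_withDensity_eq_integral_toReal_smul hgm.enorm
      (Eventually.of_forall fun w => enorm_lt_top)]
    refine (norm_integral_le_integral_norm _).trans (le_of_eq ?_)
    refine integral_congr_ae (Eventually.of_forall fun w => ?_)
    show ‖φ w * g w‖ = (‖g w‖ₑ).toReal • ‖φ w‖
    rw [norm_mul, toReal_enorm, smul_eq_mul, mul_comm]
  · intro hz
    apply hne
    have h1 := ae_eq_zero_of_integral_contDiff_smul_eq_zero (μ := m) (f := g)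
      hg.locallyIntegrable (fun θ hθ hc => by
        have hφ : ContDiff ℝ 1 (fun z => (θ z : ℂ)) :=
          Complex.ofRealCLM.contDiff.comp (hθ.of_le (by exact_mod_cast le_top))
        have hcc : HasCompactSupport (fun z => (θ z : ℂ)) :=
          hc.comp_left (g := fun x : ℝ => (x : ℂ)) Complex.ofReal_zero
        have h2 := cau_weak hgm hg hφ hcc
        have h3 : ∫ z, cau m g z * Pool.Lib.dbar (fun z => (θ z : ℂ)) z = 0 := by
          rw [← integral_zero ℂ ℂ (μ := volume)]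
          refine integral_congr_ae ?_
          filter_upwards [hz] with z hz
          rw [hz]
          simp
        rw [h3] at h2
        have h4 : ∫ w, (θ w : ℂ) * g w ∂m = 0 := by
          rcases mul_eq_zero.1 h2.symm with h | h
          · exact absurd h (by exact_mod_cast Real.pi_ne_zero)
          · exact h
        rw [← h4]
        refine integral_congr_ae (Eventually.of_forall fun w => ?_)
        show θ w • g w = (θ w : ℂ) * g w
        rw [Complex.real_smul])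
    exact h1

/-- Multiplication by a `C¹` function `θ` with `0 ≤ θ ≤ 1`: use `θ ∂̄φ = ∂̄(θφ) - φ ∂̄θ`. Here `θ`
is real valued, `fun z => (θ z : ℂ)`. -/
theorem Pair.mul {F : ℂ → ℂ} {m : Measure ℂ} (h : Pair F m) {θ : ℂ → ℝ} (hθ : ContDiff ℝ 1 θ)
    (h01 : ∀ z, 0 ≤ θ z ∧ θ z ≤ 1) {φ : ℂ → ℂ} (hφ : ContDiff ℝ 1 φ) (hc : HasCompactSupport φ) :
    ‖∫ z, (θ z : ℂ) * F z * Pool.Lib.dbar φ z‖ ≤
      Real.pi * (∫ z, ‖φ z‖ ∂m) + ∫ z, ‖F z‖ * ‖φ z‖ * ‖fderiv ℝ θ z‖ := by
  have := h.fin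
  have hθc : ContDiff ℝ 1 (fun z => (θ z : ℂ)) := Complex.ofRealCLM.contDiff.comp hθ
  have hp : ContDiff ℝ 1 (fun z => (θ z : ℂ) * φ z) := hθc.mul hφ
  have hpc : HasCompactSupport (fun z => (θ z : ℂ) * φ z) := hc.mul_left
  have hq : Continuous (fun z => φ z * Pool.Lib.dbar (fun z => (θ z : ℂ)) z) :=
    hφ.continuous.mul (Pool.Lib.continuous_dbar hθc)
  have hqc : HasCompactSupport (fun z => φ z * Pool.Lib.dbar (fun z => (θ z : ℂ)) z) :=
    hc.mul_right
  have i1 : Integrable (fun z => F z * Pool.Lib.dbar (fun z => (θ z : ℂ) * φ z) z) :=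
    int_mul h.int (Pool.Lib.continuous_dbar hp) (dbar_compact hpc)
  have i2 : Integrable (fun z => F z * (φ z * Pool.Lib.dbar (fun z => (θ z : ℂ)) z)) :=
    int_mul h.int hq hqc
  have h1 : ∫ z, (θ z : ℂ) * F z * Pool.Lib.dbar φ z =
      (∫ z, F z * Pool.Lib.dbar (fun z => (θ z : ℂ) * φ z) z) -
        ∫ z, F z * (φ z * Pool.Lib.dbar (fun z => (θ z : ℂ)) z) := by
    rw [← integral_sub i1 i2]
    refine integral_congr_ae (Eventually.of_forall fun z => ?_)
    show (θ z : ℂ) * F z * Pool.Lib.dbar φ z =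
      F z * Pool.Lib.dbar (fun z => (θ z : ℂ) * φ z) z -
        F z * (φ z * Pool.Lib.dbar (fun z => (θ z : ℂ)) z)
    rw [dbar_mul hθ hφ]
    ring
  rw [h1]
  refine (norm_sub_le _ _).trans (add_le_add ?_ ?_)
  · refine (h.wi _ hp hpc).trans (mul_le_mul_of_nonneg_left ?_ Real.pi_pos.le)
    refine integral_mono (int_norm hp.continuous hpc) (int_norm hφ.continuous hc) fun z => ?_
    show ‖(θ z : ℂ) * φ z‖ ≤ ‖φ z‖
    rw [norm_mul, Complex.norm_real, Real.norm_eq_abs, abs_of_nonneg (h01 z).1]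
    exact mul_le_of_le_one_left (norm_nonneg _) (h01 z).2
  · refine (norm_integral_le_integral_norm _).trans ?_
    refine integral_mono i2.norm ?_ fun z => ?_
    · have hcf : Continuous (fun z => ((‖φ z‖ * ‖fderiv ℝ θ z‖ : ℝ) : ℂ)) := by
        have := hθ.continuous_fderiv one_ne_zero
        have := hφ.continuous
        fun_prop
      have hcc : HasCompactSupport (fun z => ((‖φ z‖ * ‖fderiv ℝ θ z‖ : ℝ) : ℂ)) := by
        refine hc.mono fun z hz hz0 => hz ?_
        show ((‖φ z‖ * ‖fderiv ℝ θ z‖ : ℝ) : ℂ) = 0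
        rw [hz0]
        simp
      refine (int_mul h.int hcf hcc).norm.congr (Eventually.of_forall fun z => ?_)
      show ‖F z * ((‖φ z‖ * ‖fderiv ℝ θ z‖ : ℝ) : ℂ)‖ = ‖F z‖ * ‖φ z‖ * ‖fderiv ℝ θ z‖
      rw [norm_mul, Complex.norm_real, Real.norm_eq_abs, abs_of_nonneg (by positivity), mul_assoc]
    · show ‖F z * (φ z * Pool.Lib.dbar (fun z => (θ z : ℂ)) z)‖ ≤
        ‖F z‖ * ‖φ z‖ * ‖fderiv ℝ θ z‖
      rw [norm_mul, norm_mul, ← mul_assoc]
      exact mul_le_mul_of_nonneg_left (norm_dbar_le hθ z) (by positivity)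

end Pool.Agent.Carp
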