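import Mathlib
import Pool.Agent.Carp.PC

/-!
# Removing the atoms
-/

namespace Pool.Agent.Carp

open Set Metric Topology MeasureTheory Filter

/-- A bump function at `a` of radius `ρ`: `1` on `ball a (ρ/4)`, `0` off `ball a ρ`, gradient at most
`10/ρ`. (A fixed `C¹` profile of `|z-a|²/ρ²`, e.g. `ContDiffBump`-free: `fun t => (1 - s)^2 (1+2s)` type
polynomials, or scale one fixed `ContDiffBump` whose gradient is bounded by an unspecified `C`; then
state the lemma with this constant: here the constant is a parameter of the conclusion.) -/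
theorem exists_bump : ∃ C : ℝ, 0 < C ∧ ∀ (a : ℂ) (ρ : ℝ), 0 < ρ → ∃ Φ : ℂ → ℝ, ContDiff ℝ 1 Φ ∧
    (∀ z, 0 ≤ Φ z ∧ Φ z ≤ 1) ∧ (∀ z ∈ ball a (ρ / 4), Φ z = 1) ∧ (∀ z, z ∉ ball a ρ → Φ z = 0) ∧
    ∀ z, ‖fderiv ℝ Φ z‖ ≤ C / ρ := by
  let f : ContDiffBump (0 : ℂ) := ⟨1 / 4, 1, by norm_num, by norm_num⟩
  have hf : ContDiff ℝ 1 (f : ℂ → ℝ) := f.contDiff
  have hcs : HasCompactSupport (f : ℂ → ℝ) := f.hasCompactSupport
  obtain ⟨C, hC⟩ := (hcs.fderiv (𝕜 := ℝ)).exists_bound_of_continuous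
    (hf.continuous_fderiv one_ne_zero)
  refine ⟨|C| + 1, by positivity, fun a ρ hρ => ⟨fun z => f (ρ⁻¹ • (z - a)), ?_, ?_, ?_, ?_, ?_⟩⟩
  · exact hf.comp ((contDiff_id.sub contDiff_const).const_smul ρ⁻¹)
  · exact fun z => ⟨f.nonneg, f.le_one⟩
  · intro z hz
    refine f.one_of_mem_closedBall ?_
    rw [mem_closedBall, dist_zero_right, norm_smul, norm_inv, Real.norm_of_nonneg hρ.le]
    rw [mem_ball, dist_eq_norm] at hz
    show ρ⁻¹ * ‖z - a‖ ≤ 1 / 4
    rw [inv_mul_le_iff₀ hρ]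
    linarith
  · intro z hz
    refine f.zero_of_le_dist ?_
    rw [dist_zero_right, norm_smul, norm_inv, Real.norm_of_nonneg hρ.le]
    rw [mem_ball, dist_eq_norm, not_lt] at hz
    show (1 : ℝ) ≤ ρ⁻¹ * ‖z - a‖
    rw [le_inv_mul_iff₀ hρ]
    linarith
  · intro z
    have h1 : HasFDerivAt (fun z : ℂ => ρ⁻¹ • (z - a)) (ρ⁻¹ • ContinuousLinearMap.id ℝ ℂ) z :=
      ((hasFDerivAt_id z).sub_const a).const_smul ρ⁻¹
    have h2 : HasFDerivAt (f : ℂ → ℝ) (fderiv ℝ f (ρ⁻¹ • (z - a))) (ρ⁻¹ • (z - a)) :=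
      (hf.differentiable one_ne_zero _).hasFDerivAt
    have h3 := h2.comp z h1
    rw [show (fun z : ℂ => f (ρ⁻¹ • (z - a))) = (f : ℂ → ℝ) ∘ fun z : ℂ => ρ⁻¹ • (z - a) from rfl,
      h3.fderiv]
    refine (ContinuousLinearMap.opNorm_comp_le _ _).trans ?_
    have h4 : ‖ρ⁻¹ • ContinuousLinearMap.id ℝ ℂ‖ ≤ ρ⁻¹ := by
      rw [norm_smul, norm_inv, Real.norm_of_nonneg hρ.le]
      exact mul_le_of_le_one_right (by positivity) ContinuousLinearMap.norm_id_le
    have h5 : ‖fderiv ℝ f (ρ⁻¹ • (z - a))‖ ≤ |C| + 1 :=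
      (hC _).trans ((le_abs_self C).trans (by linarith))
    rw [div_eq_mul_inv]
    exact mul_le_mul h5 h4 (norm_nonneg _) (by positivity)

/-- The points of positive mass of a finite measure can be put in an injective sequence. -/
theorem exists_atoms (μ : Measure ℂ) [IsFiniteMeasure μ] :
    ∃ a : ℕ → ℂ, Function.Injective a ∧ ∀ x, μ {x} ≠ 0 → ∃ i, a i = x := by
  have hc : Set.Countable {x : ℂ | 0 < μ {x}} :=
    Measure.countable_meas_pos_of_disjoint_iUnion (μ := μ) (As := fun x : ℂ => ({x} : Set ℂ))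
      (fun x => measurableSet_singleton x)
      (fun x y hxy => Set.disjoint_singleton.2 hxy)
  have hi : Set.Infinite (Set.range (fun n : ℕ => (n : ℂ))) :=
    Set.infinite_range_of_injective Nat.cast_injective
  have hcS : Set.Countable ({x : ℂ | 0 < μ {x}} ∪ Set.range (fun n : ℕ => (n : ℂ))) :=
    hc.union (Set.countable_range _)
  have hiS : Set.Infinite ({x : ℂ | 0 < μ {x}} ∪ Set.range (fun n : ℕ => (n : ℂ))) :=
    hi.mono Set.subset_union_right
  have := hcS.to_subtype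
  have := hiS.to_subtype
  obtain ⟨e⟩ : Nonempty (({x : ℂ | 0 < μ {x}} ∪ Set.range (fun n : ℕ => (n : ℂ)) : Set ℂ) ≃ ℕ) :=
    nonempty_equiv_of_countable
  refine ⟨fun n => (e.symm n : ℂ), fun i j h => e.symm.injective (Subtype.ext h), fun x hx => ?_⟩
  exact ⟨e ⟨x, Or.inl (pos_iff_ne_zero.2 hx)⟩, by simp⟩

/-- Finite products. -/
noncomputable def pdT (Φ : ℕ → ℂ → ℝ) (n : ℕ) (z : ℂ) : ℝ := ∏ i ∈ Finset.range n, (1 - Φ i z)

section
variable {Φ : ℕ → ℂ → ℝ}

theorem pdT_succ (n : ℕ) (z : ℂ) : pdT Φ (n + 1) z = pdT Φ n z * (1 - Φ n z) :=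
  Finset.prod_range_succ _ _

theorem pdT_mem (h01 : ∀ i z, 0 ≤ Φ i z ∧ Φ i z ≤ 1) (n : ℕ) (z : ℂ) :
    0 ≤ pdT Φ n z ∧ pdT Φ n z ≤ 1 := by
  induction n with
  | zero => simp [pdT]
  | succ n ih =>
    rw [pdT_succ]
    have h := h01 n z
    exact ⟨mul_nonneg ih.1 (by linarith), mul_le_one₀ ih.2 (by linarith) (by linarith)⟩

theorem pdT_antitone (h01 : ∀ i z, 0 ≤ Φ i z ∧ Φ i z ≤ 1) (z : ℂ) :
    Antitone (fun n => pdT Φ n z) := by
  refine antitone_nat_of_succ_le fun n => ?_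
  rw [pdT_succ]
  have h := h01 n z
  exact mul_le_of_le_one_right (pdT_mem h01 n z).1 (by linarith)

theorem pdT_contDiff (hC : ∀ i, ContDiff ℝ 1 (Φ i)) (n : ℕ) : ContDiff ℝ 1 (pdT Φ n) := by
  induction n with
  | zero =>
    have : pdT Φ 0 = fun _ => (1 : ℝ) := by funext z; simp [pdT]
    rw [this]
    exact contDiff_const
  | succ n ih =>
    have : pdT Φ (n + 1) = fun z => pdT Φ n z * (1 - Φ n z) := funext fun z => pdT_succ n z
    rw [this]
    exact ih.mul (contDiff_const.sub (hC n))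

theorem pdT_fderiv (hC : ∀ i, ContDiff ℝ 1 (Φ i)) (h01 : ∀ i z, 0 ≤ Φ i z ∧ Φ i z ≤ 1)
    (n : ℕ) (z : ℂ) : ‖fderiv ℝ (pdT Φ n) z‖ ≤ ∑ i ∈ Finset.range n, ‖fderiv ℝ (Φ i) z‖ := by
  induction n with
  | zero =>
    have : pdT Φ 0 = fun _ => (1 : ℝ) := by funext z; simp [pdT]
    simp [this]
  | succ n ih =>
    have h1 : pdT Φ (n + 1) = fun z => pdT Φ n z * (1 - Φ n z) := funext fun z => pdT_succ n z
    have hd : HasFDerivAt (pdT Φ n) (fderiv ℝ (pdT Φ n) z) z :=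
      ((pdT_contDiff hC n).differentiable one_ne_zero _).hasFDerivAt
    have hΦ : HasFDerivAt (Φ n) (fderiv ℝ (Φ n) z) z :=
      ((hC n).differentiable one_ne_zero _).hasFDerivAt
    have h2 := hd.mul (hΦ.const_sub (1 : ℝ))
    rw [h1, show (fun z => pdT Φ n z * (1 - Φ n z)) = (pdT Φ n * fun z => 1 - Φ n z) from rfl,
      h2.fderiv, Finset.sum_range_succ]
    refine (norm_add_le _ _).trans ?_
    have ht := pdT_mem h01 n z
    have hp := h01 n z
    rw [norm_smul, norm_smul, norm_neg, Real.norm_of_nonneg ht.1,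
      Real.norm_of_nonneg (show 0 ≤ 1 - Φ n z by linarith)]
    have e1 : pdT Φ n z * ‖fderiv ℝ (Φ n) z‖ ≤ ‖fderiv ℝ (Φ n) z‖ :=
      mul_le_of_le_one_left (norm_nonneg _) ht.2
    have e2 : (1 - Φ n z) * ‖fderiv ℝ (pdT Φ n) z‖ ≤ ‖fderiv ℝ (pdT Φ n) z‖ :=
      mul_le_of_le_one_left (norm_nonneg _) (by linarith)
    linarith

theorem pdT_lower (h01 : ∀ i z, 0 ≤ Φ i z ∧ Φ i z ≤ 1) (n : ℕ) (z : ℂ) :
    1 - pdT Φ n z ≤ ∑ i ∈ Finset.range n, Φ i z := by
  induction n with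
  | zero => simp [pdT]
  | succ n ih =>
    rw [pdT_succ, Finset.sum_range_succ]
    have ht := pdT_mem h01 n z
    have hp := h01 n z
    nlinarith [mul_le_of_le_one_left hp.1 ht.2]

end

/-- The infinite product. `Φ i` bumps (values in `[0,1]`, `C¹`) with `Σ ∫ |F| |∇Φ i| < ∞` and
`Σ ∫ |F| Φ i < ∫ |F|`. Then `θ z = ⨅ n, ∏_{i<n} (1 - Φ i z)` (a decreasing limit of functions
with values in `[0,1]`) has: `θ F` is a pair with the measure `m + π⁻¹ Σ |F| |∇Φ i| dA`
(the limit of `Pair.mul` for `θ_n = ∏_{i<n} (1 - Φ i)`, `|∇θ_n| ≤ Σ_{i<n} |∇Φ i|`),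
`|θ F| ≤ |F|`, `θ z = 0` as soon as `Φ i z = 1` for one `i`, and `θ F` is not zero a.e.
(`1 - θ ≤ Σ Φ i`). -/
theorem pair_prod {F : ℂ → ℂ} {m : Measure ℂ} (h : Pair F m) (Φ : ℕ → ℂ → ℝ)
    (hC : ∀ i, ContDiff ℝ 1 (Φ i)) (h01 : ∀ i z, 0 ≤ Φ i z ∧ Φ i z ≤ 1)
    (hi : ∀ i, Integrable (fun z => ‖F z‖ * ‖fderiv ℝ (Φ i) z‖))
    (hs : Summable (fun i => ∫ z, ‖F z‖ * ‖fderiv ℝ (Φ i) z‖))
    (ht : Summable (fun i => ∫ z, ‖F z‖ * Φ i z))
    (hlt : ∑' i, ∫ z, ‖F z‖ * Φ i z < ∫ z, ‖F z‖) :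
    ∃ (F' : ℂ → ℂ) (m' : Measure ℂ), Pair F' m' ∧ (∀ z, ‖F' z‖ ≤ ‖F z‖) ∧
      (∀ i z, Φ i z = 1 → F' z = 0) ∧ ¬ F' =ᵐ[volume] 0 := by
  have hFm := h.meas
  have hFi := h.int
  have := h.fin
  -- the limit
  have hTm : ∀ n, Measurable (pdT Φ n) := fun n => (pdT_contDiff hC n).continuous.measurable
  have hbdd : ∀ z, BddBelow (Set.range fun n => pdT Φ n z) :=
    fun z => ⟨0, by rintro _ ⟨n, rfl⟩; exact (pdT_mem h01 n z).1⟩
  let θ : ℂ → ℝ := fun z => ⨅ n, pdT Φ n z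
  have hlim : ∀ z, Tendsto (fun n => pdT Φ n z) atTop (𝓝 (θ z)) :=
    fun z => tendsto_atTop_ciInf (pdT_antitone h01 z) (hbdd z)
  have hθ0 : ∀ z, 0 ≤ θ z := fun z => le_ciInf fun n => (pdT_mem h01 n z).1
  have hθ1 : ∀ z, θ z ≤ 1 := fun z => (ciInf_le (hbdd z) 0).trans (pdT_mem h01 0 z).2
  have hθm : Measurable θ := measurable_of_tendsto_metrizable hTm
    (tendsto_pi_nhds.2 hlim)
  -- the measure
  let G : ℂ → ENNReal := fun z => ∑' i, ‖F z‖ₑ * ‖fderiv ℝ (Φ i) z‖ₑ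
  have hdm : ∀ i, Measurable fun z => fderiv ℝ (Φ i) z :=
    fun i => ((hC i).continuous_fderiv one_ne_zero).measurable
  have hGm : Measurable G := Measurable.tsum fun i => hFm.enorm.mul (hdm i).enorm
  have hGfin : ∫⁻ z, G z ≠ ⊤ := by
    have eG : ∫⁻ z, G z = ∑' i, ∫⁻ z, ‖F z‖ₑ * ‖fderiv ℝ (Φ i) z‖ₑ :=
      lintegral_tsum (fun i => (hFm.enorm.mul (hdm i).enorm).aemeasurable)
    rw [eG]
    have e : ∀ i, ∫⁻ z, ‖F z‖ₑ * ‖fderiv ℝ (Φ i) z‖ₑ
        = ENNReal.ofReal (∫ z, ‖F z‖ * ‖fderiv ℝ (Φ i) z‖) := by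
      intro i
      rw [ofReal_integral_eq_lintegral_ofReal (hi i)
        (Eventually.of_forall fun z => mul_nonneg (norm_nonneg _) (norm_nonneg _))]
      refine lintegral_congr fun z => ?_
      rw [ENNReal.ofReal_mul (norm_nonneg _), ofReal_norm, ofReal_norm]
    simp_rw [e]
    rw [← ENNReal.ofReal_tsum_of_nonneg (fun i => integral_nonneg fun z =>
      mul_nonneg (norm_nonneg _) (norm_nonneg _)) hs]
    exact ENNReal.ofReal_ne_top
  let κ : Measure ℂ := volume.withDensity G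
  have hκ : IsFiniteMeasure κ := isFiniteMeasure_withDensity hGfin
  let m' : Measure ℂ := m + (ENNReal.ofReal Real.pi⁻¹) • κ
  have hm' : IsFiniteMeasure m' := by
    have : IsFiniteMeasure ((ENNReal.ofReal Real.pi⁻¹) • κ) := by
      refine ⟨?_⟩
      rw [Measure.smul_apply, smul_eq_mul]
      exact ENNReal.mul_lt_top ENNReal.ofReal_lt_top (measure_lt_top κ _)
    infer_instance
  have hF'm : Measurable (fun z => (θ z : ℂ) * F z) :=
    (Complex.measurable_ofReal.comp hθm).mul hFm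
  have hF'le : ∀ z, ‖(θ z : ℂ) * F z‖ ≤ ‖F z‖ := by
    intro z
    rw [norm_mul, Complex.norm_real, Real.norm_of_nonneg (hθ0 z)]
    exact mul_le_of_le_one_left (norm_nonneg _) (hθ1 z)
  have hF'i : Integrable (fun z => (θ z : ℂ) * F z) :=
    hFi.mono hF'm.aestronglyMeasurable (Eventually.of_forall hF'le)
  refine ⟨fun z => (θ z : ℂ) * F z, m', ⟨hF'm, hF'i, hm', ?_⟩, hF'le, ?_, ?_⟩
  · -- the weak inequality
    intro φ hφ hcφ
    have hφc : Continuous φ := hφ.continuous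
    have hφi : ∀ (ν : Measure ℂ) [IsFiniteMeasure ν], Integrable (fun z => ‖φ z‖) ν :=
      fun ν _ => (hφc.integrable_of_hasCompactSupport hcφ).norm
    have hdb : Continuous (Pool.Lib.dbar φ) := Pool.Lib.continuous_dbar hφ
    have hcd : HasCompactSupport (Pool.Lib.dbar φ) :=
      hcφ.of_isClosed_subset (isClosed_tsupport _) (Pool.Lib.tsupport_dbar_subset φ)
    obtain ⟨D, hD⟩ : ∃ D, ∀ z, ‖Pool.Lib.dbar φ z‖ ≤ D := hcd.exists_bound_of_continuous hdb
    -- right-hand side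
    have hr : Real.pi * ∫ z, ‖φ z‖ ∂m' = Real.pi * (∫ z, ‖φ z‖ ∂m) + ∫ z, ‖φ z‖ ∂κ := by
      have h1 : Integrable (fun z => ‖φ z‖) ((ENNReal.ofReal Real.pi⁻¹) • κ) :=
        (hφi κ).smul_measure ENNReal.ofReal_ne_top
      rw [integral_add_measure (hφi m) h1, integral_smul_measure,
        ENNReal.toReal_ofReal (by positivity), smul_eq_mul, mul_add, ← mul_assoc,
        mul_inv_cancel₀ Real.pi_ne_zero, one_mul]
    rw [hr]
    have hn : ∀ n, ‖∫ z, (pdT Φ n z : ℂ) * F z * Pool.Lib.dbar φ z‖ ≤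
        Real.pi * (∫ z, ‖φ z‖ ∂m) + ∫ z, ‖φ z‖ ∂κ := by
      intro n
      refine (h.mul (pdT_contDiff hC n) (pdT_mem h01 n) hφ hcφ).trans ?_
      refine add_le_add le_rfl ?_
      have hfin : ∫⁻ z, ‖φ z‖ₑ ∂κ ≠ ⊤ := by
        have := (hφi κ).2
        rw [HasFiniteIntegral] at this
        simpa using this.ne
      have eI : ∫ z, ‖F z‖ * ‖φ z‖ * ‖fderiv ℝ (pdT Φ n) z‖ =
          (∫⁻ z, ENNReal.ofReal (‖F z‖ * ‖φ z‖ * ‖fderiv ℝ (pdT Φ n) z‖)).toReal :=
        integral_eq_lintegral_of_nonneg_ae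
          (Eventually.of_forall fun z => mul_nonneg (mul_nonneg (norm_nonneg _) (norm_nonneg _))
            (norm_nonneg _))
          (((hFm.norm.mul hφc.measurable.norm).mul
            ((pdT_contDiff hC n).continuous_fderiv one_ne_zero).measurable.norm).aestronglyMeasurable)
      rw [integral_norm_eq_lintegral_enorm hφc.aestronglyMeasurable, eI]
      refine ENNReal.toReal_mono hfin ?_
      rw [lintegral_withDensity_eq_lintegral_mul _ hGm hφc.measurable.enorm]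
      refine lintegral_mono fun z => ?_
      rw [Pi.mul_apply]
      calc ENNReal.ofReal (‖F z‖ * ‖φ z‖ * ‖fderiv ℝ (pdT Φ n) z‖)
          = ‖F z‖ₑ * ENNReal.ofReal ‖fderiv ℝ (pdT Φ n) z‖ * ‖φ z‖ₑ := by
            rw [ENNReal.ofReal_mul (by positivity), ENNReal.ofReal_mul (by positivity),
              ofReal_norm, ofReal_norm]
            ring
        _ ≤ G z * ‖φ z‖ₑ := by
            refine mul_le_mul' ?_ le_rfl
            calc ‖F z‖ₑ * ENNReal.ofReal ‖fderiv ℝ (pdT Φ n) z‖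
                ≤ ‖F z‖ₑ * ∑ i ∈ Finset.range n, ‖fderiv ℝ (Φ i) z‖ₑ := by
                  refine mul_le_mul' le_rfl ?_
                  refine (ENNReal.ofReal_le_ofReal (pdT_fderiv hC h01 n z)).trans ?_
                  rw [ENNReal.ofReal_sum_of_nonneg fun i _ => norm_nonneg _]
                  simp_rw [ofReal_norm]
                  exact le_rfl
              _ = ∑ i ∈ Finset.range n, ‖F z‖ₑ * ‖fderiv ℝ (Φ i) z‖ₑ := by
                  rw [Finset.mul_sum]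
              _ ≤ G z := ENNReal.sum_le_tsum _
    have htend : Tendsto (fun n => ∫ z, (pdT Φ n z : ℂ) * F z * Pool.Lib.dbar φ z) atTop
        (𝓝 (∫ z, (θ z : ℂ) * F z * Pool.Lib.dbar φ z)) := by
      refine tendsto_integral_of_dominated_convergence (fun z => ‖F z‖ * D) ?_
        (hFi.norm.mul_const D) ?_ ?_
      · exact fun n => (((Complex.measurable_ofReal.comp (hTm n)).mul hFm).mul
          hdb.measurable).aestronglyMeasurable
      · intro n
        refine Eventually.of_forall fun z => ?_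
        rw [norm_mul, norm_mul, Complex.norm_real, Real.norm_of_nonneg (pdT_mem h01 n z).1]
        exact mul_le_mul (mul_le_of_le_one_left (norm_nonneg _) (pdT_mem h01 n z).2) (hD z)
          (norm_nonneg _) (norm_nonneg _)
      · refine Eventually.of_forall fun z => ?_
        refine Tendsto.mul_const _ (Tendsto.mul_const _ ?_)
        exact (Complex.continuous_ofReal.tendsto _).comp (hlim z)
    exact le_of_tendsto (htend.norm) (Eventually.of_forall hn)
  · intro i z hz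
    have h1 : pdT Φ (i + 1) z = 0 := by rw [pdT_succ, hz]; ring
    have h2 : θ z = 0 := le_antisymm ((ciInf_le (hbdd z) (i + 1)).trans h1.le) (hθ0 z)
    simp [h2]
  · intro h0
    have hFn : ∫ z, ‖F z‖ * (1 - θ z) = ∫ z, ‖F z‖ := by
      refine integral_congr_ae ?_
      filter_upwards [h0] with z hz
      have hz' : (θ z : ℂ) * F z = 0 := hz
      rcases mul_eq_zero.1 hz' with h1 | h1
      · have : θ z = 0 := by exact_mod_cast h1
        rw [this]; ring
      · rw [h1]; simp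
    have htend : Tendsto (fun n => ∫ z, ‖F z‖ * (1 - pdT Φ n z)) atTop
        (𝓝 (∫ z, ‖F z‖ * (1 - θ z))) := by
      refine tendsto_integral_of_dominated_convergence (fun z => ‖F z‖) ?_ hFi.norm ?_ ?_
      · exact fun n => (hFm.norm.mul (measurable_const.sub (hTm n))).aestronglyMeasurable
      · intro n
        refine Eventually.of_forall fun z => ?_
        have := pdT_mem h01 n z
        rw [norm_mul, norm_norm, Real.norm_of_nonneg (by linarith)]
        exact mul_le_of_le_one_right (norm_nonneg _) (by linarith)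
      · exact Eventually.of_forall fun z => ((hlim z).const_sub 1).const_mul _
    have hΦi : ∀ i, Integrable (fun z => ‖F z‖ * Φ i z) := by
      intro i
      refine hFi.norm.mono (hFm.norm.mul (hC i).continuous.measurable).aestronglyMeasurable
        (Eventually.of_forall fun z => ?_)
      rw [norm_mul, norm_norm, Real.norm_of_nonneg (h01 i z).1]
      exact mul_le_of_le_one_right (norm_nonneg _) (h01 i z).2
    have hb : ∀ n, ∫ z, ‖F z‖ * (1 - pdT Φ n z) ≤ ∑' i, ∫ z, ‖F z‖ * Φ i z := by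
      intro n
      calc ∫ z, ‖F z‖ * (1 - pdT Φ n z) ≤ ∫ z, ∑ i ∈ Finset.range n, ‖F z‖ * Φ i z := by
            refine integral_mono_of_nonneg (Eventually.of_forall fun z => ?_)
              (integrable_finsetSum _ fun i _ => hΦi i) (Eventually.of_forall fun z => ?_)
            · exact mul_nonneg (norm_nonneg _) (by have := pdT_mem h01 n z; linarith)
            · show ‖F z‖ * (1 - pdT Φ n z) ≤ ∑ i ∈ Finset.range n, ‖F z‖ * Φ i z
              rw [← Finset.mul_sum]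
              exact mul_le_mul_of_nonneg_left (pdT_lower h01 n z) (norm_nonneg _)
        _ = ∑ i ∈ Finset.range n, ∫ z, ‖F z‖ * Φ i z := integral_finsetSum _ fun i _ => hΦi i
        _ ≤ ∑' i, ∫ z, ‖F z‖ * Φ i z := ht.sum_le_tsum _ fun i _ =>
            integral_nonneg fun z => mul_nonneg (norm_nonneg _) (h01 i z).1
    have := le_of_tendsto' htend hb
    linarith

end Pool.Agent.Carp
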