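import Mathlib
import Pool.Agent.Carp.PD

/-!
# From an annihilating measure to a pair with no point cost
-/

namespace Pool.Agent.Carp

open Set Metric Topology MeasureTheory Filter

/-- the gradient of a nonnegative function vanishes where the function vanishes -/
private theorem pe_fderiv_zero {Φ : ℂ → ℝ} (h01 : ∀ z, 0 ≤ Φ z ∧ Φ z ≤ 1) {z : ℂ} (hz : Φ z = 0) :
    fderiv ℝ Φ z = 0 := by
  apply IsLocalMin.fderiv_eq_zero
  apply Filter.Eventually.of_forall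
  intro w
  rw [hz]
  exact (h01 w).1

private theorem pe_grad {F : ℂ → ℂ} (hFm : Measurable F) (hF : Integrable F) {Φ : ℂ → ℝ}
    {a : ℂ} {ρ C B : ℝ} (hρ : 0 < ρ) (hC : 0 < C) (hd : ContDiff ℝ 1 Φ)
    (h01 : ∀ z, 0 ≤ Φ z ∧ Φ z ≤ 1) (hout : ∀ z, z ∉ ball a ρ → Φ z = 0)
    (hgr : ∀ z, ‖fderiv ℝ Φ z‖ ≤ C / ρ) (hB : ρ⁻¹ * ∫ z in ball a ρ, ‖F z‖ ≤ B) :
    Integrable (fun z => ‖F z‖ * ‖fderiv ℝ Φ z‖) ∧
      ∫ z, ‖F z‖ * ‖fderiv ℝ Φ z‖ ≤ C * B := by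
  have hcont : Continuous (fun z => ‖fderiv ℝ Φ z‖) := (hd.continuous_fderiv one_ne_zero).norm
  have hint : Integrable (fun z => ‖F z‖ * ‖fderiv ℝ Φ z‖) := by
    refine Integrable.mono' (hF.norm.mul_const (C / ρ)) ?_ ?_
    · exact (hFm.norm.mul hcont.measurable).aestronglyMeasurable
    · refine Filter.Eventually.of_forall fun z => ?_
      rw [Real.norm_of_nonneg (by positivity)]
      exact mul_le_mul_of_nonneg_left (hgr z) (norm_nonneg _)
  refine ⟨hint, ?_⟩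
  have h1 : ∫ z, ‖F z‖ * ‖fderiv ℝ Φ z‖ = ∫ z in ball a ρ, ‖F z‖ * ‖fderiv ℝ Φ z‖ := by
    symm
    apply setIntegral_eq_integral_of_forall_compl_eq_zero
    intro z hz
    rw [pe_fderiv_zero h01 (hout z hz), norm_zero, mul_zero]
  rw [h1]
  have h2 : ∫ z in ball a ρ, ‖F z‖ * ‖fderiv ℝ Φ z‖ ≤ ∫ z in ball a ρ, ‖F z‖ * (C / ρ) := by
    apply setIntegral_mono hint.integrableOn (hF.norm.mul_const (C / ρ)).integrableOn
    intro z
    exact mul_le_mul_of_nonneg_left (hgr z) (norm_nonneg _)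
  refine h2.trans ?_
  rw [integral_mul_const]
  have h3 : (∫ z in ball a ρ, ‖F z‖) * (C / ρ) = C * (ρ⁻¹ * ∫ z in ball a ρ, ‖F z‖) := by
    rw [div_eq_mul_inv]; ring
  rw [h3]
  exact mul_le_mul_of_nonneg_left hB hC.le

private theorem pe_mass {F : ℂ → ℂ} (hF : Integrable F) {Φ : ℂ → ℝ}
    {a : ℂ} {ρ B : ℝ} (hd : ContDiff ℝ 1 Φ)
    (h01 : ∀ z, 0 ≤ Φ z ∧ Φ z ≤ 1) (hout : ∀ z, z ∉ ball a ρ → Φ z = 0)
    (hB : ∫ z in ball a ρ, ‖F z‖ ≤ B) :
    0 ≤ ∫ z, ‖F z‖ * Φ z ∧ ∫ z, ‖F z‖ * Φ z ≤ B := by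
  have hint : Integrable (fun z => ‖F z‖ * Φ z) := by
    refine Integrable.mono' hF.norm ?_ ?_
    · exact hF.norm.aestronglyMeasurable.mul hd.continuous.aestronglyMeasurable
    · refine Filter.Eventually.of_forall fun z => ?_
      rw [Real.norm_of_nonneg (mul_nonneg (norm_nonneg _) (h01 z).1)]
      exact mul_le_of_le_one_right (norm_nonneg _) (h01 z).2
  refine ⟨integral_nonneg fun z => mul_nonneg (norm_nonneg _) (h01 z).1, ?_⟩
  have h1 : ∫ z, ‖F z‖ * Φ z = ∫ z in ball a ρ, ‖F z‖ * Φ z := by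
    symm
    apply setIntegral_eq_integral_of_forall_compl_eq_zero
    intro z hz
    rw [hout z hz, mul_zero]
  rw [h1]
  refine le_trans ?_ hB
  apply setIntegral_mono hint.integrableOn hF.norm.integrableOn
  intro z
  exact mul_le_of_le_one_right (norm_nonneg _) (h01 z).2

private theorem pe_atoms_summable {m : Measure ℂ} {g : ℂ → ℂ}
    (hg : Integrable g m) {a : ℕ → ℂ} (ha : Function.Injective a) :
    Summable (fun i => ∫ w in {a i}, ‖g w‖ ∂m) := by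
  have h := hasSum_integral_iUnion (μ := m) (f := fun w => ‖g w‖) (s := fun i : ℕ => ({a i} : Set ℂ))
    (fun i => measurableSet_singleton _) ?_ hg.norm.integrableOn
  · exact h.summable
  · intro i j hij
    rw [Function.onFun, disjoint_singleton]
    exact fun h => hij (ha h)

private theorem pe_choose {F : ℂ → ℂ} {x : ℂ} {M ε δ : ℝ} (hM : 0 ≤ M) (hε : 0 < ε) (hδ : 0 < δ)
    (h : ∀ᶠ ρ : ℝ in 𝓝[>] 0, ρ⁻¹ * ∫ z in ball x ρ, ‖F z‖ ≤ M + ε) :
    ∃ ρ : ℝ, 0 < ρ ∧ (ρ⁻¹ * ∫ z in ball x ρ, ‖F z‖ ≤ M + ε) ∧ ∫ z in ball x ρ, ‖F z‖ ≤ δ := by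
  have hp : 0 < δ / (M + ε) := by positivity
  have h2 : ∀ᶠ ρ : ℝ in 𝓝[>] 0, ρ < δ / (M + ε) :=
    mem_nhdsWithin_of_mem_nhds (Iio_mem_nhds hp)
  have h3 : ∀ᶠ ρ : ℝ in 𝓝[>] 0, 0 < ρ := self_mem_nhdsWithin
  obtain ⟨ρ, h4, h5, h6⟩ := (h.and (h2.and h3)).exists
  refine ⟨ρ, h6, h4, ?_⟩
  rw [inv_mul_le_iff₀ h6] at h4
  refine h4.trans ?_
  rw [lt_div_iff₀ (by positivity)] at h5
  exact h5.le

private theorem pe_mu_zero {m : Measure ℂ} {g : ℂ → ℂ} {x : ℂ}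
    (h : m.withDensity (fun w => ‖g w‖ₑ) {x} = 0) : ∫ w in {x}, ‖g w‖ ∂m = 0 := by
  rw [withDensity_apply _ (measurableSet_singleton x)] at h
  rw [integral_singleton]
  rw [lintegral_singleton] at h
  rw [mul_eq_zero] at h
  rcases h with h | h
  · have : g x = 0 := by simpa using h
    simp [this]
  · simp [Measure.real, h]

/-- The first block of the analysis. Proof: `F₀ = cau m g`, `μ = |g| m` (`cau_pair`), the sequence `a`
of `exists_atoms μ`, the constant `C` of `exists_bump`, `η = (∫ |F₀|)/4 > 0`; for every `i` a radius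
`0 < ρ i < 1` with
`ρ⁻¹ ∫_{ball (a i) ρ} |F₀| ≤ 20 μ{a i} + 2^{-i}` (`cau_point`) and `∫_{ball (a i) ρ} |F₀| ≤ η 2^{-i-1}`;
`Φ i` the bump at `a i` with radius `ρ i`. `Σ ∫|F₀||∇Φ i| ≤ C Σ (20 μ{a i} + 2^{-i}) < ∞`
since `Σ μ{a i} ≤ μ univ` (`a` injective). `pair_prod` gives `F`, `m1`. Point cost: if `x = a i` for
some `i` then `F = 0` on `ball x (ρ i / 4)`; otherwise `μ {x} = 0` and
`ρ⁻¹ ∫_{ball x ρ} |F| ≤ ρ⁻¹ ∫_{ball x ρ} |F₀|`, eventually `≤ ε` by `cau_point`. -/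
theorem exists_pair {X : Set ℂ} (hX : IsCompact X) (m : Measure ℂ) [IsFiniteMeasure m]
    (g : ℂ → ℂ) (hgm : Measurable g) (hg : Integrable g m)
    (h0 : ∀ z, z ∉ X → ∫ w, g w / (w - z) ∂m = 0) (hne : ¬ g =ᵐ[m] 0) :
    ∃ (F : ℂ → ℂ) (m1 : Measure ℂ), Pair F m1 ∧
      (∀ x, Tendsto (fun ρ : ℝ => ρ⁻¹ * ∫ z in ball x ρ, ‖F z‖) (𝓝[>] 0) (𝓝 0)) ∧
      (∀ z, z ∉ X → F z = 0) ∧ ¬ F =ᵐ[volume] 0 := by
  obtain ⟨hP, hz, hn⟩ := cau_pair hX m g hgm hg h0 hne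
  have hfin := hP.fin
  obtain ⟨a, hainj, ha⟩ := exists_atoms (m.withDensity (fun w => ‖g w‖ₑ))
  obtain ⟨C, hC, hb⟩ := exists_bump
  have hI : 0 < ∫ z, ‖cau m g z‖ := by
    rcases (integral_nonneg (fun z => norm_nonneg (cau m g z)) :
      0 ≤ ∫ z, ‖cau m g z‖).lt_or_eq with h | h
    · exact h
    · exfalso
      apply hn
      have h1 := (integral_eq_zero_iff_of_nonneg (μ := (volume : Measure ℂ))
        (f := fun z => ‖cau m g z‖) (fun z => norm_nonneg _) hP.int.norm).1 h.symm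
      filter_upwards [h1] with z hz'
      exact norm_eq_zero.1 hz'
  set I : ℝ := ∫ z, ‖cau m g z‖ with hIdef
  have hM : ∀ i, 0 ≤ 20 * ∫ w in {a i}, ‖g w‖ ∂m := fun i =>
    mul_nonneg (by norm_num) (integral_nonneg fun _ => norm_nonneg _)
  have hch : ∀ i : ℕ, ∃ ρ : ℝ, 0 < ρ ∧
      (ρ⁻¹ * ∫ z in ball (a i) ρ, ‖cau m g z‖ ≤ 20 * (∫ w in {a i}, ‖g w‖ ∂m) + (1 / 2) ^ i) ∧
      ∫ z in ball (a i) ρ, ‖cau m g z‖ ≤ I / 4 * (1 / 2) ^ i := fun i =>
    pe_choose (hM i) (by positivity) (by positivity) (cau_point hgm hg (a i) (by positivity))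
  choose ρ hρ hρ1 hρ2 using hch
  have hΦ := fun i => hb (a i) (ρ i) (hρ i)
  choose Φ hd h01 hone hout hgr using hΦ
  have hgrad := fun i => pe_grad hP.meas hP.int (hρ i) hC (hd i) (h01 i) (hout i) (hgr i) (hρ1 i)
  have hmass := fun i => pe_mass hP.int (hd i) (h01 i) (hout i) (hρ2 i)
  have hgeo : Summable (fun i : ℕ => ((1 : ℝ) / 2) ^ i) := summable_geometric_two
  have hs : Summable (fun i => ∫ z, ‖cau m g z‖ * ‖fderiv ℝ (Φ i) z‖) := by
    refine Summable.of_nonneg_of_le (fun i => integral_nonneg fun z => by positivity)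
      (fun i => (hgrad i).2) ?_
    exact (((pe_atoms_summable hg hainj).mul_left 20).add hgeo).mul_left C
  have hgeo2 : Summable (fun i : ℕ => I / 4 * ((1 : ℝ) / 2) ^ i) := hgeo.mul_left _
  have ht : Summable (fun i => ∫ z, ‖cau m g z‖ * Φ i z) :=
    Summable.of_nonneg_of_le (fun i => (hmass i).1) (fun i => (hmass i).2) hgeo2
  have hlt : ∑' i, ∫ z, ‖cau m g z‖ * Φ i z < ∫ z, ‖cau m g z‖ := by
    have h1 : ∑' i, ∫ z, ‖cau m g z‖ * Φ i z ≤ ∑' i : ℕ, I / 4 * ((1 : ℝ) / 2) ^ i :=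
      ht.tsum_le_tsum (fun i => (hmass i).2) hgeo2
    have h2 : ∑' i : ℕ, I / 4 * ((1 : ℝ) / 2) ^ i = I / 4 * 2 := by
      rw [tsum_mul_left, tsum_geometric_two]
    rw [h2] at h1
    linarith
  obtain ⟨F', m', hP', hle, hzero, hn'⟩ := pair_prod hP Φ hd h01 (fun i => (hgrad i).1) hs ht hlt
  refine ⟨F', m', hP', ?_, ?_, hn'⟩
  · intro x
    by_cases hx : ∃ i, a i = x
    · obtain ⟨i, rfl⟩ := hx
      apply tendsto_const_nhds.congr'
      have hlt4 : ∀ᶠ r : ℝ in 𝓝[>] 0, r < ρ i / 4 :=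
        mem_nhdsWithin_of_mem_nhds (Iio_mem_nhds (by have := hρ i; positivity))
      filter_upwards [hlt4] with r hr
      have : ∫ z in ball (a i) r, ‖F' z‖ = 0 := by
        apply setIntegral_eq_zero_of_forall_eq_zero
        intro z hz'
        rw [hzero i z (hone i z (ball_subset_ball hr.le hz')), norm_zero]
      rw [this, mul_zero]
    · have hmu : m.withDensity (fun w => ‖g w‖ₑ) {x} = 0 := by
        by_contra hcon
        exact hx (ha x hcon)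
      have hg0 := pe_mu_zero hmu
      rw [Metric.tendsto_nhds]
      intro ε hε
      have h1 := cau_point (m := m) hgm hg x (half_pos hε)
      rw [hg0, mul_zero, zero_add] at h1
      have h3 : ∀ᶠ ρ : ℝ in 𝓝[>] 0, 0 < ρ := self_mem_nhdsWithin
      filter_upwards [h1, h3] with r hr hr0
      have h4 : ∫ z in ball x r, ‖F' z‖ ≤ ∫ z in ball x r, ‖cau m g z‖ :=
        setIntegral_mono hP'.int.norm.integrableOn hP.int.norm.integrableOn hle
      have h5 : 0 ≤ ∫ z in ball x r, ‖F' z‖ := integral_nonneg fun _ => norm_nonneg _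
      rw [Real.dist_eq, sub_zero, abs_of_nonneg (by positivity)]
      calc r⁻¹ * ∫ z in ball x r, ‖F' z‖ ≤ r⁻¹ * ∫ z in ball x r, ‖cau m g z‖ :=
            mul_le_mul_of_nonneg_left h4 (by positivity)
        _ ≤ ε / 2 := hr
        _ < ε := by linarith
  · intro z hz'
    have := hle z
    rw [hz z hz', norm_zero] at this
    exact norm_le_zero_iff.1 this

end Pool.Agent.Carp
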