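import Mathlib
import Pool.Agent.Carp.PE
import Pool.Agent.CarA.Defs

/-!
# From an annihilating measure to the data of the analysis part
-/

namespace Pool.Agent.Carp

open Set Metric Topology MeasureTheory Filter

theorem exists_dat {X : Set ℂ} (hX : IsCompact X) (m : Measure ℂ) [IsFiniteMeasure m]
    (g : ℂ → ℂ) (hgm : Measurable g) (hg : Integrable g m)
    (h0 : ∀ z, z ∉ X → ∫ w, g w / (w - z) ∂m = 0) (hne : ¬ g =ᵐ[m] 0) :
    ∃ (F : ℂ → ℂ) (m1 : Measure ℂ), CarA.Dat X F m1 := by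
  obtain ⟨F, m1, hP, hsm, hoff, hn⟩ := exists_pair hX m g hgm hg h0 hne
  have hfin := hP.fin
  have hpi : (ENNReal.ofReal Real.pi) ≠ ⊤ := ENNReal.ofReal_ne_top
  refine ⟨F, ENNReal.ofReal Real.pi • m1, hX, ?_, hP.meas, hP.int, hoff, ?_, ?_, hn⟩
  · exact Measure.smul_finite m1 hpi
  · intro φ hφ hc
    rw [integral_smul_measure, ENNReal.toReal_ofReal Real.pi_pos.le, smul_eq_mul]
    exact hP.wi φ hφ hc
  · intro x
    have h := hsm x
    have h2 : Tendsto (fun ρ : ℝ => 2 * ρ) (𝓝[>] 0) (𝓝[>] 0) := by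
      rw [tendsto_nhdsWithin_iff]
      constructor
      · have : Tendsto (fun ρ : ℝ => 2 * ρ) (𝓝 0) (𝓝 (2 * 0)) := by
          exact (continuous_const.mul continuous_id).tendsto 0
        rw [mul_zero] at this
        exact this.mono_left nhdsWithin_le_nhds
      · filter_upwards [self_mem_nhdsWithin] with ρ hρ
        have : (0 : ℝ) < ρ := hρ
        show (0 : ℝ) < 2 * ρ
        linarith
    have h3 := (h.comp h2).const_mul 2
    rw [mul_zero] at h3
    refine squeeze_zero' ?_ ?_ h3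
    · filter_upwards [self_mem_nhdsWithin] with ρ hρ
      have hρ' : (0 : ℝ) < ρ := hρ
      exact div_nonneg (integral_nonneg fun _ => norm_nonneg _) hρ'.le
    · filter_upwards [self_mem_nhdsWithin] with ρ hρ
      have hρ' : (0 : ℝ) < ρ := hρ
      have h4 : ∫ z in closedBall x ρ, ‖F z‖ ≤ ∫ z in ball x (2 * ρ), ‖F z‖ := by
        apply setIntegral_mono_set hP.int.norm.integrableOn
        · exact Filter.Eventually.of_forall fun _ => norm_nonneg _
        · exact (closedBall_subset_ball (by linarith)).eventuallyLE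
      show (∫ z in closedBall x ρ, ‖F z‖) / ρ ≤ 2 * ((2 * ρ)⁻¹ * ∫ z in ball x (2 * ρ), ‖F z‖)
      have h5 : 2 * ((2 * ρ)⁻¹ * ∫ z in ball x (2 * ρ), ‖F z‖) =
          (∫ z in ball x (2 * ρ), ‖F z‖) / ρ := by
        field_simp
      rw [h5]
      gcongr

end Pool.Agent.Carp
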