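import Mathlib

/-!
# A positive functional dominating a complex functional

`L : C(K, ℂ) →L[ℂ] ℂ`, `K` compact Hausdorff. For `f : C(K, ℝ≥0)` let
`Λ f = sup {‖L h‖ | h : C(K, ℂ), ∀ x, ‖h x‖ ≤ f x}` (bounded by `‖L‖ * ‖f‖`).
* `Λ (c f) = c Λ f` for `c : ℝ≥0` (scaling by `c > 0` is a bijection of the admissible `h`; `c = 0`:
  only `h = 0`).
* `Λ f₁ + Λ f₂ ≤ Λ (f₁ + f₂)`: for admissible `h₁, h₂` choose unimodular constants `c₁, c₂` with
  `L (c_i h_i) = ‖L h_i‖`; then `c₁ h₁ + c₂ h₂` is admissible for `f₁ + f₂`.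
* `Λ (f₁ + f₂) ≤ Λ f₁ + Λ f₂`: for `h` admissible for `f₁ + f₂` put
  `h_i = h f_i / (f₁ + f₂)` where `f₁ + f₂ ≠ 0` and `h_i = 0` elsewhere. It is continuous
  (at a point where `f₁ + f₂ = 0` because `‖h_i‖ ≤ ‖h‖ ≤ f₁ + f₂ → 0`), `‖h_i‖ ≤ f_i` and `h = h₁ + h₂`.
Define the linear map on `C_c(K, ℝ≥0)` through the underlying continuous functions.
-/

namespace Pool.Agent.Carp

open scoped NNReal
open CompactlySupported CompactlySupportedContinuousMap

section dom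

variable {K : Type*} [TopologicalSpace K] [CompactSpace K] [T2Space K]

private def Adm (f : K → ℝ≥0) : Set C(K, ℂ) := {h | ∀ x, ‖h x‖ ≤ (f x : ℝ)}

private noncomputable def Sp (L : C(K, ℂ) →L[ℂ] ℂ) (f : K → ℝ≥0) : ℝ≥0 :=
  ⨆ h : Adm f, ‖L h.1‖₊

private theorem sp_bdd (L : C(K, ℂ) →L[ℂ] ℂ) {f : K → ℝ≥0} (hf : Continuous f) :
    BddAbove (Set.range fun h : Adm f => ‖L h.1‖₊) := by
  obtain ⟨C, hC⟩ := (isCompact_range hf).bddAbove
  refine ⟨‖L‖₊ * C, ?_⟩
  rintro _ ⟨⟨h, hh⟩, rfl⟩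
  have h1 : ‖h‖ ≤ (C : ℝ) := by
    refine (ContinuousMap.norm_le _ (NNReal.coe_nonneg C)).2 fun x => ?_
    refine (hh x).trans ?_
    exact_mod_cast hC ⟨x, rfl⟩
  have h2 : ‖L h‖ ≤ ‖L‖ * C := (L.le_opNorm h).trans (mul_le_mul_of_nonneg_left h1 (norm_nonneg _))
  exact_mod_cast h2

private theorem le_sp (L : C(K, ℂ) →L[ℂ] ℂ) {f : K → ℝ≥0} (hf : Continuous f) {h : C(K, ℂ)}
    (hh : h ∈ Adm f) : ‖L h‖₊ ≤ Sp L f :=
  le_ciSup (sp_bdd L hf) (⟨h, hh⟩ : Adm f)

private theorem sp_le (L : C(K, ℂ) →L[ℂ] ℂ) {f : K → ℝ≥0} {c : ℝ≥0}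
    (hc : ∀ h ∈ Adm f, ‖L h‖₊ ≤ c) : Sp L f ≤ c :=
  ciSup_le' fun h => hc h.1 h.2

private theorem sp_add_le (L : C(K, ℂ) →L[ℂ] ℂ) {f g : K → ℝ≥0} (hf : Continuous f)
    (hg : Continuous g) : Sp L (fun x => f x + g x) ≤ Sp L f + Sp L g := by
  refine sp_le L fun h hh => ?_
  have hcont : Continuous fun x => h x * (((f x : ℝ) / ((f x : ℝ) + (g x : ℝ)) : ℝ) : ℂ) := by
    rw [continuous_iff_continuousAt]
    intro x
    have cf : Continuous fun x => (f x : ℝ) := NNReal.continuous_coe.comp hf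
    have cg : Continuous fun x => (g x : ℝ) := NNReal.continuous_coe.comp hg
    by_cases hs : (f x : ℝ) + (g x : ℝ) = 0
    · have h0 : h x = 0 := by
        have h1 := hh x
        have h2 : ((f x + g x : ℝ≥0) : ℝ) = 0 := by rw [NNReal.coe_add]; exact hs
        rw [h2] at h1
        exact norm_le_zero_iff.1 h1
      have hlim : Filter.Tendsto (fun y => ‖h y‖) (nhds x) (nhds 0) := by
        have := (h.continuous.norm).continuousAt (x := x)
        rw [ContinuousAt, h0, norm_zero] at this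
        exact this
      rw [ContinuousAt, h0, zero_mul]
      refine squeeze_zero_norm (fun y => ?_) hlim
      rw [norm_mul, Complex.norm_real, Real.norm_of_nonneg (by positivity)]
      refine mul_le_of_le_one_right (norm_nonneg _) ?_
      exact div_le_one_of_le₀ (le_add_of_nonneg_right (g y).2) (by positivity)
    · exact h.continuous.continuousAt.mul
        (Complex.continuous_ofReal.continuousAt.comp
          (cf.continuousAt.div (cf.continuousAt.add cg.continuousAt) hs))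
  set h1 : C(K, ℂ) := ⟨_, hcont⟩ with hh1
  have e : h = h1 + (h - h1) := by abel
  have m1 : h1 ∈ Adm f := by
    intro x
    show ‖h x * (((f x : ℝ) / ((f x : ℝ) + (g x : ℝ)) : ℝ) : ℂ)‖ ≤ (f x : ℝ)
    rw [norm_mul, Complex.norm_real, Real.norm_of_nonneg (by positivity)]
    have h2 : ‖h x‖ ≤ (f x : ℝ) + (g x : ℝ) := by
      have := hh x
      rwa [NNReal.coe_add] at this
    by_cases hs : (f x : ℝ) + (g x : ℝ) = 0
    · rw [hs, div_zero, mul_zero]
      exact (f x).2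
    · have hpos : 0 < (f x : ℝ) + (g x : ℝ) := lt_of_le_of_ne (by positivity) (Ne.symm hs)
      rw [← mul_div_assoc, div_le_iff₀ hpos, mul_comm]
      exact mul_le_mul_of_nonneg_left h2 (f x).2
  have m2 : h - h1 ∈ Adm g := by
    intro x
    show ‖h x - h x * (((f x : ℝ) / ((f x : ℝ) + (g x : ℝ)) : ℝ) : ℂ)‖ ≤ (g x : ℝ)
    have h2 : ‖h x‖ ≤ (f x : ℝ) + (g x : ℝ) := by
      have := hh x
      rwa [NNReal.coe_add] at this
    by_cases hs : (f x : ℝ) + (g x : ℝ) = 0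
    · have h0 : h x = 0 := by
        rw [hs] at h2
        exact norm_le_zero_iff.1 h2
      rw [h0, zero_mul, sub_zero, norm_zero]
      exact (g x).2
    · have hpos : 0 < (f x : ℝ) + (g x : ℝ) := lt_of_le_of_ne (by positivity) (Ne.symm hs)
      have e2 : h x - h x * (((f x : ℝ) / ((f x : ℝ) + (g x : ℝ)) : ℝ) : ℂ) =
          h x * (((g x : ℝ) / ((f x : ℝ) + (g x : ℝ)) : ℝ) : ℂ) := by
        have e3 : ((g x : ℝ) / ((f x : ℝ) + (g x : ℝ)) : ℝ) =
            1 - ((f x : ℝ) / ((f x : ℝ) + (g x : ℝ)) : ℝ) := by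
          field_simp
          ring
        rw [e3, Complex.ofReal_sub, Complex.ofReal_one, mul_sub, mul_one]
      rw [e2, norm_mul, Complex.norm_real, Real.norm_of_nonneg (by positivity), ← mul_div_assoc,
        div_le_iff₀ hpos, mul_comm]
      exact mul_le_mul_of_nonneg_left h2 (g x).2
  calc ‖L h‖₊ = ‖L h1 + L (h - h1)‖₊ := by rw [← map_add, ← e]
    _ ≤ ‖L h1‖₊ + ‖L (h - h1)‖₊ := nnnorm_add_le _ _
    _ ≤ Sp L f + Sp L g := add_le_add (le_sp L hf m1) (le_sp L hg m2)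

private theorem exists_phase (z : ℂ) : ∃ c : ℂ, ‖c‖ ≤ 1 ∧ c * z = (‖z‖ : ℂ) := by
  by_cases hz : z = 0
  · exact ⟨1, by simp, by simp [hz]⟩
  · have hn : (‖z‖ : ℂ) ≠ 0 := by
      rw [Complex.ofReal_ne_zero]
      exact norm_ne_zero_iff.2 hz
    refine ⟨(‖z‖ : ℂ) / z, ?_, div_mul_cancel₀ _ hz⟩
    rw [norm_div, Complex.norm_real, norm_norm, div_self (norm_ne_zero_iff.2 hz)]

private theorem iSup_add_le' {ι κ : Type*} {a : ι → ℝ≥0} {b : κ → ℝ≥0} {S : ℝ≥0} (i₀ : ι)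
    (k₀ : κ) (H : ∀ i k, a i + b k ≤ S) : (⨆ i, a i) + (⨆ k, b k) ≤ S := by
  have h1 : ∀ k, (⨆ i, a i) + b k ≤ S := fun k =>
    (le_tsub_iff_right (le_add_self.trans (H i₀ k))).1
      (ciSup_le' fun i => le_tsub_of_add_le_right (H i k))
  exact (le_tsub_iff_left (le_self_add.trans (h1 k₀))).1
    (ciSup_le' fun k => le_tsub_of_add_le_left (h1 k))

private theorem le_sp_add (L : C(K, ℂ) →L[ℂ] ℂ) {f g : K → ℝ≥0} (hf : Continuous f)
    (hg : Continuous g) : Sp L f + Sp L g ≤ Sp L (fun x => f x + g x) := by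
  refine iSup_add_le' ⟨0, fun x => by simp⟩ ⟨0, fun x => by simp⟩ fun h k => ?_
  obtain ⟨a, ha, ha'⟩ := exists_phase (L h.1)
  obtain ⟨b, hb, hb'⟩ := exists_phase (L k.1)
  have hm : a • h.1 + b • k.1 ∈ Adm (fun x => f x + g x) := by
    intro x
    show ‖a * h.1 x + b * k.1 x‖ ≤ ((f x + g x : ℝ≥0) : ℝ)
    rw [NNReal.coe_add]
    refine (norm_add_le _ _).trans (add_le_add ?_ ?_)
    · rw [norm_mul]
      exact (mul_le_of_le_one_left (norm_nonneg _) ha).trans (h.2 x)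
    · rw [norm_mul]
      exact (mul_le_of_le_one_left (norm_nonneg _) hb).trans (k.2 x)
  have h1 := le_sp L (hf.add hg) hm
  have h2 : L (a • h.1 + b • k.1) = ((‖L h.1‖ + ‖L k.1‖ : ℝ) : ℂ) := by
    rw [map_add, map_smul, map_smul, smul_eq_mul, smul_eq_mul, ha', hb', Complex.ofReal_add]
  have h3 : ‖L (a • h.1 + b • k.1)‖₊ = ‖L h.1‖₊ + ‖L k.1‖₊ := by
    apply NNReal.coe_injective
    rw [coe_nnnorm, h2, Complex.norm_real, Real.norm_of_nonneg (by positivity), NNReal.coe_add,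
      coe_nnnorm, coe_nnnorm]
  rw [← h3]
  exact h1

private theorem sp_smul_le (L : C(K, ℂ) →L[ℂ] ℂ) {f : K → ℝ≥0} (hf : Continuous f) {c : ℝ≥0}
    (hc : c ≠ 0) : Sp L (fun x => c * f x) ≤ c * Sp L f := by
  refine sp_le L fun h hh => ?_
  have hc' : ((c : ℝ) : ℂ) ≠ 0 := by
    rw [Complex.ofReal_ne_zero]
    exact_mod_cast hc
  have hcpos : (0 : ℝ) < c := by
    have := pos_iff_ne_zero.2 hc
    exact_mod_cast this
  have hm : (((c : ℝ) : ℂ)⁻¹) • h ∈ Adm f := by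
    intro x
    show ‖((c : ℝ) : ℂ)⁻¹ * h x‖ ≤ (f x : ℝ)
    have h1 := hh x
    rw [NNReal.coe_mul] at h1
    rw [norm_mul, norm_inv, Complex.norm_real, Real.norm_of_nonneg hcpos.le, inv_mul_le_iff₀ hcpos]
    exact h1
  have h1 := le_sp L hf hm
  have h2 : L h = ((c : ℝ) : ℂ) * L ((((c : ℝ) : ℂ)⁻¹) • h) := by
    rw [map_smul, smul_eq_mul, mul_inv_cancel_left₀ hc']
  rw [h2, nnnorm_mul]
  have h3 : ‖((c : ℝ) : ℂ)‖₊ = c := by
    apply NNReal.coe_injective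
    rw [coe_nnnorm, Complex.norm_real, Real.norm_of_nonneg hcpos.le]
  rw [h3]
  exact mul_le_mul_of_nonneg_left h1 zero_le

private theorem sp_smul (L : C(K, ℂ) →L[ℂ] ℂ) {f : K → ℝ≥0} (hf : Continuous f) (c : ℝ≥0) :
    Sp L (fun x => c * f x) = c * Sp L f := by
  by_cases hc : c = 0
  · subst hc
    rw [zero_mul]
    apply le_antisymm _ zero_le
    refine sp_le L fun h hh => ?_
    have : h = 0 := by
      ext x
      have h1 : ‖h x‖ ≤ ((0 * f x : ℝ≥0) : ℝ) := hh x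
      rw [zero_mul, NNReal.coe_zero] at h1
      exact norm_le_zero_iff.1 h1
    rw [this, map_zero, nnnorm_zero]
  · apply le_antisymm (sp_smul_le L hf hc)
    have h1 := sp_smul_le L (f := fun x => c * f x) (continuous_const.mul hf) (inv_ne_zero hc)
    have e : (fun x => c⁻¹ * (c * f x)) = f := by
      funext x
      rw [inv_mul_cancel_left₀ hc]
    rw [e] at h1
    calc c * Sp L f ≤ c * (c⁻¹ * Sp L (fun x => c * f x)) := mul_le_mul_of_nonneg_left h1 zero_le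
      _ = Sp L (fun x => c * f x) := mul_inv_cancel_left₀ hc _

end dom

theorem exists_dominating {K : Type*} [TopologicalSpace K] [CompactSpace K] [T2Space K]
    (L : C(K, ℂ) →L[ℂ] ℂ) :
    ∃ Λ : C_c(K, ℝ≥0) →ₗ[ℝ≥0] ℝ≥0, ∀ (h : C(K, ℂ)) (f : C_c(K, ℝ≥0)),
      (∀ x, ‖h x‖ ≤ (f x : ℝ)) → ‖L h‖ ≤ (Λ f : ℝ) := by
  refine ⟨{ toFun := fun f => Sp L f
            map_add' := ?_
            map_smul' := ?_ }, ?_⟩
  · intro f g
    exact le_antisymm (sp_add_le L f.continuous g.continuous)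
      (le_sp_add L f.continuous g.continuous)
  · intro c f
    exact sp_smul L f.continuous c
  · intro h f hh
    have := le_sp L f.continuous (h := h) hh
    exact_mod_cast this

end Pool.Agent.Carp
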