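import Mathlib
import Pool.Agent.Carp.MA

/-!
# The dominating measure

`ν = NNRealRMK.rieszMeasure Λ` for the `Λ` of `exists_dominating`. For `h : C(K, ℂ)` apply it with
`f = ‖h‖₊` (compactly supported because `K` is compact) and `NNRealRMK.integral_rieszMeasure`.
Finite: `ν` is finite on compact sets (regular).
-/

namespace Pool.Agent.Carp

open MeasureTheory
open scoped NNReal
open CompactlySupported CompactlySupportedContinuousMap

theorem exists_measure_bound {K : Type*} [TopologicalSpace K] [CompactSpace K] [T2Space K]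
    [MeasurableSpace K] [BorelSpace K] (L : C(K, ℂ) →L[ℂ] ℂ) :
    ∃ ν : Measure K, IsFiniteMeasure ν ∧ ν.Regular ∧
      ∀ h : C(K, ℂ), ‖L h‖ ≤ ∫ x, ‖h x‖ ∂ν := by
  obtain ⟨Λ, hΛ⟩ := exists_dominating L
  refine ⟨NNRealRMK.rieszMeasure Λ, ?_, NNRealRMK.rieszMeasure_regular Λ, ?_⟩
  · exact ⟨isCompact_univ.measure_lt_top⟩
  · intro h
    let f : C_c(K, ℝ≥0) := ⟨⟨fun x => ‖h x‖₊, h.continuous.nnnorm⟩,
      HasCompactSupport.of_compactSpace _⟩
    have h1 := hΛ h f (fun x => le_of_eq rfl)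
    rw [← NNRealRMK.integral_rieszMeasure Λ f] at h1
    exact h1

end Pool.Agent.Carp
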