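import Mathlib
import Pool.Agent.Carp.MB

/-!
# The density

`|L h| ≤ ∫ ‖h‖ dν ≤ ν(K)^(1/2) ‖h‖_2`. So `L` factors through `ContinuousMap.toLp` (`p = 2`), whose range
is dense (`ContinuousMap.toLp_denseRange`), and extends to a bounded linear functional on
`Lp ℂ 2 ν` (well defined on the range: if `h = h'` almost everywhere then `‖L h - L h'‖ ≤
∫ ‖h - h'‖ dν = 0`; `LinearMap.mkContinuous`, `ContinuousLinearMap.extend` along
`DenseRange`, or `IsDenseInducing`-type extension; or use `LinearMap.extend…`). By the Fréchet-Riesz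
theorem (`InnerProductSpace.toDual`) there is `u ∈ Lp ℂ 2 ν` with `L h = ⟪u, h⟫ = ∫ conj (u x) * h x dν`.
Take `g x = conj (u x)`, integrable since `L² ⊆ L¹` for a finite measure.
-/

namespace Pool.Agent.Carp

open MeasureTheory

/-- the `L¹` norm is at most a constant times the `L²` norm -/
private theorem integral_norm_le_toLp {K : Type*} [TopologicalSpace K] [CompactSpace K] [T2Space K]
    [MeasurableSpace K] [BorelSpace K] (ν : Measure K) [IsFiniteMeasure ν] [ν.Regular]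
    (h : C(K, ℂ)) : ∫ x, ‖h x‖ ∂ν ≤ (ν Set.univ).toReal ^ ((1 : ℝ) / 2) *
      ‖ContinuousMap.toLp (E := ℂ) 2 ν ℂ h‖ := by
  have hae : AEStronglyMeasurable (fun x => h x) ν := h.continuous.aestronglyMeasurable
  have h1 : ∫ x, ‖h x‖ ∂ν = (eLpNorm (fun x => h x) 1 ν).toReal := by
    rw [eLpNorm_one_eq_lintegral_enorm, integral_norm_eq_lintegral_enorm hae]
  have h2 : ‖ContinuousMap.toLp (E := ℂ) 2 ν ℂ h‖ = (eLpNorm (fun x => h x) 2 ν).toReal := by
    rw [Lp.norm_def]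
    congr 1
    exact eLpNorm_congr_ae (ContinuousMap.coeFn_toLp ν h)
  have h3 : eLpNorm (fun x => h x) 2 ν ≠ ⊤ := by
    have e : eLpNorm (fun x => h x) 2 ν =
        eLpNorm (ContinuousMap.toLp (E := ℂ) 2 ν ℂ h : K → ℂ) 2 ν :=
      (eLpNorm_congr_ae (ContinuousMap.coeFn_toLp ν h)).symm
    rw [e]
    exact Lp.eLpNorm_ne_top _
  have h4 := eLpNorm_le_eLpNorm_mul_rpow_measure_univ (p := 1) (q := 2) (μ := ν)
    (by norm_num) hae
  have h5 : (1 : ℝ) / (1 : ENNReal).toReal - 1 / (2 : ENNReal).toReal = 1 / 2 := by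
    norm_num
  rw [h5] at h4
  rw [h1, h2, mul_comm]
  have h6 : eLpNorm (fun x => h x) 2 ν * ν Set.univ ^ ((1 : ℝ) / 2) ≠ ⊤ :=
    ENNReal.mul_ne_top h3 (ENNReal.rpow_ne_top_of_nonneg (by norm_num) (measure_ne_top ν _))
  have h7 := ENNReal.toReal_mono h6 h4
  rwa [ENNReal.toReal_mul, ← ENNReal.toReal_rpow] at h7

theorem exists_density {K : Type*} [TopologicalSpace K] [CompactSpace K] [T2Space K]
    [MeasurableSpace K] [BorelSpace K] (L : C(K, ℂ) →L[ℂ] ℂ) (ν : Measure K)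
    [IsFiniteMeasure ν] [ν.Regular] (hν : ∀ h : C(K, ℂ), ‖L h‖ ≤ ∫ x, ‖h x‖ ∂ν) :
    ∃ g : K → ℂ, Measurable g ∧ Integrable g ν ∧ ∀ h : C(K, ℂ), L h = ∫ x, h x * g x ∂ν := by
  set e : C(K, ℂ) →L[ℂ] Lp ℂ 2 ν := ContinuousMap.toLp 2 ν ℂ with he
  have hdense : DenseRange (e : C(K, ℂ) →ₗ[ℂ] Lp ℂ 2 ν) :=
    ContinuousMap.toLp_denseRange ℂ ν ℂ (by norm_num)
  have hnorm : ∃ C : ℝ, ∀ h : C(K, ℂ), ‖(L : C(K, ℂ) →ₗ[ℂ] ℂ) h‖ ≤
      C * ‖(e : C(K, ℂ) →ₗ[ℂ] Lp ℂ 2 ν) h‖ :=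
    ⟨(ν Set.univ).toReal ^ ((1 : ℝ) / 2), fun h => (hν h).trans (integral_norm_le_toLp ν h)⟩
  set T : Lp ℂ 2 ν →L[ℂ] ℂ :=
    (L : C(K, ℂ) →ₗ[ℂ] ℂ).extendOfNorm (e : C(K, ℂ) →ₗ[ℂ] Lp ℂ 2 ν) with hT
  have hTe : ∀ h : C(K, ℂ), T (e h) = L h := fun h =>
    LinearMap.extendOfNorm_eq hdense hnorm h
  set u : Lp ℂ 2 ν := (InnerProductSpace.toDual ℂ (Lp ℂ 2 ν)).symm T with hu
  have hum : Measurable (fun x => (u : K → ℂ) x) := (Lp.stronglyMeasurable u).measurable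
  have hui : Integrable (fun x => (u : K → ℂ) x) ν := (Lp.memLp u).integrable (by norm_num)
  refine ⟨fun x => (starRingEnd ℂ) ((u : K → ℂ) x), ?_, ?_, ?_⟩
  · exact Complex.continuous_conj.measurable.comp hum
  · refine hui.mono (Complex.continuous_conj.measurable.comp hum).aestronglyMeasurable ?_
    refine Filter.Eventually.of_forall fun x => ?_
    simp
  · intro h
    rw [← hTe h]
    have h1 : T (e h) = inner ℂ u (e h) := (InnerProductSpace.toDual_symm_apply (x := e h) (y := T)).symm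
    rw [h1, L2.inner_def]
    refine integral_congr_ae ?_
    filter_upwards [ContinuousMap.coeFn_toLp (p := 2) (𝕜 := ℂ) ν h] with x hx
    rw [RCLike.inner_apply]
    have hx' : (e h : K → ℂ) x = h x := hx
    rw [hx']

end Pool.Agent.Carp
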