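import Mathlib

/-!
# Annihilating functional; inverses in a natural uniform algebra

* `exists_annihilator`: Hahn-Banach for the closed proper subspace `A` of `C(K, ℂ)`
  (e.g. the norm of the quotient, `exists_dual_vector` in `C(K, ℂ) ⧸ A`, or
  `geometric_hahn_banach_point_closed` and linearity; Mathlib may have
  `Submodule.exists_le_ker_of_notMem…`/`exists_extension_norm_eq`-type results).
* `exists_inverse`: `A` is a complete commutative normed algebra. If `f - z` were not invertible in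
  `A`, then `z` is in the spectrum of `f` in `A`, and there is a character `φ` of `A` with `φ f = z`
  (Mathlib: `WeakDual.CharacterSpace.mem_spectrum_iff_exists` or
  `WeakDual.CharacterSpace.exists_apply_eq_zero` for the non unit `f - z`; needs `CompleteSpace A`,
  from `IsClosed A`). Naturality: `φ = evaluation at x`, so `f x = z`, contradiction.
-/

namespace Pool.Agent.Carp

theorem exists_annihilator {K : Type*} [TopologicalSpace K] [CompactSpace K]
    (A : Subalgebra ℂ C(K, ℂ)) (hA : IsClosed (A : Set C(K, ℂ))) (hne : A ≠ ⊤) :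
    ∃ L : C(K, ℂ) →L[ℂ] ℂ, L ≠ 0 ∧ ∀ f ∈ A, L f = 0 := by
  obtain ⟨g, hg⟩ : ∃ g, g ∉ A := by
    by_contra hcon
    push Not at hcon
    exact hne (eq_top_iff.mpr fun x _ => hcon x)
  set S : Submodule ℂ C(K, ℂ) := Subalgebra.toSubmodule A with hS
  have hcl : IsClosed (S : Set C(K, ℂ)) := hA
  have hx : S.mkQ g ≠ 0 := by
    intro h0
    rw [Submodule.mkQ_apply, Submodule.Quotient.mk_eq_zero] at h0
    exact hg h0
  have hx' : ‖S.mkQ g‖ ≠ 0 := fun h0 => hx (norm_eq_zero.mp h0)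
  obtain ⟨φ, hφ1, hφ2⟩ := exists_dual_vector ℂ (S.mkQ g) hx'
  refine ⟨φ.comp S.mkQL, ?_, ?_⟩
  · intro h0
    have h1 : φ (S.mkQ g) = 0 := by
      have := congrArg (fun T : C(K, ℂ) →L[ℂ] ℂ => T g) h0
      simpa using this
    rw [h1] at hφ2
    exact hx' (by
      have h2 : ((‖S.mkQ g‖ : ℝ) : ℂ) = 0 := hφ2.symm
      exact Complex.ofReal_eq_zero.mp h2)
  · intro f hf
    have : S.mkQ f = 0 := by
      rw [Submodule.mkQ_apply, Submodule.Quotient.mk_eq_zero]
      exact hf
    rw [ContinuousLinearMap.comp_apply, Submodule.mkQL_apply, this, map_zero]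

theorem exists_inverse {K : Type*} [TopologicalSpace K] [CompactSpace K]
    (A : Subalgebra ℂ C(K, ℂ)) (hA : IsClosed (A : Set C(K, ℂ)))
    (hnat : ∀ φ : A →ₐ[ℂ] ℂ, ∃ x : K, ∀ f : A, φ f = (f : C(K, ℂ)) x)
    (f : C(K, ℂ)) (hf : f ∈ A) (z : ℂ) (hz : ∀ x, f x ≠ z) :
    ∃ h ∈ A, ∀ x, h x * (f x - z) = 1 := by
  have : CompleteSpace A := hA.completeSpace_coe
  have hmem : f - algebraMap ℂ C(K, ℂ) z ∈ A := A.sub_mem hf (A.algebraMap_mem z)
  set u : A := ⟨f - algebraMap ℂ C(K, ℂ) z, hmem⟩ with hu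
  have hunit : IsUnit u := by
    by_contra hcon
    obtain ⟨φ, hφ⟩ := WeakDual.CharacterSpace.exists_apply_eq_zero hcon
    obtain ⟨x, hx⟩ := hnat (WeakDual.CharacterSpace.toAlgHom φ)
    have h1 := hx u
    have h2 : WeakDual.CharacterSpace.toAlgHom φ u = 0 := hφ
    rw [h2] at h1
    have h3 : (u : C(K, ℂ)) x = f x - z := rfl
    rw [h3] at h1
    exact hz x (sub_eq_zero.mp h1.symm)
  obtain ⟨v, hv⟩ := hunit.exists_left_inv
  refine ⟨v, v.2, fun x => ?_⟩
  have h1 := congrArg (fun w : A => (w : C(K, ℂ)) x) hv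
  exact h1

end Pool.Agent.Carp
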