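import Mathlib
import Pool.Agent.Carp.MB
import Pool.Agent.Carp.MC
import Pool.Agent.Carp.UA
import Pool.Agent.Carp.Dat

/-!
# Proper closed algebras on a plane set which contain the functions `1/(w - z)`

`L` from `exists_annihilator`, `ν` from `exists_measure_bound`, `g₀` from `exists_density` (on the compact
space `Y`), `m = Measure.map (↑) ν`, `g = Function.extend (↑) g₀ 0`, then `exists_dat`. The proof of
`exists_plane_measure` (file UB) is the model: there the inverses come from `exists_inverse`, here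
they are a hypothesis.
-/

namespace Pool.Agent.Carp

open MeasureTheory Set

theorem exists_dat_of_inv {Y : Set ℂ} (hY : IsCompact Y) [CompactSpace Y]
    (B : Subalgebra ℂ C(Y, ℂ)) (hB : IsClosed (B : Set C(Y, ℂ))) (hne : B ≠ ⊤)
    (hinv : ∀ z, z ∉ Y → ∃ h ∈ B, ∀ y : Y, h y * ((y : ℂ) - z) = 1) :
    ∃ (F : ℂ → ℂ) (m : Measure ℂ), CarA.Dat Y F m := by
  obtain ⟨L, hL0, hLA⟩ := exists_annihilator B hB hne
  obtain ⟨ν, hfin, hreg, hbd⟩ := exists_measure_bound L
  obtain ⟨g₀, hg₀m, hg₀i, hg₀⟩ := exists_density L ν hbd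
  have hme : MeasurableEmbedding (fun y : Y => (y : ℂ)) :=
    MeasurableEmbedding.subtype_coe hY.measurableSet
  have hinj : Function.Injective (fun y : Y => (y : ℂ)) := Subtype.val_injective
  have hgf : ∀ x : Y, Function.extend (fun y : Y => (y : ℂ)) g₀ 0 (x : ℂ) = g₀ x := fun x =>
    hinj.extend_apply g₀ 0 x
  have hfm : IsFiniteMeasure (Measure.map (fun y : Y => (y : ℂ)) ν) :=
    Measure.isFiniteMeasure_map ν _
  refine exists_dat hY (Measure.map (fun y : Y => (y : ℂ)) ν)
    (Function.extend (fun y : Y => (y : ℂ)) g₀ 0) ?_ ?_ ?_ ?_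
  · exact hme.measurable_extend hg₀m measurable_zero
  · rw [hme.integrable_map_iff]
    have : Function.extend (fun y : Y => (y : ℂ)) g₀ 0 ∘ (fun y : Y => (y : ℂ)) = g₀ :=
      funext hgf
    rw [this]
    exact hg₀i
  · intro z hz
    rw [hme.integral_map]
    obtain ⟨h, hhA, hh⟩ := hinv z hz
    have : ∀ x : Y, Function.extend (fun y : Y => (y : ℂ)) g₀ 0 (x : ℂ) / ((x : ℂ) - z) =
        h x * g₀ x := by
      intro x
      have hne : (x : ℂ) - z ≠ 0 := by
        intro h0
        have h1 : (x : ℂ) = z := sub_eq_zero.mp h0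
        exact hz (h1 ▸ x.2)
      rw [hgf, div_eq_iff hne]
      have := hh x
      calc g₀ x = (h x * ((x : ℂ) - z)) * g₀ x := by rw [this, one_mul]
        _ = h x * g₀ x * ((x : ℂ) - z) := by ring
    rw [integral_congr_ae (Filter.Eventually.of_forall this), ← hg₀ h, hLA h hhA]
  · intro h0
    apply hL0
    have h1 : g₀ =ᵐ[ν] 0 := by
      have h2 := (hme.ae_map_iff).mp h0
      filter_upwards [h2] with x hx
      rw [← hgf x]
      exact hx
    ext h
    rw [hg₀ h]
    have h3 : (fun x => h x * g₀ x) =ᵐ[ν] fun _ => (0 : ℂ) := by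
      filter_upwards [h1] with x hx
      rw [hx]
      simp
    rw [integral_congr_ae h3]
    simp

end Pool.Agent.Carp
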