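import Mathlib
import Pool.Agent.Carp.Rel
import Pool.Agent.Carp.Dat
import Pool.Agent.CarA.Comp

/-!
# The analysis half: from an annihilating measure to a closed equivalence relation on a disc
-/

namespace Pool.Agent.Carp

open Set Metric Topology MeasureTheory

theorem preRel_of_dat {X : Set ℂ} {F : ℂ → ℂ} {m : Measure ℂ} (h : CarA.Dat X F m) {B : Set ℂ}
    (hB : Convex ℝ B) (hc : IsCompact B) : PreRel B (CarA.rel F B) where
  compact := hc
  refl _ hx := CarA.rel_refl h hx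
  symm _ _ hxy := CarA.rel_symm hxy
  trans _ _ _ hxy hyz := CarA.rel_trans h hxy hyz
  mem _ _ hxy := ⟨hxy.1, hxy.2.1⟩
  closed := CarA.rel_closed h hB hc
  conn _ hx := CarA.rel_conn h hB hc hx
  comp _ hε _ hA hAc _ hx _ hy := CarA.comp h hB hc hε hA hAc hx hy

theorem exists_preRel_of_dat {X : Set ℂ} {F : ℂ → ℂ} {m : Measure ℂ} (h : CarA.Dat X F m) :
    ∃ (p : ℂ) (R : ℝ) (r : ℂ → ℂ → Prop), 0 < R ∧ PreRel (closedBall p R) r ∧
      (∀ x ∈ closedBall p R, diam {y | r x y} ≤ R / 4) ∧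
      ∀ x ∈ ball p R, (∀ y, r x y → y = x) → x ∈ X := by
  obtain ⟨p, R, hR, hd⟩ := CarA.good_disc h
  have hB := convex_closedBall p R
  have hc := isCompact_closedBall p R
  refine ⟨p, R, CarA.rel F (closedBall p R), hR, preRel_of_dat h hB hc, ?_, ?_⟩
  · intro x _
    refine diam_le_of_forall_dist_le (by positivity) fun y hy z hz => ?_
    have h2 := CarA.rel_trans h (CarA.rel_symm hy) hz
    have h3 := hd y h2.1 z h2.2.1 h2.2.2
    linarith
  · intro x hx htriv
    by_contra hX'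
    have hx' : x ∈ interior (closedBall p R) := ball_subset_interior_closedBall hx
    refine CarA.rel_off h hx' hX' ?_
    ext y
    constructor
    · exact fun hy => htriv y hy
    · intro hy
      rw [mem_singleton_iff] at hy
      rw [hy]
      exact CarA.rel_refl h (ball_subset_closedBall hx)

theorem exists_preRel {X : Set ℂ} (hX : IsCompact X) (m : Measure ℂ) [IsFiniteMeasure m]
    (g : ℂ → ℂ) (hgm : Measurable g) (hg : Integrable g m) (_hmX : m Xᶜ = 0)
    (h0 : ∀ z, z ∉ X → ∫ w, g w / (w - z) ∂m = 0) (hne : ¬ g =ᵐ[m] 0) :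
    ∃ (p : ℂ) (R : ℝ) (r : ℂ → ℂ → Prop), 0 < R ∧ PreRel (closedBall p R) r ∧
      (∀ x ∈ closedBall p R, diam {y | r x y} ≤ R / 4) ∧
      ∀ x ∈ ball p R, (∀ y, r x y → y = x) → x ∈ X := by
  obtain ⟨F, m1, h⟩ := exists_dat hX m g hgm hg h0 hne
  exact exists_preRel_of_dat h

end Pool.Agent.Carp
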