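import Mathlib

/-!
# Filling a compact plane set

`ext K` = the points which can be joined to infinity in `Kᶜ`; `fill K` = complement of `ext K`.

* `ext_sub`: `ext K ⊆ Kᶜ`; `subset_fill`.
* `isOpen_ext` (`K` closed): if `x ∈ S`, `S ⊆ Kᶜ` preconnected unbounded, and `ball x ρ ⊆ Kᶜ`, then
  `S ∪ ball x ρ` is preconnected, unbounded, contained in `Kᶜ`.
* `mem_ext_of_norm`: if `K ⊆ closedBall 0 R` then every `x` with `R < ‖x‖` is in `ext K`: the set
  `{x | R < ‖x‖}` is preconnected (Mathlib: complement of a closed ball in a space of real dimension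
  `> 1`, `isPathConnected_compl_closedBall…`/ `isConnected_compl…`; or `{x | R < ‖x‖}` is the image of
  `(R, ∞) × circle`) and unbounded.
* `isPreconnected_ext` (`K` bounded): two unbounded preconnected `S, S' ⊆ Kᶜ` both meet the
  preconnected set `{x | R < ‖x‖} ⊆ Kᶜ`, so the union of the three sets is preconnected.
* `isCompact_fill`: closed (complement open) and bounded.
* `fill_diff_open`: `fill K \ K` is open: for `x` in it, `ball x ρ ⊆ Kᶜ`; a point of the ball in `ext K`
  would give `x ∈ ext K`.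
-/

namespace Pool.Agent.Carp

open Set Metric Topology

/-- the points joined to infinity in the complement of `K` -/
def ext (K : Set ℂ) : Set ℂ :=
  {x | ∃ S : Set ℂ, IsPreconnected S ∧ S ⊆ Kᶜ ∧ x ∈ S ∧ ¬ Bornology.IsBounded S}

/-- `K` together with the bounded components of its complement -/
def fill (K : Set ℂ) : Set ℂ := (ext K)ᶜ

theorem ext_grow {K S B : Set ℂ} (hS : IsPreconnected S) (hSK : S ⊆ Kᶜ)
    (hSb : ¬ Bornology.IsBounded S) (hB : IsPreconnected B) (hBK : B ⊆ Kᶜ) {x : ℂ} (hx : x ∈ S)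
    (hxB : x ∈ B) : B ⊆ ext K := by
  intro y hy
  refine ⟨S ∪ B, IsPreconnected.union x hx hxB hS hB, union_subset hSK hBK, Or.inr hy, ?_⟩
  intro hb
  exact hSb (hb.subset subset_union_left)

theorem isPreconnected_norm_gt (R : ℝ) : IsPreconnected {x : ℂ | R < ‖x‖} := by
  by_cases hR : 0 ≤ R
  · have h1 : {x : ℂ | R < ‖x‖} = (fun q : ℝ × ℂ => (q.1 : ℂ) * q.2) '' (Ioi R ×ˢ sphere (0 : ℂ) 1) := by
      ext x
      constructor
      · intro hx
        have hx' : R < ‖x‖ := hx
        have hx0 : 0 < ‖x‖ := lt_of_le_of_lt hR hx'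
        have hxc : (‖x‖ : ℂ) ≠ 0 := by exact_mod_cast hx0.ne'
        refine ⟨(‖x‖, x / ‖x‖), ⟨hx', ?_⟩, ?_⟩
        · rw [mem_sphere_zero_iff_norm, norm_div, Complex.norm_real, norm_norm, div_self hx0.ne']
        · show (‖x‖ : ℂ) * (x / ‖x‖) = x
          field_simp
      · rintro ⟨⟨t, u⟩, ⟨ht, hu⟩, rfl⟩
        have ht' : R < t := ht
        have hu' : ‖u‖ = 1 := mem_sphere_zero_iff_norm.1 hu
        show R < ‖(t : ℂ) * u‖
        rw [norm_mul, hu', mul_one, Complex.norm_real, Real.norm_of_nonneg (hR.trans ht'.le)]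
        exact ht'
    rw [h1]
    apply IsPreconnected.image
    · apply IsPreconnected.prod isPreconnected_Ioi
      apply isPreconnected_sphere
      rw [Complex.rank_real_complex]
      exact Cardinal.one_lt_two
    · fun_prop
  · push Not at hR
    have h1 : {x : ℂ | R < ‖x‖} = univ := by
      ext x
      refine ⟨fun _ => mem_univ _, fun _ => ?_⟩
      show R < ‖x‖
      exact lt_of_lt_of_le hR (norm_nonneg x)
    rw [h1]
    exact isPreconnected_univ

theorem not_isBounded_norm_gt (R : ℝ) : ¬ Bornology.IsBounded {x : ℂ | R < ‖x‖} := by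
  intro h
  obtain ⟨C, hC⟩ := h.subset_ball (0 : ℂ)
  have h1 : ((max (max R C) 0 + 1 : ℝ) : ℂ) ∈ {x : ℂ | R < ‖x‖} := by
    show R < ‖((max (max R C) 0 + 1 : ℝ) : ℂ)‖
    rw [Complex.norm_real, Real.norm_of_nonneg (by positivity)]
    have := (le_max_left R C).trans (le_max_left (max R C) 0)
    linarith
  have h2 := hC h1
  rw [mem_ball_zero_iff, Complex.norm_real, Real.norm_of_nonneg (by positivity)] at h2
  have := (le_max_right R C).trans (le_max_left (max R C) 0)
  linarith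

theorem ext_subset_compl (K : Set ℂ) : ext K ⊆ Kᶜ := by
  rintro x ⟨S, -, hSK, hx, -⟩
  exact hSK hx

theorem subset_fill (K : Set ℂ) : K ⊆ fill K := by
  intro x hx hxe
  exact ext_subset_compl K hxe hx

theorem isOpen_ext {K : Set ℂ} (hK : IsClosed K) : IsOpen (ext K) := by
  rw [Metric.isOpen_iff]
  rintro x ⟨S, hS, hSK, hx, hSb⟩
  obtain ⟨ρ, hρ, hb⟩ := Metric.isOpen_iff.1 hK.isOpen_compl x (hSK hx)
  exact ⟨ρ, hρ, ext_grow hS hSK hSb (convex_ball x ρ).isPreconnected hb hx (mem_ball_self hρ)⟩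

theorem mem_ext_of_norm {K : Set ℂ} {R : ℝ} (hK : K ⊆ closedBall 0 R) {x : ℂ} (hx : R < ‖x‖) :
    x ∈ ext K := by
  refine ⟨{x | R < ‖x‖}, isPreconnected_norm_gt R, ?_, hx, not_isBounded_norm_gt R⟩
  intro y hy hyK
  have h1 := hK hyK
  rw [mem_closedBall_zero_iff] at h1
  have h2 : R < ‖y‖ := hy
  linarith

theorem isPreconnected_ext {K : Set ℂ} (hK : Bornology.IsBounded K) :
    IsPreconnected (ext K) := by
  obtain ⟨R, hR⟩ := hK.subset_closedBall (0 : ℂ)
  have hA : {x : ℂ | R < ‖x‖} ⊆ ext K := fun x hx => mem_ext_of_norm hR hx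
  have hne : ({x : ℂ | R < ‖x‖}).Nonempty := by
    by_contra h
    rw [not_nonempty_iff_eq_empty] at h
    apply not_isBounded_norm_gt R
    rw [h]
    exact Bornology.isBounded_empty
  obtain ⟨x₀, hx₀⟩ := hne
  apply isPreconnected_of_forall x₀
  rintro y ⟨S, hS, hSK, hy, hSb⟩
  have hmeet : (S ∩ {x : ℂ | R < ‖x‖}).Nonempty := by
    by_contra h
    apply hSb
    apply (isBounded_closedBall (x := (0 : ℂ)) (r := R)).subset
    intro z hz
    rw [mem_closedBall_zero_iff]
    by_contra hlt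
    push Not at hlt
    exact h ⟨z, hz, hlt⟩
  refine ⟨S ∪ {x : ℂ | R < ‖x‖}, union_subset ?_ hA, Or.inr hx₀, Or.inl hy,
    IsPreconnected.union' hmeet hS (isPreconnected_norm_gt R)⟩
  intro z hz
  exact ⟨S, hS, hSK, hz, hSb⟩

theorem isCompact_fill {K : Set ℂ} (hK : IsCompact K) : IsCompact (fill K) := by
  apply Metric.isCompact_of_isClosed_isBounded
  · exact (isOpen_ext hK.isClosed).isClosed_compl
  · obtain ⟨R, hR⟩ := hK.isBounded.subset_closedBall (0 : ℂ)
    apply (isBounded_closedBall (x := (0 : ℂ)) (r := R)).subset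
    intro x hx
    rw [mem_closedBall_zero_iff]
    by_contra hlt
    push Not at hlt
    exact hx (mem_ext_of_norm hR hlt)

theorem isOpen_fill_diff {K : Set ℂ} (hK : IsClosed K) : IsOpen (fill K \ K) := by
  rw [Metric.isOpen_iff]
  rintro x ⟨hx, hxK⟩
  obtain ⟨ρ, hρ, hb⟩ := Metric.isOpen_iff.1 hK.isOpen_compl x hxK
  refine ⟨ρ, hρ, ?_⟩
  intro y hy
  refine ⟨?_, hb hy⟩
  rintro ⟨S, hS, hSK, hyS, hSb⟩
  exact hx (ext_grow hS hSK hSb (convex_ball x ρ).isPreconnected hb hyS hy (mem_ball_self hρ))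

end Pool.Agent.Carp
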