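import Mathlib
import Pool.Agent.Carp.FA

/-!
# Filling: connectedness, diameter, monotonicity

* `fill_subset`: if `K ⊆ fill L` then `fill K ⊆ fill L`: for `x ∈ ext L` with `S ⊆ Lᶜ` preconnected
  unbounded, all points of `S` are in `ext L`, so `S ∩ K = ∅` and `x ∈ ext K`.
* `fill_subset_convex`: if `K ⊆ B`, `B` closed convex, then `fill K ⊆ B`: for `x ∉ B` separate `x` from
  `B` by a closed half plane (`geometric_hahn_banach_point_closed`); the ray from `x` in the direction
  away from `B` is preconnected, unbounded and misses `B`.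
* `diam_fill`: `diam (fill K) ≤ diam K`: apply the previous point to `B = closure (convexHull ℝ K)`,
  `diam (closure (convexHull K)) = diam K` (`convexHull_diam`, `diam_closure`).
* `isConnected_fill`: `K` connected. Every `x ∈ fill K \ K` lies in the component `Ω` of `x` in `Kᶜ`,
  which is bounded (otherwise `x ∈ ext K`) and contained in `fill K`; `closure Ω` meets `K`
  (`Ω` is open, nonempty, not everything, so has a frontier point, which is not in `Kᶜ` since
  components of the open set `Kᶜ` are closed in `Kᶜ`); so `K ∪ closure Ω ⊆ fill K` is connected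
  (`closure Ω ⊆ fill K` as `fill K` is closed). Union over all `x`.
-/

namespace Pool.Agent.Carp

open Set Metric Topology

theorem fill_subset {K L : Set ℂ} (h : K ⊆ fill L) : fill K ⊆ fill L := by
  refine compl_subset_compl.2 ?_
  rintro x ⟨S, hS, hSL, hxS, hub⟩
  refine ⟨S, hS, ?_, hxS, hub⟩
  intro y hy hyK
  exact h hyK ⟨S, hS, hSL, hy, hub⟩

theorem fill_subset_convex {K B : Set ℂ} (hB : Convex ℝ B) (hBc : IsClosed B) (h : K ⊆ B) :
    fill K ⊆ B := by
  intro x hx
  by_contra hxB
  apply hx
  obtain ⟨f, u, hfx, hfB⟩ := geometric_hahn_banach_point_closed hB hBc hxB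
  obtain ⟨v, hv, hfv⟩ : ∃ v : ℂ, ‖v‖ = 1 ∧ f v ≤ 0 := by
    by_cases h1 : f 1 ≤ 0
    · exact ⟨1, by simp, h1⟩
    · refine ⟨-1, by simp, ?_⟩
      rw [map_neg]
      push Not at h1
      linarith
  refine ⟨(fun t : ℝ => x + t • v) '' Ici 0, ?_, ?_, ?_, ?_⟩
  · refine isPreconnected_Ici.image _ ?_
    exact (continuous_const.add (continuous_id.smul continuous_const)).continuousOn
  · rintro y ⟨t, ht, rfl⟩ hyK
    have h1 := hfB _ (h hyK)
    have h2 : f (x + t • v) = f x + t * f v := by
      rw [map_add, map_smul, smul_eq_mul]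
    rw [h2] at h1
    have h3 : t * f v ≤ 0 := mul_nonpos_of_nonneg_of_nonpos ht hfv
    linarith
  · exact ⟨0, self_mem_Ici, by simp⟩
  · intro hb
    obtain ⟨C, hC⟩ := hb.exists_norm_le
    have h0 : (0 : ℝ) ≤ ‖x‖ := norm_nonneg x
    have hC0 : 0 ≤ C := by
      have := hC x ⟨0, self_mem_Ici, by simp⟩
      linarith
    have h1 := hC (x + (C + ‖x‖ + 1) • v) ⟨C + ‖x‖ + 1, by show (0 : ℝ) ≤ _; linarith, rfl⟩
    have h2 : ‖(C + ‖x‖ + 1) • v‖ = C + ‖x‖ + 1 := by
      rw [norm_smul, hv, mul_one, Real.norm_eq_abs, abs_of_nonneg (by linarith)]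
    have h3 : ‖(C + ‖x‖ + 1) • v‖ ≤ ‖x + (C + ‖x‖ + 1) • v‖ + ‖x‖ := by
      have h4 := norm_sub_le (x + (C + ‖x‖ + 1) • v) x
      rwa [add_sub_cancel_left] at h4
    linarith

theorem diam_fill {K : Set ℂ} (hK : IsCompact K) : diam (fill K) ≤ diam K := by
  have h1 : fill K ⊆ closure (convexHull ℝ K) :=
    fill_subset_convex (convex_convexHull ℝ K).closure isClosed_closure
      ((subset_convexHull ℝ K).trans subset_closure)
  have h2 : Bornology.IsBounded (closure (convexHull ℝ K)) :=
    (isBounded_convexHull.2 hK.isBounded).closure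
  refine (diam_mono h1 h2).trans ?_
  rw [diam_closure, convexHull_diam]

theorem isConnected_fill {K : Set ℂ} (hK : IsCompact K) (hc : IsConnected K) :
    IsConnected (fill K) := by
  obtain ⟨x₀, hx₀⟩ := hc.nonempty
  refine ⟨⟨x₀, subset_fill K hx₀⟩, ?_⟩
  refine isPreconnected_of_forall x₀ ?_
  intro y hy
  by_cases hyK : y ∈ K
  · exact ⟨K, subset_fill K, hx₀, hyK, hc.isPreconnected⟩
  have hyc : y ∈ Kᶜ := hyK
  have hpre : IsPreconnected (connectedComponentIn Kᶜ y) := isPreconnected_connectedComponentIn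
  have hsub : connectedComponentIn Kᶜ y ⊆ Kᶜ := connectedComponentIn_subset _ _
  have hmem : y ∈ connectedComponentIn Kᶜ y := mem_connectedComponentIn hyc
  have hfill : connectedComponentIn Kᶜ y ⊆ fill K := by
    intro z hz hzext
    obtain ⟨S, hS, hSK, hzS, hub⟩ := hzext
    apply hy
    refine ⟨connectedComponentIn Kᶜ y ∪ S, hpre.union z hz hzS hS, union_subset hsub hSK,
      Or.inl hmem, ?_⟩
    intro hb
    exact hub (hb.subset subset_union_right)
  have hopen : IsOpen (connectedComponentIn Kᶜ y) :=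
    hK.isClosed.isOpen_compl.connectedComponentIn
  have hmeet : (K ∩ closure (connectedComponentIn Kᶜ y)).Nonempty := by
    by_contra hne
    rw [not_nonempty_iff_eq_empty] at hne
    have h1 : closure (connectedComponentIn Kᶜ y) ⊆ Kᶜ := by
      intro w hw hwK
      have : w ∈ K ∩ closure (connectedComponentIn Kᶜ y) := ⟨hwK, hw⟩
      rw [hne] at this
      exact this
    have h2 : closure (connectedComponentIn Kᶜ y) ⊆ connectedComponentIn Kᶜ y :=
      hpre.closure.subset_connectedComponentIn (subset_closure hmem) h1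
    have h3 : IsClosed (connectedComponentIn Kᶜ y) := by
      rw [← closure_subset_iff_isClosed]
      exact h2
    have h4 : connectedComponentIn Kᶜ y = univ :=
      IsClopen.eq_univ ⟨h3, hopen⟩ ⟨y, hmem⟩
    have h5 : x₀ ∈ connectedComponentIn Kᶜ y := by rw [h4]; trivial
    exact hsub h5 hx₀
  obtain ⟨w, hwK, hwc⟩ := hmeet
  refine ⟨K ∪ closure (connectedComponentIn Kᶜ y), ?_, Or.inl hx₀,
    Or.inr (subset_closure hmem), hc.isPreconnected.union w hwK hwc hpre.closure⟩
  refine union_subset (subset_fill K) ?_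
  exact closure_minimal hfill (isCompact_fill hK).isClosed

end Pool.Agent.Carp
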