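import Mathlib
import Pool.Agent.Carp.Rel

/-!
# Saturation

* `isCompact_sat`: `{y | ∃ x ∈ A, r x y}` is the second projection of the compact set
  `{p ∈ A ×ˢ B | r p.1 p.2}`. (`A` compact; `hr.mem`, `hr.closed`, `hr.compact`.)
* `isCompact_cl`: the case `A = {x}`.
* `isOpen_star`: `{x | x ∈ O ∧ ∀ y, r x y → y ∈ O} = O \ sat (B \ O)`, and `B \ O` is compact.
* `component_mem_GR`: classes are connected and contained in `U` (for points of `U ⊆ B`), so the
  component of `x` is a union of classes; components of open sets of `ℂ` are open.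
-/

namespace Pool.Agent.Carp

open Set Metric Topology

theorem isCompact_sat {B : Set ℂ} {r : ℂ → ℂ → Prop} (hr : PreRel B r) {A : Set ℂ}
    (hA : IsCompact A) : IsCompact {y | ∃ x ∈ A, r x y} := by
  have h1 : {y | ∃ x ∈ A, r x y} =
      Prod.snd '' ((A ×ˢ B) ∩ {p : ℂ × ℂ | r p.1 p.2}) := by
    ext y
    constructor
    · rintro ⟨x, hx, hxy⟩
      exact ⟨(x, y), ⟨⟨hx, (hr.mem x y hxy).2⟩, hxy⟩, rfl⟩
    · rintro ⟨⟨x, y'⟩, ⟨⟨hx, -⟩, hxy⟩, rfl⟩
      exact ⟨x, hx, hxy⟩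
  rw [h1]
  exact ((hA.prod hr.compact).inter_right hr.closed).image continuous_snd

theorem isCompact_cl {B : Set ℂ} {r : ℂ → ℂ → Prop} (hr : PreRel B r) (x : ℂ) :
    IsCompact {y | r x y} := by
  have h := isCompact_sat hr (isCompact_singleton (x := x))
  have h1 : {y | ∃ x' ∈ ({x} : Set ℂ), r x' y} = {y | r x y} := by
    ext y
    simp
  rwa [h1] at h

theorem isOpen_star {B : Set ℂ} {r : ℂ → ℂ → Prop} (hr : PreRel B r) {O : Set ℂ}
    (hO : IsOpen O) (hOB : O ⊆ B) : IsOpen {x | x ∈ O ∧ ∀ y, r x y → y ∈ O} := by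
  have h1 : {x | x ∈ O ∧ ∀ y, r x y → y ∈ O} = O \ {y | ∃ x ∈ B \ O, r x y} := by
    ext x
    constructor
    · rintro ⟨hx, h⟩
      refine ⟨hx, ?_⟩
      rintro ⟨x', hx', hxx⟩
      exact hx'.2 (h x' (hr.symm _ _ hxx))
    · rintro ⟨hx, h⟩
      refine ⟨hx, fun y hxy => ?_⟩
      by_contra hy
      exact h ⟨y, ⟨(hr.mem x y hxy).2, hy⟩, hr.symm _ _ hxy⟩
  rw [h1]
  exact hO.sdiff (isCompact_sat hr (hr.compact.diff hO)).isClosed

theorem component_mem_GR {B : Set ℂ} {r : ℂ → ℂ → Prop} (hr : PreRel B r) {U : Set ℂ}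
    (hU : IsOpen U) (hUB : U ⊆ interior B) (hs : ∀ x ∈ U, ∀ y, r x y → y ∈ U) {x : ℂ}
    (hx : x ∈ U) : connectedComponentIn U x ∈ GR B r := by
  refine ⟨hU.connectedComponentIn, isConnected_connectedComponentIn_iff.2 hx,
    (connectedComponentIn_subset U x).trans hUB, ?_⟩
  intro z hz y hzy
  have hzU : z ∈ U := connectedComponentIn_subset U x hz
  have hzB : z ∈ B := interior_subset (hUB hzU)
  rw [connectedComponentIn_eq hz]
  exact (hr.conn z hzB).isPreconnected.subset_connectedComponentIn (hr.refl z hzB)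
    (fun w hw => hs z hzU w hw) hzy

end Pool.Agent.Carp
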