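import Mathlib
import Pool.Agent.Carp.Rel
import Pool.Agent.Carp.RA

/-!
# The sets to be avoided

* `isCompact_V`: if `x_n → x` with `diam (class x_n) ≥ ε`, choose `y_n, y_n'` in the compact class
  of `x_n` with `dist y_n y_n' ≥ ε`; along a subsequence `y_n → y`, `y_n' → y'`, both related to `x` by
  `hr.closed`, and `dist y y' ≥ ε`. Bounded since contained in `B`.
* `isCompact_ZR`: finite union with `{y | ∃ i ≤ n, r (q i) y}` (`isCompact_sat` of a finite set).
* `ZR_sat`: related points have the same class.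
* `ZR_comp`: `ZR B r q n ∪ {y | r z y}` is the disjoint union of the compact set
  `V = {x ∈ B | 1/(n+1) ≤ diam class}` and finitely many classes which are pairwise equal or disjoint
  and not contained in `V` (a class meeting `V` is contained in `V`). A preconnected subset lies in one
  of these finitely many pairwise disjoint compact sets; if it lies in `V` use `hr.comp`, if it
  lies in a class use `hr.symm`, `hr.trans`.
-/

namespace Pool.Agent.Carp

open Set Metric Topology

theorem isCompact_V {B : Set ℂ} {r : ℂ → ℂ → Prop} (hr : PreRel B r) {ε : ℝ} (hε : 0 < ε) :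
    IsCompact {x | x ∈ B ∧ ε ≤ diam {y | r x y}} := by
  -- the compact set of triples
  have hP : IsCompact ((B ×ˢ (B ×ˢ B)) ∩ {p : ℂ × ℂ × ℂ | r p.1 p.2.1 ∧ r p.1 p.2.2 ∧
      ε ≤ dist p.2.1 p.2.2}) := by
    refine (hr.compact.prod (hr.compact.prod hr.compact)).inter_right ?_
    have h1 : IsClosed {p : ℂ × ℂ × ℂ | r p.1 p.2.1} :=
      hr.closed.preimage (f := fun p : ℂ × ℂ × ℂ => (p.1, p.2.1)) (by fun_prop)
    have h2 : IsClosed {p : ℂ × ℂ × ℂ | r p.1 p.2.2} :=
      hr.closed.preimage (f := fun p : ℂ × ℂ × ℂ => (p.1, p.2.2)) (by fun_prop)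
    have h3 : IsClosed {p : ℂ × ℂ × ℂ | ε ≤ dist p.2.1 p.2.2} :=
      isClosed_le continuous_const (by fun_prop)
    exact h1.inter (h2.inter h3)
  have e : {x | x ∈ B ∧ ε ≤ diam {y | r x y}} = Prod.fst '' ((B ×ˢ (B ×ˢ B)) ∩
      {p : ℂ × ℂ × ℂ | r p.1 p.2.1 ∧ r p.1 p.2.2 ∧ ε ≤ dist p.2.1 p.2.2}) := by
    ext x
    constructor
    · rintro ⟨hx, hd⟩
      have hK := isCompact_cl hr x
      have hne : ({y | r x y} : Set ℂ).Nonempty := ⟨x, hr.refl x hx⟩
      obtain ⟨⟨y, y'⟩, hyy, hmax⟩ := (hK.prod hK).exists_isMaxOn (hne.prod hne)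
        (f := fun p : ℂ × ℂ => dist p.1 p.2) (by fun_prop)
      have h1 : diam {y | r x y} ≤ dist y y' := by
        refine diam_le_of_forall_dist_le dist_nonneg ?_
        intro a ha b hb
        exact hmax (show (a, b) ∈ ({y | r x y} : Set ℂ) ×ˢ {y | r x y} from ⟨ha, hb⟩)
      exact ⟨(x, y, y'), ⟨⟨hx, (hr.mem x y hyy.1).2, (hr.mem x y' hyy.2).2⟩, hyy.1, hyy.2,
        hd.trans h1⟩, rfl⟩
    · rintro ⟨⟨x', y, y'⟩, ⟨⟨hx, _, _⟩, h1, h2, h3⟩, rfl⟩
      exact ⟨hx, h3.trans (dist_le_diam_of_mem (isCompact_cl hr x').isBounded h1 h2)⟩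
  rw [e]
  exact hP.image continuous_fst

theorem isCompact_ZR {B : Set ℂ} {r : ℂ → ℂ → Prop} (hr : PreRel B r) (q : ℕ → ℂ) (n : ℕ) :
    IsCompact (ZR B r q n) := by
  unfold ZR
  refine (isCompact_V hr (by positivity)).union ?_
  have e : {y | ∃ i ≤ n, r (q i) y} = ⋃ i ∈ Set.Iic n, {y | r (q i) y} := by
    ext y
    simp
  rw [e]
  exact (Set.finite_Iic n).isCompact_biUnion fun i _ => isCompact_cl hr (q i)

/-- related points have the same class -/
private theorem cl_eq_of_rel {B : Set ℂ} {r : ℂ → ℂ → Prop} (hr : PreRel B r) {x y : ℂ} (h : r x y) :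
    {z | r x z} = {z | r y z} := by
  ext z
  exact ⟨fun hz => hr.trans y x z (hr.symm x y h) hz, fun hz => hr.trans x y z h hz⟩

theorem ZR_sat {B : Set ℂ} {r : ℂ → ℂ → Prop} (hr : PreRel B r) (q : ℕ → ℂ) (n : ℕ) :
    ∀ x ∈ ZR B r q n, ∀ y, r x y → y ∈ ZR B r q n := by
  rintro x (⟨hx, hd⟩ | ⟨i, hi, hix⟩) y hxy
  · left
    refine ⟨(hr.mem x y hxy).2, ?_⟩
    rw [← cl_eq_of_rel hr hxy]
    exact hd
  · right
    exact ⟨i, hi, hr.trans (q i) x y hix hxy⟩

theorem ZR_comp {B : Set ℂ} {r : ℂ → ℂ → Prop} (hr : PreRel B r) (q : ℕ → ℂ) (n : ℕ) (z : ℂ)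
    {S : Set ℂ} (hS : S ⊆ ZR B r q n ∪ {y | r z y}) (hSc : IsPreconnected S) :
    ∀ x ∈ S, ∀ y ∈ S, r x y := by
  by_cases hV : S ⊆ {x | x ∈ B ∧ 1 / ((n : ℝ) + 1) ≤ diam {y | r x y}}
  · exact hr.comp (1 / ((n : ℝ) + 1)) (by positivity) S hV hSc
  · rw [Set.not_subset] at hV
    obtain ⟨x, hxS, hxV⟩ := hV
    -- the union of `V` and of the classes of the `q i` and of `z` which do not contain `x`
    have hD : IsClosed ({x | x ∈ B ∧ 1 / ((n : ℝ) + 1) ≤ diam {y | r x y}} ∪
        (⋃ i ∈ {i | i ≤ n ∧ ¬ r (q i) x}, {y | r (q i) y}) ∪ {y | ¬ r z x ∧ r z y}) := by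
      refine IsClosed.union (IsClosed.union ?_ ?_) ?_
      · exact (isCompact_V hr (by positivity)).isClosed
      · refine Set.Finite.isClosed_biUnion ?_ fun i _ => (isCompact_cl hr (q i)).isClosed
        exact (Set.finite_Iic n).subset fun i hi => hi.1
      · by_cases hz : r z x
        · have e : {y | ¬ r z x ∧ r z y} = ∅ := by
            ext y
            simp [hz]
          rw [e]
          exact isClosed_empty
        · have e : {y | ¬ r z x ∧ r z y} = {y | r z y} := by
            ext y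
            simp [hz]
          rw [e]
          exact (isCompact_cl hr z).isClosed
    have hC : IsClosed {y | r x y} := (isCompact_cl hr x).isClosed
    have hdisj : ∀ y, r x y → y ∉ ({x | x ∈ B ∧ 1 / ((n : ℝ) + 1) ≤ diam {y | r x y}} ∪
        (⋃ i ∈ {i | i ≤ n ∧ ¬ r (q i) x}, {y | r (q i) y}) ∪ {y | ¬ r z x ∧ r z y}) := by
      intro y hxy hy
      rcases hy with (⟨_, hy⟩ | hy) | ⟨hy1, hy2⟩
      · rw [← cl_eq_of_rel hr hxy] at hy
        exact hxV ⟨(hr.mem x y hxy).1, hy⟩
      · simp only [mem_iUnion, exists_prop] at hy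
        obtain ⟨i, ⟨_, hi⟩, hiy⟩ := hy
        exact hi (hr.trans (q i) y x hiy (hr.symm x y hxy))
      · exact hy1 (hr.trans z y x hy2 (hr.symm x y hxy))
    have hcov : S ⊆ {y | r x y} ∪ ({x | x ∈ B ∧ 1 / ((n : ℝ) + 1) ≤ diam {y | r x y}} ∪
        (⋃ i ∈ {i | i ≤ n ∧ ¬ r (q i) x}, {y | r (q i) y}) ∪ {y | ¬ r z x ∧ r z y}) := by
      intro y hy
      rcases hS hy with (hyV | ⟨i, hi, hiy⟩) | hzy
      · right
        left
        left
        exact hyV
      · by_cases hix : r (q i) x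
        · left
          exact hr.trans x (q i) y (hr.symm (q i) x hix) hiy
        · right
          left
          right
          simp only [mem_iUnion, exists_prop]
          exact ⟨i, ⟨hi, hix⟩, hiy⟩
      · by_cases hzx : r z x
        · left
          exact hr.trans x z y (hr.symm z x hzx) hzy
        · right
          right
          exact ⟨hzx, hzy⟩
    have hxx : r x x := by
      rcases hcov hxS with h | ((h | h) | ⟨h, h'⟩)
      · exact h
      · exact (hxV h).elim
      · simp only [mem_iUnion, exists_prop] at h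
        obtain ⟨i, ⟨_, hi⟩, hix⟩ := h
        exact (hi hix).elim
      · exact (h h').elim
    have hsub : S ⊆ {y | r x y} := by
      rcases isPreconnected_iff_subset_of_disjoint_closed.1 hSc _ _ hC hD hcov (by
        rw [Set.eq_empty_iff_forall_notMem]
        rintro y ⟨_, hy1, hy2⟩
        exact hdisj y hy1 hy2) with h | h
      · exact h
      · exact (hdisj x hxx (h hxS)).elim
    intro a ha b hb
    exact hr.trans a x b (hr.symm x a (hsub ha)) (hsub hb)

end Pool.Agent.Carp
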