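import Mathlib

/-!
# Clopen partitions of compact sets

* `exists_clopen_nhds`: `C` compact, `x ∈ C`, `N` open, and every preconnected `S ⊆ C` containing `x`
  is contained in `N`. Then there is a relatively clopen part of `C` containing `x` inside `N`.
  Proof: in the compact Hausdorff space `C` (subtype) the connected component of `x` is the
  intersection of the clopen sets containing `x` (`connectedComponent_eq_iInter_isClopen`), the
  component is contained in `N`, compactness gives finitely many clopen sets whose intersection is in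
  `N`.
* `exists_clopen_split`: `A₁, A₂ ⊆ C` compact and no preconnected subset of `C` meets both. Then
  `C` is the disjoint union of two compact sets, one containing `A₁`, the other `A₂`. Proof: for every
  `x ∈ A₁` the component of `x` misses `A₂`, so by `exists_clopen_nhds` (with `N = A₂ᶜ`) there is a
  clopen part containing `x` and missing `A₂`; finitely many of them cover `A₁`; take their union.
-/

namespace Pool.Agent.Carp

open Set Metric Topology

theorem clopen_core {X : Type*} [TopologicalSpace X] [T2Space X] {C N : Set X}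
    (hC : IsCompact C) {x : X} (hx : x ∈ C) (hN : IsOpen N)
    (h : ∀ S ⊆ C, IsPreconnected S → x ∈ S → S ⊆ N) :
    ∃ Z : Set C, IsClopen Z ∧ (⟨x, hx⟩ : C) ∈ Z ∧ Z ⊆ Subtype.val ⁻¹' N := by
  have hcs : CompactSpace C := isCompact_iff_compactSpace.mp hC
  set y : C := ⟨x, hx⟩ with hy
  have hcomp : Subtype.val '' connectedComponent y ⊆ N := by
    refine h _ ?_ ?_ ⟨y, mem_connectedComponent, rfl⟩
    · rintro _ ⟨z, -, rfl⟩
      exact z.2
    · exact isPreconnected_connectedComponent.image _ continuous_subtype_val.continuousOn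
  have hne : Nonempty {s : Set C // IsClopen s ∧ y ∈ s} := ⟨⟨univ, isClopen_univ, mem_univ _⟩⟩
  have hdir : Directed (fun a b : Set C => a ⊇ b)
      (fun s : {s : Set C // IsClopen s ∧ y ∈ s} => (s : Set C)) := by
    rintro ⟨s, hs, hs'⟩ ⟨t, ht, ht'⟩
    exact ⟨⟨s ∩ t, hs.inter ht, hs', ht'⟩, inter_subset_left, inter_subset_right⟩
  have hU : ∀ z ∈ ⋂ s : {s : Set C // IsClopen s ∧ y ∈ s}, (s : Set C),
      (Subtype.val ⁻¹' N : Set C) ∈ 𝓝 z := by
    intro z hz
    rw [← connectedComponent_eq_iInter_isClopen y] at hz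
    refine (hN.preimage continuous_subtype_val).mem_nhds ?_
    exact hcomp ⟨z, hz, rfl⟩
  obtain ⟨⟨Z, hZ, hyZ⟩, hsub⟩ := exists_subset_nhds_of_compactSpace hdir
    (fun s => s.2.1.isClosed) hU
  exact ⟨Z, hZ, hyZ, hsub⟩

theorem clopen_push {X : Type*} [TopologicalSpace X] {C : Set X}
    (hC : IsCompact C) {Z : Set C} (hZ : IsClopen Z) :
    IsCompact (Subtype.val '' Z : Set X) ∧ IsCompact (Subtype.val '' Zᶜ : Set X) ∧
      Disjoint (Subtype.val '' Z : Set X) (Subtype.val '' Zᶜ : Set X) ∧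
      C = (Subtype.val '' Z : Set X) ∪ (Subtype.val '' Zᶜ : Set X) := by
  have hcs : CompactSpace C := isCompact_iff_compactSpace.mp hC
  refine ⟨hZ.isClosed.isCompact.image continuous_subtype_val,
    hZ.compl.isClosed.isCompact.image continuous_subtype_val, ?_, ?_⟩
  · rw [Set.disjoint_left]
    rintro _ ⟨z, hz, rfl⟩ ⟨w, hw, hwz⟩
    exact hw (Subtype.ext hwz ▸ hz)
  · rw [← image_union, union_compl_self, image_univ, Subtype.range_coe]

theorem exists_clopen_nhds {X : Type*} [TopologicalSpace X] [T2Space X] {C N : Set X}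
    (hC : IsCompact C) {x : X} (hx : x ∈ C) (hN : IsOpen N)
    (h : ∀ S ⊆ C, IsPreconnected S → x ∈ S → S ⊆ N) :
    ∃ C' C'' : Set X, IsCompact C' ∧ IsCompact C'' ∧ Disjoint C' C'' ∧ C = C' ∪ C'' ∧
      x ∈ C' ∧ C' ⊆ N := by
  obtain ⟨Z, hZ, hxZ, hZN⟩ := clopen_core hC hx hN h
  obtain ⟨h1, h2, h3, h4⟩ := clopen_push hC hZ
  refine ⟨_, _, h1, h2, h3, h4, ⟨_, hxZ, rfl⟩, ?_⟩
  rintro _ ⟨z, hz, rfl⟩
  exact hZN hz

theorem exists_clopen_split {X : Type*} [TopologicalSpace X] [T2Space X] {C A₁ A₂ : Set X}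
    (hC : IsCompact C) (h1 : IsCompact A₁) (h2 : IsCompact A₂) (hA₁ : A₁ ⊆ C) (hA₂ : A₂ ⊆ C)
    (h : ∀ S ⊆ C, IsPreconnected S → (S ∩ A₁).Nonempty → ¬ (S ∩ A₂).Nonempty) :
    ∃ C' C'' : Set X, IsCompact C' ∧ IsCompact C'' ∧ Disjoint C' C'' ∧ C = C' ∪ C'' ∧
      A₁ ⊆ C' ∧ A₂ ⊆ C'' := by
  have hcs : CompactSpace C := isCompact_iff_compactSpace.mp hC
  have key : ∀ y : C, (y : X) ∈ A₁ → ∃ Z : Set C, IsClopen Z ∧ y ∈ Z ∧
      Z ⊆ Subtype.val ⁻¹' A₂ᶜ := by
    rintro ⟨x, hx⟩ hxA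
    refine clopen_core hC hx h2.isClosed.isOpen_compl ?_
    intro S hS hpre hxS z hz hzA
    exact h S hS hpre ⟨x, hxS, hxA⟩ ⟨z, hz, hzA⟩
  choose! Z hZ1 hZ2 hZ3 using key
  have hcA : IsCompact (Subtype.val ⁻¹' A₁ : Set C) :=
    (h1.isClosed.preimage continuous_subtype_val).isCompact
  obtain ⟨t, ht1⟩ := hcA.elim_nhds_subcover' (fun y _ => Z y)
    (fun y hy => (hZ1 y hy).isOpen.mem_nhds (hZ2 y hy))
  set W : Set C := ⋃ y ∈ t, Z y with hW
  have hWc : IsClopen W := t.finite_toSet.isClopen_biUnion fun y _ => hZ1 y y.2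
  obtain ⟨g1, g2, g3, g4⟩ := clopen_push hC hWc
  refine ⟨_, _, g1, g2, g3, g4, ?_, ?_⟩
  · intro x hx
    exact ⟨⟨x, hA₁ hx⟩, ht1 hx, rfl⟩
  · intro x hx
    refine ⟨⟨x, hA₂ hx⟩, ?_, rfl⟩
    intro hmem
    rw [hW, mem_iUnion₂] at hmem
    obtain ⟨y, -, hy⟩ := hmem
    exact hZ3 y y.2 hy hx

end Pool.Agent.Carp
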