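import Mathlib

/-!
# Continuous logarithms

* `exists_log`: a continuous nonvanishing function on the plane has a continuous logarithm
  (Mathlib: `Complex.exists_continuousOn_eqOn_exp_comp` with `U = univ`).
* `no_log_circle`: `z - a` has no continuous logarithm on a circle around `a`. Proof: for
  `θ ∈ [0, 2π]` put `f θ = H (a + R * exp (θ I)) - θ * I`; `f` is continuous and `exp (f θ) = R`, so
  `f` takes values in the discrete set `log R + 2π i ℤ` and is constant on `[0, 2π]` (preconnected),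
  but `f (2π) = f 0 - 2π I`.
* `exists_log_sub`: if `K` is compact, `a ∉ K` and `Kᶜ` is preconnected, then `z - a` has a continuous
  logarithm on a neighbourhood of `K`. Proof: `Kᶜ` is open and connected (contains `a`), so path
  connected; take a path from `a` to a point `b` with `‖b‖` larger than `sup_{K} ‖·‖ + 1`; the image of
  the path is compact and has distance `> 2 δ > 0` from `K`. Let `N` be the set of points at distance
  `< δ` from `K` (take `δ < 1/2`). Choose `t_0 = 0 < … < t_m = 1` with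
  `‖γ t_j - γ t_{j+1}‖ < δ` (uniform continuity). For `z ∈ N`,
  `z - a = (z - b) * ∏ (z - γ t_j)/(z - γ t_{j+1})`, every quotient is
  `1 + (γ t_{j+1} - γ t_j)/(z - γ t_{j+1})`, at distance `< 1` from `1`, so `Complex.log` of it is
  continuous in `z ∈ N`; and `z - b = -b * (1 - z/b)` with `‖z/b‖ < 1`. Sum of the logarithms.
  (Alternative: induct along the path / show that the set of `w ∈ Kᶜ` such that `z - w` has a
  continuous logarithm on a neighbourhood of `K` is open and closed in `Kᶜ` and contains all `w`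
  with large norm.)
-/

namespace Pool.Agent.Carp

open Set Metric Topology

theorem exists_log {h : ℂ → ℂ} (hc : Continuous h) (h0 : ∀ z, h z ≠ 0) :
    ∃ H : ℂ → ℂ, Continuous H ∧ ∀ z, Complex.exp (H z) = h z := by
  have hcontr : ContractibleSpace (univ : Set ℂ) :=
    (convex_univ : Convex ℝ (univ : Set ℂ)).contractibleSpace ⟨0, mem_univ _⟩
  have hsc : IsSimplyConnected (univ : Set ℂ) := by
    show SimplyConnectedSpace (univ : Set ℂ)
    infer_instance
  obtain ⟨f, hf, he⟩ := Complex.exists_continuousOn_eqOn_exp_comp hsc isOpen_univ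
    (g := h) hc.continuousOn (by
      rintro ⟨z, -, hz⟩
      exact h0 z hz)
  exact ⟨f, continuousOn_univ.1 hf, fun z => he (mem_univ z)⟩

theorem no_log_circle (a : ℂ) (R : ℝ) (hR : 0 < R) (H : ℂ → ℂ)
    (hH : ContinuousOn H (sphere a R)) : ¬ ∀ z ∈ sphere a R, Complex.exp (H z) = z - a := by
  intro hexp
  have hRc : (R : ℂ) ≠ 0 := by exact_mod_cast hR.ne'
  have hmem : ∀ θ : ℝ, a + R * Complex.exp (θ * Complex.I) ∈ sphere a R := by
    intro θ
    rw [mem_sphere, dist_eq_norm, add_sub_cancel_left, norm_mul, Complex.norm_exp_ofReal_mul_I,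
      mul_one, Complex.norm_real, Real.norm_of_nonneg hR.le]
  set f : ℝ → ℂ := fun θ => H (a + R * Complex.exp (θ * Complex.I)) - θ * Complex.I with hf
  have hfc : Continuous f := by
    have h1 : Continuous (fun θ : ℝ => H (a + R * Complex.exp (θ * Complex.I))) := by
      apply hH.comp_continuous _ hmem
      fun_prop
    exact h1.sub (by fun_prop)
  have hfe : ∀ θ, Complex.exp (f θ) = R := by
    intro θ
    rw [hf]
    simp only
    rw [Complex.exp_sub, hexp _ (hmem θ), add_sub_cancel_left, mul_div_assoc,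
      div_self (Complex.exp_ne_zero _), mul_one]
  have hn : ∀ θ, ∃ n : ℤ, f θ = f 0 + n * (2 * Real.pi * Complex.I) := by
    intro θ
    apply Complex.exp_eq_exp_iff_exists_int.1
    rw [hfe, hfe]
  choose n hn using hn
  have hpi : (2 * Real.pi * Complex.I : ℂ) ≠ 0 := Complex.two_pi_I_ne_zero
  have hnc : Continuous (fun θ => ((n θ : ℤ) : ℝ)) := by
    have h1 : (fun θ => ((n θ : ℤ) : ℝ)) = fun θ => ((f θ - f 0) / (2 * Real.pi * Complex.I)).re := by
      funext θ
      have h2 : (f θ - f 0) / (2 * Real.pi * Complex.I) = ((n θ : ℤ) : ℂ) := by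
        rw [hn θ, add_sub_cancel_left, mul_div_assoc, div_self hpi, mul_one]
      rw [h2]
      simp
    rw [h1]
    fun_prop
  have hnc' : Continuous n := Int.isClosedEmbedding_coe_real.isInducing.continuous_iff.2 hnc
  have hconst : n (2 * Real.pi) = n 0 := PreconnectedSpace.constant inferInstance hnc'
  have h3 : f (2 * Real.pi) = f 0 := by
    have h4 := hn (2 * Real.pi)
    have h5 := hn 0
    rw [hconst] at h4
    rw [h4, ← h5]
  rw [hf] at h3
  simp only at h3
  have h6 : Complex.exp (((2 * Real.pi : ℝ) : ℂ) * Complex.I) = 1 := by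
    push_cast
    exact Complex.exp_two_pi_mul_I
  rw [h6] at h3
  have h7 : Complex.exp (((0 : ℝ) : ℂ) * Complex.I) = 1 := by simp
  rw [h7] at h3
  have h8 : ((2 * Real.pi : ℝ) : ℂ) * Complex.I = 0 := by
    have h9 : ((0 : ℝ) : ℂ) * Complex.I = 0 := by simp
    rw [h9, sub_zero] at h3
    have := sub_eq_self.1 h3
    exact this
  apply hpi
  push_cast at h8
  exact h8

/-- `z - w` has a continuous logarithm near `K` -/
def LogNear (K : Set ℂ) (w : ℂ) : Prop :=
  ∃ N : Set ℂ, IsOpen N ∧ K ⊆ N ∧ ∃ l : ℂ → ℂ, ContinuousOn l N ∧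
    ∀ z ∈ N, Complex.exp (l z) = z - w

theorem LogNear.move {K : Set ℂ} {w₀ w w' : ℂ} {δ : ℝ} (hK : ∀ z ∈ K, δ ≤ dist z w₀) (hδ : 0 < δ)
    (hw : dist w w₀ < δ / 4) (hw' : dist w' w₀ < δ / 4) (h : LogNear K w) : LogNear K w' := by
  obtain ⟨N, hN, hKN, l, hl, hexp⟩ := h
  have key : ∀ z, 3 * δ / 4 < dist z w₀ → z - w ≠ 0 ∧ (z - w') / (z - w) ∈ Complex.slitPlane := by
    intro z hz
    have h1 : δ / 2 < dist z w := by
      have := dist_triangle z w w₀
      linarith
    have h2 : dist w w' < δ / 2 := by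
      have := dist_triangle_right w w' w₀
      linarith
    have h3 : z - w ≠ 0 := by
      intro h
      rw [dist_eq_norm, h, norm_zero] at h1
      linarith
    refine ⟨h3, ?_⟩
    have h4 : (z - w') / (z - w) = 1 + (w - w') / (z - w) := by
      field_simp
      ring
    rw [h4]
    apply Complex.mem_slitPlane_of_norm_lt_one
    rw [norm_div, div_lt_one (norm_pos_iff.2 h3), ← dist_eq_norm, ← dist_eq_norm]
    linarith
  refine ⟨N ∩ {z | 3 * δ / 4 < dist z w₀}, hN.inter (isOpen_lt continuous_const (by fun_prop)), ?_,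
    fun z => l z + Complex.log ((z - w') / (z - w)), ?_, ?_⟩
  · intro z hz
    refine ⟨hKN hz, ?_⟩
    have := hK z hz
    show 3 * δ / 4 < dist z w₀
    linarith
  · apply (hl.mono inter_subset_left).add
    apply ContinuousOn.clog
    · apply ContinuousOn.div (by fun_prop) (by fun_prop)
      intro z hz
      exact (key z hz.2).1
    · intro z hz
      exact (key z hz.2).2
  · intro z hz
    obtain ⟨h1, h2⟩ := key z hz.2
    rw [Complex.exp_add, hexp z hz.1, Complex.exp_log (Complex.slitPlane_ne_zero h2)]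
    field_simp

theorem logNear_far {K : Set ℂ} {w : ℂ} (hK : ∀ z ∈ K, ‖z‖ < ‖w‖) (hw : w ≠ 0) : LogNear K w := by
  have key : ∀ z ∈ ball (0 : ℂ) ‖w‖, 1 + (-(z / w)) ∈ Complex.slitPlane := by
    intro z hz
    apply Complex.mem_slitPlane_of_norm_lt_one
    rw [mem_ball_zero_iff] at hz
    rw [norm_neg, norm_div, div_lt_one (norm_pos_iff.2 hw)]
    exact hz
  refine ⟨ball 0 ‖w‖, isOpen_ball, ?_, fun z => Complex.log (-w) + Complex.log (1 + (-(z / w))), ?_, ?_⟩
  · intro z hz
    rw [mem_ball_zero_iff]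
    exact hK z hz
  · apply continuousOn_const.add
    apply ContinuousOn.clog (by fun_prop)
    exact key
  · intro z hz
    rw [Complex.exp_add, Complex.exp_log (neg_ne_zero.2 hw),
      Complex.exp_log (Complex.slitPlane_ne_zero (key z hz))]
    field_simp
    ring

theorem exists_log_sub {K : Set ℂ} (hK : IsCompact K) (hKc : IsPreconnected Kᶜ) {a : ℂ}
    (ha : a ∉ K) :
    ∃ N : Set ℂ, IsOpen N ∧ K ⊆ N ∧ ∃ l : ℂ → ℂ, ContinuousOn l N ∧
      ∀ z ∈ N, Complex.exp (l z) = z - a := by
  show LogNear K a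
  have hloc : ∀ w₀ ∈ Kᶜ, ∃ δ > 0, ∀ z ∈ K, δ ≤ dist z w₀ := by
    intro w₀ hw₀
    obtain ⟨δ, hδ, hb⟩ := Metric.isOpen_iff.1 hK.isClosed.isOpen_compl w₀ hw₀
    refine ⟨δ, hδ, ?_⟩
    intro z hz
    by_contra hlt
    push Not at hlt
    exact hb (mem_ball.2 hlt) hz
  have hopen : IsOpen {w | w ∈ Kᶜ ∧ LogNear K w} := by
    rw [Metric.isOpen_iff]
    rintro w ⟨hw, hlog⟩
    obtain ⟨δ, hδ, hd⟩ := hloc w hw
    refine ⟨δ / 4, by positivity, ?_⟩
    intro w' hw'
    rw [mem_ball] at hw'
    refine ⟨?_, LogNear.move hd hδ (by rw [dist_self]; positivity) hw' hlog⟩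
    intro hmem
    have := hd w' hmem
    linarith
  have hopen' : IsOpen {w | w ∈ Kᶜ ∧ ¬ LogNear K w} := by
    rw [Metric.isOpen_iff]
    rintro w ⟨hw, hlog⟩
    obtain ⟨δ, hδ, hd⟩ := hloc w hw
    refine ⟨δ / 4, by positivity, ?_⟩
    intro w' hw'
    rw [mem_ball] at hw'
    refine ⟨?_, ?_⟩
    · intro hmem
      have := hd w' hmem
      linarith
    · intro hlog'
      exact hlog (LogNear.move hd hδ hw' (by rw [dist_self]; positivity) hlog')
  obtain ⟨R, hR⟩ := hK.isBounded.subset_ball (0 : ℂ)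
  have hfar : ∀ z ∈ K, ‖z‖ < ‖((max R 1 : ℝ) : ℂ)‖ := by
    intro z hz
    have h1 := hR hz
    rw [mem_ball_zero_iff] at h1
    rw [Complex.norm_real, Real.norm_of_nonneg (by positivity)]
    exact lt_of_lt_of_le h1 (le_max_left _ _)
  have hne : ((max R 1 : ℝ) : ℂ) ≠ 0 := by
    have : (0 : ℝ) < max R 1 := by positivity
    exact_mod_cast this.ne'
  have hfarK : ((max R 1 : ℝ) : ℂ) ∈ Kᶜ := by
    intro hmem
    exact lt_irrefl _ (hfar _ hmem)
  by_contra hcon
  obtain ⟨x, -, ⟨-, hx1⟩, ⟨-, hx2⟩⟩ := hKc _ _ hopen hopen'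
    (by
      intro w hw
      by_cases h : LogNear K w
      · exact Or.inl ⟨hw, h⟩
      · exact Or.inr ⟨hw, h⟩)
    ⟨_, hfarK, hfarK, logNear_far hfar hne⟩ ⟨a, ha, ha, hcon⟩
  exact hx2 hx1

end Pool.Agent.Carp
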