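import Mathlib
import Pool.Agent.Carp.Log
import Pool.Agent.Carp.Clopen

/-!
# A compact plane set whose components do not separate the plane does not separate the plane

Hypothesis `h`: for every `x ∈ C` there is a compact `K` with connected complement which contains
every preconnected subset of `C` through `x`.

Proof. Suppose `Cᶜ` is not preconnected. All points of large norm lie in one component of `Cᶜ`
(complement of a big ball is connected), so there are a point `a ∉ C` and a bounded open and closed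
(in `Cᶜ`) part: let `A = connectedComponentIn Cᶜ a` for a point `a` which is not joined to points of
large norm; `A` is open, bounded and `closure A ⊆ A ∪ C` (boundary points of a component of the
open set `Cᶜ` are not in `Cᶜ`).
1. `z - a` has a continuous logarithm on `C`: for `x ∈ C` let `K ⊆ C` be as in `h`; `a ∉ K`
   because `a ∉ C`. `exists_log_sub` gives an open `N ⊇ K` and a logarithm on `N`;
   `exists_clopen_nhds` gives a clopen part `C_x ∋ x` of `C` inside `N`. Finitely many `C_x` cover `C`;
   make them disjoint and glue the logarithms: `l : ℂ → ℂ`, continuous on `C`, with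
   `exp (l z) = z - a` on `C`.
2. Tietze: `L : ℂ → ℂ` continuous with `L = l` on `C`
   (`ContinuousMap.exists_restrict_eq` for real and imaginary part, `C` closed).
3. `h z = exp (L z)` for `z ∈ A ∪ C`... precisely: `h z = if z ∈ A then exp (L z) else z - a`.
   It is continuous (`closure A ⊆ A ∪ C`, and both formulas agree on `C`; `A` is open) and nonvanishing
   (`a ∈ A`). By `exists_log` it has a continuous logarithm `H` on the plane; on a circle
   `sphere a R` outside the bounded set `A` one has `exp (H z) = z - a`: contradiction to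
   `no_log_circle`.
-/

namespace Pool.Agent.Carp

open Set Metric Topology

/-- the complement of an open ball about the origin is preconnected -/
lemma ns_outer {R : ℝ} (hR : 0 < R) : IsPreconnected {z : ℂ | R ≤ ‖z‖} := by
  have h1 : IsPreconnected ({0}ᶜ : Set ℂ) :=
    (isConnected_compl_singleton_of_one_lt_rank (by rw [Complex.rank_real_complex]; norm_num)
      (0 : ℂ)).isPreconnected
  have h2 : (fun z : ℂ => ((max ‖z‖ R / ‖z‖ : ℝ) : ℂ) * z) '' ({0}ᶜ : Set ℂ) =
      {z : ℂ | R ≤ ‖z‖} := by
    ext w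
    constructor
    · rintro ⟨z, hz, rfl⟩
      have hz0 : 0 < ‖z‖ := norm_pos_iff.2 hz
      show R ≤ ‖((max ‖z‖ R / ‖z‖ : ℝ) : ℂ) * z‖
      rw [norm_mul, Complex.norm_real, Real.norm_of_nonneg (by positivity),
        div_mul_cancel₀ _ hz0.ne']
      exact le_max_right _ _
    · intro hw
      have hw' : R ≤ ‖w‖ := hw
      have hw0 : 0 < ‖w‖ := lt_of_lt_of_le hR hw'
      refine ⟨w, norm_pos_iff.1 hw0, ?_⟩
      show ((max ‖w‖ R / ‖w‖ : ℝ) : ℂ) * w = w
      rw [max_eq_left hw', div_self hw0.ne', Complex.ofReal_one, one_mul]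
  rw [← h2]
  refine h1.image _ ?_
  refine ContinuousOn.mul (Complex.continuous_ofReal.comp_continuousOn ?_) continuousOn_id
  refine ContinuousOn.div ?_ continuous_norm.continuousOn fun z hz => (norm_pos_iff.2 hz).ne'
  exact (continuous_norm.max continuous_const).continuousOn

/-- gluing the local logarithms -/
lemma ns_log {C : Set ℂ} (hC : IsCompact C)
    (h : ∀ x ∈ C, ∃ K ⊆ C, IsCompact K ∧ IsPreconnected Kᶜ ∧
      ∀ S ⊆ C, IsPreconnected S → x ∈ S → S ⊆ K) {a : ℂ} (ha : a ∉ C) :
    ∃ l : ℂ → ℂ, ContinuousOn l C ∧ ∀ z ∈ C, Complex.exp (l z) = z - a := by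
  have key : ∃ C' ⊆ C, IsCompact C' ∧ IsCompact (C \ C') ∧ C ⊆ C' ∧
      ∃ l : ℂ → ℂ, ContinuousOn l C' ∧ ∀ z ∈ C', Complex.exp (l z) = z - a := by
    refine hC.induction_on (p := fun s => ∃ C' ⊆ C, IsCompact C' ∧ IsCompact (C \ C') ∧ s ⊆ C' ∧
      ∃ l : ℂ → ℂ, ContinuousOn l C' ∧ ∀ z ∈ C', Complex.exp (l z) = z - a) ?_ ?_ ?_ ?_
    · refine ⟨∅, empty_subset _, isCompact_empty, by rwa [sdiff_empty], subset_rfl, fun _ => 0,
        continuousOn_const, fun z hz => absurd hz (notMem_empty z)⟩
    · rintro s t hst ⟨C', h1, h2, h3, h4, h5⟩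
      exact ⟨C', h1, h2, h3, hst.trans h4, h5⟩
    · rintro s t ⟨C1, a1, a2, a3, a4, l1, a5, a6⟩ ⟨C2, b1, b2, b3, b4, l2, b5, b6⟩
      classical
      refine ⟨C1 ∪ C2, union_subset a1 b1, a2.union b2, ?_, union_subset_union a4 b4,
        fun z => if z ∈ C1 then l1 z else l2 z, ?_, ?_⟩
      · have : C \ (C1 ∪ C2) = (C \ C1) ∩ (C \ C2) := by
          ext z
          simp only [mem_sdiff, mem_union, mem_inter_iff]
          tauto
        rw [this]
        exact a3.inter_right b3.isClosed
      · have e : C1 ∪ C2 = C1 ∪ (C2 ∩ (C \ C1)) := by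
          ext z
          simp only [mem_union, mem_inter_iff, mem_sdiff]
          constructor
          · rintro (hz | hz)
            · exact Or.inl hz
            · by_cases hz1 : z ∈ C1
              · exact Or.inl hz1
              · exact Or.inr ⟨hz, b1 hz, hz1⟩
          · rintro (hz | hz)
            · exact Or.inl hz
            · exact Or.inr hz.1
        rw [e]
        refine ContinuousOn.union_of_isClosed ?_ ?_ a2.isClosed
          (b2.isClosed.inter a3.isClosed)
        · exact a5.congr fun z hz => if_pos hz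
        · exact (b5.mono inter_subset_left).congr fun z hz => if_neg hz.2.2
      · intro z hz
        by_cases hz1 : z ∈ C1
        · show Complex.exp (if z ∈ C1 then l1 z else l2 z) = z - a
          rw [if_pos hz1]
          exact a6 z hz1
        · show Complex.exp (if z ∈ C1 then l1 z else l2 z) = z - a
          rw [if_neg hz1]
          exact b6 z (hz.resolve_left hz1)
    · intro x hx
      obtain ⟨K, hKC, hK, hKc, hKS⟩ := h x hx
      obtain ⟨N, hN, hKN, l, hl1, hl2⟩ := exists_log_sub hK hKc (fun haK => ha (hKC haK))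
      obtain ⟨C', C'', c1, c2, c3, c4, c5, c6⟩ := exists_clopen_nhds hC hx hN
        (fun S hS hpre hxS => (hKS S hS hpre hxS).trans hKN)
      have hC'C : C' ⊆ C := by
        rw [c4]
        exact subset_union_left
      have hdiff : C \ C' = C'' := by
        rw [c4, union_sdiff_left]
        exact c3.symm.sdiff_eq_left
      refine ⟨C', ?_, C', hC'C, c1, by rw [hdiff]; exact c2, subset_rfl, l, hl1.mono c6,
        fun z hz => hl2 z (c6 hz)⟩
      rw [mem_nhdsWithin]
      refine ⟨C''ᶜ, c2.isClosed.isOpen_compl, fun hc => disjoint_left.1 c3 c5 hc, ?_⟩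
      rintro z ⟨hz1, hz2⟩
      rw [c4] at hz2
      exact hz2.resolve_right hz1
  obtain ⟨C', h1, -, -, h2, l, h3, h4⟩ := key
  have e : C' = C := h1.antisymm h2
  rw [e] at h3 h4
  exact ⟨l, h3, h4⟩

theorem preconnected_compl {C : Set ℂ} (hC : IsCompact C)
    (h : ∀ x ∈ C, ∃ K ⊆ C, IsCompact K ∧ IsPreconnected Kᶜ ∧
      ∀ S ⊆ C, IsPreconnected S → x ∈ S → S ⊆ K) :
    IsPreconnected Cᶜ := by
  obtain ⟨R₀, hR₀, hCR⟩ : ∃ R₀ : ℝ, 0 < R₀ ∧ ∀ z ∈ C, ‖z‖ < R₀ := by
    obtain ⟨R, hR⟩ := hC.isBounded.exists_norm_le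
    refine ⟨max R 0 + 1, by positivity, fun z hz => ?_⟩
    have h1 := hR z hz
    have h2 := le_max_left R 0
    linarith
  set z₀ : ℂ := (R₀ : ℂ) with hz₀
  have hz₀n : ‖z₀‖ = R₀ := by
    rw [hz₀, Complex.norm_real, Real.norm_of_nonneg hR₀.le]
  have hE := ns_outer hR₀
  have hEC : {z : ℂ | R₀ ≤ ‖z‖} ⊆ Cᶜ := by
    intro z hz hzC
    have h1 : R₀ ≤ ‖z‖ := hz
    have h2 := hCR z hzC
    linarith
  have hz₀E : z₀ ∈ {z : ℂ | R₀ ≤ ‖z‖} := hz₀n.ge
  have hz₀C : z₀ ∈ Cᶜ := hEC hz₀E
  by_cases hall : ∀ a ∈ Cᶜ, a ∈ connectedComponentIn Cᶜ z₀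
  · have : Cᶜ = connectedComponentIn Cᶜ z₀ :=
      Subset.antisymm (fun a ha => hall a ha) (connectedComponentIn_subset _ _)
    rw [this]
    exact isPreconnected_connectedComponentIn
  exfalso
  push Not at hall
  obtain ⟨a, haC, haz⟩ := hall
  have hCo : IsOpen Cᶜ := hC.isClosed.isOpen_compl
  set A := connectedComponentIn Cᶜ a with hA
  have hAo : IsOpen A := hCo.connectedComponentIn
  have haA : a ∈ A := mem_connectedComponentIn haC
  have hAE : ∀ z ∈ A, ‖z‖ < R₀ := by
    intro z hz
    by_contra hc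
    have hzE : z ∈ {z : ℂ | R₀ ≤ ‖z‖} := not_lt.1 hc
    have h1 : {z : ℂ | R₀ ≤ ‖z‖} ⊆ connectedComponentIn Cᶜ z :=
      hE.subset_connectedComponentIn hzE hEC
    rw [← connectedComponentIn_eq hz] at h1
    have h2 : z₀ ∈ connectedComponentIn Cᶜ a := h1 hz₀E
    apply haz
    rw [← connectedComponentIn_eq h2]
    exact haA
  have hcl : closure A ⊆ A ∪ C := by
    intro z hz
    by_cases hzC : z ∈ C
    · exact Or.inr hzC
    · left
      have h1 : IsOpen (connectedComponentIn Cᶜ z) := hCo.connectedComponentIn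
      have h2 : z ∈ connectedComponentIn Cᶜ z := mem_connectedComponentIn hzC
      obtain ⟨w, hw1, hw2⟩ := mem_closure_iff.1 hz _ h1 h2
      have e1 := connectedComponentIn_eq hw1
      have e2 := connectedComponentIn_eq hw2
      rw [hA, e2, ← e1]
      exact h2
  have haC' : a ∉ C := haC
  obtain ⟨l, hl1, hl2⟩ := ns_log hC h haC'
  obtain ⟨L, hL⟩ := ContinuousMap.exists_restrict_eq hC.isClosed
    (⟨C.restrict l, continuousOn_iff_continuous_restrict.1 hl1⟩ : C(C, ℂ))
  have hLl : ∀ z ∈ C, L z = l z := by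
    intro z hz
    have h1 := congrArg (fun g : C(C, ℂ) => g ⟨z, hz⟩) hL
    exact h1
  classical
  have hcont : Continuous (fun z => if z ∈ A then Complex.exp (L z) else z - a) := by
    refine Continuous.if ?_ (Complex.continuous_exp.comp L.continuous)
      (continuous_id.sub continuous_const)
    intro z hz
    have h1 : z ∈ frontier A := hz
    have h2 : z ∈ C := by
      have h3 : z ∉ A := by
        rw [hAo.frontier_eq] at h1
        exact h1.2
      exact (hcl (frontier_subset_closure h1)).resolve_left h3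
    show Complex.exp (L z) = z - a
    rw [hLl z h2]
    exact hl2 z h2
  have hne : ∀ z, (if z ∈ A then Complex.exp (L z) else z - a) ≠ 0 := by
    intro z
    by_cases hz : z ∈ A
    · rw [if_pos hz]
      exact Complex.exp_ne_zero _
    · rw [if_neg hz]
      intro h0
      apply hz
      rw [sub_eq_zero.1 h0]
      exact haA
  obtain ⟨H, hH1, hH2⟩ := exists_log hcont hne
  have hRpos : 0 < ‖a‖ + R₀ + 1 := by positivity
  refine no_log_circle a (‖a‖ + R₀ + 1) hRpos H hH1.continuousOn ?_
  intro z hz
  have h1 : ‖z - a‖ = ‖a‖ + R₀ + 1 := by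
    rw [mem_sphere, dist_eq_norm] at hz
    exact hz
  have h2 : z ∉ A := by
    intro hzA
    have h3 := hAE z hzA
    have h4 := norm_sub_le z a
    linarith
  have h5 := hH2 z
  rw [if_neg h2] at h5
  exact h5

end Pool.Agent.Carp
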