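import Mathlib
import Pool.Agent.Carp.Log

/-!
# A compact set with connected complement does not separate a domain containing it

Proof. Suppose `W \ C` is the union of two disjoint nonempty open sets `A ∋ a`, `B ∋ b` (`W \ C` is
open). `Cᶜ` is open and preconnected, hence path connected: there is a compact connected
`L ⊆ Cᶜ` with `a, b ∈ L`. Choose `ρ > 0` such that the distance of `C` to `L ∪ Wᶜ` is `≥ ρ`
(`C` nonempty, otherwise trivial; `IsCompact.exists_infDist…` / `exists_pos_forall_lt_edist`). Let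
`u z = min 1 (2 * infDist z C / ρ)`, continuous, `u = 0` on `C`, `u = 1` where `infDist z C ≥ ρ / 2`.
Put `g z = u z` for `z ∈ A`, `g z = - u z` for `z ∈ B`, `g z = 0` for `z ∈ C` (so `g : W → [-1, 1]` is
continuous on `W`, because `|g| = u` tends to `0` at `C`), and
`h z = exp (π I g z)` for `z ∈ W`, `h z = -1` for `z ∉ W`. `h` is continuous on the plane: on `W`
clear; near a point outside `W`, `infDist > ρ/2`, so `g = ± 1` and `h = -1`. By `exists_log` (or
directly) there is a continuous `G : ℂ → ℂ` with `exp (π I G z) = h z`. On `W`, `G - g` takes values in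
`2 ℤ` and is continuous, so it is a constant (`W` preconnected). On `L`, `h = -1`
(points of `L` have distance `≥ ρ` from `C`, so `g = ±1` there if they are in `W`), so `G` takes
values in the odd integers and is constant on `L`: `G a = G b`. Hence `g a = g b`, but `g a = 1`,
`g b = -1`.
-/

namespace Pool.Agent.Carp

open Set Metric Topology

/-- a continuous integer valued real function on a preconnected set is constant -/
theorem nonSepDom_int_const {S : Set ℂ} (hS : IsPreconnected S) {f : ℂ → ℝ}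
    (hf : ContinuousOn f S) (hi : ∀ z ∈ S, ∃ n : ℤ, f z = n) {x y : ℂ} (hx : x ∈ S)
    (hy : y ∈ S) : f x = f y := by
  have key : ∀ x ∈ S, ∀ y ∈ S, ¬ f x < f y := by
    intro x hx y hy hlt
    have h1 := (hS.image f hf).Icc_subset (mem_image_of_mem f hx) (mem_image_of_mem f hy)
    obtain ⟨n, hn⟩ := hi x hx
    obtain ⟨m, hm⟩ := hi y hy
    have hnm : (n : ℝ) < m := by rw [← hn, ← hm]; exact hlt
    have hnm' : n + 1 ≤ m := by
      have : n < m := by exact_mod_cast hnm
      omega
    have hnm'' : (n : ℝ) + 1 ≤ m := by exact_mod_cast hnm'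
    have h2 : (n : ℝ) + 1 / 2 ∈ Icc (f x) (f y) := by
      rw [hn, hm]
      constructor <;> linarith
    obtain ⟨z, hz, hz2⟩ := h1 h2
    obtain ⟨k, hk⟩ := hi z hz
    rw [hk] at hz2
    have h3 : (2 * k : ℝ) = 2 * n + 1 := by linarith
    have h4 : (2 * k : ℤ) = 2 * n + 1 := by exact_mod_cast h3
    omega
  rcases lt_trichotomy (f x) (f y) with h | h | h
  · exact absurd h (key x hx y hy)
  · exact h
  · exact absurd h (key y hy x hx)

theorem nonSepDom_exp_pi : Complex.exp (Real.pi * Complex.I * (1 : ℝ)) = -1 := by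
  simp

theorem nonSepDom_exp_neg_pi : Complex.exp (Real.pi * Complex.I * (-1 : ℝ)) = -1 := by
  have h : (Real.pi * Complex.I * ((-1 : ℝ) : ℂ)) = -(Real.pi * Complex.I) := by
    push_cast
    ring
  rw [h, Complex.exp_neg, Complex.exp_pi_mul_I]
  norm_num

theorem preconnected_diff {W C : Set ℂ} (hW : IsOpen W) (hWc : IsPreconnected W)
    (hC : IsCompact C) (hCW : C ⊆ W) (hCc : IsPreconnected Cᶜ) : IsPreconnected (W \ C) := by
  classical
  rcases C.eq_empty_or_nonempty with hCe | hCne
  · rw [hCe, Set.sdiff_empty]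
    exact hWc
  intro u v hu hv hsub ⟨a, ha, hau⟩ ⟨b, hb, hbv⟩
  by_contra hne
  have hdis : ∀ z ∈ W \ C, z ∈ u → z ∈ v → False := fun z hz h1 h2 => hne ⟨z, hz, h1, h2⟩
  have hWC : IsOpen (W \ C) := hW.sdiff hC.isClosed
  -- the path
  have hCo : IsOpen Cᶜ := hC.isClosed.isOpen_compl
  have hCcon : IsConnected Cᶜ := ⟨⟨a, ha.2⟩, hCc⟩
  have hpath : IsPathConnected Cᶜ := (hCo.isConnected_iff_isPathConnected).1 hCcon
  obtain ⟨γ, hγ⟩ := hpath.joinedIn a ha.2 b hb.2
  obtain ⟨L, hL⟩ : ∃ L : Set ℂ, L = range γ := ⟨_, rfl⟩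
  have hLc : IsCompact L := by rw [hL]; exact isCompact_range γ.continuous
  have hLp : IsPreconnected L := by rw [hL]; exact isPreconnected_range γ.continuous
  have haL : a ∈ L := by rw [hL]; exact ⟨0, γ.source⟩
  have hbL : b ∈ L := by rw [hL]; exact ⟨1, γ.target⟩
  have hLC : ∀ z ∈ L, z ∉ C := by
    rintro z hz hzC
    rw [hL] at hz
    obtain ⟨t, rfl⟩ := hz
    exact hγ t hzC
  -- the distance
  have hdisj : Disjoint C (L ∪ Wᶜ) := by
    rw [Set.disjoint_left]
    rintro z hz (h | h)
    · exact hLC z h hz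
    · exact h (hCW hz)
  have hclosed : IsClosed (L ∪ Wᶜ) := hLc.isClosed.union hW.isClosed_compl
  obtain ⟨r, hr0, hr⟩ := Metric.exists_pos_forall_lt_edist hC hclosed hdisj
  obtain ⟨ρ, hρ⟩ : ∃ ρ : ℝ, ρ = (r : ℝ) := ⟨_, rfl⟩
  have hρ0 : 0 < ρ := by rw [hρ]; exact_mod_cast hr0
  have hdist : ∀ z ∈ L ∪ Wᶜ, ρ ≤ infDist z C := by
    intro z hz
    rw [le_infDist hCne]
    intro w hw
    have h1 := hr w hw z hz
    rw [edist_dist, dist_comm] at h1
    have h2 : ENNReal.ofReal ρ < ENNReal.ofReal (dist z w) := by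
      rw [hρ, ENNReal.ofReal_coe_nnreal]
      exact h1
    exact (ENNReal.ofReal_lt_ofReal_iff_of_nonneg hρ0.le).1 h2 |>.le
  -- the function nu
  obtain ⟨ν, hν⟩ : ∃ ν : ℂ → ℝ, ν = fun z => min 1 (2 * infDist z C / ρ) := ⟨_, rfl⟩
  have hνc : Continuous ν := by
    rw [hν]
    exact continuous_const.min ((continuous_const.mul (continuous_infDist_pt C)).div_const ρ)
  have hν1 : ∀ z, ρ / 2 ≤ infDist z C → ν z = 1 := by
    intro z hz
    rw [hν]
    refine min_eq_left ?_
    rw [le_div_iff₀ hρ0]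
    linarith
  have hν0 : ∀ z ∈ C, ν z = 0 := by
    intro z hz
    rw [hν]
    simp only
    rw [infDist_zero_of_mem hz, mul_zero, zero_div]
    exact min_eq_right zero_le_one
  have hνnn : ∀ z, 0 ≤ ν z := by
    intro z
    rw [hν]
    exact le_min zero_le_one (div_nonneg (mul_nonneg two_pos.le infDist_nonneg) hρ0.le)
  -- the function g
  obtain ⟨A, hA⟩ : ∃ A : Set ℂ, A = (W \ C) ∩ u := ⟨_, rfl⟩
  obtain ⟨B, hB⟩ : ∃ B : Set ℂ, B = (W \ C) ∩ v := ⟨_, rfl⟩
  have hAo : IsOpen A := by rw [hA]; exact hWC.inter hu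
  have hBo : IsOpen B := by rw [hB]; exact hWC.inter hv
  have hAB : ∀ z ∈ A, z ∉ B := by
    intro z hz hz2
    rw [hA] at hz
    rw [hB] at hz2
    exact hdis z hz.1 hz.2 hz2.2
  have hcov : ∀ z ∈ W, z ∉ C → z ∈ A ∨ z ∈ B := by
    intro z hz hz2
    rcases hsub ⟨hz, hz2⟩ with h | h
    · left; rw [hA]; exact ⟨⟨hz, hz2⟩, h⟩
    · right; rw [hB]; exact ⟨⟨hz, hz2⟩, h⟩
  obtain ⟨g, hg⟩ : ∃ g : ℂ → ℝ, g = fun z => if z ∈ A then ν z else if z ∈ B then -ν z else 0 :=
    ⟨_, rfl⟩
  have hgA : ∀ z ∈ A, g z = ν z := by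
    intro z hz
    rw [hg]
    exact if_pos hz
  have hgB : ∀ z ∈ B, g z = -ν z := by
    intro z hz
    rw [hg]
    simp only
    rw [if_neg (fun h => hAB z h hz), if_pos hz]
  have hgabs : ∀ z, |g z| ≤ ν z := by
    intro z
    rw [hg]
    simp only
    split_ifs
    · rw [abs_of_nonneg (hνnn z)]
    · rw [abs_neg, abs_of_nonneg (hνnn z)]
    · rw [abs_zero]; exact hνnn z
  have hgc : ∀ z ∈ W, ContinuousAt g z := by
    intro z hz
    by_cases hzC : z ∈ C
    · have h1 : g z = 0 := by
        have := hgabs z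
        rw [hν0 z hzC] at this
        exact abs_eq_zero.1 (le_antisymm this (abs_nonneg _))
      rw [ContinuousAt, h1]
      refine squeeze_zero_norm (a := ν) (fun w => by rw [Real.norm_eq_abs]; exact hgabs w) ?_
      have := hνc.tendsto z
      rwa [hν0 z hzC] at this
    · rcases hcov z hz hzC with h | h
      · refine (hνc.continuousAt).congr ?_
        filter_upwards [hAo.mem_nhds h] with w hw
        exact (hgA w hw).symm
      · refine (hνc.neg.continuousAt).congr ?_
        filter_upwards [hBo.mem_nhds h] with w hw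
        exact (hgB w hw).symm
  have hexp : ∀ z, z ∉ C → z ∈ W → ρ / 2 ≤ infDist z C →
      Complex.exp (Real.pi * Complex.I * (g z : ℂ)) = -1 := by
    intro z hz hzW hz2
    rcases hcov z hzW hz with h | h
    · rw [hgA z h, hν1 z hz2]
      exact nonSepDom_exp_pi
    · rw [hgB z h, hν1 z hz2]
      exact nonSepDom_exp_neg_pi
  have hnotC : ∀ z, ρ / 2 ≤ infDist z C → z ∉ C := by
    intro z hz hzC
    rw [infDist_zero_of_mem hzC] at hz
    linarith
  -- the function h
  obtain ⟨h, hh⟩ : ∃ h : ℂ → ℂ, h = fun z => if z ∈ W then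
    Complex.exp (Real.pi * Complex.I * (g z : ℂ)) else -1 := ⟨_, rfl⟩
  have hhW : ∀ z ∈ W, h z = Complex.exp (Real.pi * Complex.I * (g z : ℂ)) := by
    intro z hz
    rw [hh]
    exact if_pos hz
  have hh1 : ∀ z, ρ / 2 ≤ infDist z C → h z = -1 := by
    intro z hz
    by_cases hzW : z ∈ W
    · rw [hhW z hzW]
      exact hexp z (hnotC z hz) hzW hz
    · rw [hh]
      exact if_neg hzW
  have hhc : Continuous h := by
    rw [continuous_iff_continuousAt]
    intro z
    by_cases hzW : z ∈ W
    · have h1 : ContinuousAt (fun z => Complex.exp (Real.pi * Complex.I * (g z : ℂ))) z := by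
        refine Complex.continuous_exp.continuousAt.comp ?_
        refine continuousAt_const.mul ?_
        exact Complex.continuous_ofReal.continuousAt.comp (hgc z hzW)
      refine h1.congr ?_
      filter_upwards [hW.mem_nhds hzW] with w hw
      exact (hhW w hw).symm
    · have h2 : ρ ≤ infDist z C := hdist z (Or.inr hzW)
      have h3 : ∀ᶠ w in 𝓝 z, ρ / 2 < infDist w C :=
        (continuous_infDist_pt C).continuousAt.eventually_const_lt (by linarith)
      refine (continuousAt_const (y := (-1 : ℂ))).congr ?_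
      filter_upwards [h3] with w hw
      exact (hh1 w hw.le).symm
  have hh0 : ∀ z, h z ≠ 0 := by
    intro z
    by_cases hzW : z ∈ W
    · rw [hhW z hzW]
      exact Complex.exp_ne_zero _
    · rw [hh]
      simp only
      rw [if_neg hzW]
      norm_num
  obtain ⟨H, hHc, hH⟩ := exists_log hhc hh0
  have hpi : (2 * Real.pi : ℂ) * Complex.I ≠ 0 := Complex.two_pi_I_ne_zero
  -- constant on W
  have hW1 : ∀ z ∈ W, ∃ n : ℤ, H z - Real.pi * Complex.I * (g z : ℂ) =
      n * (2 * Real.pi * Complex.I) := by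
    intro z hz
    have h1 := hH z
    rw [hhW z hz, Complex.exp_eq_exp_iff_exists_int] at h1
    obtain ⟨n, hn⟩ := h1
    exact ⟨n, by rw [hn]; ring⟩
  have hL1 : ∀ z ∈ L, ∃ n : ℤ, H z - Real.pi * Complex.I = n * (2 * Real.pi * Complex.I) := by
    intro z hz
    have h1 := hH z
    have h2 : ρ ≤ infDist z C := hdist z (Or.inl hz)
    rw [hh1 z (by linarith), ← Complex.exp_pi_mul_I, Complex.exp_eq_exp_iff_exists_int] at h1
    obtain ⟨n, hn⟩ := h1
    exact ⟨n, by rw [hn]; ring⟩
  have hcW : ((H a - Real.pi * Complex.I * (g a : ℂ)) / (2 * Real.pi * Complex.I)).re =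
      ((H b - Real.pi * Complex.I * (g b : ℂ)) / (2 * Real.pi * Complex.I)).re := by
    refine nonSepDom_int_const (f := fun z =>
      ((H z - Real.pi * Complex.I * (g z : ℂ)) / (2 * Real.pi * Complex.I)).re) hWc ?_ ?_
      ha.1 hb.1
    · intro z hz
      refine ContinuousAt.continuousWithinAt ?_
      refine Complex.continuous_re.continuousAt.comp ?_
      refine ContinuousAt.div_const ?_ _
      refine hHc.continuousAt.sub (continuousAt_const.mul ?_)
      exact Complex.continuous_ofReal.continuousAt.comp (hgc z hz)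
    · intro z hz
      obtain ⟨n, hn⟩ := hW1 z hz
      refine ⟨n, ?_⟩
      rw [hn, mul_div_assoc, div_self hpi, mul_one]
      exact Complex.intCast_re n
  have hcL : ((H a - Real.pi * Complex.I) / (2 * Real.pi * Complex.I)).re =
      ((H b - Real.pi * Complex.I) / (2 * Real.pi * Complex.I)).re := by
    refine nonSepDom_int_const (f := fun z =>
      ((H z - Real.pi * Complex.I) / (2 * Real.pi * Complex.I)).re) hLp ?_ ?_ haL hbL
    · refine Continuous.continuousOn ?_
      exact Complex.continuous_re.comp ((hHc.sub continuous_const).div_const _)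
    · intro z hz
      obtain ⟨n, hn⟩ := hL1 z hz
      refine ⟨n, ?_⟩
      rw [hn, mul_div_assoc, div_self hpi, mul_one]
      exact Complex.intCast_re n
  have hga : g a = 1 := by
    have h1 : a ∈ A := by rw [hA]; exact ⟨ha, hau⟩
    have h2 : ρ ≤ infDist a C := hdist a (Or.inl haL)
    rw [hgA a h1, hν1 a (by linarith)]
  have hgb : g b = -1 := by
    have h1 : b ∈ B := by rw [hB]; exact ⟨hb, hbv⟩
    have h2 : ρ ≤ infDist b C := hdist b (Or.inl hbL)
    rw [hgB b h1, hν1 b (by linarith)]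
  have e1 : ∀ z, ((H z - Real.pi * Complex.I * (g z : ℂ)) / (2 * Real.pi * Complex.I)) =
      (H z - Real.pi * Complex.I) / (2 * Real.pi * Complex.I) + (((1 - g z) / 2 : ℝ) : ℂ) := by
    intro z
    have hpi0 : (Real.pi : ℂ) ≠ 0 := by exact_mod_cast Real.pi_ne_zero
    have hI := Complex.I_ne_zero
    push_cast
    field_simp
    ring
  rw [e1 a, e1 b, Complex.add_re, Complex.add_re, Complex.ofReal_re, Complex.ofReal_re, hcL, hga,
    hgb] at hcW
  norm_num at hcW

end Pool.Agent.Carp
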