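import Mathlib
import Pool.Agent.Carp.Rel
import Pool.Agent.Carp.RA
import Pool.Agent.Carp.RB
import Pool.Agent.Carp.Clopen
import Pool.Agent.Carp.NonSep
import Pool.Agent.Carp.NonSepDom

/-!
# Removing the bad set from a connected open union of classes leaves a preconnected set

Let `C = ZR B r q n ∪ {y | r z y}` (compact, union of classes, preconnected subsets lie in classes),
`U ∈ GR B r`, `x, y ∈ U \ C`. It suffices to find a preconnected subset of `U \ C` containing `x, y`
(`isPreconnected_of_forall_pair`).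
1. `U` is open and connected, so path connected; let `L ⊆ U` be compact and connected with
   `x, y ∈ L`; `sL = {v | ∃ u ∈ L, r u v}` is compact, `L ⊆ sL ⊆ U`.
2. `A₁ = C ∩ sL` and `A₂ = C \ U` are compact subsets of `C`, and no preconnected `S ⊆ C` meets both:
   `S` lies in one class (`ZR_comp`), the class of a point of `sL ⊆ U` is contained in `U`.
   `exists_clopen_split`: `C = C' ⊔ C''`, `C ∩ sL ⊆ C'`, `C \ U ⊆ C''`; so `C' ⊆ U` and `L ∩ C'' = ∅`.
3. `W = connectedComponentIn (U \ C'') x` is open, connected, contains `L`. `C₁ = C' ∩ W` is compact: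
   it is closed in `C'` since `W` is closed in `U \ C'' ⊇ C'`
   (`C' ∩ W = C' \ (U \ C'' \ W)`, and `U \ C'' \ W` is a union of components, so open).
4. `preconnected_compl` for `C₁`: for `v ∈ C₁` take `K = {w | r v w}`: `K ⊆ C₁` (the class is connected
   and contained in `C`, hence in `C'` because it meets `C'` and `C = C' ⊔ C''` is a partition in
   compact sets, and `K ⊆ U \ C''` meets `W`, so `K ⊆ W`), `K` compact, `hr.full`, and `ZR_comp`.
   So `C₁ᶜ` is preconnected.
5. `preconnected_diff` for `W`, `C₁`: `W \ C₁` is preconnected; `W \ C₁ = W \ C ⊆ U \ C` and it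
   contains `x, y`.
-/

namespace Pool.Agent.Carp

open Set Metric Topology

theorem diff_ZR_preconnected {B : Set ℂ} {r : ℂ → ℂ → Prop} (hr : FullRel B r) (q : ℕ → ℂ)
    (n : ℕ) (z : ℂ) {U : Set ℂ} (hU : U ∈ GR B r) :
    IsPreconnected (U \ (ZR B r q n ∪ {y | r z y})) := by
  obtain ⟨hUo, hUc, hUB, hUs⟩ := hU
  have hpre : PreRel B r := hr.toPreRel
  set C : Set ℂ := ZR B r q n ∪ {y | r z y} with hC
  have hCc : IsCompact C := (isCompact_ZR hpre q n).union (isCompact_cl hpre z)
  have hCs : ∀ x ∈ C, ∀ y, r x y → y ∈ C := by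
    rintro x (hx | hx) y hxy
    · exact Or.inl (ZR_sat hpre q n x hx y hxy)
    · exact Or.inr (hpre.trans _ _ _ hx hxy)
  refine isPreconnected_of_forall_pair ?_
  rintro x ⟨hxU, hxC⟩ y ⟨hyU, hyC⟩
  have hpath : IsPathConnected U := (hUo.isConnected_iff_isPathConnected).mp hUc
  obtain ⟨γ, hγ⟩ := hpath.joinedIn x hxU y hyU
  set L : Set ℂ := range γ with hL
  have hLc : IsCompact L := isCompact_range γ.continuous
  have hLp : IsPreconnected L := isPreconnected_range γ.continuous
  have hLU : L ⊆ U := by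
    rintro _ ⟨t, rfl⟩
    exact hγ t
  have hxL : x ∈ L := ⟨0, γ.source⟩
  have hyL : y ∈ L := ⟨1, γ.target⟩
  obtain ⟨C', C'', k1, k2, k3, k4, k5, k6⟩ := exists_clopen_split (C := C) (A₁ := C ∩ L)
    (A₂ := C \ U) hCc (hCc.inter hLc) (hCc.diff hUo) inter_subset_left sdiff_subset (by
      rintro S hS hSp ⟨a, haS, -, haL⟩ ⟨e, heS, -, heU⟩
      exact heU (hUs a (hLU haL) e (ZR_comp hpre q n z hS hSp a haS e heS)))
  have hC'C : C' ⊆ C := by rw [k4]; exact subset_union_left
  have hC'U : C' ⊆ U := by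
    intro c hc
    by_contra hcU
    exact Set.disjoint_left.mp k3 hc (k6 ⟨hC'C hc, hcU⟩)
  have hLC'' : ∀ l ∈ L, l ∉ C'' := by
    intro l hl hl2
    have : l ∈ C := by rw [k4]; exact Or.inr hl2
    exact Set.disjoint_left.mp k3 (k5 ⟨this, hl⟩) hl2
  set Y : Set ℂ := U \ C'' with hY
  have hYo : IsOpen Y := hUo.sdiff k2.isClosed
  have hLY : L ⊆ Y := fun l hl => ⟨hLU hl, hLC'' l hl⟩
  have hC'Y : C' ⊆ Y := fun c hc => ⟨hC'U hc, fun h => Set.disjoint_left.mp k3 hc h⟩
  have hxY : x ∈ Y := hLY hxL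
  set W : Set ℂ := connectedComponentIn Y x with hW
  have hWo : IsOpen W := hYo.connectedComponentIn
  have hWp : IsPreconnected W := isPreconnected_connectedComponentIn
  have hWY : W ⊆ Y := connectedComponentIn_subset _ _
  have hLW : L ⊆ W := hLp.subset_connectedComponentIn hxL hLY
  set O : Set ℂ := Y \ W with hO
  have hOo : IsOpen O := by
    rw [isOpen_iff_mem_nhds]
    rintro w ⟨hwY, hwW⟩
    refine Filter.mem_of_superset ((hYo.connectedComponentIn (x := w)).mem_nhds
      (mem_connectedComponentIn hwY)) ?_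
    intro p hp
    refine ⟨connectedComponentIn_subset _ _ hp, fun hpW => hwW ?_⟩
    have e1 := connectedComponentIn_eq hp
    have e2 := connectedComponentIn_eq hpW
    rw [hW, e2, ← e1]
    exact mem_connectedComponentIn hwY
  set C₁ : Set ℂ := C' ∩ W with hC₁
  have hC₁c : IsCompact C₁ := by
    have : C₁ = C' \ O := by
      ext c
      constructor
      · rintro ⟨h1, h2⟩
        exact ⟨h1, fun h => h.2 h2⟩
      · rintro ⟨h1, h2⟩
        refine ⟨h1, ?_⟩
        by_contra hcW
        exact h2 ⟨hC'Y h1, hcW⟩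
    rw [this]
    exact k1.diff hOo
  have hC₁p : IsPreconnected C₁ᶜ := by
    refine preconnected_compl hC₁c ?_
    intro v hv
    have hvU : v ∈ U := (hWY hv.2).1
    have hvB : v ∈ B := interior_subset (hUB hvU)
    have hvv : r v v := hpre.refl v hvB
    have hKp : IsPreconnected {w | r v w} := (hpre.conn v hvB).isPreconnected
    have hKC : {w | r v w} ⊆ C := fun w hw => hCs v (hC'C hv.1) w hw
    have hKC' : {w | r v w} ⊆ C' := by
      have h1 := isPreconnected_iff_subset_of_disjoint_closed.mp hKp C' C'' k1.isClosed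
        k2.isClosed (by rw [← k4]; exact hKC) (by
          rw [Set.disjoint_iff_inter_eq_empty.mp k3, inter_empty])
      rcases h1 with h1 | h1
      · exact h1
      · exact absurd (h1 hvv) (Set.disjoint_left.mp k3 hv.1)
    have hKW : {w | r v w} ⊆ W := by
      have h1 := hKp.subset_connectedComponentIn (F := Y) (x := v) hvv (hKC'.trans hC'Y)
      have e2 := connectedComponentIn_eq hv.2
      rw [hW, e2]
      exact h1
    refine ⟨{w | r v w}, fun w hw => ⟨hKC' hw, hKW hw⟩, isCompact_cl hpre v, hr.full v hvB, ?_⟩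
    intro S hS hSp hvS w hw
    exact ZR_comp hpre q n z (hS.trans (inter_subset_left.trans hC'C)) hSp v hvS w hw
  have hfin := preconnected_diff hWo hWp hC₁c inter_subset_right hC₁p
  refine ⟨W \ C₁, ?_, ⟨hLW hxL, fun h => hxC (hC'C h.1)⟩, ⟨hLW hyL, fun h => hyC (hC'C h.1)⟩, hfin⟩
  rintro w ⟨hw1, hw2⟩
  refine ⟨(hWY hw1).1, fun hwC => hw2 ?_⟩
  rw [k4] at hwC
  rcases hwC with h | h
  · exact ⟨h, hw1⟩
  · exact absurd h (hWY hw1).2

end Pool.Agent.Carp
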