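import Mathlib
import Pool.Agent.Carp.Rel
import Pool.Agent.Carp.RA
import Pool.Agent.Carp.RB

/-!
# Small connected unions of classes

* `diff_ZR_nonempty`: let `x ∈ U`, `W = connectedComponentIn U x ∈ GR B r`. If
  `W ⊆ ZR B r q n ∪ {y | r z y}` then `W` lies in one class (`ZR_comp`), and contains the class of each
  of its points, so `W` is a class: compact, open, nonempty, so `W = univ`, contradiction with
  `W ⊆ B` compact.
* `exists_small`: let `T = {y | r w y}`, compact, connected, `T ⊆ U`, `diam T < 1/(n+1)` as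
  `w ∈ B \ ZR`. Choose `η > 0` with `cthickening η T ⊆ U` and `diam T + 2 η ≤ 2/(n+1)`. Let
  `O = thickening η T`, `O' = {x | x ∈ O ∧ ∀ y, r x y → y ∈ O}` (open, `isOpen_star`, union of classes),
  `V = connectedComponentIn O' w` (`component_mem_GR`). `closure V ⊆ closure O ⊆ cthickening η T ⊆ U`,
  `diam V ≤ diam T + 2 η` (`diam_thickening_le`).
-/

namespace Pool.Agent.Carp

open Set Metric Topology

theorem diff_ZR_nonempty {B : Set ℂ} {r : ℂ → ℂ → Prop} (hr : PreRel B r) (q : ℕ → ℂ)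
    (n : ℕ) (z : ℂ) {U : Set ℂ} (hU : IsOpen U) (hUB : U ⊆ interior B)
    (hs : ∀ x ∈ U, ∀ y, r x y → y ∈ U) (hne : U.Nonempty) :
    (U \ (ZR B r q n ∪ {y | r z y})).Nonempty := by
  by_contra hcon
  rw [not_nonempty_iff_eq_empty, Set.sdiff_eq_empty] at hcon
  obtain ⟨x, hx⟩ := hne
  obtain ⟨hWo, hWc, hWB, hWs⟩ := component_mem_GR hr hU hUB hs hx
  have hxW : x ∈ connectedComponentIn U x := mem_connectedComponentIn hx
  have hcomp := ZR_comp hr q n z ((connectedComponentIn_subset U x).trans hcon)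
    hWc.isPreconnected
  have heq : connectedComponentIn U x = {y | r x y} := by
    apply Subset.antisymm
    · intro y hy
      exact hcomp x hxW y hy
    · intro y hy
      exact hWs x hxW y hy
  have hK : IsCompact (connectedComponentIn U x) := by
    rw [heq]
    exact isCompact_cl hr x
  rcases isClopen_iff.1 ⟨hK.isClosed, hWo⟩ with h | h
  · rw [h] at hxW
    exact hxW
  · rw [h] at hK
    exact noncompact_univ ℂ hK

theorem exists_small {B : Set ℂ} {r : ℂ → ℂ → Prop} (hr : PreRel B r) (q : ℕ → ℂ)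
    (n : ℕ) {U : Set ℂ} (hU : IsOpen U) (hUB : U ⊆ interior B)
    (hs : ∀ x ∈ U, ∀ y, r x y → y ∈ U) {w : ℂ} (hw : w ∈ U) (hwZ : w ∉ ZR B r q n) :
    ∃ V ∈ GR B r, w ∈ V ∧ closure V ⊆ U ∧ diam V ≤ 2 / ((n : ℝ) + 1) := by
  have hwB : w ∈ B := interior_subset (hUB hw)
  have hTc : IsCompact {y | r w y} := isCompact_cl hr w
  have hTU : {y | r w y} ⊆ U := fun y hy => hs w hw y hy
  have hn : (0 : ℝ) < (n : ℝ) + 1 := by positivity
  have hT : diam {y | r w y} < 1 / ((n : ℝ) + 1) := by
    by_contra hc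
    exact hwZ (Or.inl ⟨hwB, not_lt.1 hc⟩)
  obtain ⟨δ, hδ, hδU⟩ := hTc.exists_cthickening_subset_open hU hTU
  obtain ⟨η, hη, hηδ, hηn⟩ : ∃ η : ℝ, 0 < η ∧ η ≤ δ ∧ 2 * η ≤ 1 / ((n : ℝ) + 1) := by
    refine ⟨min δ (1 / ((n : ℝ) + 1) / 2), lt_min hδ (by positivity), min_le_left _ _, ?_⟩
    have := min_le_right δ (1 / ((n : ℝ) + 1) / 2)
    linarith
  have hcU : cthickening η {y | r w y} ⊆ U := (cthickening_mono hηδ _).trans hδU
  have hOU : thickening η {y | r w y} ⊆ U := (thickening_subset_cthickening η _).trans hcU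
  have hOB : thickening η {y | r w y} ⊆ B := hOU.trans (hUB.trans interior_subset)
  have hTO : {y | r w y} ⊆ thickening η {y | r w y} := self_subset_thickening hη _
  have hO' := isOpen_star hr (isOpen_thickening (δ := η) (E := {y | r w y})) hOB
  have hO'O : {x | x ∈ thickening η {y | r w y} ∧ ∀ y, r x y → y ∈ thickening η {y | r w y}} ⊆
      thickening η {y | r w y} := fun x hx => hx.1
  have hO's : ∀ x ∈ {x | x ∈ thickening η {y | r w y} ∧
      ∀ y, r x y → y ∈ thickening η {y | r w y}}, ∀ y, r x y →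
      y ∈ {x | x ∈ thickening η {y | r w y} ∧ ∀ y, r x y → y ∈ thickening η {y | r w y}} := by
    intro x hx y hy
    exact ⟨hx.2 y hy, fun y' hy' => hx.2 y' (hr.trans x y y' hy hy')⟩
  have hwO' : w ∈ {x | x ∈ thickening η {y | r w y} ∧
      ∀ y, r x y → y ∈ thickening η {y | r w y}} :=
    ⟨hTO (hr.refl w hwB), fun y hy => hTO hy⟩
  have hV := component_mem_GR hr hO' ((hO'O.trans hOU).trans hUB) hO's hwO'
  refine ⟨_, hV, mem_connectedComponentIn hwO', ?_, ?_⟩
  · refine Subset.trans (closure_mono ((connectedComponentIn_subset _ _).trans hO'O)) ?_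
    exact (closure_thickening_subset_cthickening η _).trans hcU
  · have hb : Bornology.IsBounded (thickening η {y | r w y}) := hr.compact.isBounded.subset hOB
    have h1 := diam_mono ((connectedComponentIn_subset _ w).trans hO'O) hb
    have h2 := diam_thickening_le {y | r w y} hη.le
    have h3 : (2 : ℝ) / ((n : ℝ) + 1) = 1 / ((n : ℝ) + 1) + 1 / ((n : ℝ) + 1) := by ring
    linarith

end Pool.Agent.Carp
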