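import Mathlib
import Pool.Agent.Carp.Rel
import Pool.Agent.Carp.RA
import Pool.Agent.Carp.RB
import Pool.Agent.Carp.RD

/-!
# One-point classes are dense

`Tr B r` = points of `B` with a one-point class.

Proof of `exists_trivial`: by `diff_ZR_nonempty` and `exists_small` build `V_0, V_1, … ∈ GR B r` with
`closure V_0 ⊆ U \ ZR 0`, `closure V_{n+1} ⊆ V_n \ ZR B r q (n+1)` (choose `w ∈ V_n \ ZR (n+1)` and apply
`exists_small` to the open union of classes `V_n \ ZR (n+1)`; dependent choice). The compact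
nonempty sets `closure V_n` decrease; a common point `x` lies in no `ZR n`, so
`diam {y | r x y} < 1/(n+1)` for all `n`, the class is `{x}`.
-/

namespace Pool.Agent.Carp

open Set Metric Topology

/-- the points with a one-point class -/
def Tr (B : Set ℂ) (r : ℂ → ℂ → Prop) : Set ℂ := {x | x ∈ B ∧ ∀ y, r x y → y = x}

theorem mem_Tr_iff {B : Set ℂ} {r : ℂ → ℂ → Prop} (hr : PreRel B r) {x : ℂ} :
    x ∈ Tr B r ↔ x ∈ B ∧ ∀ n : ℕ, diam {y | r x y} < 1 / ((n : ℝ) + 1) := by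
  constructor
  · rintro ⟨hx, h⟩
    refine ⟨hx, fun n => ?_⟩
    have hsub : ({y | r x y} : Set ℂ).Subsingleton := by
      intro a ha b hb
      rw [h a ha, h b hb]
    rw [diam_subsingleton hsub]
    positivity
  · rintro ⟨hx, h⟩
    refine ⟨hx, fun y hy => ?_⟩
    have hb : Bornology.IsBounded {y | r x y} :=
      hr.compact.isBounded.subset (fun y hy => (hr.mem _ _ hy).2)
    have hd : dist y x ≤ diam {y | r x y} := dist_le_diam_of_mem hb hy (hr.refl x hx)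
    have h0 : diam {y | r x y} ≤ 0 := by
      by_contra hpos
      rw [not_le] at hpos
      obtain ⟨n, hn⟩ := exists_nat_one_div_lt hpos
      exact absurd (h n) (not_lt.mpr hn.le)
    exact dist_le_zero.mp (hd.trans h0)

theorem tr_step {B : Set ℂ} {r : ℂ → ℂ → Prop} (hr : PreRel B r) (n : ℕ) {V : Set ℂ}
    (hV : IsOpen V) (hVB : V ⊆ interior B) (hs : ∀ x ∈ V, ∀ y, r x y → y ∈ V)
    (hne : V.Nonempty) :
    ∃ V' ∈ GR B r, closure V' ⊆ V \ ZR B r (fun _ => 0) n := by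
  obtain ⟨w, hw, hwZ⟩ := diff_ZR_nonempty hr (fun _ => 0) n 0 hV hVB hs hne
  have hwZ' : w ∉ ZR B r (fun _ => 0) n := fun h => hwZ (Or.inl h)
  have hopen : IsOpen (V \ ZR B r (fun _ => 0) n) :=
    hV.sdiff (isCompact_ZR hr (fun _ => 0) n).isClosed
  obtain ⟨V', hV', -, hcl, -⟩ := exists_small hr (fun _ => 0) n hopen
    (sdiff_subset.trans hVB)
    (fun x hx y hxy => ⟨hs x hx.1 y hxy, fun hy => hx.2
      (ZR_sat hr (fun _ => 0) n y hy x (hr.symm _ _ hxy))⟩) (w := w) ⟨hw, hwZ'⟩ hwZ'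
  exact ⟨V', hV', hcl⟩

theorem exists_trivial {B : Set ℂ} {r : ℂ → ℂ → Prop} (hr : PreRel B r) {U : Set ℂ}
    (hU : IsOpen U) (hUB : U ⊆ interior B) (hs : ∀ x ∈ U, ∀ y, r x y → y ∈ U)
    (hne : U.Nonempty) : (U ∩ Tr B r).Nonempty := by
  classical
  have hstep : ∀ (n : ℕ) (V : {V : Set ℂ // V ∈ GR B r}),
      ∃ V' : {V : Set ℂ // V ∈ GR B r},
        closure (V' : Set ℂ) ⊆ (V : Set ℂ) \ ZR B r (fun _ => 0) n := by
    rintro n ⟨V, hV⟩
    obtain ⟨V', hV', h⟩ := tr_step hr n hV.1 hV.2.2.1 hV.2.2.2 hV.2.1.nonempty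
    exact ⟨⟨V', hV'⟩, h⟩
  choose F hF using hstep
  obtain ⟨V0, hV0, h0⟩ := tr_step hr 0 hU hUB hs hne
  obtain ⟨W, hW0, hWs'⟩ : ∃ W : ℕ → {V : Set ℂ // V ∈ GR B r}, (W 0).1 = V0 ∧
      ∀ n, W (n + 1) = F (n + 1) (W n) :=
    ⟨fun n => Nat.rec (motive := fun _ => {V : Set ℂ // V ∈ GR B r}) ⟨V0, hV0⟩
      (fun n V => F (n + 1) V) n, rfl, fun n => rfl⟩
  have hWs : ∀ n, closure (W (n + 1)).1 ⊆ (W n).1 \ ZR B r (fun _ => 0) (n + 1) := by
    intro n
    rw [hWs' n]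
    exact hF (n + 1) (W n)
  have hWB : ∀ n, closure (W n).1 ⊆ B := fun n =>
    closure_minimal ((W n).2.2.2.1.trans interior_subset) hr.compact.isClosed
  have hne' : (⋂ n, closure (W n).1).Nonempty := by
    refine IsCompact.nonempty_iInter_of_sequence_nonempty_isCompact_isClosed _ ?_ ?_ ?_ ?_
    · intro n
      exact ((hWs n).trans sdiff_subset).trans subset_closure
    · intro n
      exact (W n).2.2.1.nonempty.closure
    · exact hr.compact.of_isClosed_subset isClosed_closure (hWB 0)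
    · intro n
      exact isClosed_closure
  obtain ⟨x, hx⟩ := hne'
  rw [mem_iInter] at hx
  have hx0 : x ∈ U \ ZR B r (fun _ => 0) 0 := h0 (hW0 ▸ hx 0)
  refine ⟨x, hx0.1, ?_⟩
  rw [mem_Tr_iff hr]
  have hxB : x ∈ B := hWB 0 (hx 0)
  refine ⟨hxB, fun n => ?_⟩
  have hxZ : x ∉ ZR B r (fun _ => 0) n := by
    rcases n with _ | n
    · exact hx0.2
    · exact (hWs n (hx (n + 1))).2
  by_contra hlt
  rw [not_lt] at hlt
  exact hxZ (Or.inl ⟨hxB, hlt⟩)

end Pool.Agent.Carp
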