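import Mathlib
import Pool.Agent.Carp.Rel
import Pool.Agent.Carp.RA
import Pool.Agent.Carp.RB
import Pool.Agent.Carp.RC
import Pool.Agent.Carp.RD
import Pool.Agent.Carp.TrDense

/-!
# Chains of small sets through one-point classes

Let `Z = {x ∈ B | 1/(n+1) ≤ diam class}`. To remove only `Z`, use `ZR B r q n` with `q` constant equal to
a point outside `B` (then `{y | ∃ i ≤ n, r (q i) y}` is empty) and `z` outside `B` in
`diff_ZR_preconnected`.
`D = V \ Z` is open, preconnected, a union of classes, and contains `u, v` (their classes have diameter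
`0`). It is path connected: let `L ⊆ D` be compact connected containing `u, v`. Cover `L` by finitely
many `W_c ∈ GR B r` with `closure W_c ⊆ D`, `diam W_c ≤ 2/(n+1)`, each meeting `L` (`exists_small`).
As `L` is connected, the graph of the `W_c` (edges: `W_c ∩ W_{c'} ≠ ∅`) is connected, so there is a
chain `W_0 ∋ u, …, W_{k-1} ∋ v` of consecutively meeting sets. In the open union of classes
`W_{i-1} ∩ W_i` choose `w i ∈ Tr` (`exists_trivial`), `w 0 = u`, `w k = v`. (`k ≥ 1` sets; if `u` and `v`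
lie in the same set of the cover, `k = 1`.)
-/

namespace Pool.Agent.Carp

open Set Metric Topology

theorem chain_Tr {B : Set ℂ} {r : ℂ → ℂ → Prop} (hr : FullRel B r) (n : ℕ) {V : Set ℂ}
    (hV : V ∈ GR B r) {u v : ℂ} (hu : u ∈ V ∩ Tr B r) (hv : v ∈ V ∩ Tr B r) :
    ∃ (k : ℕ) (w : ℕ → ℂ) (W : ℕ → Set ℂ), 1 ≤ k ∧ w 0 = u ∧ w k = v ∧
      (∀ i ≤ k, w i ∈ Tr B r) ∧ ∀ i < k, W i ∈ GR B r ∧
        closure (W i) ⊆ V \ {x | x ∈ B ∧ 1 / ((n : ℝ) + 1) ≤ diam {y | r x y}} ∧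
        diam (W i) ≤ 2 / ((n : ℝ) + 1) ∧ w i ∈ W i ∧ w (i + 1) ∈ W i := by
  have hpre : PreRel B r := hr.toPreRel
  obtain ⟨hVo, hVc, hVB, hVs⟩ := id hV
  obtain ⟨z0, hz0⟩ : ∃ z0 : ℂ, z0 ∉ B := by
    have h := hpre.compact.ne_univ
    exact (Set.ne_univ_iff_exists_notMem B).1 h
  have hrz : ∀ y, ¬ r z0 y := fun y h => hz0 (hpre.mem z0 y h).1
  obtain ⟨Z, hZ⟩ : ∃ Z : Set ℂ, Z = {x | x ∈ B ∧ 1 / ((n : ℝ) + 1) ≤ diam {y | r x y}} :=
    ⟨_, rfl⟩
  have hZR : ZR B r (fun _ => z0) n = Z := by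
    unfold ZR
    rw [hZ]
    ext x
    simp only [mem_union, mem_ofPred_eq]
    constructor
    · rintro (h | ⟨i, _, h⟩)
      · exact h
      · exact absurd h (hrz x)
    · intro h
      exact Or.inl h
  have hZR2 : ZR B r (fun _ => z0) n ∪ {y | r z0 y} = Z := by
    rw [hZR]
    ext x
    simp only [mem_union, mem_ofPred_eq]
    constructor
    · rintro (h | h)
      · exact h
      · exact absurd h (hrz x)
    · intro h
      exact Or.inl h
  have hZc : IsCompact Z := by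
    rw [← hZR]
    exact isCompact_ZR hpre _ n
  have hZs : ∀ x ∈ Z, ∀ y, r x y → y ∈ Z := by
    rw [← hZR]
    exact ZR_sat hpre _ n
  rw [← hZ]
  obtain ⟨D, hD⟩ : ∃ D : Set ℂ, D = V \ Z := ⟨_, rfl⟩
  have hDo : IsOpen D := by rw [hD]; exact hVo.sdiff hZc.isClosed
  have hDp : IsPreconnected D := by
    have := diff_ZR_preconnected hr (fun _ => z0) n z0 hV
    rw [hZR2] at this
    rw [hD]
    exact this
  have hDB : D ⊆ interior B := by
    rw [hD]
    exact sdiff_subset.trans hVB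
  have hDs : ∀ x ∈ D, ∀ y, r x y → y ∈ D := by
    intro x hx y hxy
    rw [hD] at hx ⊢
    refine ⟨hVs x hx.1 y hxy, fun hy => ?_⟩
    exact hx.2 (hZs y hy x (hpre.symm x y hxy))
  have hTrD : ∀ x ∈ V ∩ Tr B r, x ∈ D := by
    intro x hx
    rw [hD]
    refine ⟨hx.1, fun hxZ => ?_⟩
    rw [hZ] at hxZ
    have h1 := ((mem_Tr_iff hpre).1 hx.2).2 n
    exact absurd hxZ.2 (not_le.2 h1)
  rw [← hD]
  -- the good sets
  obtain ⟨F, hF⟩ : ∃ F : Set (Set ℂ), F = {W | W ∈ GR B r ∧ closure W ⊆ D ∧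
    diam W ≤ 2 / ((n : ℝ) + 1)} := ⟨_, rfl⟩
  have hsmall : ∀ x ∈ D, ∃ W ∈ F, x ∈ W := by
    intro x hx
    have hxZ : x ∉ ZR B r (fun _ => z0) n := by
      rw [hZR]
      rw [hD] at hx
      exact hx.2
    obtain ⟨W, h1, h2, h3, h4⟩ := exists_small hpre (fun _ => z0) n hDo hDB hDs hx hxZ
    exact ⟨W, by rw [hF]; exact ⟨h1, h3, h4⟩, h2⟩
  obtain ⟨W0, hW0, huW0⟩ := hsmall u (hTrD u hu)
  obtain ⟨R, hR⟩ : ∃ R : Set ℂ → Set ℂ → Prop, R = fun W W' => W' ∈ F ∧ (W ∩ W').Nonempty :=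
    ⟨_, rfl⟩
  have hreach : ∀ W, Relation.ReflTransGen R W0 W → W ∈ F := by
    intro W h
    induction h with
    | refl => exact hW0
    | tail _ h2 _ =>
      rw [hR] at h2
      exact h2.1
  obtain ⟨S, hS⟩ : ∃ S : Set ℂ, S = {x | ∃ W, Relation.ReflTransGen R W0 W ∧ x ∈ W} := ⟨_, rfl⟩
  have hSo : IsOpen S := by
    rw [isOpen_iff_mem_nhds]
    intro x hx
    rw [hS] at hx
    obtain ⟨W, hW, hxW⟩ := hx
    have hWF := hreach W hW
    rw [hF] at hWF
    refine Filter.mem_of_superset (hWF.1.1.mem_nhds hxW) ?_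
    intro y hy
    rw [hS]
    exact ⟨W, hW, hy⟩
  have hSo' : IsOpen (D \ S) := by
    rw [isOpen_iff_mem_nhds]
    rintro x ⟨hxD, hxS⟩
    obtain ⟨W, hW, hxW⟩ := hsmall x hxD
    have hWF := hW
    rw [hF] at hWF
    refine Filter.mem_of_superset (hWF.1.1.mem_nhds hxW) ?_
    intro y hy
    refine ⟨hWF.2.1 (subset_closure hy), fun hyS => hxS ?_⟩
    rw [hS] at hyS ⊢
    obtain ⟨W', hW', hyW'⟩ := hyS
    refine ⟨W, hW'.tail ?_, hxW⟩
    rw [hR]
    exact ⟨hW, ⟨y, hyW', hy⟩⟩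
  have hvS : v ∈ S := by
    by_contra hvS
    have h1 := hDp S (D \ S) hSo hSo' (fun x hx => by
      by_cases h : x ∈ S
      · exact Or.inl h
      · exact Or.inr ⟨hx, h⟩) ⟨u, hTrD u hu, by rw [hS]; exact ⟨W0, Relation.ReflTransGen.refl, huW0⟩⟩
      ⟨v, hTrD v hv, hTrD v hv, hvS⟩
    obtain ⟨x, -, hx1, hx2⟩ := h1
    exact hx2.2 hx1
  -- the chain
  have key : ∀ W, Relation.ReflTransGen R W0 W → ∀ x ∈ W, x ∈ Tr B r →
      ∃ (k : ℕ) (w : ℕ → ℂ) (W : ℕ → Set ℂ), 1 ≤ k ∧ w 0 = u ∧ w k = x ∧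
      (∀ i ≤ k, w i ∈ Tr B r) ∧ ∀ i < k, W i ∈ GR B r ∧ closure (W i) ⊆ D ∧
        diam (W i) ≤ 2 / ((n : ℝ) + 1) ∧ w i ∈ W i ∧ w (i + 1) ∈ W i := by
    intro W h
    induction h with
    | refl =>
      intro x hx hxT
      have hWF := hW0
      rw [hF] at hWF
      refine ⟨1, fun i => if i = 0 then u else x, fun _ => W0, le_rfl, by simp, by simp, ?_, ?_⟩
      · intro i hi
        by_cases h0 : i = 0
        · simp only [h0, if_true]
          exact hu.2
        · simp only [h0, if_false]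
          exact hxT
      · intro i hi
        have h0 : i = 0 := by omega
        subst h0
        refine ⟨hWF.1, hWF.2.1, hWF.2.2, ?_, ?_⟩
        · simpa using huW0
        · simpa using hx
    | @tail W W' h1 h2 ih =>
      intro x hx hxT
      have hWF := hreach W h1
      have hR2 := h2
      rw [hR] at hR2
      obtain ⟨hW'F, hne⟩ := hR2
      rw [hF] at hWF hW'F
      obtain ⟨⟨hWo, hWc, hWB, hWs⟩, hWcl, hWd⟩ := hWF
      obtain ⟨hW'G, hW'cl, hW'd⟩ := hW'F
      obtain ⟨hW'o, hW'c, hW'B, hW's⟩ := id hW'G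
      obtain ⟨y, ⟨hyW, hyW'⟩, hyT⟩ := exists_trivial hpre (hWo.inter hW'o)
        (inter_subset_left.trans hWB)
        (fun a ha b hab => ⟨hWs a ha.1 b hab, hW's a ha.2 b hab⟩) hne
      obtain ⟨k, w, Ws, hk, hw0, hwk, hwT, hWs2⟩ := ih y hyW hyT
      refine ⟨k + 1, fun i => if i ≤ k then w i else x, fun i => if i < k then Ws i else W',
        by omega, ?_, ?_, ?_, ?_⟩
      · simp only [Nat.zero_le, if_true]
        exact hw0
      · simp
      · intro i hi
        by_cases h3 : i ≤ k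
        · simp only [h3, if_true]
          exact hwT i h3
        · simp only [h3, if_false]
          exact hxT
      · intro i hi
        by_cases h3 : i < k
        · have h4 : i ≤ k := h3.le
          have h5 : i + 1 ≤ k := h3
          simp only [h3, h4, h5, if_true]
          exact hWs2 i h3
        · have h4 : i = k := by omega
          subst h4
          simp only [lt_irrefl, le_refl, if_true, if_false,
            show ¬ (i + 1 ≤ i) by omega]
          refine ⟨hW'G, hW'cl, hW'd, ?_, hx⟩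
          rw [hwk]
          exact hyW'
  rw [hS] at hvS
  obtain ⟨W, hW, hvW⟩ := hvS
  exact key W hW v hvW hv.2

end Pool.Agent.Carp
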