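import Mathlib

/-!
# A path as a limit of refining chains

Abstract lemma in a complete metric space. `G n` = admissible sets of level `n` (connectedness is not
needed). Every two points `u, v ∈ T ∩ V`, `V ∈ G n`, are joined by a chain of sets of `G (n+1)` with
closures in `V`, through points of `T`. Conclusion: for `V ∈ G 0`, `u, v ∈ T ∩ V`, there is a path from
`u` to `v` which for every `n` stays in the union of the closures of the members of `G (n+1)` that
are contained in `V`, in the precise form below.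

Proof. Chains may be lengthened by repeating the last point and set (`w i = v` for `i ≥ k`,
`W i = W (k-1)`; if `k = 0` then `u = v`, and one uses a chain from `u` to `u`... in order to have at
least one set, the hypothesis gives `1 ≤ k`). So at level `n` we can use the same number of links for
all pieces: there are `m_n ≥ 1` and functions: level `0`: one piece. State at level `n`: a number
`N_n ≥ 1` of pieces, points `x^n_0 = u, …, x^n_{N_n} = v` in `T` and sets `A^n_0, …, A^n_{N_n - 1} ∈ G n`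
with `x^n_i, x^n_{i+1} ∈ A^n_i`; level `n+1`: `N_{n+1} = N_n * m`, `x^{n+1}_{i m} = x^n_i`, and
`closure (A^{n+1}_{i m + j}) ⊆ A^n_i` for `j < m`. Define `γ t` for `t ∈ [0,1]`: choose
`i_n(t) = min ⌊t N_n⌋ (N_n - 1)`; the sets `closure (A^n_{i_n(t)})` decrease (because
`i_{n+1}(t) / m = i_n(t)`), have diameters `→ 0`, so they have exactly one common point `γ t`
(complete space, `Metric.…nonempty_iInter_of_nonempty_biInter` / Cantor). Continuity: if
`|t - t'| < 1/N_n` then `i_n(t), i_n(t')` differ by at most one, and adjacent sets have the common point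
`x^n_i`, so `dist (γ t) (γ t') ≤ 2 sup diam (A^n)`. `γ 0 = u`: `u = x^n_0 ∈ A^n_0` for all `n`;
`γ 1 = v`. (Alternative: define uniformly converging step functions
`γ_n t = x^n_{i_n(t)}`.)
-/

namespace Pool.Agent.Carp

open Set Metric Topology Filter

/-- a finite chain of sets through points -/
private structure Chn (M : Type*) where
  N : ℕ
  x : ℕ → M
  A : ℕ → Set M

private def Chn.Valid {M : Type*} (T : Set M) (H : Set (Set M)) (u v : M) (s : Chn M) : Prop :=
  1 ≤ s.N ∧ s.x 0 = u ∧ s.x s.N = v ∧ (∀ i ≤ s.N, s.x i ∈ T) ∧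
    ∀ i < s.N, s.A i ∈ H ∧ s.x i ∈ s.A i ∧ s.x (i + 1) ∈ s.A i

private def Chn.Ref {M : Type*} [TopologicalSpace M] (s s' : Chn M) : Prop :=
  ∃ m, 1 ≤ m ∧ s'.N = s.N * m ∧ ∀ i < s'.N, closure (s'.A i) ⊆ s.A (i / m)

private theorem chn_step {M : Type*} [MetricSpace M] (T : Set M)
    (G : ℕ → Set (Set M))
    (href : ∀ n, ∀ V ∈ G n, ∀ u ∈ T ∩ V, ∀ v ∈ T ∩ V, ∃ (k : ℕ) (w : ℕ → M) (W : ℕ → Set M),
      1 ≤ k ∧ w 0 = u ∧ w k = v ∧ (∀ i ≤ k, w i ∈ T) ∧ ∀ i < k, W i ∈ G (n + 1) ∧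
        closure (W i) ⊆ V ∧ w i ∈ W i ∧ w (i + 1) ∈ W i) (u v : M) (n : ℕ) (s : Chn M)
    (hs : s.Valid T (G n) u v) : ∃ s' : Chn M, s'.Valid T (G (n + 1)) u v ∧ s.Ref s' := by
  classical
  obtain ⟨hN, hx0, hxN, hxT, hA⟩ := hs
  have h1 : ∀ i : ℕ, ∃ (k : ℕ) (w : ℕ → M) (W : ℕ → Set M), i < s.N →
      (1 ≤ k ∧ w 0 = s.x i ∧ w k = s.x (i + 1) ∧ (∀ j ≤ k, w j ∈ T) ∧ ∀ j < k, W j ∈ G (n + 1) ∧
        closure (W j) ⊆ s.A i ∧ w j ∈ W j ∧ w (j + 1) ∈ W j) := by
    intro i
    by_cases hi : i < s.N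
    · obtain ⟨k, w, W, h⟩ := href n (s.A i) (hA i hi).1 (s.x i) ⟨hxT i hi.le, (hA i hi).2.1⟩
        (s.x (i + 1)) ⟨hxT (i + 1) hi, (hA i hi).2.2⟩
      exact ⟨k, w, W, fun _ => h⟩
    · exact ⟨0, fun _ => u, fun _ => ∅, fun h => absurd h hi⟩
  choose k w W hkw using h1
  obtain ⟨m, hm1, hm⟩ : ∃ m, 1 ≤ m ∧ ∀ i < s.N, k i ≤ m := by
    refine ⟨(Finset.range s.N).sup k + 1, by omega, fun i hi => ?_⟩
    have := Finset.le_sup (f := k) (Finset.mem_range.mpr hi)
    omega
  have hmpos : 0 < m := by omega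
  -- properties of the lengthened chains
  have hB : ∀ i < s.N, ∀ j < m, W i (min j (k i - 1)) ∈ G (n + 1) ∧
      closure (W i (min j (k i - 1))) ⊆ s.A i ∧ w i (min j (k i)) ∈ W i (min j (k i - 1)) ∧
      w i (min (j + 1) (k i)) ∈ W i (min j (k i - 1)) := by
    intro i hi j hj
    obtain ⟨hk, -, -, -, h⟩ := hkw i hi
    rcases lt_or_ge j (k i) with hjk | hjk
    · obtain ⟨a, b, c, d⟩ := h j hjk
      rw [min_eq_left (by omega : j ≤ k i - 1), min_eq_left (by omega : j ≤ k i),
        min_eq_left (by omega : j + 1 ≤ k i)]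
      exact ⟨a, b, c, d⟩
    · obtain ⟨a, b, c, d⟩ := h (k i - 1) (by omega)
      rw [min_eq_right (by omega : k i - 1 ≤ j), min_eq_right (by omega : k i ≤ j),
        min_eq_right (by omega : k i ≤ j + 1)]
      rw [Nat.sub_add_cancel hk] at d
      exact ⟨a, b, d, d⟩
  obtain ⟨s', hs'N, hs'x, hs'A⟩ : ∃ s' : Chn M, s'.N = s.N * m ∧
      (∀ i, s'.x i = if i / m < s.N then w (i / m) (min (i % m) (k (i / m))) else v) ∧
      (∀ i, s'.A i = W (i / m) (min (i % m) (k (i / m) - 1))) :=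
    ⟨⟨_, fun i => if i / m < s.N then w (i / m) (min (i % m) (k (i / m))) else v,
      fun i => W (i / m) (min (i % m) (k (i / m) - 1))⟩, rfl, fun _ => rfl, fun _ => rfl⟩
  have hdiv : ∀ i, i < s.N * m → i / m < s.N := fun i hi => by
    rw [Nat.div_lt_iff_lt_mul hmpos]
    exact hi
  refine ⟨s', ⟨?_, ?_, ?_, ?_, ?_⟩, m, hm1, hs'N, ?_⟩
  · rw [hs'N]
    exact Nat.one_le_iff_ne_zero.mpr (Nat.mul_ne_zero (by omega) (by omega))
  · rw [hs'x, Nat.zero_div, if_pos (by omega), Nat.zero_mod, Nat.zero_min, (hkw 0 (by omega)).2.1,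
      hx0]
  · rw [hs'x, hs'N, Nat.mul_div_cancel _ hmpos, if_neg (lt_irrefl _)]
  · intro i _
    rw [hs'x]
    split_ifs with hi
    · exact (hkw _ hi).2.2.2.1 _ (min_le_right _ _)
    · rw [← hxN]
      exact hxT _ le_rfl
  · intro i hi
    rw [hs'N] at hi
    have hi' := hdiv i hi
    obtain ⟨a, -, c, d⟩ := hB (i / m) hi' (i % m) (Nat.mod_lt _ hmpos)
    rw [hs'A]
    refine ⟨a, ?_, ?_⟩
    · rw [hs'x, if_pos hi']
      exact c
    · have e := Nat.div_add_mod i m
      rcases Nat.lt_or_ge (i % m + 1) m with hlt | hge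
      · have e1 : (i + 1) / m = i / m := by
          conv_lhs => rw [← e]
          rw [Nat.add_assoc, Nat.mul_add_div hmpos, Nat.div_eq_of_lt hlt, Nat.add_zero]
        have e2 : (i + 1) % m = i % m + 1 := by
          conv_lhs => rw [← e]
          rw [Nat.add_assoc, Nat.mul_add_mod, Nat.mod_eq_of_lt hlt]
        rw [hs'x, e1, e2, if_pos hi']
        exact d
      · have hmod : i % m + 1 = m := le_antisymm (Nat.mod_lt _ hmpos) hge
        have e3 : i + 1 = m * (i / m + 1) := by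
          rw [Nat.mul_add, Nat.mul_one]
          omega
        have e1 : (i + 1) / m = i / m + 1 := by
          rw [e3, Nat.mul_div_cancel_left _ hmpos]
        have e2 : (i + 1) % m = 0 := by
          rw [e3, Nat.mul_mod_right]
        have hend : w (i / m) (min (i % m + 1) (k (i / m))) = s.x (i / m + 1) := by
          rw [hmod, min_eq_right (hm _ hi')]
          exact (hkw _ hi').2.2.1
        rw [hend] at d
        rw [hs'x, e1, e2]
        split_ifs with hlast
        · rw [Nat.zero_min, (hkw _ hlast).2.1]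
          exact d
        · have : i / m + 1 = s.N := by omega
          rw [this, hxN] at d
          exact d
  · intro i hi
    rw [hs'N] at hi
    rw [hs'A]
    exact (hB (i / m) (hdiv i hi) (i % m) (Nat.mod_lt _ hmpos)).2.1

/-- the index of the piece containing the time `t` -/
private noncomputable def pidx (N : ℕ) (t : ℝ) : ℕ := min ⌊t * N⌋₊ (N - 1)

private theorem pidx_lt {N : ℕ} (hN : 1 ≤ N) (t : ℝ) : pidx N t < N := by
  unfold pidx
  omega

private theorem pidx_div {N m : ℕ} (hN : 1 ≤ N) (hm : 1 ≤ m) (t : ℝ) :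
    pidx (N * m) t / m = pidx N t := by
  have hmpos : 0 < m := by omega
  unfold pidx
  have hmono : Monotone fun a : ℕ => a / m := fun a b hab => Nat.div_le_div_right hab
  have h1 : min ⌊t * ((N * m : ℕ) : ℝ)⌋₊ (N * m - 1) / m =
      min (⌊t * ((N * m : ℕ) : ℝ)⌋₊ / m) ((N * m - 1) / m) := hmono.map_min
  rw [h1]
  congr 1
  · rw [← Nat.floor_div_natCast]
    congr 1
    have : (m : ℝ) ≠ 0 := by positivity
    push_cast
    field_simp
  · have : N * m - 1 = m * (N - 1) + (m - 1) := by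
      obtain ⟨a, rfl⟩ : ∃ a, N = a + 1 := ⟨N - 1, by omega⟩
      rw [Nat.add_sub_cancel, Nat.add_mul, Nat.one_mul, Nat.mul_comm a m]
      omega
    rw [this, Nat.mul_add_div hmpos, Nat.div_eq_of_lt (by omega), Nat.add_zero]

private theorem pidx_near {N : ℕ} (hN : 1 ≤ N) {t t' : ℝ} (ht : 0 ≤ t) (htt : t ≤ t')
    (h : t' - t < 1 / N) : pidx N t' = pidx N t ∨ pidx N t' = pidx N t + 1 := by
  have hN0 : (0 : ℝ) < N := by exact_mod_cast hN
  have h1 : ⌊t * N⌋₊ ≤ ⌊t' * N⌋₊ := Nat.floor_mono (by gcongr)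
  have h2 : ⌊t' * N⌋₊ < ⌊t * N⌋₊ + 2 := by
    rw [Nat.floor_lt (mul_nonneg (ht.trans htt) hN0.le)]
    have h3 := Nat.lt_floor_add_one (t * N)
    have h4 : (t' - t) * N < 1 := by
      rw [lt_div_iff₀ hN0] at h
      exact h
    push_cast
    linarith
  unfold pidx
  omega

theorem exists_path_of_refine {M : Type*} [MetricSpace M] [CompleteSpace M] (T : Set M)
    (G : ℕ → Set (Set M)) (ε : ℕ → ℝ) (hε : Tendsto ε atTop (𝓝 0))
    (hd : ∀ n, ∀ V ∈ G n, Bornology.IsBounded V ∧ diam V ≤ ε n)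
    (href : ∀ n, ∀ V ∈ G n, ∀ u ∈ T ∩ V, ∀ v ∈ T ∩ V, ∃ (k : ℕ) (w : ℕ → M) (W : ℕ → Set M),
      1 ≤ k ∧ w 0 = u ∧ w k = v ∧ (∀ i ≤ k, w i ∈ T) ∧ ∀ i < k, W i ∈ G (n + 1) ∧
        closure (W i) ⊆ V ∧ w i ∈ W i ∧ w (i + 1) ∈ W i)
    {V : Set M} (hV : V ∈ G 0) {u v : M} (hu : u ∈ T ∩ V) (hv : v ∈ T ∩ V) :
    ∃ γ : Path u v, ∀ t, γ t ∈ V ∧ ∀ n, ∃ W ∈ G n, γ t ∈ W := by
  classical
  -- the sequence of chains
  obtain ⟨s, hs0, hsV, hsR⟩ : ∃ s : ℕ → Chn M, (s 0).N = 1 ∧ (s 0).A 0 = V ∧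
      (∀ n, (s n).Valid T (G n) u v ∧ (s n).Ref (s (n + 1))) := by
    choose f hf using fun (n : ℕ) (s : {s : Chn M // s.Valid T (G n) u v}) =>
      chn_step T G href u v n s.1 s.2
    let S : ∀ n, {s : Chn M // s.Valid T (G n) u v} := fun n => Nat.rec
      (motive := fun n => {s : Chn M // s.Valid T (G n) u v})
      ⟨⟨1, fun i => if i = 0 then u else v, fun _ => V⟩, by
        refine ⟨le_rfl, rfl, rfl, ?_, ?_⟩
        · intro i _
          show (if i = 0 then u else v) ∈ T
          split_ifs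
          · exact hu.1
          · exact hv.1
        · intro i hi
          have : i = 0 := by
            have : i < 1 := hi
            omega
          subst this
          exact ⟨hV, hu.2, hv.2⟩⟩
      (fun n s => ⟨f n s, (hf n s).1⟩) n
    exact ⟨fun n => (S n).1, rfl, rfl, fun n => ⟨(S n).2, (hf n (S n)).2⟩⟩
  have hN1 : ∀ n, 1 ≤ (s n).N := fun n => (hsR n).1.1
  obtain ⟨B, hB⟩ : ∃ B : ℕ → ℝ → Set M, ∀ n t, B n t = (s n).A (pidx (s n).N t) :=
    ⟨_, fun _ _ => rfl⟩
  have hBG : ∀ n t, B n t ∈ G n := fun n t => by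
    rw [hB]
    exact ((hsR n).1.2.2.2.2 _ (pidx_lt (hN1 n) t)).1
  have hBc : ∀ n t, closure (B (n + 1) t) ⊆ B n t := by
    intro n t
    obtain ⟨m, hm1, hmN, hm⟩ := (hsR n).2
    have h1 := hm (pidx (s (n + 1)).N t) (pidx_lt (hN1 (n + 1)) t)
    rw [hB, hB]
    have h2 : pidx (s (n + 1)).N t / m = pidx (s n).N t := by
      rw [hmN]
      exact pidx_div (hN1 n) hm1 t
    rwa [h2] at h1
  have hBanti : ∀ t, Antitone fun n => B n t := fun t =>
    antitone_nat_of_succ_le fun n => subset_closure.trans (hBc n t)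
  obtain ⟨y, hy⟩ : ∃ y : ℕ → ℝ → M, ∀ n t, y n t = (s n).x (pidx (s n).N t) :=
    ⟨_, fun _ _ => rfl⟩
  have hyB : ∀ n t, y n t ∈ B n t := fun n t => by
    rw [hy, hB]
    exact ((hsR n).1.2.2.2.2 _ (pidx_lt (hN1 n) t)).2.1
  have hdist : ∀ n t, ∀ a ∈ B n t, ∀ b ∈ B n t, dist a b ≤ ε n := fun n t a ha b hb =>
    (dist_le_diam_of_mem (hd n _ (hBG n t)).1 ha hb).trans (hd n _ (hBG n t)).2
  have hcau : ∀ t, CauchySeq fun n => y n t := fun t => by
    refine cauchySeq_of_le_tendsto_0 ε (fun n m N hn hm => ?_) hε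
    exact hdist N t _ (hBanti t hn (hyB n t)) _ (hBanti t hm (hyB m t))
  choose g hg using fun t => cauchySeq_tendsto_of_complete (hcau t)
  have hgB : ∀ n t, g t ∈ B n t := by
    intro n t
    refine hBc n t (mem_closure_of_tendsto (hg t) ?_)
    filter_upwards [eventually_ge_atTop (n + 1)] with k hk
    exact hBanti t hk (hyB k t)
  have heps : ∀ e > 0, ∃ n, ε n < e := fun e he =>
    (hε.eventually (gt_mem_nhds he)).exists
  -- distance of nearby values
  have hnear : ∀ n (t t' : ℝ), 0 ≤ t → t ≤ t' → t' - t < 1 / (s n).N →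
      dist (g t) (g t') ≤ 2 * ε n := by
    intro n t t' ht htt h
    have hεn : 0 ≤ ε n := (dist_nonneg (x := g t) (y := g t)).trans
      (hdist n t _ (hgB n t) _ (hgB n t))
    rcases pidx_near (hN1 n) ht htt h with he | he
    · have h1 : g t' ∈ B n t := by
        have := hgB n t'
        rw [hB, he, ← hB] at this
        exact this
      have := hdist n t _ (hgB n t) _ h1
      linarith
    · have h1 : (s n).x (pidx (s n).N t + 1) ∈ B n t := by
        rw [hB]
        exact ((hsR n).1.2.2.2.2 _ (pidx_lt (hN1 n) t)).2.2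
      have h2 : (s n).x (pidx (s n).N t + 1) ∈ B n t' := by
        rw [hB, ← he]
        exact ((hsR n).1.2.2.2.2 _ (pidx_lt (hN1 n) t')).2.1
      have h3 := hdist n t _ (hgB n t) _ h1
      have h4 := hdist n t' _ h2 _ (hgB n t')
      have h5 := dist_triangle (g t) ((s n).x (pidx (s n).N t + 1)) (g t')
      linarith
  have hcont : Continuous fun t : unitInterval => g t := by
    rw [Metric.continuous_iff]
    intro b e he
    obtain ⟨n, hn⟩ := heps (e / 2) (by linarith)
    have hN0 : (0 : ℝ) < (s n).N := by exact_mod_cast hN1 n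
    refine ⟨1 / (s n).N, by positivity, fun a hab => ?_⟩
    have hab' : |(a : ℝ) - b| < 1 / (s n).N := hab
    rw [abs_lt] at hab'
    rcases le_total (a : ℝ) b with hle | hle
    · have := hnear n a b a.2.1 hle (by linarith)
      linarith
    · have := hnear n b a b.2.1 hle (by linarith)
      rw [dist_comm] at this
      linarith
  have h0 : g 0 = u := by
    have h1 : ∀ n, y n 0 = u := fun n => by
      rw [hy]
      have : pidx (s n).N 0 = 0 := by
        unfold pidx
        simp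
      rw [this]
      exact (hsR n).1.2.1
    refine tendsto_nhds_unique (hg 0) ?_
    simp only [h1]
    exact tendsto_const_nhds
  have h1 : g 1 = v := by
    refine dist_le_zero.mp (le_of_forall_pos_lt_add fun e he => ?_)
    obtain ⟨n, hn⟩ := heps e he
    have hidx : pidx (s n).N 1 = (s n).N - 1 := by
      unfold pidx
      simp
    have h2 : v ∈ B n 1 := by
      have := ((hsR n).1.2.2.2.2 _ (pidx_lt (hN1 n) 1)).2.2
      rw [hB]
      rw [hidx] at this ⊢
      rw [Nat.sub_add_cancel (hN1 n), (hsR n).1.2.2.1] at this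
      exact this
    have := hdist n 1 _ (hgB n 1) _ h2
    linarith
  refine ⟨⟨⟨fun t : unitInterval => g t, hcont⟩, h0, h1⟩, fun t => ⟨?_, fun n => ?_⟩⟩
  · have h2 := hgB 0 t
    have hidx : pidx (s 0).N (t : ℝ) = 0 := by
      have := pidx_lt (hN1 0) (t : ℝ)
      omega
    rw [hB, hidx, hsV] at h2
    exact h2
  · exact ⟨B n t, hBG n t, hgB n t⟩

end Pool.Agent.Carp
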