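import Mathlib
import Pool.Agent.Carp.Rel
import Pool.Agent.Carp.RA
import Pool.Agent.Carp.RB
import Pool.Agent.Carp.TrDense
import Pool.Agent.Carp.ChainTr
import Pool.Agent.Carp.PathLim

/-!
# One-point classes are joined by paths of one-point classes

Apply `exists_path_of_refine` with `T = Tr B r`,
`G 0 = {V ∈ GR B r | V ⊆ B}` (all members of `GR B r` are bounded, diameter at most `diam B`),
`G (n+1) = {W ∈ GR B r | W ∩ {x ∈ B | 1/(n+1) ≤ diam class} = ∅ ∧ diam W ≤ 2/(n+1)}`,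
`ε 0 = diam B`, `ε (n+1) = 2/(n+1)`, and `chain_Tr`. (`chain_Tr` with `n` gives sets of level
`n + 1`; `W ∩ {…} = ∅` follows from `closure W ⊆ V \ {…}`.)
The path lies in `V`, and in no `{x ∈ B | 1/(n+1) ≤ diam class}`, so in `Tr B r`
(`mem_Tr_iff`).
-/

namespace Pool.Agent.Carp

open Set Metric Topology Filter

theorem joinedIn_Tr {B : Set ℂ} {r : ℂ → ℂ → Prop} (hr : FullRel B r) {V : Set ℂ}
    (hV : V ∈ GR B r) {u v : ℂ} (hu : u ∈ V ∩ Tr B r) (hv : v ∈ V ∩ Tr B r) :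
    JoinedIn (V ∩ Tr B r) u v := by
  have hbdd : ∀ W ∈ GR B r, W ⊆ B := fun W hW => hW.2.2.1.trans interior_subset
  have hBb : Bornology.IsBounded B := hr.compact.isBounded
  set G : ℕ → Set (Set ℂ) := fun n => {W | W ∈ GR B r ∧ ∀ m, n = m + 1 →
    (∀ x ∈ W, x ∈ B → diam {y | r x y} < 1 / ((m : ℝ) + 1)) ∧ diam W ≤ 2 / ((m : ℝ) + 1)} with hG
  set ε : ℕ → ℝ := fun n => if n = 0 then diam B else 2 / (n : ℝ) with hε
  have hlim : Tendsto ε atTop (𝓝 0) := by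
    rw [← tendsto_add_atTop_iff_nat 1]
    have h1 : (fun n => ε (n + 1)) = fun n : ℕ => 2 / (((n + 1 : ℕ)) : ℝ) := by
      funext n
      rw [hε]
      simp only
      rw [if_neg (Nat.succ_ne_zero n)]
    rw [h1]
    exact (tendsto_const_div_atTop_nhds_zero_nat 2).comp (tendsto_add_atTop_nat 1)
  have hd : ∀ n, ∀ W ∈ G n, Bornology.IsBounded W ∧ diam W ≤ ε n := by
    intro n W hW
    have hWB := hbdd W hW.1
    refine ⟨hBb.subset hWB, ?_⟩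
    rcases Nat.eq_zero_or_pos n with h | h
    · rw [hε]
      simp only
      rw [if_pos h]
      exact diam_mono hWB hBb
    · obtain ⟨m, rfl⟩ : ∃ m, n = m + 1 := ⟨n - 1, by omega⟩
      rw [hε]
      simp only
      rw [if_neg (Nat.succ_ne_zero m)]
      have := (hW.2 m rfl).2
      push_cast
      exact this
  have href : ∀ n, ∀ W ∈ G n, ∀ a ∈ Tr B r ∩ W, ∀ b ∈ Tr B r ∩ W,
      ∃ (k : ℕ) (w : ℕ → ℂ) (U : ℕ → Set ℂ), 1 ≤ k ∧ w 0 = a ∧ w k = b ∧ (∀ i ≤ k, w i ∈ Tr B r) ∧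
        ∀ i < k, U i ∈ G (n + 1) ∧ closure (U i) ⊆ W ∧ w i ∈ U i ∧ w (i + 1) ∈ U i := by
    intro n W hW a ha b hb
    obtain ⟨k, w, U, hk, h0, hk', hT, hU⟩ := chain_Tr hr n hW.1 ⟨ha.2, ha.1⟩ ⟨hb.2, hb.1⟩
    refine ⟨k, w, U, hk, h0, hk', hT, ?_⟩
    intro i hi
    obtain ⟨h1, h2, h3, h4, h5⟩ := hU i hi
    refine ⟨⟨h1, ?_⟩, fun x hx => (h2 hx).1, h4, h5⟩
    intro m hm
    have hmn : m = n := by omega
    subst hmn
    refine ⟨?_, h3⟩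
    intro x hx hxB
    by_contra hlt
    push Not at hlt
    exact (h2 (subset_closure hx)).2 ⟨hxB, hlt⟩
  have hV0 : V ∈ G 0 := ⟨hV, fun m hm => by omega⟩
  obtain ⟨γ, hγ⟩ := exists_path_of_refine (Tr B r) G ε hlim hd href hV0 ⟨hu.2, hu.1⟩ ⟨hv.2, hv.1⟩
  refine ⟨γ, ?_⟩
  intro t
  obtain ⟨h1, h2⟩ := hγ t
  refine ⟨h1, (mem_Tr_iff hr.toPreRel).2 ⟨hbdd V hV h1, ?_⟩⟩
  intro n
  obtain ⟨W, hW, hmem⟩ := h2 (n + 1)
  exact (hW.2 n rfl).1 (γ t) hmem (hbdd V hV h1)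

end Pool.Agent.Carp
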