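import Mathlib
import Pool.Agent.Carp.FA
import Pool.Agent.Carp.FB

/-!
# Filling: stability and nesting

* `ext_stable`: let `K` be compact, `x ∈ ext K`. Then there is `ρ > 0` such that `y ∈ ext L` whenever
  `dist y x < ρ` and `L ⊆ thickening ρ K`. Proof: `K ⊆ closedBall 0 R`; `ext K` is open, preconnected and
  contains all points of norm `> R`; take a path in `ext K` from `x` to a point `b` of norm `> R + 2`
  (open connected sets of `ℂ` are path connected), with compact image `P`; let
  `ρ ≤ 1` be such that `P` has distance `≥ 2ρ` from `K` and `ball x ρ` has distance `≥ ρ` from `K`.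
  Then `ball x ρ ∪ P ∪ {z | R + 1 < ‖z‖}` is preconnected, unbounded and misses
  `thickening ρ K ⊆ closedBall 0 (R + 1)`.
* `fill_nested`: `K, L` compact connected, disjoint, with `fill K ∩ fill L ≠ ∅`; then
  `fill K ⊆ fill L` or `fill L ⊆ fill K`. Proof: `L` is connected and misses `K`, so
  `L ⊆ ext K` or `L ⊆ fill K \ K` (both open, cover `Kᶜ`). In the second case `fill L ⊆ fill K` by
  `fill_subset`. Similarly for `K`. Remains: `L ⊆ ext K` and `K ⊆ ext L`. Then
  `fill L` misses `K`, it is connected (`isConnected_fill`) and contains `L ⊆ ext K`, so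
  `fill L ⊆ ext K`, i.e. `fill L ∩ fill K = ∅`, contradiction.
-/

namespace Pool.Agent.Carp

open Set Metric Topology

theorem ext_stable {K : Set ℂ} (hK : IsCompact K) {x : ℂ} (hx : x ∈ ext K) :
    ∃ ρ > 0, ∀ L ⊆ thickening ρ K, ∀ y ∈ ball x ρ, y ∈ ext L := by
  obtain ⟨R, hR⟩ := hK.isBounded.subset_closedBall 0
  have hRR : K ⊆ closedBall 0 (max R 0) := hR.trans (closedBall_subset_closedBall (le_max_left _ _))
  set R' : ℝ := max R 0 with hR'
  have hR'0 : 0 ≤ R' := le_max_right _ _
  have hop : IsOpen (ext K) := isOpen_ext hK.isClosed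
  have hpre : IsPreconnected (ext K) := isPreconnected_ext hK.isBounded
  have hconn : IsConnected (ext K) := ⟨⟨x, hx⟩, hpre⟩
  have hpath : IsPathConnected (ext K) := hop.isConnected_iff_isPathConnected.1 hconn
  set b : ℂ := ((R' + 3 : ℝ) : ℂ) with hb
  have hbn : ‖b‖ = R' + 3 := by
    rw [hb, Complex.norm_real, Real.norm_eq_abs, abs_of_nonneg (by linarith)]
  have hbext : b ∈ ext K := mem_ext_of_norm hRR (by rw [hbn]; linarith)
  obtain ⟨γ, hγ⟩ := hpath.joinedIn x hx b hbext
  set P : Set ℂ := range γ with hP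
  have hPc : IsCompact P := isCompact_range γ.continuous
  have hPpre : IsPreconnected P := isPreconnected_range γ.continuous
  have hPext : P ⊆ ext K := by
    rintro _ ⟨t, rfl⟩
    exact hγ t
  have hxP : x ∈ P := ⟨0, γ.source⟩
  have hbP : b ∈ P := ⟨1, γ.target⟩
  have hdis : Disjoint P K := by
    rw [Set.disjoint_left]
    intro z hz hzK
    exact (subset_fill K hzK) (hPext hz)
  obtain ⟨δ, hδ, hdis'⟩ := hdis.exists_thickenings hPc hK.isClosed
  refine ⟨min δ 1, lt_min hδ one_pos, ?_⟩
  intro L hL y hy
  have hLδ : L ⊆ thickening δ K := hL.trans (thickening_mono (min_le_left _ _) K)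
  have hLR : L ⊆ closedBall 0 (R' + 1) := by
    intro z hz
    obtain ⟨k, hk, hzk⟩ := mem_thickening_iff.1 (hL hz)
    have h1 : dist z k < 1 := lt_of_lt_of_le hzk (min_le_right _ _)
    have h2 : dist k 0 ≤ R' := mem_closedBall.1 (hRR hk)
    rw [mem_closedBall]
    calc dist z 0 ≤ dist z k + dist k 0 := dist_triangle _ _ _
      _ ≤ R' + 1 := by linarith
  obtain ⟨S, hS, hSL, hbS, hSb⟩ : b ∈ ext L := mem_ext_of_norm hLR (by rw [hbn]; linarith)
  have hball : IsPreconnected (ball x (min δ 1)) := (convex_ball x _).isPreconnected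
  have hxb : x ∈ ball x (min δ 1) := mem_ball_self (lt_min hδ one_pos)
  refine ⟨ball x (min δ 1) ∪ P ∪ S, ?_, ?_, ?_, ?_⟩
  · exact IsPreconnected.union b (Or.inr hbP) hbS (IsPreconnected.union x hxb hxP hball hPpre) hS
  · intro z hz hzL
    have hzK : z ∈ thickening δ K := hLδ hzL
    rcases hz with (hz | hz) | hz
    · have : z ∈ thickening δ P := by
        rw [mem_thickening_iff]
        exact ⟨x, hxP, lt_of_lt_of_le (mem_ball.1 hz) (min_le_left _ _)⟩
      exact Set.disjoint_left.1 hdis' this hzK
    · exact Set.disjoint_left.1 hdis' (self_subset_thickening hδ P hz) hzK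
    · exact hSL hz hzL
  · exact Or.inl (Or.inl hy)
  · intro hbd
    exact hSb (hbd.subset subset_union_right)

theorem fill_nested {K L : Set ℂ} (hK : IsCompact K) (hKc : IsConnected K) (hL : IsCompact L)
    (hLc : IsConnected L) (hd : Disjoint K L) (hne : (fill K ∩ fill L).Nonempty) :
    fill K ⊆ fill L ∨ fill L ⊆ fill K := by
  have key : ∀ {A B : Set ℂ}, IsCompact A → IsConnected B → Disjoint A B →
      B ⊆ ext A ∨ B ⊆ fill A := by
    intro A B hA hB hAB
    have h1 : Disjoint (ext A) (fill A \ A) := by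
      rw [Set.disjoint_left]
      intro z hz hz'
      exact hz'.1 hz
    have h2 : B ⊆ ext A ∪ (fill A \ A) := by
      intro z hz
      by_cases hzA : z ∈ ext A
      · exact Or.inl hzA
      · exact Or.inr ⟨hzA, fun h => Set.disjoint_left.1 hAB h hz⟩
    rcases IsPreconnected.subset_or_subset (isOpen_ext hA.isClosed) (isOpen_fill_diff hA.isClosed)
      h1 h2 hB.isPreconnected with h | h
    · exact Or.inl h
    · exact Or.inr (h.trans sdiff_subset)
  rcases key hK hLc hd with hLK | hLK
  · rcases key hL hKc hd.symm with hKL | hKL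
    · exfalso
      have hfd : Disjoint K (fill L) := by
        rw [Set.disjoint_left]
        intro z hz hz'
        exact hz' (hKL hz)
      rcases key hK (isConnected_fill hL hLc) hfd with h | h
      · obtain ⟨z, hz1, hz2⟩ := hne
        exact hz1 (h hz2)
      · obtain ⟨z, hz⟩ := hLc.nonempty
        exact h (subset_fill L hz) (hLK hz)
    · exact Or.inl (fill_subset hKL)
  · exact Or.inr (fill_subset hLK)

end Pool.Agent.Carp
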