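import Mathlib
import Pool.Agent.Carp.Rel
import Pool.Agent.Carp.RA
import Pool.Agent.Carp.FA
import Pool.Agent.Carp.FB
import Pool.Agent.Carp.FC

/-!
# The hull relation

`hullRel B r x y`: some class `{u | r w u}` (`w ∈ B`) has `x` and `y` in its filling.

* `fill_limit`: if `w_n → w` in `B` and `x_n → x`, `x_n ∈ fill (class w_n)`, then `x ∈ fill (class w)`. Proof:
  otherwise take `ρ` from `ext_stable` for `K = class w`, `x`. For large `n`, `x_n ∈ ball x ρ` and
  `class w_n ⊆ thickening ρ K` (otherwise choose `y_n ∈ class w_n` outside; a subsequence converges to a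
  point related to `w` by `hr.closed`, at distance `≥ ρ` from `K`, contradiction), so
  `x_n ∈ ext (class w_n)`. Here stated with `clusterPt`-free form: the set
  `{(w, x) | w ∈ B ∧ x ∈ fill (class w)}` is compact.
* `isClosed_hullRel`: projection of the compact set `{(w, x, y) | …}`.
* `exists_rep`: for `x ∈ B` there is `w ∈ B` with `{y | hullRel B r x y} = fill {u | r w u}`. Proof:
  for `y` with `hullRel x y` let `W_y = {w ∈ B | x, y ∈ fill (class w)}`, compact and nonempty. Any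
  finitely many of them have a common point: the fillings of classes which contain `x` are totally
  ordered by inclusion (`fill_nested` for different, hence disjoint, classes), take the `w_i` with the
  largest filling. By compactness (`IsCompact.inter_iInter_nonempty`) there is `w` in all `W_y`; so
  `{y | hullRel x y} ⊆ fill (class w)`, and `⊇` is clear. (`y = x` is one of the `y`: `w = x`.)
-/

namespace Pool.Agent.Carp

open Set Metric Topology

/-- the hull relation of `r` -/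
def hullRel (B : Set ℂ) (r : ℂ → ℂ → Prop) (x y : ℂ) : Prop :=
  ∃ w ∈ B, x ∈ fill {u | r w u} ∧ y ∈ fill {u | r w u}

theorem fill_class_subset {B : Set ℂ} {r : ℂ → ℂ → Prop} (hr : PreRel B r)
    (hB : Convex ℝ B) (w : ℂ) : fill {u | r w u} ⊆ B :=
  fill_subset_convex hB hr.compact.isClosed fun _ hu => (hr.mem w _ hu).2

/-- classes are nearby classes from above -/
theorem isClosed_far {B : Set ℂ} {r : ℂ → ℂ → Prop} (hr : PreRel B r) {O : Set ℂ}
    (hO : IsOpen O) : IsClosed {w | ∃ y, r w y ∧ y ∉ O} := by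
  have h1 : IsCompact {p : ℂ × ℂ | r p.1 p.2 ∧ p.2 ∉ O} := by
    refine IsCompact.of_isClosed_subset (hr.compact.prod hr.compact) ?_ ?_
    · exact hr.closed.inter (hO.isClosed_compl.preimage continuous_snd)
    · intro p hp
      exact ⟨(hr.mem _ _ hp.1).1, (hr.mem _ _ hp.1).2⟩
  have h2 := (h1.image continuous_fst).isClosed
  have h3 : Prod.fst '' {p : ℂ × ℂ | r p.1 p.2 ∧ p.2 ∉ O} = {w | ∃ y, r w y ∧ y ∉ O} := by
    ext w
    constructor
    · rintro ⟨p, hp, rfl⟩
      exact ⟨p.2, hp⟩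
    · rintro ⟨y, hy⟩
      exact ⟨(w, y), hy, rfl⟩
  rw [← h3]
  exact h2

theorem isCompact_fillGraph {B : Set ℂ} {r : ℂ → ℂ → Prop} (hr : PreRel B r)
    (hB : Convex ℝ B) : IsCompact {p : ℂ × ℂ | p.1 ∈ B ∧ p.2 ∈ fill {u | r p.1 u}} := by
  refine IsCompact.of_isClosed_subset (hr.compact.prod hr.compact) ?_ ?_
  · rw [← isOpen_compl_iff, isOpen_iff_mem_nhds]
    rintro ⟨w, x⟩ hp
    by_cases hw : w ∈ B
    · have hx : x ∈ ext {u | r w u} := by
        by_contra h
        exact hp ⟨hw, h⟩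
      obtain ⟨ρ, hρ, hst⟩ := ext_stable (isCompact_cl hr w) hx
      have h1 : IsOpen {w' | ∃ y, r w' y ∧ y ∉ thickening ρ {u | r w u}}ᶜ :=
        (isClosed_far hr isOpen_thickening).isOpen_compl
      have h2 : w ∈ {w' | ∃ y, r w' y ∧ y ∉ thickening ρ {u | r w u}}ᶜ := by
        rintro ⟨y, hy, hy2⟩
        exact hy2 (self_subset_thickening hρ _ hy)
      have h3 : {w' | ∃ y, r w' y ∧ y ∉ thickening ρ {u | r w u}}ᶜ ×ˢ ball x ρ ∈
          𝓝 ((w, x) : ℂ × ℂ) :=
        prod_mem_nhds (h1.mem_nhds h2) (ball_mem_nhds x hρ)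
      refine Filter.mem_of_superset h3 ?_
      rintro ⟨w', x'⟩ ⟨hw', hx'⟩ ⟨_, h5⟩
      refine h5 (hst {u | r w' u} ?_ x' hx')
      intro y hy
      by_contra hy2
      exact hw' ⟨y, hy, hy2⟩
    · have h1 : (Prod.fst ⁻¹' Bᶜ : Set (ℂ × ℂ)) ∈ 𝓝 ((w, x) : ℂ × ℂ) :=
        (hr.compact.isClosed.isOpen_compl.preimage continuous_fst).mem_nhds hw
      refine Filter.mem_of_superset h1 ?_
      intro q hq hq2
      exact hq hq2.1
  · intro p hp
    exact ⟨hp.1, fill_class_subset hr hB _ hp.2⟩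

theorem isClosed_hullRel {B : Set ℂ} {r : ℂ → ℂ → Prop} (hr : PreRel B r)
    (hB : Convex ℝ B) : IsClosed {p : ℂ × ℂ | hullRel B r p.1 p.2} := by
  have hG := isCompact_fillGraph hr hB
  have h1 : IsCompact {q : ℂ × ℂ × ℂ | (q.1 ∈ B ∧ q.2.1 ∈ fill {u | r q.1 u}) ∧
      (q.1 ∈ B ∧ q.2.2 ∈ fill {u | r q.1 u})} := by
    refine IsCompact.of_isClosed_subset (hr.compact.prod (hr.compact.prod hr.compact)) ?_ ?_
    · refine IsClosed.inter ?_ ?_
      · exact hG.isClosed.preimage (f := fun q : ℂ × ℂ × ℂ => (q.1, q.2.1)) (by fun_prop)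
      · exact hG.isClosed.preimage (f := fun q : ℂ × ℂ × ℂ => (q.1, q.2.2)) (by fun_prop)
    · intro q hq
      exact ⟨hq.1.1, fill_class_subset hr hB _ hq.1.2, fill_class_subset hr hB _ hq.2.2⟩
  have h2 := (h1.image continuous_snd).isClosed
  have h3 : Prod.snd '' {q : ℂ × ℂ × ℂ | (q.1 ∈ B ∧ q.2.1 ∈ fill {u | r q.1 u}) ∧
      (q.1 ∈ B ∧ q.2.2 ∈ fill {u | r q.1 u})} = {p : ℂ × ℂ | hullRel B r p.1 p.2} := by
    ext p
    constructor
    · rintro ⟨q, hq, rfl⟩
      exact ⟨q.1, hq.1.1, hq.1.2, hq.2.2⟩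
    · rintro ⟨w, hw, hx, hy⟩
      exact ⟨(w, p), ⟨⟨hw, hx⟩, hw, hy⟩, rfl⟩
  rw [← h3]
  exact h2

/-- the fillings of the classes which contain a point are nested -/
theorem fill_class_nested {B : Set ℂ} {r : ℂ → ℂ → Prop} (hr : PreRel B r) {w w' x : ℂ}
    (hw : w ∈ B) (hw' : w' ∈ B) (hx : x ∈ fill {u | r w u}) (hx' : x ∈ fill {u | r w' u}) :
    fill {u | r w u} ⊆ fill {u | r w' u} ∨ fill {u | r w' u} ⊆ fill {u | r w u} := by
  by_cases h : r w w'
  · left
    have h1 : {u | r w u} = {u | r w' u} := by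
      ext u
      exact ⟨fun hu => hr.trans _ _ _ (hr.symm _ _ h) hu, fun hu => hr.trans _ _ _ h hu⟩
    rw [h1]
  · refine fill_nested (isCompact_cl hr w) (hr.conn w hw) (isCompact_cl hr w') (hr.conn w' hw')
      ?_ ⟨x, hx, hx'⟩
    rw [Set.disjoint_left]
    intro u hu hu'
    exact h (hr.trans _ _ _ hu (hr.symm _ _ hu'))

theorem exists_rep {B : Set ℂ} {r : ℂ → ℂ → Prop} (hr : PreRel B r)
    (hB : Convex ℝ B) {x : ℂ} (hx : x ∈ B) :
    ∃ w ∈ B, {y | hullRel B r x y} = fill {u | r w u} := by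
  have hG := isCompact_fillGraph hr hB
  have hxx : hullRel B r x x :=
    ⟨x, hx, subset_fill _ (hr.refl x hx), subset_fill _ (hr.refl x hx)⟩
  let t : {y // hullRel B r x y} → Set ℂ := fun y =>
    {w | (w ∈ B ∧ x ∈ fill {u | r w u}) ∧ (w ∈ B ∧ (y : ℂ) ∈ fill {u | r w u})}
  have htcl : ∀ i, IsClosed (t i) := by
    intro y
    refine IsClosed.inter ?_ ?_
    · exact hG.isClosed.preimage (f := fun w : ℂ => (w, x)) (by fun_prop)
    · exact hG.isClosed.preimage (f := fun w : ℂ => (w, (y : ℂ))) (by fun_prop)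
  have htc : ∀ i, IsCompact (t i) := fun i =>
    IsCompact.of_isClosed_subset hr.compact (htcl i) fun w hw => hw.1.1
  have htn : ∀ i, (t i).Nonempty := by
    rintro ⟨y, w, hw, h1, h2⟩
    exact ⟨w, ⟨hw, h1⟩, hw, h2⟩
  have htd : Directed (· ⊇ ·) t := by
    intro y y'
    by_cases h : t y ⊆ t y'
    · exact ⟨y, subset_rfl, h⟩
    · refine ⟨y', ?_, subset_rfl⟩
      obtain ⟨w, hw, hw'⟩ := Set.not_subset.1 h
      intro v hv
      refine ⟨hv.1, hv.2.1, ?_⟩
      rcases fill_class_nested hr hw.1.1 hv.1.1 hw.1.2 hv.1.2 with h1 | h1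
      · exact h1 hw.2.2
      · exact absurd ⟨hw.1, hw.1.1, h1 hv.2.2⟩ hw'
  have : Nonempty {y // hullRel B r x y} := ⟨⟨x, hxx⟩⟩
  obtain ⟨w, hw⟩ := IsCompact.nonempty_iInter_of_directed_nonempty_isCompact_isClosed
    t htd htn htc htcl
  rw [Set.mem_iInter] at hw
  have hwx := hw ⟨x, hxx⟩
  refine ⟨w, hwx.1.1, ?_⟩
  ext y
  constructor
  · intro hy
    exact (hw ⟨y, hy⟩).2.2
  · intro hy
    exact ⟨w, hwx.1.1, hwx.1.2, hy⟩

end Pool.Agent.Carp
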