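import Mathlib
import Pool.Agent.Carp.Rel
import Pool.Agent.Carp.RA
import Pool.Agent.Carp.FA
import Pool.Agent.Carp.FB
import Pool.Agent.Carp.FC
import Pool.Agent.Carp.HA

/-!
# The hull relation is an equivalence relation

* reflexive on `B`: `w = x`, `subset_fill`.
* transitive: `x, y ∈ fill (class w)`, `y, z ∈ fill (class w')`. The classes are equal or
  disjoint; in the second case one of the fillings contains the other (`fill_nested`).
* `mem`: `fill (class w) ⊆ B` (`fill_subset_convex`, `B` is closed and convex).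
* class of `x` = `fill (class w)` for some `w ∈ B` (`exists_rep`): connected by `isConnected_fill`;
  complement `ext (class w)` preconnected by `isPreconnected_ext`.
-/

namespace Pool.Agent.Carp

open Set Metric Topology

theorem hull_trans {B : Set ℂ} {r : ℂ → ℂ → Prop} (hr : PreRel B r) (x y z : ℂ)
    (h : hullRel B r x y) (h' : hullRel B r y z) : hullRel B r x z := by
  obtain ⟨w, hw, hx, hy⟩ := h
  obtain ⟨w', hw', hy', hz⟩ := h'
  by_cases hww : r w w'
  · have e : {u | r w u} = {u | r w' u} := by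
      ext u
      exact ⟨fun hu => hr.trans _ _ _ (hr.symm _ _ hww) hu, fun hu => hr.trans _ _ _ hww hu⟩
    exact ⟨w, hw, hx, e ▸ hz⟩
  · have hd : Disjoint {u | r w u} {u | r w' u} := by
      rw [Set.disjoint_left]
      intro u hu hu'
      exact hww (hr.trans _ _ _ hu (hr.symm _ _ hu'))
    rcases fill_nested (isCompact_cl hr w) (hr.conn w hw) (isCompact_cl hr w') (hr.conn w' hw') hd
      ⟨y, hy, hy'⟩ with h1 | h1
    · exact ⟨w', hw', h1 hx, hz⟩
    · exact ⟨w, hw, hx, h1 hz⟩

theorem hull_mem {B : Set ℂ} {r : ℂ → ℂ → Prop} (hr : PreRel B r) (hB : Convex ℝ B) (x y : ℂ)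
    (h : hullRel B r x y) : x ∈ B ∧ y ∈ B := by
  obtain ⟨w, _, hx, hy⟩ := h
  have hs : fill {u | r w u} ⊆ B :=
    fill_subset_convex hB hr.compact.isClosed fun u hu => (hr.mem w u hu).2
  exact ⟨hs hx, hs hy⟩

theorem hull_conn {B : Set ℂ} {r : ℂ → ℂ → Prop} (hr : PreRel B r) (hB : Convex ℝ B) {x : ℂ}
    (hx : x ∈ B) : IsConnected {y | hullRel B r x y} := by
  obtain ⟨w, hw, e⟩ := exists_rep hr hB hx
  rw [e]
  exact isConnected_fill (isCompact_cl hr w) (hr.conn w hw)

theorem hull_compl {B : Set ℂ} {r : ℂ → ℂ → Prop} (hr : PreRel B r) (hB : Convex ℝ B) {x : ℂ}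
    (hx : x ∈ B) : IsPreconnected {y | hullRel B r x y}ᶜ := by
  obtain ⟨w, hw, e⟩ := exists_rep hr hB hx
  rw [e]
  unfold fill
  rw [compl_compl]
  exact isPreconnected_ext (isCompact_cl hr w).isBounded

end Pool.Agent.Carp
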