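import Mathlib
import Pool.Agent.Carp.Rel
import Pool.Agent.Carp.RA
import Pool.Agent.Carp.FA
import Pool.Agent.Carp.FB
import Pool.Agent.Carp.FC
import Pool.Agent.Carp.HA
import Pool.Agent.Carp.HB

/-!
# Big classes of the hull relation

Let `A` be a preconnected set of points whose hull classes have diameter `≥ ε`. Then all points
of `A` are in one hull class.

Proof. Write `H x = {y | hullRel B r x y}` (compact, connected, `= fill (class w_x)` for some
`w_x ∈ B`, chosen so that it depends only on the class: choose for every hull class `κ` a compact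
connected `T κ = {u | r w u}`, `fill (T κ) = κ`). Note `diam (T κ) ≥ diam κ` by `diam_fill`. The set
`V = {x ∈ B | ε ≤ diam (H x)}` is compact (same proof as `isCompact_V`, or: limits of pairs of points
of a class at distance `≥ ε`, `isClosed_hullRel`). Let `C = closure A ⊆ V`, compact and preconnected,
and `C' = {y | ∃ x ∈ C, hullRel x y}`: compact (projection), preconnected (union of the connected
classes `H x`, `x ∈ C`, and `C`), a union of hull classes, `C' ⊆ V`. Let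
`M = C' \ ⋃_{κ ⊆ C'} (κ \ T κ)`. It is compact: `κ \ T κ = fill (T κ) \ T κ` is open
(`isOpen_fill_diff`). `M` is the union of the `T κ`, `κ ⊆ C'` (different classes are disjoint).
`M` is preconnected: if it is the union of two disjoint nonempty closed sets `M₁, M₂`, every `T κ` is
contained in one of them, and `C' = C₁ ∪ C₂` with `C_i` = the union of the classes `κ ⊆ C'` with
`T κ ⊆ M_i` = the `hullRel`-saturation of `M_i`, compact; `C₁, C₂` are disjoint and nonempty,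
contradiction. Every point `u` of `M` lies in some `T κ = {u | r w u}`, a class of `r` of diameter
`≥ ε`; so `hr.comp` applies to `M`: all points of `M` are `r`-related. For `x, y ∈ A`
the sets `T (H x), T (H y)` are contained in `M` and are classes of `r`, so they are equal, so
`H x = H y`.
-/

namespace Pool.Agent.Carp

open Set Metric Topology

namespace HCaux

variable {B : Set ℂ} {r : ℂ → ℂ → Prop}

theorem hsymm {x y : ℂ} (h : hullRel B r x y) : hullRel B r y x := by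
  obtain ⟨w, hw, h1, h2⟩ := h
  exact ⟨w, hw, h2, h1⟩

theorem hrefl (hr : PreRel B r) {x : ℂ} (hx : x ∈ B) : hullRel B r x x :=
  ⟨x, hx, subset_fill _ (hr.refl x hx), subset_fill _ (hr.refl x hx)⟩

/-- the hull class of `x` -/
def H (B : Set ℂ) (r : ℂ → ℂ → Prop) (x : ℂ) : Set ℂ := {y | hullRel B r x y}

theorem H_eq (hr : PreRel B r) {x y : ℂ} (h : hullRel B r x y) : H B r x = H B r y := by
  ext z
  exact ⟨fun hz => hull_trans hr _ _ _ (hsymm h) hz, fun hz => hull_trans hr _ _ _ h hz⟩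

theorem compact_sat (hr : PreRel B r) (hB : Convex ℝ B) {S : Set ℂ} (hS : IsCompact S) :
    IsCompact {y | ∃ x ∈ S, hullRel B r x y} := by
  have h1 : IsCompact ((S ×ˢ B) ∩ {p : ℂ × ℂ | hullRel B r p.1 p.2}) :=
    (hS.prod hr.compact).inter_right (isClosed_hullRel hr hB)
  have h2 := h1.image continuous_snd
  have h3 : {y | ∃ x ∈ S, hullRel B r x y} =
      Prod.snd '' ((S ×ˢ B) ∩ {p : ℂ × ℂ | hullRel B r p.1 p.2}) := by
    ext y
    constructor
    · rintro ⟨x, hx, hxy⟩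
      exact ⟨(x, y), ⟨⟨hx, (hull_mem hr hB x y hxy).2⟩, hxy⟩, rfl⟩
    · rintro ⟨⟨x, y⟩, ⟨⟨hx, hy⟩, hxy⟩, rfl⟩
      exact ⟨x, hx, hxy⟩
  rw [h3]
  exact h2

theorem compact_H (hr : PreRel B r) (hB : Convex ℝ B) {x : ℂ} (hx : x ∈ B) :
    IsCompact (H B r x) := by
  obtain ⟨w, hw, h⟩ := exists_rep hr hB hx
  have h' : H B r x = fill {u | r w u} := h
  rw [h']
  exact isCompact_fill (isCompact_cl hr w)

theorem le_diam_iff (hr : PreRel B r) (hB : Convex ℝ B) {x : ℂ} (hx : x ∈ B) {ε : ℝ} :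
    ε ≤ diam (H B r x) ↔ ∃ y z, hullRel B r x y ∧ hullRel B r x z ∧ ε ≤ dist y z := by
  have hc := compact_H hr hB hx
  constructor
  · intro h
    have hne : (H B r x ×ˢ H B r x).Nonempty := ⟨(x, x), hrefl hr hx, hrefl hr hx⟩
    obtain ⟨p, ⟨hp1, hp2⟩, hp⟩ := (hc.prod hc).exists_isMaxOn hne
      (f := fun p : ℂ × ℂ => dist p.1 p.2) (by fun_prop)
    refine ⟨p.1, p.2, hp1, hp2, h.trans ?_⟩
    refine diam_le_of_forall_dist_le dist_nonneg fun y hy z hz => ?_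
    exact hp (show (y, z) ∈ H B r x ×ˢ H B r x from ⟨hy, hz⟩)
  · rintro ⟨y, z, hy, hz, h⟩
    exact h.trans (dist_le_diam_of_mem hc.isBounded hy hz)

theorem closed_V (hr : PreRel B r) (hB : Convex ℝ B) {ε : ℝ} :
    IsClosed {x | x ∈ B ∧ ε ≤ diam {y | hullRel B r x y}} := by
  have hc := isClosed_hullRel hr hB
  have h1 : IsClosed {p : ℂ × ℂ × ℂ | hullRel B r p.1 p.2.1 ∧ hullRel B r p.1 p.2.2 ∧
      ε ≤ dist p.2.1 p.2.2} := by
    have e1 : IsClosed {p : ℂ × ℂ × ℂ | hullRel B r p.1 p.2.1} :=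
      hc.preimage (f := fun p : ℂ × ℂ × ℂ => (p.1, p.2.1)) (by fun_prop)
    have e2 : IsClosed {p : ℂ × ℂ × ℂ | hullRel B r p.1 p.2.2} :=
      hc.preimage (f := fun p : ℂ × ℂ × ℂ => (p.1, p.2.2)) (by fun_prop)
    have e3 : IsClosed {p : ℂ × ℂ × ℂ | ε ≤ dist p.2.1 p.2.2} :=
      isClosed_le continuous_const (by fun_prop)
    exact e1.inter (e2.inter e3)
  have h2 := ((hr.compact.prod (hr.compact.prod hr.compact)).inter_right h1).image continuous_fst
  have h3 : {x | x ∈ B ∧ ε ≤ diam {y | hullRel B r x y}} = Prod.fst ''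
      ((B ×ˢ (B ×ˢ B)) ∩ {p : ℂ × ℂ × ℂ | hullRel B r p.1 p.2.1 ∧ hullRel B r p.1 p.2.2 ∧
      ε ≤ dist p.2.1 p.2.2}) := by
    ext x
    constructor
    · rintro ⟨hx, h⟩
      obtain ⟨y, z, hy, hz, hyz⟩ := (le_diam_iff hr hB hx).1 h
      exact ⟨(x, y, z), ⟨⟨hx, (hull_mem hr hB x y hy).2, (hull_mem hr hB x z hz).2⟩, hy, hz, hyz⟩,
        rfl⟩
    · rintro ⟨⟨x, y, z⟩, ⟨⟨hx, -⟩, hy, hz, hyz⟩, rfl⟩
      exact ⟨hx, (le_diam_iff hr hB hx).2 ⟨y, z, hy, hz, hyz⟩⟩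
  rw [h3]
  exact h2.isClosed

open Classical in
/-- a class of `r` with the given filling -/
noncomputable def T (B : Set ℂ) (r : ℂ → ℂ → Prop) (κ : Set ℂ) : Set ℂ :=
  if h : ∃ w ∈ B, κ = fill {u | r w u} then {u | r h.choose u} else ∅

theorem T_spec (hr : PreRel B r) (hB : Convex ℝ B) {x : ℂ} (hx : x ∈ B) :
    ∃ w ∈ B, T B r (H B r x) = {u | r w u} ∧ H B r x = fill {u | r w u} := by
  have h : ∃ w ∈ B, H B r x = fill {u | r w u} := exists_rep hr hB hx
  refine ⟨h.choose, h.choose_spec.1, ?_, h.choose_spec.2⟩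
  unfold T
  rw [dif_pos h]

theorem T_sub (hr : PreRel B r) (hB : Convex ℝ B) {x : ℂ} (hx : x ∈ B) :
    T B r (H B r x) ⊆ H B r x := by
  obtain ⟨w, hw, h1, h2⟩ := T_spec hr hB hx
  rw [h1, h2]
  exact subset_fill _

theorem T_nonempty (hr : PreRel B r) (hB : Convex ℝ B) {x : ℂ} (hx : x ∈ B) :
    (T B r (H B r x)).Nonempty := by
  obtain ⟨w, hw, h1, h2⟩ := T_spec hr hB hx
  rw [h1]
  exact ⟨w, hr.refl w hw⟩

theorem T_class (hr : PreRel B r) (hB : Convex ℝ B) {x u : ℂ} (hx : x ∈ B)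
    (hu : u ∈ T B r (H B r x)) : T B r (H B r x) = {v | r u v} := by
  obtain ⟨w, hw, h1, h2⟩ := T_spec hr hB hx
  rw [h1] at hu ⊢
  have hu' : r w u := hu
  ext v
  exact ⟨fun hv => hr.trans _ _ _ (hr.symm _ _ hu') hv, fun hv => hr.trans _ _ _ hu' hv⟩

end HCaux

open HCaux

theorem hull_comp {B : Set ℂ} {r : ℂ → ℂ → Prop} (hr : PreRel B r) (hB : Convex ℝ B)
    {ε : ℝ} (hε : 0 < ε) {A : Set ℂ} (hA : A ⊆ {x | x ∈ B ∧ ε ≤ diam {y | hullRel B r x y}})
    (hAc : IsPreconnected A) : ∀ x ∈ A, ∀ y ∈ A, hullRel B r x y := by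
  intro x₀ hx₀ y₀ hy₀
  set V : Set ℂ := {x | x ∈ B ∧ ε ≤ diam {y | hullRel B r x y}} with hV
  have hVc : IsClosed V := closed_V hr hB
  set C := closure A with hC
  have hCV : C ⊆ V := closure_minimal hA hVc
  have hCB : ∀ x ∈ C, x ∈ B := fun x hx => (hCV hx).1
  have hCc : IsCompact C := hr.compact.of_isClosed_subset isClosed_closure hCB
  have hCp : IsPreconnected C := hAc.closure
  set C' : Set ℂ := {y | ∃ x ∈ C, hullRel B r x y} with hC'
  have hC'c : IsCompact C' := compact_sat hr hB hCc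
  have hC'p : IsPreconnected C' := by
    refine isPreconnected_of_forall_pair ?_
    rintro y ⟨x, hx, hxy⟩ z ⟨x', hx', hxz⟩
    refine ⟨H B r x ∪ (C ∪ H B r x'), ?_, Or.inl hxy, Or.inr (Or.inr hxz), ?_⟩
    · rintro u (hu | hu | hu)
      · exact ⟨x, hx, hu⟩
      · exact ⟨u, hu, hrefl hr (hCB u hu)⟩
      · exact ⟨x', hx', hu⟩
    · have h1 : IsPreconnected (C ∪ H B r x') :=
        IsPreconnected.union x' hx' (hrefl hr (hCB x' hx')) hCp
          (hull_conn hr hB (hCB x' hx')).isPreconnected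
      exact IsPreconnected.union x (hrefl hr (hCB x hx)) (Or.inl hx)
        (hull_conn hr hB (hCB x hx)).isPreconnected h1
  -- the union of the chosen classes
  set Mm : Set ℂ := ⋃ x ∈ C, T B r (H B r x) with hMm
  have hmem : ∀ u, u ∈ Mm ↔ ∃ x ∈ C, u ∈ T B r (H B r x) := by
    intro u
    simp [hMm]
  have hMeq : Mm = C' \ ⋃ x ∈ C, (H B r x \ T B r (H B r x)) := by
    ext u
    rw [hmem]
    constructor
    · rintro ⟨x, hx, hu⟩
      have hxu : hullRel B r x u := T_sub hr hB (hCB x hx) hu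
      refine ⟨⟨x, hx, hxu⟩, ?_⟩
      intro hcon
      simp only [mem_iUnion] at hcon
      obtain ⟨x', hx', hu', hnu⟩ := hcon
      apply hnu
      have h1 : H B r x' = H B r x := (H_eq hr hu').trans (H_eq hr hxu).symm
      rw [h1]
      exact hu
    · rintro ⟨⟨x, hx, hxu⟩, hnot⟩
      refine ⟨x, hx, ?_⟩
      by_contra hcon
      apply hnot
      simp only [mem_iUnion]
      exact ⟨x, hx, hxu, hcon⟩
  have hMc : IsCompact Mm := by
    rw [hMeq, sdiff_eq]
    refine hC'c.inter_right ?_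
    rw [isClosed_compl_iff]
    refine isOpen_biUnion fun x hx => ?_
    obtain ⟨w, hw, h1, h2⟩ := T_spec hr hB (hCB x hx)
    rw [h1, h2]
    exact isOpen_fill_diff (isCompact_cl hr w).isClosed
  have hMp : IsPreconnected Mm := by
    rw [isPreconnected_closed_iff]
    intro t t' ht ht' hcov hnt hnt'
    by_contra hcon
    rw [not_nonempty_iff_eq_empty] at hcon
    set C₁ : Set ℂ := {y | ∃ x ∈ Mm ∩ t, hullRel B r x y} with hC₁
    set C₂ : Set ℂ := {y | ∃ x ∈ Mm ∩ t', hullRel B r x y} with hC₂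
    have hc₁ : IsCompact C₁ := compact_sat hr hB (hMc.inter_right ht)
    have hc₂ : IsCompact C₂ := compact_sat hr hB (hMc.inter_right ht')
    have hcov2 : C' ⊆ C₁ ∪ C₂ := by
      rintro y ⟨x, hx, hxy⟩
      obtain ⟨u, hu⟩ := T_nonempty hr hB (hCB x hx)
      have huM : u ∈ Mm := (hmem u).2 ⟨x, hx, hu⟩
      have hxu : hullRel B r x u := T_sub hr hB (hCB x hx) hu
      have huy : hullRel B r u y := hull_trans hr _ _ _ (hsymm hxu) hxy
      rcases hcov huM with h | h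
      · exact Or.inl ⟨u, ⟨huM, h⟩, huy⟩
      · exact Or.inr ⟨u, ⟨huM, h⟩, huy⟩
    have hMC' : Mm ⊆ C' := by
      rw [hMeq]
      exact sdiff_subset
    have hn₁ : (C' ∩ C₁).Nonempty := by
      obtain ⟨u, huM, hut⟩ := hnt
      have huC := hMC' huM
      obtain ⟨x, hx, hxu⟩ := huC
      exact ⟨u, ⟨x, hx, hxu⟩, u, ⟨huM, hut⟩, hrefl hr (hull_mem hr hB x u hxu).2⟩
    have hn₂ : (C' ∩ C₂).Nonempty := by
      obtain ⟨u, huM, hut⟩ := hnt'
      have huC := hMC' huM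
      obtain ⟨x, hx, hxu⟩ := huC
      exact ⟨u, ⟨x, hx, hxu⟩, u, ⟨huM, hut⟩, hrefl hr (hull_mem hr hB x u hxu).2⟩
    obtain ⟨y, -, ⟨u₁, ⟨hu₁M, hu₁t⟩, h₁⟩, ⟨u₂, ⟨hu₂M, hu₂t⟩, h₂⟩⟩ :=
      (isPreconnected_closed_iff.1 hC'p) C₁ C₂ hc₁.isClosed hc₂.isClosed hcov2 hn₁ hn₂
    obtain ⟨x₁, hx₁, hu₁⟩ := (hmem u₁).1 hu₁M
    obtain ⟨x₂, hx₂, hu₂⟩ := (hmem u₂).1 hu₂M
    have g₁ : hullRel B r x₁ u₁ := T_sub hr hB (hCB x₁ hx₁) hu₁
    have g₂ : hullRel B r x₂ u₂ := T_sub hr hB (hCB x₂ hx₂) hu₂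
    have h12 : hullRel B r x₁ x₂ := hull_trans hr _ _ _ (hull_trans hr _ _ _ g₁ h₁)
      (hsymm (hull_trans hr _ _ _ g₂ h₂))
    rw [← H_eq hr h12] at hu₂
    have hconn : IsPreconnected (T B r (H B r x₁)) := by
      obtain ⟨w, hw, h1, h2⟩ := T_spec hr hB (hCB x₁ hx₁)
      rw [h1]
      exact (hr.conn w hw).isPreconnected
    have hTM : T B r (H B r x₁) ⊆ Mm := fun u hu => (hmem u).2 ⟨x₁, hx₁, hu⟩
    obtain ⟨u, hu, hut⟩ := (isPreconnected_closed_iff.1 hconn) t t' ht ht' (hTM.trans hcov)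
      ⟨u₁, hu₁, hu₁t⟩ ⟨u₂, hu₂, hu₂t⟩
    have : u ∈ Mm ∩ (t ∩ t') := ⟨hTM hu, hut⟩
    rw [hcon] at this
    exact this
  -- all classes in the union are big
  have hbig : Mm ⊆ {x | x ∈ B ∧ ε ≤ diam {y | r x y}} := by
    intro u hu
    obtain ⟨x, hx, hux⟩ := (hmem u).1 hu
    have h1 := T_class hr hB (hCB x hx) hux
    obtain ⟨w, hw, h2, h3⟩ := T_spec hr hB (hCB x hx)
    refine ⟨?_, ?_⟩
    · rw [h2] at hux
      exact (hr.mem w u hux).2
    · rw [← h1, h2]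
      have h4 : ε ≤ diam (H B r x) := (hCV hx).2
      rw [h3] at h4
      exact h4.trans (diam_fill (isCompact_cl hr w))
  have hrel := hr.comp ε hε Mm hbig hMp
  have hx₀C : x₀ ∈ C := subset_closure hx₀
  have hy₀C : y₀ ∈ C := subset_closure hy₀
  obtain ⟨u, hu⟩ := T_nonempty hr hB (hCB x₀ hx₀C)
  obtain ⟨v, hv⟩ := T_nonempty hr hB (hCB y₀ hy₀C)
  have huv : r u v := hrel u ((hmem u).2 ⟨x₀, hx₀C, hu⟩) v ((hmem v).2 ⟨y₀, hy₀C, hv⟩)
  have h1 := T_class hr hB (hCB x₀ hx₀C) hu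
  have hv' : v ∈ T B r (H B r x₀) := by
    rw [h1]
    exact huv
  have h2 : hullRel B r x₀ v := T_sub hr hB (hCB x₀ hx₀C) hv'
  have h3 : hullRel B r y₀ v := T_sub hr hB (hCB y₀ hy₀C) hv
  exact hull_trans hr _ _ _ h2 (hsymm h3)

end Pool.Agent.Carp
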