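import Mathlib
import Pool.Agent.Carp.Rel
import Pool.Agent.Carp.RA
import Pool.Agent.Carp.FA
import Pool.Agent.Carp.FB
import Pool.Agent.Carp.HA
import Pool.Agent.Carp.HB
import Pool.Agent.Carp.HC

/-!
# The hull relation is full
-/

namespace Pool.Agent.Carp

open Set Metric Topology

theorem le_hull {B : Set ℂ} {r : ℂ → ℂ → Prop} (hr : PreRel B r) {x y : ℂ} (h : r x y) :
    hullRel B r x y :=
  ⟨x, (hr.mem x y h).1, subset_fill _ (hr.refl x (hr.mem x y h).1), subset_fill _ h⟩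

theorem hull_full {B : Set ℂ} {r : ℂ → ℂ → Prop} (hr : PreRel B r) (hB : Convex ℝ B) :
    FullRel B (hullRel B r) where
  compact := hr.compact
  refl := fun x hx => le_hull hr (hr.refl x hx)
  symm := fun x y ⟨w, hw, h1, h2⟩ => ⟨w, hw, h2, h1⟩
  trans := hull_trans hr
  mem := hull_mem hr hB
  closed := isClosed_hullRel hr hB
  conn := fun x hx => hull_conn hr hB hx
  comp := fun ε hε A hA hAc => hull_comp hr hB hε hA hAc
  full := fun x hx => hull_compl hr hB hx

theorem hull_diam {B : Set ℂ} {r : ℂ → ℂ → Prop} (hr : PreRel B r) (hB : Convex ℝ B) {δ : ℝ}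
    (h : ∀ x ∈ B, diam {y | r x y} ≤ δ) : ∀ x ∈ B, diam {y | hullRel B r x y} ≤ δ := by
  intro x hx
  obtain ⟨w, hw, h1⟩ := exists_rep hr hB hx
  rw [h1]
  exact (diam_fill (isCompact_cl hr w)).trans (h w hw)

end Pool.Agent.Carp
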