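import Mathlib

/-!
# MP_efd072_an (Sierpinski carpets in plane sets carrying natural uniform algebras)

Basic definitions for the graph-tower construction of Peano continua without local cut points.
-/

namespace Pool.Agent.Carp

open Set Metric Topology

/-- `i` is joined to `j` through indices with property `P`, consecutive members of the family
`V` having a common point. -/
def Join {ι M : Type*} (V : ι → Set M) (P : ι → Prop) (i j : ι) : Prop :=
  P i ∧ Relation.ReflTransGen (fun a b => P b ∧ (V a ∩ V b).Nonempty) i j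

theorem Join.left {ι M : Type*} {V : ι → Set M} {P : ι → Prop} {i j : ι} (h : Join V P i j) :
    P i := h.1

theorem Join.right {ι M : Type*} {V : ι → Set M} {P : ι → Prop} {i j : ι} (h : Join V P i j) :
    P j := by
  obtain ⟨hi, h⟩ := h
  induction h with
  | refl => exact hi
  | tail _ h _ => exact h.1

theorem Join.rfl {ι M : Type*} {V : ι → Set M} {P : ι → Prop} {i : ι} (h : P i) :
    Join V P i i := ⟨h, Relation.ReflTransGen.refl⟩

theorem Join.trans {ι M : Type*} {V : ι → Set M} {P : ι → Prop} {i j k : ι}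
    (h : Join V P i j) (h' : Join V P j k) : Join V P i k :=
  ⟨h.1, h.2.trans h'.2⟩

theorem Join.single {ι M : Type*} {V : ι → Set M} {P : ι → Prop} {i j : ι}
    (hi : P i) (hj : P j) (h : (V i ∩ V j).Nonempty) : Join V P i j :=
  ⟨hi, Relation.ReflTransGen.single ⟨hj, h⟩⟩

theorem Join.symm {ι M : Type*} {V : ι → Set M} {P : ι → Prop} {i j : ι}
    (h : Join V P i j) : Join V P j i := by
  obtain ⟨hi, h⟩ := h
  induction h with
  | refl => exact Join.rfl hi
  | tail hab hbc ih =>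
    refine Join.trans (Join.single hbc.1 ih.left ?_) ih
    rw [inter_comm]; exact hbc.2

theorem Join.mono {ι M : Type*} {V : ι → Set M} {P Q : ι → Prop} {i j : ι}
    (h : Join V P i j) (hPQ : ∀ l, P l → Q l) : Join V Q i j := by
  obtain ⟨hi, h⟩ := h
  induction h with
  | refl => exact Join.rfl (hPQ _ hi)
  | tail _ h2 ih => exact ⟨ih.1, ih.2.tail ⟨hPQ _ h2.1, h2.2⟩⟩

/-- A class `G` of connected open sets with the finite connection properties needed for one step
of the graph-tower construction. `Z n` is the closed set to be avoided at level `n`, `ε n` the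
mesh at level `n`. -/
structure GoodFam {M : Type*} [MetricSpace M] (G : Set (Set M)) (Z : ℕ → Set M)
    (ε : ℕ → ℝ) : Prop where
  conn : ∀ U ∈ G, IsOpen U ∧ IsConnected U ∧ IsCompact (closure U)
  out : ∃ z₀ : M, ∀ U ∈ G, z₀ ∉ closure U
  contact : ∀ n : ℕ, ∀ U ∈ G, ∀ U' ∈ G, (U ∩ U').Nonempty →
    ∃ B₁ ∈ G, ∃ B₂ ∈ G, Disjoint B₁ B₂ ∧ closure B₁ ⊆ (U ∩ U') \ Z n ∧
      closure B₂ ⊆ (U ∩ U') \ Z n ∧ diam B₁ ≤ ε n ∧ diam B₂ ≤ ε n
  chain : ∀ n : ℕ, ∀ U ∈ G, ∀ (β : Type) [Finite β] (B : β → Set M),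
    (∀ i, B i ∈ G ∧ closure (B i) ⊆ U \ Z n) → ∀ z : M, ∃ O : Set M, IsOpen O ∧ z ∈ O ∧
      ∃ (κ : Type) (_ : Finite κ) (V : κ → Set M),
        (∀ c, V c ∈ G ∧ closure (V c) ⊆ U \ Z n ∧ diam (V c) ≤ ε n ∧ Disjoint (V c) O) ∧
        (∀ c c', Join V (fun _ => True) c c') ∧
        ∀ i, O ⊆ B i ∨ ∃ c, (V c ∩ B i).Nonempty

/-- One step of the tower: `U' j` (`j < k'`) are the children, `π j` the parent of `j`. -/
def Step {M : Type*} [MetricSpace M] (Z : Set M) (e : ℝ) (k : ℕ) (U : ℕ → Set M)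
    (k' : ℕ) (U' : ℕ → Set M) (π : ℕ → ℕ) : Prop :=
  (∀ j < k', π j < k ∧ closure (U' j) ⊆ U (π j) \ Z ∧ diam (U' j) ≤ e) ∧
  (∀ i < k, ∀ z : M, ∃ j < k', π j = i ∧ z ∉ U' j) ∧
  (∀ i < k, ∀ z : M, ∀ j < k', ∀ j' < k', π j = i → π j' = i → z ∉ U' j → z ∉ U' j' →
    Join U' (fun l => l < k' ∧ π l = i ∧ z ∉ U' l) j j') ∧
  (∀ i < k, ∀ i' < k, (U i ∩ U i').Nonempty → ∀ z : M, ∃ j < k', ∃ j' < k',
    π j = i ∧ π j' = i' ∧ (U' j ∩ U' j').Nonempty ∧ z ∉ U' j ∧ z ∉ U' j')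

/-- The graph tower. -/
structure Tower {M : Type*} [MetricSpace M] (G : Set (Set M)) (Z : ℕ → Set M)
    (ε : ℕ → ℝ) where
  k : ℕ → ℕ
  U : ℕ → ℕ → Set M
  π : ℕ → ℕ → ℕ
  k0 : k 0 = 1
  mem : ∀ n, ∀ i < k n, U n i ∈ G
  step : ∀ n, Step (Z n) (ε n) (k n) (U n) (k (n + 1)) (U (n + 1)) (π n)

/-- the ancestor at level `n` of the index `j` of level `n + m` -/
def Tower.anc {M : Type*} [MetricSpace M] {G : Set (Set M)} {Z : ℕ → Set M} {ε : ℕ → ℝ}
    (T : Tower G Z ε) (n : ℕ) : ℕ → ℕ → ℕ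
  | 0, j => j
  | m + 1, j => T.anc n m (T.π (n + m) j)

/-- the descendants at level `n + m` of the index `i` of level `n` -/
def Tower.desc {M : Type*} [MetricSpace M] {G : Set (Set M)} {Z : ℕ → Set M} {ε : ℕ → ℝ}
    (T : Tower G Z ε) (n i m : ℕ) : Set ℕ :=
  {j | j < T.k (n + m) ∧ T.anc n m j = i}

/-- the limit set of the descendants of the index `i` of level `n` -/
def Tower.K {M : Type*} [MetricSpace M] {G : Set (Set M)} {Z : ℕ → Set M} {ε : ℕ → ℝ}
    (T : Tower G Z ε) (n i : ℕ) : Set M :=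
  ⋂ m : ℕ, closure (⋃ j ∈ T.desc n i m, T.U (n + m) j)

/-- `S` (as a subspace) has no local cut point. -/
def NoLocalCut {M : Type*} [TopologicalSpace M] (S : Set M) : Prop :=
  ∀ (x : S) (W : Set S), IsOpen W → IsConnected W → x ∈ W → IsPreconnected (W \ {x})

/-- Sierpinski carpets in the plane, by Whyburn's characterization. -/
def IsCarpet (S : Set ℂ) : Prop :=
  IsCompact S ∧ IsConnected S ∧ S.Nontrivial ∧ LocallyConnectedSpace S ∧ interior S = ∅ ∧
    NoLocalCut S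

end Pool.Agent.Carp
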