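import Mathlib
import Pool.Agent.Carp.Defs

/-!
# Descendants missing a point are joined

Let `i < T.k n`. For every `m` and every point `z`, some descendant of `i` at level `n + (m+1)`
misses `z`, and any two descendants of `i` at that level which miss `z` are joined by descendants of
`i` at that level missing `z`.

Proof by induction on `m`. `m = 0`: parts 2 and 3 of `T.step n` (`T.anc n 1 j = T.π n j`).
`m → m+1`: write `N = n + (m+1)`; a descendant `j` of `i` at level `N + 1` has the parent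
`w = T.π N j`, a descendant of `i` at level `N` (`w < T.k N` by part 1 of `T.step N`).
(a) Existence: a descendant `w` at level `N` exists, apply part 2 of `T.step N` to `w`.
(b) If `w, w'` are descendants of `i` at level `N` with `U w ∩ U w' ≠ ∅`, then all children of `w`
missing `z` are joined with all children of `w'` missing `z`: part 4 gives children `j₀` of `w` and
`j₀'` of `w'` which meet and miss `z`; part 3 joins the children of `w` (and of `w'`) missing `z`
(also for `w = w'`).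
(c) ALL descendants of `i` at level `N` are joined: take the point `z₀` of `hG.out` (it is in no
member of `G`) and use the induction hypothesis for `z₀`. So any two `w, w'` are joined by a chain
of descendants at level `N`; by (b) and induction along the chain all children missing `z` are
joined (a child missing `z` of every member of the chain exists by part 2).
Only the statement for all `z` is needed in the induction (quantify over `z` inside).
-/

namespace Pool.Agent.Carp

open Set Metric Topology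

theorem desc_succ {M : Type*} [MetricSpace M] {G : Set (Set M)} {Z : ℕ → Set M}
    {ε : ℕ → ℝ} (T : Tower G Z ε) (n i m j : ℕ) :
    j ∈ T.desc n i (m + 1) ↔ j < T.k (n + m + 1) ∧ T.π (n + m) j ∈ T.desc n i m := by
  constructor
  · rintro ⟨h1, h2⟩
    exact ⟨h1, ((T.step (n + m)).1 j h1).1, h2⟩
  · rintro ⟨h1, _, h2⟩
    exact ⟨h1, h2⟩

theorem desc_join {M : Type*} [MetricSpace M] {G : Set (Set M)} {Z : ℕ → Set M}
    {ε : ℕ → ℝ} (hG : GoodFam G Z ε) (T : Tower G Z ε) (n i : ℕ) (hi : i < T.k n) (m : ℕ) :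
    ∀ z : M, (∃ j ∈ T.desc n i (m + 1), z ∉ T.U (n + (m + 1)) j) ∧
      ∀ j ∈ T.desc n i (m + 1), ∀ j' ∈ T.desc n i (m + 1), z ∉ T.U (n + (m + 1)) j →
        z ∉ T.U (n + (m + 1)) j' →
        Join (T.U (n + (m + 1)))
          (fun l => l ∈ T.desc n i (m + 1) ∧ z ∉ T.U (n + (m + 1)) l) j j' := by
  induction m with
  | zero =>
    intro z
    obtain ⟨h1, h2, h3, h4⟩ := T.step n
    constructor
    · obtain ⟨j, hj, hj', hz⟩ := h2 i hi z
      exact ⟨j, ⟨hj, hj'⟩, hz⟩
    · rintro j ⟨hj, hj1⟩ j' ⟨hj', hj1'⟩ hz hz'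
      exact (h3 i hi z j hj j' hj' hj1 hj1' hz hz').mono fun l hl => ⟨⟨hl.1, hl.2.1⟩, hl.2.2⟩
  | succ m ih =>
    intro z
    obtain ⟨h1, h2, h3, h4⟩ := T.step (n + (m + 1))
    have hD : ∀ j, j ∈ T.desc n i (m + 1 + 1) ↔
        j < T.k (n + (m + 1) + 1) ∧ T.π (n + (m + 1)) j ∈ T.desc n i (m + 1) :=
      fun j => desc_succ T n i (m + 1) j
    obtain ⟨z₀, hz₀⟩ := hG.out
    have hz0 : ∀ w ∈ T.desc n i (m + 1), z₀ ∉ T.U (n + (m + 1)) w := fun w hw hmem =>
      hz₀ _ (T.mem _ w hw.1) (subset_closure hmem)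
    obtain ⟨P, hP⟩ : ∃ P : ℕ → Prop, P = fun l => l ∈ T.desc n i (m + 1 + 1) ∧
      z ∉ T.U (n + (m + 1) + 1) l := ⟨_, rfl⟩
    have hb0 : ∀ w ∈ T.desc n i (m + 1), ∀ j < T.k (n + (m + 1) + 1),
        ∀ j' < T.k (n + (m + 1) + 1), T.π (n + (m + 1)) j = w → T.π (n + (m + 1)) j' = w →
        z ∉ T.U (n + (m + 1) + 1) j → z ∉ T.U (n + (m + 1) + 1) j' →
        Join (T.U (n + (m + 1) + 1)) P j j' := by
      intro w hw j hj j' hj' e e' hz hz'
      refine (h3 w hw.1 z j hj j' hj' e e' hz hz').mono fun l hl => ?_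
      rw [hP]
      refine ⟨(hD l).2 ⟨hl.1, ?_⟩, hl.2.2⟩
      rw [hl.2.1]
      exact hw
    have hb1 : ∀ w ∈ T.desc n i (m + 1), ∀ w' ∈ T.desc n i (m + 1),
        (T.U (n + (m + 1)) w ∩ T.U (n + (m + 1)) w').Nonempty →
        ∀ j < T.k (n + (m + 1) + 1),
        ∀ j' < T.k (n + (m + 1) + 1), T.π (n + (m + 1)) j = w → T.π (n + (m + 1)) j' = w' →
        z ∉ T.U (n + (m + 1) + 1) j → z ∉ T.U (n + (m + 1) + 1) j' →
        Join (T.U (n + (m + 1) + 1)) P j j' := by
      intro w hw w' hw' hne j hj j' hj' e e' hz hz'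
      obtain ⟨a, ha, b, hb, ea, eb, hab, hza, hzb⟩ := h4 w hw.1 w' hw'.1 hne z
      have k1 := hb0 w hw j hj a ha e ea hz hza
      have k2 := hb0 w' hw' b hb j' hj' eb e' hzb hz'
      exact (k1.trans (Join.single k1.right k2.left hab)).trans k2
    constructor
    · obtain ⟨w, hw, -⟩ := (ih z₀).1
      obtain ⟨j, hj, hj', hz⟩ := h2 w hw.1 z
      refine ⟨j, (hD j).2 ⟨hj, ?_⟩, hz⟩
      rw [hj']
      exact hw
    · intro j hj j' hj' hz hz'
      have hjw := ((hD j).1 hj).2
      have hjw' := ((hD j').1 hj').2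
      obtain ⟨w, hw⟩ : ∃ w, w = T.π (n + (m + 1)) j := ⟨_, rfl⟩
      obtain ⟨w', hw'⟩ : ∃ w', w' = T.π (n + (m + 1)) j' := ⟨_, rfl⟩
      rw [← hw] at hjw
      rw [← hw'] at hjw'
      obtain ⟨-, hch⟩ := (ih z₀).2 w hjw w' hjw' (hz0 w hjw) (hz0 w' hjw')
      have key : ∀ v, Relation.ReflTransGen (fun a b => (b ∈ T.desc n i (m + 1) ∧
          z₀ ∉ T.U (n + (m + 1)) b) ∧ (T.U (n + (m + 1)) a ∩ T.U (n + (m + 1)) b).Nonempty) w v →
          v ∈ T.desc n i (m + 1) ∧ ∀ l < T.k (n + (m + 1) + 1), T.π (n + (m + 1)) l = v →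
            z ∉ T.U (n + (m + 1) + 1) l → Join (T.U (n + (m + 1) + 1)) P j l := by
        intro v hv
        induction hv with
        | refl =>
          refine ⟨hjw, fun l hl e hzl => ?_⟩
          exact hb0 w hjw j hj.1 l hl hw.symm e hz hzl
        | tail hab hbc ihv =>
          rename_i b c
          obtain ⟨hbD, hbJ⟩ := ihv
          refine ⟨hbc.1.1, fun l hl e hzl => ?_⟩
          obtain ⟨a, ha, ea, hza⟩ := h2 b hbD.1 z
          exact (hbJ a ha ea hza).trans
            (hb1 b hbD c hbc.1.1 hbc.2 a ha l hl ea e hza hzl)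
      have hfin := (key w' hch).2 j' hj'.1 hw'.symm hz'
      rw [hP] at hfin
      exact hfin

end Pool.Agent.Carp
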