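import Mathlib
import Pool.Agent.Carp.Defs
import Pool.Agent.Carp.Desc

/-!
# The limit sets `T.K n i`: compact, connected, contained in `T.U n i`, off `Z n`

Write `A m = ⋃ j ∈ T.desc n i m, T.U (n + m) j`, so `T.K n i = ⋂ m, closure (A m)`.
* `closure (A (m+1)) ⊆ A m`: finite union, and `closure (U' j) ⊆ U (π j)` (part 1 of `T.step`); the
  parent of a descendant is a descendant. So the `closure (A m)` are decreasing, `A 0 = T.U n i`,
  and `closure (A 0)` is compact by `hG.conn`.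
* `K_subset`: `T.K n i ⊆ closure (A 1) ⊆ A 0`, and `closure (A 1)` misses `Z n`.
* connected: `A (m+1)` is connected: union of connected sets which are joined to each other
  (`desc_join` with the point `z₀` of `hG.out`, which lies in no member of `G`; Mathlib:
  `IsConnected.biUnion_of_reflTransGen` or `IsPreconnected.biUnion_of_reflTransGen`), hence its
  closure is connected; a decreasing intersection of nonempty compact connected sets is
  connected (if two disjoint closed sets split the intersection, disjoint open neighbourhoods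
  `O₁, O₂` of the two parts cover some `closure (A m)` by compactness).
-/

namespace Pool.Agent.Carp

open Set Metric Topology

theorem anc_lt {M : Type*} [MetricSpace M] {G : Set (Set M)} {Z : ℕ → Set M}
    {ε : ℕ → ℝ} (T : Tower G Z ε) (n : ℕ) : ∀ m j, j < T.k (n + m) → T.anc n m j < T.k n := by
  intro m
  induction m with
  | zero => intro j hj; exact hj
  | succ m ih =>
    intro j hj
    exact ih _ ((T.step (n + m)).1 j hj).1

private theorem desc_fin {M : Type*} [MetricSpace M] {G : Set (Set M)} {Z : ℕ → Set M}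
    {ε : ℕ → ℝ} (T : Tower G Z ε) (n i m : ℕ) : (T.desc n i m).Finite :=
  (Set.finite_Iio (T.k (n + m))).subset fun _ hj => hj.1

private theorem desc_zero {M : Type*} [MetricSpace M] {G : Set (Set M)} {Z : ℕ → Set M}
    {ε : ℕ → ℝ} (T : Tower G Z ε) (n i : ℕ) (hi : i < T.k n) : T.desc n i 0 = {i} := by
  ext j
  constructor
  · intro hj
    exact hj.2
  · intro hj
    rw [mem_singleton_iff] at hj
    subst hj
    exact ⟨hi, rfl⟩

theorem closure_desc_subset {M : Type*} [MetricSpace M] {G : Set (Set M)} {Z : ℕ → Set M}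
    {ε : ℕ → ℝ} (T : Tower G Z ε) (n i m : ℕ) :
    closure (⋃ j ∈ T.desc n i (m + 1), T.U (n + (m + 1)) j) ⊆
      (⋃ j ∈ T.desc n i m, T.U (n + m) j) \ Z (n + m) := by
  rw [(desc_fin T n i (m + 1)).closure_biUnion]
  intro x hx
  obtain ⟨j, hj, hxj⟩ := mem_iUnion₂.1 hx
  obtain ⟨h1, h2, -⟩ := (T.step (n + m)).1 j hj.1
  have h3 := h2 hxj
  exact ⟨mem_iUnion₂.2 ⟨T.π (n + m) j, ⟨h1, hj.2⟩, h3.1⟩, h3.2⟩

theorem K_subset {M : Type*} [MetricSpace M] {G : Set (Set M)} {Z : ℕ → Set M}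
    {ε : ℕ → ℝ} (T : Tower G Z ε) (n i : ℕ) (hi : i < T.k n) :
    T.K n i ⊆ T.U n i \ Z n := by
  intro x hx
  have h1 : x ∈ closure (⋃ j ∈ T.desc n i (0 + 1), T.U (n + (0 + 1)) j) := mem_iInter.1 hx (0 + 1)
  have h2 := closure_desc_subset T n i 0 h1
  rw [desc_zero T n i hi] at h2
  refine ⟨?_, h2.2⟩
  obtain ⟨j, hj, hxj⟩ := mem_iUnion₂.1 h2.1
  rw [mem_singleton_iff] at hj
  subst hj
  exact hxj

theorem K_compact {M : Type*} [MetricSpace M] {G : Set (Set M)} {Z : ℕ → Set M}
    {ε : ℕ → ℝ} (hG : GoodFam G Z ε) (T : Tower G Z ε) (n i : ℕ) (hi : i < T.k n) :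
    IsCompact (T.K n i) := by
  refine (hG.conn _ (T.mem n i hi)).2.2.of_isClosed_subset
    (isClosed_iInter fun _ => isClosed_closure) ?_
  exact fun x hx => subset_closure (K_subset T n i hi hx).1

private theorem conn_iInter {M : Type*} [MetricSpace M] {C : ℕ → Set M}
    (hm : ∀ m, C (m + 1) ⊆ C m) (hc : ∀ m, IsCompact (C m)) (hn : ∀ m, IsConnected (C m)) :
    IsConnected (⋂ m, C m) := by
  refine ⟨IsCompact.nonempty_iInter_of_sequence_nonempty_isCompact_isClosed C hm
    (fun m => (hn m).nonempty) (hc 0) (fun m => (hc m).isClosed), ?_⟩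
  have hK : IsCompact (⋂ m, C m) :=
    (hc 0).of_isClosed_subset (isClosed_iInter fun m => (hc m).isClosed) (iInter_subset C 0)
  rw [isPreconnected_closed_iff]
  intro t t' ht ht' hs h1 h2
  by_contra hne
  have hd : Disjoint ((⋂ m, C m) ∩ t) ((⋂ m, C m) ∩ t') := by
    rw [Set.disjoint_iff]
    intro x hx
    exact hne ⟨x, hx.1.1, hx.1.2, hx.2.2⟩
  obtain ⟨O₁, O₂, o1, o2, s1, s2, dO⟩ :=
    SeparatedNhds.of_isCompact_isCompact (hK.inter_right ht) (hK.inter_right ht') hd
  have hex : ∃ m, C m ⊆ O₁ ∪ O₂ := by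
    by_contra hno
    push Not at hno
    have h3 : (⋂ m, (C m \ (O₁ ∪ O₂))).Nonempty := by
      apply IsCompact.nonempty_iInter_of_sequence_nonempty_isCompact_isClosed
      · intro m
        exact sdiff_subset_sdiff_left (hm m)
      · intro m
        exact sdiff_nonempty.2 (hno m)
      · exact (hc 0).diff (o1.union o2)
      · intro m
        exact ((hc m).diff (o1.union o2)).isClosed
    obtain ⟨x, hx⟩ := h3
    have hx1 : x ∈ ⋂ m, C m := mem_iInter.2 fun m => (mem_iInter.1 hx m).1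
    have hx2 := (mem_iInter.1 hx 0).2
    rcases hs hx1 with h | h
    · exact hx2 (Or.inl (s1 ⟨hx1, h⟩))
    · exact hx2 (Or.inr (s2 ⟨hx1, h⟩))
  obtain ⟨m, hm'⟩ := hex
  have h4 : (C m ∩ O₁).Nonempty := by
    obtain ⟨x, hx, hxt⟩ := h1
    exact ⟨x, mem_iInter.1 hx m, s1 ⟨hx, hxt⟩⟩
  have h5 : (C m ∩ O₂).Nonempty := by
    obtain ⟨x, hx, hxt⟩ := h2
    exact ⟨x, mem_iInter.1 hx m, s2 ⟨hx, hxt⟩⟩
  obtain ⟨x, -, hx1, hx2⟩ := (hn m).isPreconnected O₁ O₂ o1 o2 hm' h4 h5
  exact (Set.disjoint_left.1 dO) hx1 hx2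

private theorem join_refl {ι M : Type*} {V : ι → Set M} {t : Set ι} {P : ι → Prop}
    (hP : ∀ l, P l → l ∈ t) {i j : ι} (h : Join V P i j) :
    Relation.ReflTransGen (fun i j => (V i ∩ V j).Nonempty ∧ i ∈ t) i j := by
  obtain ⟨hi, h⟩ := h
  induction h with
  | refl => exact Relation.ReflTransGen.refl
  | tail h1 h2 ih => exact ih.tail ⟨h2.2, hP _ (Join.right ⟨hi, h1⟩)⟩

private theorem conn_level {M : Type*} [MetricSpace M] {G : Set (Set M)} {Z : ℕ → Set M}
    {ε : ℕ → ℝ} (hG : GoodFam G Z ε) (T : Tower G Z ε) (n i : ℕ) (hi : i < T.k n) :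
    ∀ m, IsConnected (⋃ j ∈ T.desc n i m, T.U (n + m) j)
  | 0 => by
    rw [desc_zero T n i hi, biUnion_singleton]
    exact (hG.conn _ (T.mem n i hi)).2.1
  | m + 1 => by
    obtain ⟨z, hz⟩ := hG.out
    obtain ⟨⟨j0, hj0, -⟩, h2⟩ := desc_join hG T n i hi m z
    have hz' : ∀ j ∈ T.desc n i (m + 1), z ∉ T.U (n + (m + 1)) j := by
      intro j hj h
      exact hz _ (T.mem (n + (m + 1)) j hj.1) (subset_closure h)
    refine IsConnected.biUnion_of_reflTransGen ⟨j0, hj0⟩ ?_ ?_
    · intro j hj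
      exact (hG.conn _ (T.mem (n + (m + 1)) j hj.1)).2.1
    · intro j hj j' hj'
      exact join_refl (fun l hl => hl.1) (h2 j hj j' hj' (hz' j hj) (hz' j' hj'))

theorem K_connected {M : Type*} [MetricSpace M] {G : Set (Set M)} {Z : ℕ → Set M}
    {ε : ℕ → ℝ} (hG : GoodFam G Z ε) (T : Tower G Z ε) (n i : ℕ) (hi : i < T.k n) :
    IsConnected (T.K n i) := by
  have hcl : ∀ m, IsClosed (closure (⋃ j ∈ T.desc n i m, T.U (n + m) j)) :=
    fun _ => isClosed_closure
  have hm : ∀ m, closure (⋃ j ∈ T.desc n i (m + 1), T.U (n + (m + 1)) j) ⊆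
      closure (⋃ j ∈ T.desc n i m, T.U (n + m) j) := fun m x hx =>
    subset_closure (closure_desc_subset T n i m hx).1
  have h0 : IsCompact (closure (⋃ j ∈ T.desc n i 0, T.U (n + 0) j)) := by
    rw [desc_zero T n i hi, biUnion_singleton]
    exact (hG.conn _ (T.mem n i hi)).2.2
  have hc : ∀ m, IsCompact (closure (⋃ j ∈ T.desc n i m, T.U (n + m) j)) := by
    intro m
    induction m with
    | zero => exact h0
    | succ m ih => exact ih.of_isClosed_subset (hcl _) (hm m)
  exact conn_iInter (C := fun m => closure (⋃ j ∈ T.desc n i m, T.U (n + m) j)) hm hc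
    (fun m => (conn_level hG T n i hi m).closure)

end Pool.Agent.Carp
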