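import Mathlib
import Pool.Agent.Carp.Defs
import Pool.Agent.Carp.KA

/-!
# The limit sets: decomposition into children, and meeting

* `K_eq`: `T.K n i` is the union of the `T.K (n+1) j` over the children `j` of `i`.
  `⊇`: a descendant of a child of `i` after `m` steps is a descendant of `i` after `m + 1` steps
  (`T.anc n (m+1) l = T.π n (T.anc (n+1) m l)`: prove this identity by induction on `m`, with
  `n + (m+1) = (n+1) + m` handled by `Nat.add_assoc`/`Nat.add_comm` rewriting or `omega` congruence),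
  and the closures decrease. `⊆`: let `x ∈ T.K n i`. For every `m`,
  `x ∈ closure (⋃ j ∈ T.desc n i (m+1), …)` = finite union over the children `c` of `i` of
  `closure (⋃ j ∈ T.desc (n+1) c m, …)`. There are finitely many children; since for every
  child the closures decrease in `m`, one child `c` works for all `m` (if for every child `c` some
  `m_c` fails, the maximum of the `m_c` fails for all children).
* `K_meet`: if `T.U n i ∩ T.U n i' ≠ ∅` then `T.K n i ∩ T.K n i' ≠ ∅`: by part 4 of `T.step` (with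
  any point `z`) and induction on `m` there are descendants `j` of `i`, `j'` of `i'` at level `n+m`
  with `T.U (n+m) j ∩ T.U (n+m) j' ≠ ∅`, so the decreasing compact sets
  `closure (A_i m) ∩ closure (A_{i'} m)` are nonempty, and so is their intersection.
-/

namespace Pool.Agent.Carp

open Set Metric Topology

namespace KBaux

variable {M : Type*} [MetricSpace M] {G : Set (Set M)} {Z : ℕ → Set M} {ε : ℕ → ℝ}

/-- union of the descendants after `m` steps -/
def A (T : Tower G Z ε) (n i m : ℕ) : Set M := ⋃ j ∈ T.desc n i m, T.U (n + m) j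

theorem K_def (T : Tower G Z ε) (n i : ℕ) : T.K n i = ⋂ m : ℕ, closure (A T n i m) := rfl

theorem anc_succ (T : Tower G Z ε) (n : ℕ) : ∀ m l, T.anc n (m + 1) l = T.π n (T.anc (n + 1) m l) := by
  intro m
  induction m with
  | zero => intro l; rfl
  | succ m ih =>
    intro l
    have h1 : T.anc n (m + 1 + 1) l = T.anc n (m + 1) (T.π (n + (m + 1)) l) := rfl
    have h2 : T.anc (n + 1) (m + 1) l = T.anc (n + 1) m (T.π (n + 1 + m) l) := rfl
    rw [h1, h2, ih]
    have e : n + 1 + m = n + (m + 1) := by omega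
    rw [e]

theorem mem_desc_one (T : Tower G Z ε) (n i j : ℕ) :
    j ∈ T.desc n i 1 ↔ j < T.k (n + 1) ∧ T.π n j = i := Iff.rfl

theorem mem_desc (T : Tower G Z ε) (n i m j : ℕ) :
    j ∈ T.desc n i m ↔ j < T.k (n + m) ∧ T.anc n m j = i := Iff.rfl

theorem A_succ (T : Tower G Z ε) (n i m : ℕ) :
    A T n i (m + 1) = ⋃ c ∈ T.desc n i 1, A T (n + 1) c m := by
  have e : n + 1 + m = n + (m + 1) := by omega
  ext x
  simp only [A, mem_iUnion, exists_prop]
  constructor
  · rintro ⟨l, hl, hx⟩
    rw [mem_desc, anc_succ] at hl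
    refine ⟨T.anc (n + 1) m l, ?_, l, ?_, ?_⟩
    · rw [mem_desc_one]
      refine ⟨anc_lt T (n + 1) m l ?_, hl.2⟩
      rw [e]; exact hl.1
    · rw [mem_desc, e]
      exact ⟨hl.1, rfl⟩
    · rw [e]; exact hx
  · rintro ⟨c, hc, l, hl, hx⟩
    rw [mem_desc_one] at hc
    rw [mem_desc, e] at hl
    refine ⟨l, ?_, ?_⟩
    · rw [mem_desc, anc_succ, hl.2]
      exact ⟨hl.1, hc.2⟩
    · rw [e] at hx; exact hx

theorem closure_A_succ (T : Tower G Z ε) (n i m : ℕ) :
    closure (A T n i (m + 1)) ⊆ closure (A T n i m) :=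
  (closure_desc_subset T n i m).trans (sdiff_subset.trans subset_closure)

theorem closure_A_anti (T : Tower G Z ε) (n i : ℕ) {m m' : ℕ} (h : m ≤ m') :
    closure (A T n i m') ⊆ closure (A T n i m) := by
  induction m', h using Nat.le_induction with
  | base => exact subset_rfl
  | succ k _ ih => exact (closure_A_succ T n i k).trans ih

theorem desc_finite (T : Tower G Z ε) (n i m : ℕ) : (T.desc n i m).Finite :=
  (finite_lt_nat (T.k (n + m))).subset fun _ hj => hj.1

theorem A_zero (T : Tower G Z ε) (n i : ℕ) (hi : i < T.k n) : A T n i 0 = T.U n i := by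
  ext x
  simp only [A, mem_iUnion, exists_prop]
  constructor
  · rintro ⟨j, hj, hx⟩
    have : j = i := hj.2
    subst this
    exact hx
  · intro hx
    exact ⟨i, ⟨hi, rfl⟩, hx⟩

end KBaux

open KBaux

theorem K_eq {M : Type*} [MetricSpace M] {G : Set (Set M)} {Z : ℕ → Set M}
    {ε : ℕ → ℝ} (T : Tower G Z ε) (n i : ℕ) (hi : i < T.k n) :
    T.K n i = ⋃ j ∈ T.desc n i 1, T.K (n + 1) j := by
  apply Subset.antisymm
  · intro x hx
    by_contra hcon
    simp only [mem_iUnion, exists_prop, not_exists, not_and] at hcon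
    have h1 : ∀ c, ∃ m : ℕ, c ∈ T.desc n i 1 → x ∉ closure (A T (n + 1) c m) := by
      intro c
      by_cases hc : c ∈ T.desc n i 1
      · have := hcon c hc
        rw [K_def, mem_iInter, not_forall] at this
        obtain ⟨m, hm⟩ := this
        exact ⟨m, fun _ => hm⟩
      · exact ⟨0, fun h => absurd h hc⟩
    choose f hf using h1
    have hfin := desc_finite T n i 1
    obtain ⟨N, hN⟩ : ∃ N, ∀ c ∈ T.desc n i 1, f c ≤ N := by
      obtain ⟨N, hN⟩ := (hfin.image f).bddAbove
      exact ⟨N, fun c hc => hN ⟨c, hc, rfl⟩⟩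
    rw [K_def, mem_iInter] at hx
    have h2 := hx (N + 1)
    rw [A_succ, hfin.closure_biUnion] at h2
    simp only [mem_iUnion, exists_prop] at h2
    obtain ⟨c, hc, hxc⟩ := h2
    exact hf c hc (closure_A_anti T (n + 1) c (hN c hc) hxc)
  · intro x hx
    simp only [mem_iUnion, exists_prop] at hx
    obtain ⟨c, hc, hxc⟩ := hx
    rw [K_def, mem_iInter] at hxc ⊢
    have key : ∀ m, x ∈ closure (A T n i (m + 1)) := by
      intro m
      refine closure_mono ?_ (hxc m)
      rw [A_succ]
      exact subset_biUnion_of_mem (u := fun c => A T (n + 1) c m) hc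
    intro m
    exact closure_A_succ T n i m (key m)

theorem K_eq_desc {M : Type*} [MetricSpace M] {G : Set (Set M)} {Z : ℕ → Set M}
    {ε : ℕ → ℝ} (T : Tower G Z ε) (n i : ℕ) (hi : i < T.k n) (m : ℕ) :
    T.K n i = ⋃ j ∈ T.desc n i m, T.K (n + m) j := by
  induction m with
  | zero =>
    ext x
    simp only [mem_iUnion, exists_prop]
    constructor
    · intro hx
      exact ⟨i, ⟨hi, rfl⟩, hx⟩
    · rintro ⟨j, hj, hx⟩
      have : j = i := hj.2
      subst this
      exact hx
  | succ m ih =>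
    rw [ih]
    ext x
    simp only [mem_iUnion, exists_prop]
    constructor
    · rintro ⟨j, hj, hx⟩
      rw [K_eq T (n + m) j hj.1] at hx
      simp only [mem_iUnion, exists_prop] at hx
      obtain ⟨l, hl, hxl⟩ := hx
      rw [mem_desc_one] at hl
      refine ⟨l, ?_, hxl⟩
      rw [mem_desc]
      refine ⟨hl.1, ?_⟩
      have h1 : T.anc n (m + 1) l = T.anc n m (T.π (n + m) l) := rfl
      rw [h1, hl.2]
      exact hj.2
    · rintro ⟨l, hl, hxl⟩
      have h1 : T.anc n m (T.π (n + m) l) = i := hl.2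
      have h2 : T.π (n + m) l < T.k (n + m) := ((T.step (n + m)).1 l hl.1).1
      refine ⟨T.π (n + m) l, ⟨h2, h1⟩, ?_⟩
      rw [K_eq T (n + m) _ h2]
      simp only [mem_iUnion, exists_prop]
      exact ⟨l, (mem_desc_one T (n + m) _ l).2 ⟨hl.1, rfl⟩, hxl⟩

theorem K_meet {M : Type*} [MetricSpace M] {G : Set (Set M)} {Z : ℕ → Set M}
    {ε : ℕ → ℝ} (hG : GoodFam G Z ε) (T : Tower G Z ε) (n i i' : ℕ) (hi : i < T.k n)
    (hi' : i' < T.k n) (h : (T.U n i ∩ T.U n i').Nonempty) :
    (T.K n i ∩ T.K n i').Nonempty := by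
  obtain ⟨z, -⟩ := id h
  have key : ∀ m, ∃ j ∈ T.desc n i m, ∃ j' ∈ T.desc n i' m,
      (T.U (n + m) j ∩ T.U (n + m) j').Nonempty := by
    intro m
    induction m with
    | zero => exact ⟨i, ⟨hi, rfl⟩, i', ⟨hi', rfl⟩, h⟩
    | succ m ih =>
      obtain ⟨w, hw, w', hw', hww⟩ := ih
      obtain ⟨j, hj, j', hj', h1, h2, h3, -, -⟩ :=
        (T.step (n + m)).2.2.2 w hw.1 w' hw'.1 hww z
      refine ⟨j, ⟨hj, ?_⟩, j', ⟨hj', ?_⟩, h3⟩
      · have e : T.anc n (m + 1) j = T.anc n m (T.π (n + m) j) := rfl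
        rw [e, h1]; exact hw.2
      · have e : T.anc n (m + 1) j' = T.anc n m (T.π (n + m) j') := rfl
        rw [e, h2]; exact hw'.2
  have hne := IsCompact.nonempty_iInter_of_sequence_nonempty_isCompact_isClosed
    (fun m => closure (A T n i m) ∩ closure (A T n i' m))
    (fun m => inter_subset_inter (closure_A_succ T n i m) (closure_A_succ T n i' m))
    (fun m => by
      obtain ⟨j, hj, j', hj', x, hx1, hx2⟩ := key m
      exact ⟨x, subset_closure (mem_biUnion hj hx1), subset_closure (mem_biUnion hj' hx2)⟩)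
    (by
      show IsCompact (closure (A T n i 0) ∩ closure (A T n i' 0))
      rw [A_zero T n i hi]
      exact (hG.conn _ (T.mem n i hi)).2.2.inter_right isClosed_closure)
    (fun m => isClosed_closure.inter isClosed_closure)
  obtain ⟨x, hx⟩ := hne
  rw [mem_iInter] at hx
  refine ⟨x, ?_, ?_⟩
  · rw [K_def, mem_iInter]
    exact fun m => (hx m).1
  · rw [K_def, mem_iInter]
    exact fun m => (hx m).2

end Pool.Agent.Carp
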