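import Mathlib
import Pool.Agent.Carp.Defs
import Pool.Agent.Carp.Desc
import Pool.Agent.Carp.KA
import Pool.Agent.Carp.KB

/-!
# `T.K n i` minus a point is connected

Let `A m = ⋃ j ∈ {j ∈ T.desc n i (m+1) | z ∉ T.U (n+(m+1)) j}, T.K (n+(m+1)) j`.
* `A m` is preconnected and nonempty: the `T.K _ j` are connected (`K_connected`), the indices are
  joined (`desc_join`), and meeting sets `T.U` have meeting sets `T.K` (`K_meet`).
* `A m ⊆ A (m+1)`: children of `j` are contained in `T.U _ j`, so they miss `z` too (`K_eq`).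
* `⋃ m, A m = T.K n i \ {z}`: `⊆`: `K_subset`, `K_eq_desc`. `⊇`: let `x ∈ T.K n i`, `x ≠ z`. For
  `m` large `ε (n+m) < dist x z`; by `K_eq_desc` there is a descendant `j` at level `n + (m+1)`
  with `x ∈ T.K _ j ⊆ T.U _ j`, and `diam (T.U _ j) ≤ ε (n+m) < dist x z` (part 1 of `T.step`; the
  set is bounded because its closure is compact) so `z ∉ T.U _ j`.
An increasing union of preconnected nonempty sets is preconnected
(`IsPreconnected.iUnion_of_chain` or directed union).
-/

namespace Pool.Agent.Carp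

open Set Metric Topology Filter

/-- members of the tower indexed by descendants -/
private theorem desc_lt {M : Type*} [MetricSpace M] {G : Set (Set M)} {Z : ℕ → Set M}
    {ε : ℕ → ℝ} {T : Tower G Z ε} {n i m j : ℕ} (h : j ∈ T.desc n i m) : j < T.k (n + m) := h.1

private theorem punct_desc_succ {M : Type*} [MetricSpace M] {G : Set (Set M)} {Z : ℕ → Set M}
    {ε : ℕ → ℝ} {T : Tower G Z ε} {n i m j l : ℕ} (h : j ∈ T.desc n i m)
    (hl : l ∈ T.desc (n + m) j 1) : l ∈ T.desc n i (m + 1) := by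
  refine ⟨hl.1, ?_⟩
  have h1 : T.π (n + m) l = j := hl.2
  show T.anc n m (T.π (n + m) l) = i
  rw [h1]
  exact h.2

theorem K_diff_preconnected {M : Type*} [MetricSpace M] {G : Set (Set M)} {Z : ℕ → Set M}
    {ε : ℕ → ℝ} (hG : GoodFam G Z ε) (hε : Tendsto ε atTop (𝓝 0)) (T : Tower G Z ε) (n i : ℕ)
    (hi : i < T.k n) (z : M) : IsPreconnected (T.K n i \ {z}) := by
  have hunion : T.K n i \ {z} = ⋃ m : ℕ,
      ⋃ j ∈ {j | j ∈ T.desc n i (m + 1) ∧ z ∉ T.U (n + (m + 1)) j}, T.K (n + (m + 1)) j := by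
    ext x
    simp only [mem_diff, mem_singleton_iff, mem_iUnion, exists_prop, mem_ofPred_eq]
    constructor
    · rintro ⟨hx, hxz⟩
      have hpos : 0 < dist x z := dist_pos.mpr hxz
      obtain ⟨m, hm⟩ := eventually_atTop.mp (hε.eventually (gt_mem_nhds hpos))
      refine ⟨m, ?_⟩
      rw [K_eq_desc T n i hi (m + 1)] at hx
      simp only [mem_iUnion, exists_prop] at hx
      obtain ⟨j, hj, hxj⟩ := hx
      refine ⟨j, ⟨hj, fun hz => ?_⟩, hxj⟩
      have hxU : x ∈ T.U (n + (m + 1)) j := (K_subset T (n + (m + 1)) j hj.1 hxj).1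
      have hb : Bornology.IsBounded (T.U (n + (m + 1)) j) :=
        ((hG.conn _ (T.mem _ _ hj.1)).2.2.isBounded).subset subset_closure
      have h1 : dist x z ≤ diam (T.U (n + (m + 1)) j) := dist_le_diam_of_mem hb hxU hz
      have h2 : diam (T.U (n + (m + 1)) j) ≤ ε (n + m) := ((T.step (n + m)).1 j hj.1).2.2
      have h3 := hm (n + m) (Nat.le_add_left m n)
      linarith
    · rintro ⟨m, j, ⟨hj, hz⟩, hxj⟩
      refine ⟨?_, ?_⟩
      · rw [K_eq_desc T n i hi (m + 1)]
        simp only [mem_iUnion, exists_prop]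
        exact ⟨j, hj, hxj⟩
      · rintro rfl
        exact hz (K_subset T (n + (m + 1)) j hj.1 hxj).1
  rw [hunion]
  refine IsPreconnected.iUnion_of_chain (fun m => ?_) (fun m => ?_)
  · refine IsPreconnected.biUnion_of_reflTransGen (fun j hj => ?_) (fun j hj j' hj' => ?_)
    · exact (K_connected hG T _ j hj.1.1).isPreconnected
    · have h1 := (desc_join hG T n i hi m z).2 j hj.1 j' hj'.1 hj.2 hj'.2
      obtain ⟨h2, h3⟩ := h1
      have key : Relation.ReflTransGen (fun a b => (T.K (n + (m + 1)) a ∩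
          T.K (n + (m + 1)) b).Nonempty ∧
          a ∈ {j | j ∈ T.desc n i (m + 1) ∧ z ∉ T.U (n + (m + 1)) j}) j j' ∧
          (j' ∈ T.desc n i (m + 1) ∧ z ∉ T.U (n + (m + 1)) j') := by
        clear hj'
        induction h3 with
        | refl => exact ⟨Relation.ReflTransGen.refl, h2⟩
        | tail _ hbc ih =>
          obtain ⟨ih1, ih2⟩ := ih
          exact ⟨ih1.tail ⟨K_meet hG T _ _ _ ih2.1.1 hbc.1.1.1 hbc.2, ih2⟩, hbc.1⟩
      exact key.1
  · obtain ⟨j, hj, hz⟩ := (desc_join hG T n i hi m z).1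
    obtain ⟨x, hx⟩ := (K_connected hG T _ j hj.1).nonempty
    refine ⟨x, ?_, ?_⟩
    · simp only [mem_iUnion, exists_prop, mem_ofPred_eq]
      exact ⟨j, ⟨hj, hz⟩, hx⟩
    · rw [K_eq T _ j hj.1] at hx
      simp only [mem_iUnion, exists_prop] at hx
      obtain ⟨l, hl, hxl⟩ := hx
      have hl1 : T.π (n + (m + 1)) l = j := hl.2
      simp only [Order.succ_eq_add_one, mem_iUnion, exists_prop, mem_ofPred_eq]
      refine ⟨l, ⟨punct_desc_succ hj hl, fun hzl => hz ?_⟩, hxl⟩
      have h1 := ((T.step (n + (m + 1))).1 l hl.1).2.1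
      rw [hl1] at h1
      exact (h1 (subset_closure hzl)).1

theorem K_nontrivial {M : Type*} [MetricSpace M] {G : Set (Set M)} {Z : ℕ → Set M}
    {ε : ℕ → ℝ} (hG : GoodFam G Z ε) (T : Tower G Z ε) (n i : ℕ)
    (hi : i < T.k n) : (T.K n i).Nontrivial := by
  obtain ⟨x, hx⟩ := (K_connected hG T n i hi).nonempty
  obtain ⟨j, hj, hz⟩ := (desc_join hG T n i hi 0 x).1
  obtain ⟨y, hy⟩ := (K_connected hG T _ j hj.1).nonempty
  refine ⟨x, hx, y, ?_, ?_⟩
  · rw [K_eq_desc T n i hi (0 + 1)]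
    simp only [mem_iUnion, exists_prop]
    exact ⟨j, hj, hy⟩
  · rintro rfl
    exact hz (K_subset T _ j hj.1 hy).1

end Pool.Agent.Carp
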