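import Mathlib
import Pool.Agent.Carp.Defs

/-!
# Pruning lemma

`V : ι → Set α` is a finite family of sets, `B` a set of base indices such that for every point
`z` at least one base set misses `z`, and all base sets missing `z` are joined to each other by
members missing `z`. Then there is a subfamily `J ⊇ B` such that for every point `z` all members
of `J` missing `z` are joined to each other by members of `J` missing `z`.

Proof. `J = {c | ∀ z ∉ V c, ∃ b ∈ B, Join V (fun l => z ∉ V l) c b}`. `B ⊆ J` is clear (`hB`, `hc`).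
Main claim: if `c ∈ J`, `b ∈ B`, `z` and `Join V (fun l => z ∉ V l) c b`, then
`Join V (fun l => l ∈ J ∧ z ∉ V l) c b`. Take a chain `c = c_0, c_1, …, c_n = b` (consecutive sets
meet, all sets miss `z`) of MINIMAL length `n` among all such chains from `c` to `b`. Suppose that
`c_l ∉ J` for some `l`; then `0 < l < n` and there is `z' ∉ V (c_l)` such that `c_l` is not joined
(by sets missing `z'`) to any base set missing `z'`.
* Some `m` with `l < m ≤ n` has `z' ∈ V (c_m)`: otherwise `c_l, …, c_n = b` joins `c_l` to `b`.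
* Some `m' < l` has `z' ∈ V (c_{m'})`: otherwise `c_l` is joined to `c_0 = c ∈ J` by sets missing
  `z'`, and `c` is joined to a base set missing `z'`.
Then `z' ∈ V (c_{m'}) ∩ V (c_m)`, so `c_0, …, c_{m'}, c_m, …, c_n` is a shorter chain:
contradiction. Finally for `c, c' ∈ J` missing `z`: join `c` to some `b`, `c'` to some `b'` (base
sets missing `z`), join `b` to `b'` by `hc`, and use the claim three times (with
`Join.symm`, `Join.trans`).
-/

namespace Pool.Agent.Carp

/-- chains of length `n` -/
private def Ch {α ι : Type*} (V : ι → Set α) (P : ι → Prop) (f : ℕ → ι) (n : ℕ) (c b : ι) : Prop :=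
  f 0 = c ∧ f n = b ∧ (∀ i, i ≤ n → P (f i)) ∧ ∀ i, i < n → (V (f i) ∩ V (f (i + 1))).Nonempty

private theorem exists_ch {α ι : Type*} {V : ι → Set α} {P : ι → Prop} {c b : ι}
    (h : Join V P c b) : ∃ n f, Ch V P f n c b := by
  classical
  obtain ⟨hc, h⟩ := h
  induction h with
  | refl => exact ⟨0, fun _ => c, rfl, rfl, fun _ _ => hc, fun i hi => absurd hi (Nat.not_lt_zero i)⟩
  | @tail b b' _ h2 ih =>
    obtain ⟨n, f, h0, hn, hP, hV⟩ := ih
    refine ⟨n + 1, fun i => if i ≤ n then f i else b', ?_, ?_, ?_, ?_⟩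
    · simp [h0]
    · simp
    · intro i hi
      by_cases hin : i ≤ n
      · simp only [if_pos hin]
        exact hP i hin
      · simp only [if_neg hin]
        exact h2.1
    · intro i hi
      by_cases hin : i + 1 ≤ n
      · have : i ≤ n := by omega
        simp only [if_pos hin, if_pos this]
        exact hV i (by omega)
      · have h3 : i = n := by omega
        subst h3
        simp only [le_refl, if_true, if_neg hin]
        rw [hn]
        exact h2.2

private theorem join_of_ch {α ι : Type*} {V : ι → Set α} {P : ι → Prop} {f : ℕ → ι} {n : ℕ}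
    (i j : ℕ) (hij : i ≤ j) (hjn : j ≤ n) (hP : ∀ k, i ≤ k → k ≤ j → P (f k))
    (hV : ∀ k, k < n → (V (f k) ∩ V (f (k + 1))).Nonempty) : Join V P (f i) (f j) := by
  induction j with
  | zero =>
    have : i = 0 := by omega
    subst this
    exact Join.rfl (hP 0 le_rfl le_rfl)
  | succ j ih =>
    rcases Nat.lt_or_ge j i with hlt | hge
    · have : i = j + 1 := by omega
      subst this
      exact Join.rfl (hP _ le_rfl le_rfl)
    · have h1 := ih hge (by omega) (fun k hk hk' => hP k hk (by omega))
      exact h1.trans (Join.single (hP j hge (by omega)) (hP (j + 1) (by omega) le_rfl)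
        (hV j (by omega)))

theorem prune {α ι : Type*} [Finite ι] (V : ι → Set α) (B : Set ι)
    (hB : ∀ z, ∃ b ∈ B, z ∉ V b)
    (hc : ∀ z, ∀ b ∈ B, ∀ b' ∈ B, z ∉ V b → z ∉ V b' → Join V (fun l => z ∉ V l) b b') :
    ∃ J : Set ι, B ⊆ J ∧ ∀ z, ∀ c ∈ J, ∀ c' ∈ J, z ∉ V c → z ∉ V c' →
      Join V (fun l => l ∈ J ∧ z ∉ V l) c c' := by
  classical
  obtain ⟨J, hJ⟩ : ∃ J : Set ι, ∀ c, c ∈ J ↔
      ∀ z, z ∉ V c → ∃ b ∈ B, Join V (fun l => z ∉ V l) c b :=
    ⟨{c | ∀ z, z ∉ V c → ∃ b ∈ B, Join V (fun l => z ∉ V l) c b}, fun _ => Iff.rfl⟩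
  have hBJ : B ⊆ J := by
    intro b hb
    rw [hJ]
    intro z hz
    exact ⟨b, hb, Join.rfl hz⟩
  have main : ∀ c ∈ J, ∀ b ∈ B, ∀ z, Join V (fun l => z ∉ V l) c b →
      Join V (fun l => l ∈ J ∧ z ∉ V l) c b := by
    intro c hcJ b hb z hjoin
    have hex : ∃ n, ∃ f, Ch V (fun l => z ∉ V l) f n c b := exists_ch hjoin
    obtain ⟨f, h0, hn, hP, hV⟩ := Nat.find_spec hex
    have hmin : ∀ m, m < Nat.find hex → ¬ ∃ f, Ch V (fun l => z ∉ V l) f m c b :=
      fun m hm => Nat.find_min hex hm
    set n := Nat.find hex with hndef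
    have hall : ∀ l, l ≤ n → f l ∈ J := by
      intro l hl
      by_contra hlJ
      rw [hJ] at hlJ
      push Not at hlJ
      obtain ⟨z', hz', hno⟩ := hlJ
      have hA : ∃ m, l < m ∧ m ≤ n ∧ z' ∈ V (f m) := by
        by_contra hcon
        push Not at hcon
        apply hno b hb
        have := join_of_ch (V := V) (P := fun l => z' ∉ V l) (f := f) (n := n) l n hl le_rfl
          (by
            intro k hk hk'
            rcases Nat.eq_or_lt_of_le hk with h | h
            · rw [← h]; exact hz'
            · exact hcon k h hk') hV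
        rwa [hn] at this
      have hA' : ∃ m', m' < l ∧ z' ∈ V (f m') := by
        by_contra hcon
        push Not at hcon
        have h1 := join_of_ch (V := V) (P := fun l => z' ∉ V l) (f := f) (n := n) 0 l
          (Nat.zero_le _) hl
          (by
            intro k _ hk'
            rcases Nat.eq_or_lt_of_le hk' with h | h
            · rw [h]; exact hz'
            · exact hcon k h) hV
        rw [h0] at h1
        obtain ⟨b', hb', h2⟩ := (hJ c).mp hcJ z' h1.left
        exact hno b' hb' (h1.symm.trans h2)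
      obtain ⟨m, hlm, hmn, hzm⟩ := hA
      obtain ⟨m', hml, hzm'⟩ := hA'
      obtain ⟨g, hg1, hg2⟩ : ∃ g : ℕ → ι, (∀ i, i ≤ m' → g i = f i) ∧
          ∀ i, m' < i → g i = f (i + (m - m' - 1)) :=
        ⟨fun i => if i ≤ m' then f i else f (i + (m - m' - 1)),
          fun i hi => if_pos hi, fun i hi => if_neg (by omega)⟩
      refine hmin (n - (m - m' - 1)) (by omega) ⟨g, ?_, ?_, ?_, ?_⟩
      · rw [hg1 0 (Nat.zero_le _), h0]
      · rw [hg2 _ (by omega), show n - (m - m' - 1) + (m - m' - 1) = n by omega, hn]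
      · intro i hi
        by_cases him : i ≤ m'
        · rw [hg1 i him]
          exact hP i (by omega)
        · rw [hg2 i (by omega)]
          exact hP _ (by omega)
      · intro i hi
        rcases Nat.lt_trichotomy i m' with him | him | him
        · rw [hg1 i him.le, hg1 (i + 1) him]
          exact hV i (by omega)
        · subst him
          rw [hg1 i le_rfl, hg2 (i + 1) (by omega), show i + 1 + (m - i - 1) = m by omega]
          exact ⟨z', hzm', hzm⟩
        · rw [hg2 i him, hg2 (i + 1) (by omega),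
            show i + 1 + (m - m' - 1) = i + (m - m' - 1) + 1 by omega]
          exact hV _ (by omega)
    have := join_of_ch (V := V) (P := fun l => l ∈ J ∧ z ∉ V l) (f := f) (n := n) 0 n
      (Nat.zero_le _) le_rfl (fun k _ hk => ⟨hall k hk, hP k hk⟩) hV
    rwa [h0, hn] at this
  refine ⟨J, hBJ, ?_⟩
  intro z c hcJ c' hcJ' hz hz'
  obtain ⟨b, hb, h1⟩ := (hJ c).mp hcJ z hz
  obtain ⟨b', hb', h2⟩ := (hJ c').mp hcJ' z hz'
  have h3 := main b (hBJ hb) b' hb' z (hc z b hb b' hb' h1.right h2.right)
  exact ((main c hcJ b hb z h1).trans h3).trans (main c' hcJ' b' hb' z h2).symm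

end Pool.Agent.Carp
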