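import Mathlib
import Pool.Agent.Carp.Defs
import Pool.Agent.Carp.Prune

/-!
# Children of one set

Given `U ∈ G` and finitely many base sets `B i ∈ G` with closures in `U \ Z n`, diameter `≤ ε n`,
such that every point is missed by some base set, there is a finite family `V` of members of `G`
(closures in `U \ Z n`, diameters `≤ ε n`), containing the base sets (`V (b i) = B i`), such that
for every point `z` all members missing `z` are joined by members missing `z`.

Proof. For every `z` take `O_z`, `κ_z`, `V_z` from `hG.chain n U hU β B`. `closure U` is compact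
(`hG.conn`), so finitely many `O_{z_1}, …, O_{z_r}` cover `closure U`; let `z_0` be the point of
`hG.out` (so `z_0 ∉ closure U`). Big finite family: index type `ι = β ⊕ (Σ j : Fin (r+1), κ_{z_j})`
with the sets `B i` and `V_{z_j} c`. Check the hypotheses of `prune` with base `range inl`:
* `hB` is the hypothesis `h2`.
* `hc`: let `z` be a point. If `z ∈ closure U` take `j` with `z ∈ O_{z_j}`, otherwise `j = 0`. All
  `V_{z_j} c` miss `z` (disjoint from `O_{z_j} ∋ z`, resp. contained in `U ∌ z`). A base set `B i`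
  missing `z` meets some `V_{z_j} c`: otherwise `O_{z_j} ⊆ B i` by `chain`, but in the first case
  `z ∈ O_{z_j} \ B i`, and in the second case `z_0 ∈ O_{z_0} ⊆ B i ⊆ U ⊆ closure U`, impossible.
  Since the `V_{z_j} c` are joined to each other, two base sets missing `z` are joined by sets
  missing `z` (map the chain of `κ_{z_j}` into `ι`).
Let `J` be the subset given by `prune`; take `κ = J` (subtype), `V` the restriction, `b i` the
element `inl i` of `J`. The joins in `J` give joins in the subtype.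
-/

namespace Pool.Agent.Carp

open Set Metric Topology

private theorem join_map {ι ι' M : Type*} {V : ι → Set M} {W : ι' → Set M} {P : ι → Prop}
    {Q : ι' → Prop} (φ : ι → ι') (hφ : ∀ i, W (φ i) = V i) (hP : ∀ i, P i → Q (φ i)) {i j : ι}
    (h : Join V P i j) : Join W Q (φ i) (φ j) := by
  obtain ⟨hi, h⟩ := h
  induction h with
  | refl => exact Join.rfl (hP _ hi)
  | tail _ h2 ih =>
    refine ⟨ih.1, ih.2.tail ⟨hP _ h2.1, ?_⟩⟩
    rw [hφ, hφ]
    exact h2.2

private theorem join_subtype {ι M : Type*} {W : ι → Set M} {J : Set ι} {Q : ι → Prop} {c c' : ι}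
    (h : Join W (fun l => l ∈ J ∧ Q l) c c') : ∃ (hc : c ∈ J) (hc' : c' ∈ J),
      Join (fun l : J => W l) (fun l => Q l) ⟨c, hc⟩ ⟨c', hc'⟩ := by
  obtain ⟨hi, h⟩ := h
  induction h with
  | refl => exact ⟨hi.1, hi.1, Join.rfl hi.2⟩
  | tail _ h2 ih =>
    obtain ⟨hc, hb, h3⟩ := ih
    exact ⟨hc, h2.1.1, h3.1, h3.2.tail ⟨h2.1.2, h2.2⟩⟩

theorem exists_children {M : Type*} [MetricSpace M] {G : Set (Set M)} {Z : ℕ → Set M}
    {ε : ℕ → ℝ} (hG : GoodFam G Z ε) (n : ℕ) {U : Set M} (hU : U ∈ G) {β : Type} [Finite β]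
    (B : β → Set M) (hB : ∀ i, B i ∈ G ∧ closure (B i) ⊆ U \ Z n ∧ diam (B i) ≤ ε n)
    (h2 : ∀ z, ∃ i, z ∉ B i) :
    ∃ (κ : Type) (_ : Finite κ) (V : κ → Set M) (b : β → κ), (∀ i, V (b i) = B i) ∧
      (∀ c, V c ∈ G ∧ closure (V c) ⊆ U \ Z n ∧ diam (V c) ≤ ε n) ∧
      ∀ z, ∀ c c', z ∉ V c → z ∉ V c' → Join V (fun l => z ∉ V l) c c' := by
  classical
  have hch := fun z => hG.chain n U hU β B (fun i => ⟨(hB i).1, (hB i).2.1⟩) z
  choose O hOo hzO κ hκ V hV hJ hBase using hch
  obtain ⟨z0, hz0⟩ := hG.out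
  obtain ⟨t, -, ht⟩ := (hG.conn U hU).2.2.elim_nhds_subcover O
    (fun x _ => (hOo x).mem_nhds (hzO x))
  set t' : Finset M := insert z0 t with ht'
  let e : Fin t'.card → M := fun j => ((t'.equivFin.symm j : t') : M)
  have he : ∀ x ∈ t', ∃ j, e j = x := by
    intro x hx
    refine ⟨t'.equivFin ⟨x, hx⟩, ?_⟩
    show ((t'.equivFin.symm (t'.equivFin ⟨x, hx⟩) : t') : M) = x
    rw [Equiv.symm_apply_apply]
  haveI : ∀ z, Finite (κ z) := hκ
  let W : (β ⊕ (Σ j : Fin t'.card, κ (e j))) → Set M :=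
    Sum.elim B (fun p => V (e p.1) p.2)
  have hWG : ∀ c, W c ∈ G ∧ closure (W c) ⊆ U \ Z n ∧ diam (W c) ≤ ε n := by
    rintro (i | ⟨j, c⟩)
    · exact hB i
    · exact ⟨(hV (e j) c).1, (hV (e j) c).2.1, (hV (e j) c).2.2.1⟩
  have hsub : ∀ c, W c ⊆ closure U := fun c x hx =>
    subset_closure ((hWG c).2.1 (subset_closure hx)).1
  obtain ⟨J, hBJ, hJJ⟩ := prune W (Set.range Sum.inl)
    (by
      intro z
      obtain ⟨i, hi⟩ := h2 z
      exact ⟨Sum.inl i, ⟨i, rfl⟩, hi⟩)
    (by
      rintro z _ ⟨i, rfl⟩ _ ⟨i', rfl⟩ hz hz'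
      -- choice of the point of the cover
      obtain ⟨x, hxt, hx1, hx2⟩ : ∃ x ∈ t', (z ∈ closure U → z ∈ O x) ∧
          (z ∉ closure U → x = z0) := by
        by_cases hzU : z ∈ closure U
        · obtain ⟨x, hx⟩ := Set.mem_iUnion.1 (ht hzU)
          obtain ⟨hxt, hx⟩ := Set.mem_iUnion.1 hx
          exact ⟨x, Finset.mem_insert_of_mem hxt, fun _ => hx, fun h => absurd hzU h⟩
        · exact ⟨z0, Finset.mem_insert_self _ _, fun h => absurd h hzU, fun _ => rfl⟩
      obtain ⟨j, rfl⟩ := he x hxt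
      have hmiss : ∀ c, z ∉ V (e j) c := by
        intro c hc
        by_cases hzU : z ∈ closure U
        · exact Set.disjoint_left.1 (hV (e j) c).2.2.2 hc (hx1 hzU)
        · exact hzU (hsub (Sum.inr ⟨j, c⟩) hc)
      have hmeet : ∀ i, z ∉ B i → ∃ c, (V (e j) c ∩ B i).Nonempty := by
        intro i hi
        rcases hBase (e j) i with h | h
        · exfalso
          by_cases hzU : z ∈ closure U
          · exact hi (h (hx1 hzU))
          · have h3 : e j ∈ B i := h (hzO (e j))
            rw [hx2 hzU] at h3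
            exact hz0 U hU (hsub (Sum.inl i) h3)
        · exact h
      obtain ⟨c, hc⟩ := hmeet i hz
      obtain ⟨c', hc'⟩ := hmeet i' hz'
      have h1 : Join W (fun l => z ∉ W l) (Sum.inl i) (Sum.inr ⟨j, c⟩) := by
        refine Join.single hz (hmiss c) ?_
        rw [Set.inter_comm]
        exact hc
      have h3 : Join W (fun l => z ∉ W l) (Sum.inr ⟨j, c⟩) (Sum.inr ⟨j, c'⟩) :=
        join_map (V := V (e j)) (W := W) (P := fun _ => True) (Q := fun l => z ∉ W l)
          (fun c => Sum.inr ⟨j, c⟩) (fun _ => rfl) (fun c _ => hmiss c) (hJ (e j) c c')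
      have h4 : Join W (fun l => z ∉ W l) (Sum.inr ⟨j, c'⟩) (Sum.inl i') :=
        Join.single (hmiss c') hz' hc'
      exact (h1.trans h3).trans h4)
  refine ⟨J, inferInstance, fun l => W l, fun i => ⟨Sum.inl i, hBJ ⟨i, rfl⟩⟩, fun i => rfl,
    fun c => hWG c, ?_⟩
  intro z c c' hz hz'
  obtain ⟨hc, hc', h⟩ := join_subtype (hJJ z c c.2 c' c'.2 hz hz')
  exact h

end Pool.Agent.Carp
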