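import Mathlib
import Pool.Agent.Carp.Defs
import Pool.Agent.Carp.Children

/-!
# Existence of the next level

Proof. For `i, i' < k` with `(U i ∩ U i').Nonempty` choose `C i i' false = B₁`,
`C i i' true = B₂` from `hG.contact n (U i) _ (U i') _`. For `i < k` let `β_i` be the finite type of
all triples `(i', s, t)` with `i' : Fin k`, `(U i ∩ U i').Nonempty`, `s t : Bool`, and
`B_i (i', s, false) = C i i' s`, `B_i (i', s, true) = C i' i s`
(closures in `(U i ∩ U i') \ Z n ⊆ U i \ Z n`). `h2` of `exists_children` holds because of the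
disjoint sets `C i i false`, `C i i true` (`U i ∩ U i = U i` is nonempty). `exists_children` gives
`κ_i, V_i, b_i`. Enumerate the finite type `Σ i : Fin k, κ_i` by `Fin k'`, put `U' j` = the set
`V_i c` and `π j = i` if `j < k'` corresponds to `⟨i, c⟩` (and `U' j = ∅`, `π j = 0` for `j ≥ k'`).
`Step`, part 2: `h2` and `V (b i) = B i`. Part 3: from the joins in `κ_i` (map the chain). Part 4:
for `i, i'` with `(U i ∩ U i').Nonempty` and a point `z`, one of the two disjoint sets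
`C i i' false`, `C i i' true` misses `z`; it is `V_i (b_i (i', s, false))` and
`V_{i'} (b_{i'} (i, s, true))`, and it is nonempty because it belongs to `G`.
-/

namespace Pool.Agent.Carp

open Set Metric Topology

theorem Join.mapS {ι ι' M : Type*} {V : ι → Set M} {V' : ι' → Set M} {P : ι → Prop}
    {P' : ι' → Prop} (f : ι → ι') (hP : ∀ l, P l → P' (f l)) (hV : ∀ l, V' (f l) = V l) {i j : ι}
    (h : Join V P i j) : Join V' P' (f i) (f j) := by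
  obtain ⟨hi, h⟩ := h
  induction h with
  | refl => exact Join.rfl (hP _ hi)
  | tail _ h2 ih =>
    refine ⟨ih.1, ih.2.tail ⟨hP _ h2.1, ?_⟩⟩
    rw [hV, hV]
    exact h2.2

theorem exists_step {M : Type*} [MetricSpace M] {G : Set (Set M)} {Z : ℕ → Set M}
    {ε : ℕ → ℝ} (hG : GoodFam G Z ε) (n : ℕ) (k : ℕ) (U : ℕ → Set M) (hU : ∀ i < k, U i ∈ G) :
    ∃ (k' : ℕ) (U' : ℕ → Set M) (π : ℕ → ℕ), (∀ j < k', U' j ∈ G) ∧
      Step (Z n) (ε n) k U k' U' π := by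
  classical
  have hne : ∀ W ∈ G, W.Nonempty := fun W hW => (hG.conn W hW).2.1.nonempty
  have hC0 : ∀ i i' : Fin k, ∃ C : Bool → Set M, (U i ∩ U i').Nonempty →
      ((∀ s, C s ∈ G ∧ closure (C s) ⊆ (U i ∩ U i') \ Z n ∧ diam (C s) ≤ ε n) ∧
        Disjoint (C false) (C true)) := by
    intro i i'
    by_cases h : (U i ∩ U i').Nonempty
    · obtain ⟨B₁, hB₁, B₂, hB₂, hd, hc1, hc2, hd1, hd2⟩ :=
        hG.contact n (U i) (hU i i.2) (U i') (hU i' i'.2) h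
      refine ⟨fun s => cond s B₂ B₁, fun _ => ⟨?_, hd⟩⟩
      intro s
      cases s
      · exact ⟨hB₁, hc1, hd1⟩
      · exact ⟨hB₂, hc2, hd2⟩
    · exact ⟨fun _ => ∅, fun h' => absurd h' h⟩
  choose C hC using hC0
  have hmiss : ∀ i i' : Fin k, (U i ∩ U i').Nonempty → ∀ z, ∃ s, z ∉ C i i' s := by
    intro i i' h z
    by_cases hz : z ∈ C i i' false
    · exact ⟨true, fun hz' => Set.disjoint_left.1 (hC i i' h).2 hz hz'⟩
    · exact ⟨false, hz⟩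
  have hch : ∀ i : Fin k, ∃ (κ : Type) (_ : Finite κ) (V : κ → Set M)
      (b : {q : Fin k × Bool × Bool // (U i ∩ U q.1).Nonempty} → κ),
      (∀ q, V (b q) = cond q.1.2.2 (C q.1.1 i q.1.2.1) (C i q.1.1 q.1.2.1)) ∧
      (∀ c, V c ∈ G ∧ closure (V c) ⊆ U i \ Z n ∧ diam (V c) ≤ ε n) ∧
      ∀ z, ∀ c c', z ∉ V c → z ∉ V c' → Join V (fun l => z ∉ V l) c c' := by
    intro i
    refine exists_children hG n (hU i i.2) _ ?_ ?_
    · rintro ⟨⟨i', s, t⟩, h⟩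
      have h' : (U i' ∩ U i).Nonempty := by
        rw [inter_comm]
        exact h
      cases t
      · obtain ⟨h1, h2, h3⟩ := (hC i i' h).1 s
        exact ⟨h1, h2.trans (sdiff_subset_sdiff_left inter_subset_left), h3⟩
      · obtain ⟨h1, h2, h3⟩ := (hC i' i h').1 s
        exact ⟨h1, h2.trans (sdiff_subset_sdiff_left inter_subset_right), h3⟩
    · intro z
      have h : (U i ∩ U i).Nonempty := by
        rw [inter_self]
        exact hne _ (hU i i.2)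
      obtain ⟨s, hs⟩ := hmiss i i h z
      exact ⟨⟨(i, s, false), h⟩, hs⟩
  choose κ hκ V b hb hV hJ using hch
  have : ∀ i, Finite (κ i) := hκ
  obtain ⟨k', ⟨e⟩⟩ := Finite.exists_equiv_fin (Σ i : Fin k, κ i)
  set U' : ℕ → Set M := fun j =>
    if h : j < k' then V (e.symm ⟨j, h⟩).1 (e.symm ⟨j, h⟩).2 else ∅ with hU'
  set π : ℕ → ℕ := fun j => if h : j < k' then ((e.symm ⟨j, h⟩).1 : ℕ) else 0 with hπ
  have hUe : ∀ x : (Σ i : Fin k, κ i), U' (e x) = V x.1 x.2 := by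
    intro x
    have h1 : e.symm ⟨(e x : ℕ), (e x).2⟩ = x := e.symm_apply_apply x
    rw [hU']
    simp only
    rw [dif_pos (e x).2, h1]
  have hπe : ∀ x : (Σ i : Fin k, κ i), π (e x) = x.1 := by
    intro x
    have h1 : e.symm ⟨(e x : ℕ), (e x).2⟩ = x := e.symm_apply_apply x
    rw [hπ]
    simp only
    rw [dif_pos (e x).2, h1]
  have hsurj : ∀ j < k', ∃ x : (Σ i : Fin k, κ i), ((e x : Fin k') : ℕ) = j := by
    intro j hj
    exact ⟨e.symm ⟨j, hj⟩, by rw [e.apply_symm_apply]⟩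
  refine ⟨k', U', π, ?_, ?_, ?_, ?_, ?_⟩
  · intro j hj
    obtain ⟨x, rfl⟩ := hsurj j hj
    rw [hUe]
    exact (hV x.1 x.2).1
  · intro j hj
    obtain ⟨x, rfl⟩ := hsurj j hj
    rw [hUe, hπe]
    exact ⟨x.1.2, (hV x.1 x.2).2.1, (hV x.1 x.2).2.2⟩
  · intro i hi z
    have h : (U i ∩ U i).Nonempty := by
      rw [inter_self]
      exact hne _ (hU i hi)
    obtain ⟨s, hs⟩ := hmiss ⟨i, hi⟩ ⟨i, hi⟩ h z
    refine ⟨e ⟨⟨i, hi⟩, b ⟨i, hi⟩ ⟨(⟨i, hi⟩, s, false), h⟩⟩, (e _).2, ?_, ?_⟩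
    · rw [hπe]
    · rw [hUe]
      simp only
      rw [hb]
      exact hs
  · intro i hi z j hj j' hj' hji hji' hz hz'
    obtain ⟨⟨i₁, c⟩, rfl⟩ := hsurj j hj
    obtain ⟨⟨i₂, c'⟩, rfl⟩ := hsurj j' hj'
    rw [hπe] at hji hji'
    simp only at hji hji'
    obtain rfl : i₁ = ⟨i, hi⟩ := Fin.ext hji
    obtain rfl : i₂ = ⟨i, hi⟩ := Fin.ext hji'
    rw [hUe] at hz hz'
    refine Join.mapS (fun c => ((e ⟨⟨i, hi⟩, c⟩ : Fin k') : ℕ)) ?_ ?_
      (hJ ⟨i, hi⟩ z c c' hz hz')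
    · intro l hl
      refine ⟨(e _).2, ?_, ?_⟩
      · rw [hπe]
      · rw [hUe]
        exact hl
    · intro l
      rw [hUe]
  · intro i hi i' hi' h z
    obtain ⟨s, hs⟩ := hmiss ⟨i, hi⟩ ⟨i', hi'⟩ h z
    have h' : (U i' ∩ U i).Nonempty := by
      rw [inter_comm]
      exact h
    have e1 : U' (e ⟨⟨i, hi⟩, b ⟨i, hi⟩ ⟨(⟨i', hi'⟩, s, false), h⟩⟩) = C ⟨i, hi⟩ ⟨i', hi'⟩ s := by
      rw [hUe]
      simp only
      rw [hb]
      rfl
    have e2 : U' (e ⟨⟨i', hi'⟩, b ⟨i', hi'⟩ ⟨(⟨i, hi⟩, s, true), h'⟩⟩) = C ⟨i, hi⟩ ⟨i', hi'⟩ s := by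
      rw [hUe]
      simp only
      rw [hb]
      rfl
    refine ⟨e ⟨⟨i, hi⟩, b ⟨i, hi⟩ ⟨(⟨i', hi'⟩, s, false), h⟩⟩, (e _).2,
      e ⟨⟨i', hi'⟩, b ⟨i', hi'⟩ ⟨(⟨i, hi⟩, s, true), h'⟩⟩, (e _).2, ?_, ?_, ?_, ?_, ?_⟩
    · rw [hπe]
    · rw [hπe]
    · rw [e1, e2, inter_self]
      exact hne _ ((hC ⟨i, hi⟩ ⟨i', hi'⟩ h).1 s).1
    · rw [e1]
      exact hs
    · rw [e2]
      exact hs

end Pool.Agent.Carp
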