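import Mathlib
import Pool.Agent.Carp.Defs
import Pool.Agent.Carp.StepEx

/-!
# Existence of the tower

Dependent choice from `exists_step`, starting with `k 0 = 1`, `U 0 = fun _ => U₀`.
(State: a pair `(k, U)` with `∀ i < k, U i ∈ G`.)
-/

namespace Pool.Agent.Carp

open Set Metric Topology

theorem exists_tower {M : Type*} [MetricSpace M] {G : Set (Set M)} {Z : ℕ → Set M}
    {ε : ℕ → ℝ} (hG : GoodFam G Z ε) {U₀ : Set M} (hU₀ : U₀ ∈ G) :
    ∃ T : Tower G Z ε, T.U 0 0 = U₀ := by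
  have h : ∀ (n : ℕ) (p : {p : ℕ × (ℕ → Set M) // ∀ i < p.1, p.2 i ∈ G}),
      ∃ (q : {p : ℕ × (ℕ → Set M) // ∀ i < p.1, p.2 i ∈ G}) (π : ℕ → ℕ),
        Step (Z n) (ε n) p.1.1 p.1.2 q.1.1 q.1.2 π := by
    intro n p
    obtain ⟨k', U', π, h1, h2⟩ := exists_step hG n p.1.1 p.1.2 p.2
    exact ⟨⟨(k', U'), h1⟩, π, h2⟩
  choose q π hq using h
  let S : ℕ → {p : ℕ × (ℕ → Set M) // ∀ i < p.1, p.2 i ∈ G} := fun n =>
    Nat.rec ⟨(1, fun _ => U₀), fun _ _ => hU₀⟩ (fun n p => q n p) n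
  exact ⟨{ k := fun n => (S n).1.1
           U := fun n => (S n).1.2
           π := fun n => π n (S n)
           k0 := rfl
           mem := fun n => (S n).2
           step := fun n => hq n (S n) }, rfl⟩

end Pool.Agent.Carp
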