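import Mathlib
import Pool.Agent.Carp.Defs
import Pool.Agent.Carp.TowerEx
import Pool.Agent.Carp.KA
import Pool.Agent.Carp.KB
import Pool.Agent.Carp.Punct

/-!
# The limit of the tower is a Peano continuum without local cut points

`S = T.K 0 0`. For every `n`, `S = ⋃ j ∈ T.desc 0 0 n, T.K n j` (`K_eq_desc`, rewrite `0 + n = n`),
a finite union of compact connected sets contained in `T.U n j`, of diameter `≤ ε (n-1)`.
* misses `Z n`: `T.K n j ⊆ T.U n j \ Z n`.
* For `x ∈ S` and `n` let `N n x = ⋃ {T.K n j | j ∈ T.desc 0 0 n, x ∈ T.K n j}`. It is connected (all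
  sets contain `x`), contained in `closedBall x (ε (n-1))`, and a neighbourhood of `x` in `S` (the
  remaining `T.K n j` are finitely many closed sets not containing `x`). So `S` is locally
  connected (`locallyConnectedSpace_of_connected_bases`, the sets `N n x` as subsets of the
  subtype).
* `N n x \ {x}` is preconnected: each `T.K n j \ {x}` is preconnected (`K_diff_preconnected`), and
  for two of them, `j ≠ j'`: `x ∈ T.K n j ∩ T.K n j' ⊆ T.U n j ∩ T.U n j'`, so by part 4 of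
  `T.step n` with `z = x` there are children `c` of `j`, `c'` of `j'` which meet and miss `x`;
  `K_meet` gives a common point of `T.K (n+1) c ⊆ T.K n j` and `T.K (n+1) c' ⊆ T.K n j'`, different
  from `x`.
* No local cut point: let `W ∋ x` be open connected in `S`, and suppose `W \ {x}` is the union of
  two disjoint nonempty relatively open sets `A`, `A'`. Choose `n` with `N n x ⊆ W`.
  `N n x \ {x}` is preconnected, so contained in one of them, say `A`. Then `A'` and
  `A ∪ {x} = A ∪ N n x` are disjoint nonempty open sets of `S` covering `W` (interior of `N n x`),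
  contradiction. (Use `isPreconnected_iff_subset_of_disjoint` or the closed/open version.)
-/

namespace Pool.Agent.Carp

open Set Metric Topology Filter

/-- the union of the members of level `n` containing `x` -/
def PeanoN {M : Type*} (J : ℕ → Set ℕ) (P : ℕ → ℕ → Set M) (n : ℕ) (x : M) : Set M :=
  ⋃ j ∈ {j | j ∈ J n ∧ x ∈ P n j}, P n j

theorem peano_mem {M : Type*} {J : ℕ → Set ℕ} {P : ℕ → ℕ → Set M} {n : ℕ} {x y : M} :
    y ∈ PeanoN J P n x ↔ ∃ j, j ∈ J n ∧ x ∈ P n j ∧ y ∈ P n j := by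
  unfold PeanoN
  rw [mem_iUnion₂]
  constructor
  · rintro ⟨j, hj, hy⟩
    exact ⟨j, hj.1, hj.2, hy⟩
  · rintro ⟨j, h1, h2, h3⟩
    exact ⟨j, ⟨h1, h2⟩, h3⟩

theorem peano_aux {M : Type*} [MetricSpace M] {S : Set M} {J : ℕ → Set ℕ} {P : ℕ → ℕ → Set M}
    {δ : ℕ → ℝ} (hδ : Tendsto δ atTop (𝓝 0)) (hJ : ∀ n, (J n).Finite)
    (hS : ∀ n, S = ⋃ j ∈ J n, P n j) (hcl : ∀ n, ∀ j ∈ J n, IsClosed (P n j))
    (hconn : ∀ n, ∀ j ∈ J n, IsPreconnected (P n j))
    (hdiam : ∀ n, ∀ j ∈ J n, ∀ x ∈ P n j, ∀ y ∈ P n j, dist x y ≤ δ n)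
    (hdiff : ∀ n, ∀ j ∈ J n, ∀ x, IsPreconnected (P n j \ {x}))
    (hmeet : ∀ n, ∀ j ∈ J n, ∀ j' ∈ J n, ∀ x, x ∈ P n j → x ∈ P n j' →
      ∃ y, y ≠ x ∧ y ∈ P n j ∧ y ∈ P n j') :
    LocallyConnectedSpace S ∧ NoLocalCut S := by
  have hPS : ∀ n, ∀ j ∈ J n, P n j ⊆ S := by
    intro n j hj
    rw [hS n]
    exact subset_biUnion_of_mem (u := fun j => P n j) hj
  have hNS : ∀ n x, PeanoN J P n x ⊆ S := by
    intro n x y hy
    obtain ⟨j, h1, _, h3⟩ := peano_mem.1 hy
    exact hPS n j h1 h3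
  have hNx : ∀ n, ∀ x ∈ S, x ∈ PeanoN J P n x := by
    intro n x hx
    rw [hS n, mem_iUnion₂] at hx
    obtain ⟨j, h1, h2⟩ := hx
    exact peano_mem.2 ⟨j, h1, h2, h2⟩
  have hNconn : ∀ n x, IsPreconnected (PeanoN J P n x) := by
    intro n x
    unfold PeanoN
    refine IsPreconnected.biUnion_of_reflTransGen (fun j hj => hconn n j hj.1) ?_
    intro i hi j hj
    exact Relation.ReflTransGen.single ⟨⟨x, hi.2, hj.2⟩, hi⟩
  have hNball : ∀ n x, ∀ y ∈ PeanoN J P n x, dist y x ≤ δ n := by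
    intro n x y hy
    obtain ⟨j, h1, h2, h3⟩ := peano_mem.1 hy
    exact hdiam n j h1 y h3 x h2
  have hNnhds : ∀ n, ∀ x : S, ((↑) ⁻¹' (PeanoN J P n x) : Set S) ∈ 𝓝 x := by
    intro n x
    rw [preimage_coe_mem_nhds_subtype]
    have hF : IsClosed (⋃ j ∈ {j | j ∈ J n ∧ (x : M) ∉ P n j}, P n j) := by
      refine Set.Finite.isClosed_biUnion ((hJ n).subset fun j hj => hj.1) ?_
      intro j hj
      exact hcl n j hj.1
    have hxF : (x : M) ∈ (⋃ j ∈ {j | j ∈ J n ∧ (x : M) ∉ P n j}, P n j)ᶜ := by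
      intro h
      rw [mem_iUnion₂] at h
      obtain ⟨j, h1, h2⟩ := h
      exact h1.2 h2
    rw [mem_nhdsWithin]
    refine ⟨_, hF.isOpen_compl, hxF, ?_⟩
    rintro y ⟨hy1, hy2⟩
    have hy3 := hy2
    rw [hS n, mem_iUnion₂] at hy3
    obtain ⟨j, h1, h2⟩ := hy3
    refine peano_mem.2 ⟨j, h1, ?_, h2⟩
    by_contra h
    apply hy1
    rw [mem_iUnion₂]
    exact ⟨j, ⟨h1, h⟩, h2⟩
  have hNdiff : ∀ n x, IsPreconnected (PeanoN J P n x \ {x}) := by
    intro n x
    have e1 : PeanoN J P n x \ {x} = ⋃ j ∈ {j | j ∈ J n ∧ x ∈ P n j}, (P n j \ {x}) := by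
      ext y
      rw [mem_iUnion₂]
      constructor
      · rintro ⟨h1, h2⟩
        obtain ⟨j, h3, h4, h5⟩ := peano_mem.1 h1
        exact ⟨j, ⟨h3, h4⟩, h5, h2⟩
      · rintro ⟨j, ⟨h3, h4⟩, h5, h2⟩
        exact ⟨peano_mem.2 ⟨j, h3, h4, h5⟩, h2⟩
    rw [e1]
    refine IsPreconnected.biUnion_of_reflTransGen (fun j hj => hdiff n j hj.1 x) ?_
    intro i hi j hj
    refine Relation.ReflTransGen.single ⟨?_, hi⟩
    obtain ⟨y, hy1, hy2, hy3⟩ := hmeet n i hi.1 j hj.1 x hi.2 hj.2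
    exact ⟨y, ⟨hy2, hy1⟩, hy3, hy1⟩
  have hpre : ∀ A : Set M, A ⊆ S → IsPreconnected A →
      IsPreconnected ((↑) ⁻¹' A : Set S) := by
    intro A hA h
    rw [← IsInducing.subtypeVal.isPreconnected_image, Subtype.image_preimage_coe,
      inter_eq_right.2 hA]
    exact h
  -- small neighbourhoods
  have hsmall : ∀ (x : S) (t : Set S), t ∈ 𝓝 x → ∃ n, ((↑) ⁻¹' (PeanoN J P n x) : Set S) ⊆ t := by
    intro x t ht
    obtain ⟨r, hr, hrt⟩ := Metric.mem_nhds_iff.1 ht
    obtain ⟨n, hn⟩ := (hδ.eventually (gt_mem_nhds hr)).exists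
    refine ⟨n, fun y hy => hrt ?_⟩
    rw [mem_ball]
    exact lt_of_le_of_lt (hNball n x y hy) hn
  refine ⟨?_, ?_⟩
  · refine locallyConnectedSpace_of_connected_bases
      (fun (x : S) (n : ℕ) => ((↑) ⁻¹' (PeanoN J P n x) : Set S)) (fun _ _ => True) ?_ ?_
    · intro x
      refine ⟨fun t => ⟨fun ht => ?_, ?_⟩⟩
      · obtain ⟨n, hn⟩ := hsmall x t ht
        exact ⟨n, trivial, hn⟩
      · rintro ⟨n, _, hn⟩
        exact mem_of_superset (hNnhds n x) hn
    · intro x n _
      exact hpre _ (hNS n x) (hNconn n x)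
  · intro x W hW hWc hxW
    obtain ⟨n, hn⟩ := hsmall x W (hW.mem_nhds hxW)
    set N : Set S := (↑) ⁻¹' (PeanoN J P n x) with hNdef
    have hNd : IsPreconnected (N \ {x}) := by
      have h1 := hpre (PeanoN J P n x \ {(x : M)}) (sdiff_subset.trans (hNS n x)) (hNdiff n x)
      have e1 : ((↑) ⁻¹' (PeanoN J P n x \ {(x : M)}) : Set S) = N \ {x} := by
        ext y
        simp only [hNdef, mem_preimage, Set.mem_sdiff, mem_singleton_iff, Subtype.ext_iff]
      rwa [e1] at h1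
    have hNx' : x ∈ interior N := mem_interior_iff_mem_nhds.2 (hNnhds n x)
    -- the key step
    have key : ∀ u v : Set S, IsOpen u → IsOpen v → W \ {x} ⊆ u ∪ v →
        (W \ {x}) ∩ (u ∩ v) = ∅ → N \ {x} ⊆ u → W \ {x} ⊆ u := by
      intro u v hu hv huv hd hNu
      have hA : IsOpen ((W ∩ u) ∪ interior N) := (hW.inter hu).union isOpen_interior
      have hA' : IsOpen ((W \ {x}) ∩ v) :=
        (hW.sdiff isClosed_singleton).inter hv
      have hc := isPreconnected_iff_subset_of_disjoint.1 hWc.isPreconnected _ _ hA hA' (by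
        intro y hy
        by_cases hyx : y = x
        · left
          right
          rw [hyx]
          exact hNx'
        · rcases huv ⟨hy, hyx⟩ with h | h
          · exact Or.inl (Or.inl ⟨hy, h⟩)
          · exact Or.inr ⟨⟨hy, hyx⟩, h⟩) (by
        rw [Set.eq_empty_iff_forall_notMem]
        rintro y ⟨hyW, hyA, ⟨⟨_, hyx⟩, hyv⟩⟩
        have hyu : y ∈ u := by
          rcases hyA with h | h
          · exact h.2
          · exact hNu ⟨interior_subset h, hyx⟩
        have : y ∈ (W \ {x}) ∩ (u ∩ v) := ⟨⟨hyW, hyx⟩, hyu, hyv⟩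
        rw [hd] at this
        exact this)
      rcases hc with h | h
      · intro y hy
        rcases h hy.1 with h1 | h1
        · exact h1.2
        · exact hNu ⟨interior_subset h1, hy.2⟩
      · exact absurd rfl (h hxW).1.2
    rw [isPreconnected_iff_subset_of_disjoint]
    intro u v hu hv huv hd
    have hsub : N \ {x} ⊆ W \ {x} := sdiff_subset_sdiff_left hn
    have h1 := isPreconnected_iff_subset_of_disjoint.1 hNd u v hu hv (hsub.trans huv) (by
      rw [Set.eq_empty_iff_forall_notMem]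
      rintro y ⟨hy1, hy2⟩
      have : y ∈ (W \ {x}) ∩ (u ∩ v) := ⟨hsub hy1, hy2⟩
      rw [hd] at this
      exact this)
    rcases h1 with h1 | h1
    · exact Or.inl (key u v hu hv huv hd h1)
    · exact Or.inr (key v u hv hu (by rw [union_comm]; exact huv) (by rw [inter_comm v u]; exact hd)
        h1)

theorem exists_peano {M : Type*} [MetricSpace M] {G : Set (Set M)} {Z : ℕ → Set M}
    {ε : ℕ → ℝ} (hG : GoodFam G Z ε) (hε : Tendsto ε atTop (𝓝 0)) {U₀ : Set M}
    (hU₀ : U₀ ∈ G) :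
    ∃ S ⊆ U₀, IsCompact S ∧ IsConnected S ∧ S.Nontrivial ∧ (∀ n, Disjoint S (Z n)) ∧
      LocallyConnectedSpace S ∧ NoLocalCut S := by
  obtain ⟨T, hT⟩ := exists_tower hG hU₀
  have h00 : 0 < T.k 0 := by rw [T.k0]; exact one_pos
  have hsub := K_subset T 0 0 h00
  have hdesc := K_eq_desc T 0 0 h00
  have hmain : LocallyConnectedSpace (T.K 0 0) ∧ NoLocalCut (T.K 0 0) := by
    refine peano_aux (J := fun n => T.desc 0 0 (n + 1)) (P := fun n j => T.K (0 + (n + 1)) j)
      (δ := fun n => ε (0 + n)) ?_ ?_ ?_ ?_ ?_ ?_ ?_ ?_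
    · have h1 : (fun n => ε (0 + n)) = ε := by
        funext n
        rw [Nat.zero_add]
      rw [h1]
      exact hε
    · intro n
      exact (Set.finite_lt_nat (T.k (0 + (n + 1)))).subset fun j hj => hj.1
    · intro n
      exact hdesc (n + 1)
    · intro n j hj
      exact (K_compact hG T _ j hj.1).isClosed
    · intro n j hj
      exact (K_connected hG T _ j hj.1).isPreconnected
    · intro n j hj x hx y hy
      have h1 := K_subset T _ j hj.1
      have h2 := ((T.step (0 + n)).1 j hj.1).2.2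
      have h3 := (hG.conn _ (T.mem _ j hj.1)).2.2
      have h4 : Bornology.IsBounded (T.U (0 + (n + 1)) j) := h3.isBounded.subset subset_closure
      exact (dist_le_diam_of_mem h4 (h1 hx).1 (h1 hy).1).trans h2
    · intro n j hj x
      exact K_diff_preconnected hG hε T _ j hj.1 x
    · intro n j hj j' hj' x hx hx'
      have h1 := K_subset T _ j hj.1
      have h2 := K_subset T _ j' hj'.1
      obtain ⟨c, hc, c', hc', hπ, hπ', hm, hz, hz'⟩ := (T.step (0 + (n + 1))).2.2.2 j hj.1 j' hj'.1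
        ⟨x, (h1 hx).1, (h2 hx').1⟩ x
      obtain ⟨y, hy, hy'⟩ := K_meet hG T (0 + (n + 1) + 1) c c' hc hc' hm
      refine ⟨y, ?_, ?_, ?_⟩
      · rintro rfl
        exact hz (K_subset T _ c hc hy).1
      · show y ∈ T.K (0 + (n + 1)) j
        rw [K_eq T _ j hj.1, mem_iUnion₂]
        exact ⟨c, ⟨hc, hπ⟩, hy⟩
      · show y ∈ T.K (0 + (n + 1)) j'
        rw [K_eq T _ j' hj'.1, mem_iUnion₂]
        exact ⟨c', ⟨hc', hπ'⟩, hy'⟩
  refine ⟨T.K 0 0, ?_, K_compact hG T 0 0 h00, K_connected hG T 0 0 h00,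
    K_nontrivial hG T 0 0 h00, ?_, hmain.1, hmain.2⟩
  · rw [← hT]
    exact fun x hx => (hsub hx).1
  · intro n
    rw [Set.disjoint_left]
    intro x hx hxZ
    rw [hdesc n, mem_iUnion₂] at hx
    obtain ⟨j, hj, hxj⟩ := hx
    have h1 := (K_subset T _ j hj.1 hxj).2
    rw [Nat.zero_add] at h1
    exact h1 hxZ

end Pool.Agent.Carp
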