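import Mathlib
import Pool.Agent.Carp.Defs
import Pool.Agent.Carp.Rel
import Pool.Agent.Carp.RA
import Pool.Agent.Carp.RB
import Pool.Agent.Carp.RD

/-!
# The contact property

`D = (U ∩ U') \ ZR B r q n` is open and a union of classes. `diff_ZR_nonempty` (for `U ∩ U'`, with
any `z ∉ B`, or `z = w₁` later) gives `w₁ ∈ D` and then `w₂ ∈ D` not in the class of `w₁`.
`exists_small` for the open union of classes `D \ {y | r w₂ y}` and `w₁` gives `B₁` with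
`closure B₁ ⊆ D \ {y | r w₂ y}`. The saturation `Q` of `closure B₁` is compact, contained in `D` and does
not contain `w₂`. `exists_small` for `D \ Q` and `w₂` gives `B₂`.
-/

namespace Pool.Agent.Carp

open Set Metric Topology

theorem contact_GR {B : Set ℂ} {r : ℂ → ℂ → Prop} (hr : PreRel B r) (q : ℕ → ℂ) (n : ℕ)
    {U U' : Set ℂ} (hU : U ∈ GR B r) (hU' : U' ∈ GR B r) (h : (U ∩ U').Nonempty) :
    ∃ B₁ ∈ GR B r, ∃ B₂ ∈ GR B r, Disjoint B₁ B₂ ∧ closure B₁ ⊆ (U ∩ U') \ ZR B r q n ∧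
      closure B₂ ⊆ (U ∩ U') \ ZR B r q n ∧ diam B₁ ≤ 2 / ((n : ℝ) + 1) ∧
      diam B₂ ≤ 2 / ((n : ℝ) + 1) := by
  obtain ⟨oU, -, iU, sU⟩ := hU
  obtain ⟨oU', -, -, sU'⟩ := hU'
  have hO : IsOpen (U ∩ U') := oU.inter oU'
  have hOB : U ∩ U' ⊆ interior B := fun x hx => iU hx.1
  have hOs : ∀ x ∈ U ∩ U', ∀ y, r x y → y ∈ U ∩ U' := fun x hx y hxy =>
    ⟨sU x hx.1 y hxy, sU' x hx.2 y hxy⟩
  have hZ : IsClosed (ZR B r q n) := (isCompact_ZR hr q n).isClosed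
  obtain ⟨D, hD⟩ : ∃ D : Set ℂ, D = (U ∩ U') \ ZR B r q n := ⟨_, rfl⟩
  have oD : IsOpen D := by
    rw [hD]
    exact hO.sdiff hZ
  have iD : D ⊆ interior B := by
    rw [hD]
    exact fun x hx => hOB hx.1
  have sD : ∀ x ∈ D, ∀ y, r x y → y ∈ D := by
    rw [hD]
    intro x hx y hxy
    exact ⟨hOs x hx.1 y hxy, fun hy => hx.2 (ZR_sat hr q n y hy x (hr.symm x y hxy))⟩
  obtain ⟨w₁, hw₁O, hw₁⟩ := diff_ZR_nonempty hr q n 0 hO hOB hOs h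
  obtain ⟨w₂, hw₂O, hw₂⟩ := diff_ZR_nonempty hr q n w₁ hO hOB hOs h
  have hw₁Z : w₁ ∉ ZR B r q n := fun hz => hw₁ (Or.inl hz)
  have hw₂Z : w₂ ∉ ZR B r q n := fun hz => hw₂ (Or.inl hz)
  have h12 : ¬ r w₁ w₂ := fun hz => hw₂ (Or.inr hz)
  have hw₁D : w₁ ∈ D := by
    rw [hD]
    exact ⟨hw₁O, hw₁Z⟩
  have hw₂D : w₂ ∈ D := by
    rw [hD]
    exact ⟨hw₂O, hw₂Z⟩
  -- the first set
  have o1 : IsOpen (D \ {y | r w₂ y}) := oD.sdiff (isCompact_cl hr w₂).isClosed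
  obtain ⟨B₁, hB₁, hwB₁, cB₁, dB₁⟩ := exists_small hr q n o1 (fun x hx => iD hx.1)
    (fun x hx y hxy => ⟨sD x hx.1 y hxy, fun hy => hx.2 (hr.trans _ _ _ hy (hr.symm _ _ hxy))⟩)
    (w := w₁) ⟨hw₁D, fun h21 => h12 (hr.symm _ _ h21)⟩ hw₁Z
  have hcB : closure B₁ ⊆ B := fun x hx => interior_subset (iD (cB₁ hx).1)
  have hcpt : IsCompact (closure B₁) := hr.compact.of_isClosed_subset isClosed_closure hcB
  have hQ := isCompact_sat hr hcpt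
  -- the second set
  have o2 : IsOpen (D \ {y | ∃ x ∈ closure B₁, r x y}) := oD.sdiff hQ.isClosed
  obtain ⟨B₂, hB₂, -, cB₂, dB₂⟩ := exists_small hr q n o2 (fun x hx => iD hx.1)
    (fun x hx y hxy => ⟨sD x hx.1 y hxy, fun ⟨x', hx', hx'y⟩ =>
      hx.2 ⟨x', hx', hr.trans _ _ _ hx'y (hr.symm _ _ hxy)⟩⟩)
    (w := w₂) ⟨hw₂D, fun ⟨x, hx, hxw⟩ => (cB₁ hx).2 (hr.symm _ _ hxw)⟩ hw₂Z
  refine ⟨B₁, hB₁, B₂, hB₂, ?_, ?_, ?_, dB₁, dB₂⟩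
  · rw [Set.disjoint_left]
    intro x hx1 hx2
    exact (cB₂ (subset_closure hx2)).2 ⟨x, subset_closure hx1, hr.refl x (hcB (subset_closure hx1))⟩
  · rw [← hD]
    exact fun x hx => (cB₁ hx).1
  · rw [← hD]
    exact fun x hx => (cB₂ hx).1

end Pool.Agent.Carp
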