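import Mathlib
import Pool.Agent.Carp.Defs
import Pool.Agent.Carp.Rel
import Pool.Agent.Carp.RA
import Pool.Agent.Carp.RB
import Pool.Agent.Carp.RC
import Pool.Agent.Carp.RD

/-!
# The chain property

Let `z` be a point and `D = U \ (ZR B r q n ∪ {y | r z y})`: open, preconnected
(`diff_ZR_preconnected`), a union of classes, contained in the interior of `B`. For every `i` with
`z ∉ B i` choose `p i ∈ B i`; then `p i ∈ D` (`closure (B i) ⊆ U \ ZR`, and `p i` is not in the class of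
`z` because `B i` is a union of classes not containing `z`). If there is no such `i`: `κ = Empty`,
`O` = intersection of the finitely many open sets `B i`. Otherwise `D` is open and connected, so
path connected: there is a compact connected `L ⊆ D` containing all `p i` (finite union of paths
from one `p i₀`; or `IsPathConnected.exists_path_through_family`). For `w ∈ L` choose `V_w` by
`exists_small` for `D`: `w ∈ V_w ∈ GR B r`, `closure V_w ⊆ D`, small. Finitely many `V_w`, `w ∈ t`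
(`t ⊆ L` finite) cover `L`. Take `κ = t`. They are joined: for `w ∈ t` the union of the `V_{w'}` joined to
`w` and the union of the others are open sets which cover `L`, and are disjoint (a common point
gives a join), so by preconnectedness of `L` the second one does not meet `L ∋ w'`.
`O` = complement of the union of the closures of the `V_w` (finite union, closed, does not contain
`z` because `closure V_w ⊆ D`, and `z ∉ D`: if `z ∈ B` then `r z z`, and if `z ∉ B` then
`z ∉ U`), intersected with the `B i ∋ z`.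
-/

namespace Pool.Agent.Carp

open Set Metric Topology

private theorem exists_cont {D : Set ℂ} (hD : IsOpen D) (hDc : IsPreconnected D) {ι : Type}
    [Finite ι] (p : ι → ℂ) (hp : ∀ i, p i ∈ D) (i₀ : ι) :
    ∃ L : Set ℂ, IsCompact L ∧ IsPreconnected L ∧ L ⊆ D ∧ ∀ i, p i ∈ L := by
  have hDp : IsPathConnected D := hD.isConnected_iff_isPathConnected.mp ⟨⟨p i₀, hp i₀⟩, hDc⟩
  have hj : ∀ i, JoinedIn D (p i₀) (p i) := fun i => hDp.joinedIn _ (hp i₀) _ (hp i)
  choose γ hγ using fun i => hj i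
  refine ⟨⋃ i, range (γ i), ?_, ?_, ?_, ?_⟩
  · exact isCompact_iUnion fun i => isCompact_range (γ i).continuous
  · refine isPreconnected_iUnion ⟨p i₀, ?_⟩ fun i => isPreconnected_range (γ i).continuous
    rw [mem_iInter]
    exact fun i => ⟨0, (γ i).source⟩
  · rw [iUnion_subset_iff]
    rintro i _ ⟨s, rfl⟩
    exact hγ i s
  · exact fun i => mem_iUnion.mpr ⟨i, 1, (γ i).target⟩

theorem chain_GR {B : Set ℂ} {r : ℂ → ℂ → Prop} (hr : FullRel B r) (q : ℕ → ℂ) (n : ℕ)
    {U : Set ℂ} (hU : U ∈ GR B r) (β : Type) [Finite β] (F : β → Set ℂ)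
    (hF : ∀ i, F i ∈ GR B r ∧ closure (F i) ⊆ U \ ZR B r q n) (z : ℂ) :
    ∃ O : Set ℂ, IsOpen O ∧ z ∈ O ∧ ∃ (κ : Type) (_ : Finite κ) (V : κ → Set ℂ),
      (∀ c, V c ∈ GR B r ∧ closure (V c) ⊆ U \ ZR B r q n ∧ diam (V c) ≤ 2 / ((n : ℝ) + 1) ∧
        Disjoint (V c) O) ∧
      (∀ c c', Join V (fun _ => True) c c') ∧
      ∀ i, O ⊆ F i ∨ ∃ c, (V c ∩ F i).Nonempty := by
  classical
  have hpre : PreRel B r := hr.toPreRel
  obtain ⟨hUo, hUc, hUB, hUs⟩ := hU
  by_cases hall : ∀ i, z ∈ F i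
  · refine ⟨⋂ i, F i, isOpen_iInter_of_finite fun i => (hF i).1.1, mem_iInter.mpr hall, Empty,
      inferInstance, fun _ => ∅, fun c => c.elim, fun c => c.elim, fun i => Or.inl ?_⟩
    exact iInter_subset _ i
  · push Not at hall
    obtain ⟨i₀, hi₀⟩ := hall
    obtain ⟨D, hD⟩ : ∃ D, D = U \ (ZR B r q n ∪ {y | r z y}) := ⟨_, rfl⟩
    have hDU : D ⊆ U := by rw [hD]; exact sdiff_subset
    have hDo : IsOpen D := by
      rw [hD]
      exact hUo.sdiff (((isCompact_ZR hpre q n).union (isCompact_cl hpre z)).isClosed)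
    have hDc : IsPreconnected D := by
      rw [hD]
      exact diff_ZR_preconnected hr q n z ⟨hUo, hUc, hUB, hUs⟩
    have hDs : ∀ x ∈ D, ∀ y, r x y → y ∈ D := by
      intro x hx y hxy
      rw [hD] at hx ⊢
      refine ⟨hUs x hx.1 y hxy, ?_⟩
      rintro (h | h)
      · exact hx.2 (Or.inl (ZR_sat hpre q n y h x (hpre.symm _ _ hxy)))
      · exact hx.2 (Or.inr (hpre.trans z y x h (hpre.symm _ _ hxy)))
    have hzD : z ∉ D := by
      intro h
      have h1 := h
      rw [hD] at h1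
      exact h1.2 (Or.inr (hpre.refl z (interior_subset (hUB h1.1))))
    have hDZ : D ⊆ U \ ZR B r q n := by
      intro x hx
      rw [hD] at hx
      exact ⟨hx.1, fun h => hx.2 (Or.inl h)⟩
    -- the points `p i`
    have hp : ∀ i : {i // z ∉ F i}, ∃ p, p ∈ F i.1 := fun i => (hF i.1).1.2.1.nonempty
    choose p hp using hp
    have hpD : ∀ i, p i ∈ D := by
      intro i
      have h1 := (hF i.1).2 (subset_closure (hp i))
      rw [hD]
      refine ⟨h1.1, ?_⟩
      rintro (h | h)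
      · exact h1.2 h
      · exact i.2 ((hF i.1).1.2.2.2 (p i) (hp i) z (hpre.symm _ _ h))
    obtain ⟨L, hLc, hLp, hLD, hLi⟩ := exists_cont hDo hDc p hpD ⟨i₀, hi₀⟩
    have hsm : ∀ w : L, ∃ V ∈ GR B r, w.1 ∈ V ∧ closure V ⊆ D ∧ diam V ≤ 2 / ((n : ℝ) + 1) :=
      fun w => exists_small hpre q n hDo (hDU.trans hUB) hDs (hLD w.2)
        (fun h => (hDZ (hLD w.2)).2 h)
    choose V hVG hwV hVD hVd using hsm
    obtain ⟨t, ht⟩ := hLc.elim_finite_subcover V (fun w => (hVG w).1)
      (fun w hw => mem_iUnion.mpr ⟨⟨w, hw⟩, hwV ⟨w, hw⟩⟩)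
    refine ⟨(⋃ c : t, closure (V c.1))ᶜ ∩ ⋂ i : {i // z ∈ F i}, F i.1, ?_, ?_, t, inferInstance,
      fun c => V c.1, ?_, ?_, ?_⟩
    · refine IsOpen.inter ?_ (isOpen_iInter_of_finite fun i => (hF i.1).1.1)
      exact (isClosed_iUnion_of_finite fun c => isClosed_closure).isOpen_compl
    · refine ⟨?_, mem_iInter.mpr fun i => i.2⟩
      rw [mem_compl_iff, mem_iUnion]
      rintro ⟨c, hc⟩
      exact hzD (hVD c.1 hc)
    · intro c
      refine ⟨hVG c.1, (hVD c.1).trans hDZ, hVd c.1, ?_⟩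
      rw [Set.disjoint_left]
      intro x hx hxO
      exact hxO.1 (mem_iUnion.mpr ⟨c, subset_closure hx⟩)
    · intro c c'
      by_contra hcon
      have h1 := hLp (⋃ d ∈ {d : t | Join (fun c : t => V c.1) (fun _ => True) c d}, V d.1)
        (⋃ d ∈ {d : t | ¬ Join (fun c : t => V c.1) (fun _ => True) c d}, V d.1)
        (isOpen_biUnion fun d _ => (hVG d.1).1) (isOpen_biUnion fun d _ => (hVG d.1).1) ?_ ?_ ?_
      · obtain ⟨x, _, hx1, hx2⟩ := h1
        rw [mem_iUnion₂] at hx1 hx2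
        obtain ⟨d, hd, hxd⟩ := hx1
        obtain ⟨d', hd', hxd'⟩ := hx2
        exact hd' (Join.trans hd (Join.single trivial trivial ⟨x, hxd, hxd'⟩))
      · intro x hx
        obtain ⟨w, hw, hxw⟩ := mem_iUnion₂.mp (ht hx)
        by_cases h : Join (fun c : t => V c.1) (fun _ => True) c ⟨w, hw⟩
        · exact Or.inl (mem_iUnion₂.mpr ⟨⟨w, hw⟩, h, hxw⟩)
        · exact Or.inr (mem_iUnion₂.mpr ⟨⟨w, hw⟩, h, hxw⟩)
      · have hcc : Join (fun c : t => V c.1) (fun _ => True) c c := Join.rfl trivial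
        exact ⟨c.1.1, c.1.2, mem_iUnion₂.mpr ⟨c, hcc, hwV c.1⟩⟩
      · exact ⟨c'.1.1, c'.1.2, mem_iUnion₂.mpr ⟨c', hcon, hwV c'.1⟩⟩
    · intro i
      by_cases hz : z ∈ F i
      · left
        intro x hx
        exact mem_iInter.mp hx.2 ⟨i, hz⟩
      · right
        obtain ⟨w, hw, hxw⟩ := mem_iUnion₂.mp (ht (hLi ⟨i, hz⟩))
        exact ⟨⟨w, hw⟩, p ⟨i, hz⟩, hxw, hp ⟨i, hz⟩⟩

end Pool.Agent.Carp
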