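import Mathlib
import Pool.Agent.Carp.Defs
import Pool.Agent.Carp.Rel
import Pool.Agent.Carp.RE
import Pool.Agent.Carp.RF
import Pool.Agent.Carp.Peano

/-!
# Peano continua without local cut points among the one-point classes

`GoodFam (GR B r) (ZR B r q) (fun n => 2 / (n + 1))`: `contact_GR`, `chain_GR`; members are contained in
the compact set `B` (closure compact, and `z₀` any point outside `B`). Then `exists_peano`. A point
`x ∈ S` misses all `ZR B r q n`, so its class has diameter `0` and contains `x`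
(`x ∈ U₀ ⊆ interior B`); `q i ∈ S` would imply `r (q i) (q i)` and `q i ∈ ZR B r q i`.
-/

namespace Pool.Agent.Carp

open Set Metric Topology Filter

theorem exists_peano_of_fullRel {B : Set ℂ} {r : ℂ → ℂ → Prop} (hr : FullRel B r) (q : ℕ → ℂ)
    {U₀ : Set ℂ} (hU₀ : U₀ ∈ GR B r) :
    ∃ S ⊆ U₀, IsCompact S ∧ IsConnected S ∧ S.Nontrivial ∧ LocallyConnectedSpace S ∧
      NoLocalCut S ∧ (∀ x ∈ S, ∀ y, r x y → y = x) ∧ ∀ i, q i ∉ S := by
  have hUB : ∀ U ∈ GR B r, closure U ⊆ B := fun U hU =>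
    closure_minimal (hU.2.2.1.trans interior_subset) hr.compact.isClosed
  have hG : GoodFam (GR B r) (ZR B r q) (fun n => 2 / ((n : ℝ) + 1)) := by
    refine ⟨?_, ?_, ?_, ?_⟩
    · intro U hU
      exact ⟨hU.1, hU.2.1, hr.compact.of_isClosed_subset isClosed_closure (hUB U hU)⟩
    · obtain ⟨z₀, hz₀⟩ := (Set.ne_univ_iff_exists_notMem B).1 hr.compact.ne_univ
      exact ⟨z₀, fun U hU h => hz₀ (hUB U hU h)⟩
    · intro n U hU U' hU' h
      exact contact_GR hr.toPreRel q n hU hU' h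
    · intro n U hU β _ F hF z
      exact chain_GR hr q n hU β F hF z
  have hε : Tendsto (fun n : ℕ => 2 / ((n : ℝ) + 1)) atTop (𝓝 0) := by
    have h1 := (tendsto_one_div_add_atTop_nhds_zero_nat (𝕜 := ℝ)).const_mul 2
    rw [mul_zero] at h1
    refine h1.congr fun n => ?_
    ring
  obtain ⟨S, hS, hc, hcn, hnt, hdis, hlc, hcut⟩ := exists_peano hG hε hU₀
  have hSB : S ⊆ B := hS.trans (hU₀.2.2.1.trans interior_subset)
  refine ⟨S, hS, hc, hcn, hnt, hlc, hcut, ?_, ?_⟩
  · intro x hx y hxy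
    by_contra hne
    have hd : 0 < dist x y := dist_pos.2 fun h => hne h.symm
    obtain ⟨n, hn⟩ := exists_nat_one_div_lt hd
    refine Set.disjoint_left.1 (hdis n) hx (Or.inl ⟨hSB hx, ?_⟩)
    exact hn.le.trans (dist_le_diam_of_mem (isCompact_cl hr.toPreRel x).isBounded
      (hr.refl x (hSB hx)) hxy)
  · intro i hi
    exact Set.disjoint_left.1 (hdis i) hi (Or.inr ⟨i, le_refl i, hr.refl _ (hSB hi)⟩)

end Pool.Agent.Carp
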