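import Mathlib
import Pool.Agent.Carp.Rel
import Pool.Agent.Carp.RA
import Pool.Agent.Carp.RG
import Pool.Agent.Carp.Hull

/-!
# Topological half: from a closed equivalence relation with small classes to a carpet
-/

namespace Pool.Agent.Carp

open Set Metric Topology

/-- the starting set: a connected open union of classes inside a disc -/
theorem exists_start {p : ℂ} {R : ℝ} (hR : 0 < R) {r : ℂ → ℂ → Prop}
    (hr : PreRel (closedBall p R) r)
    (hd : ∀ x ∈ closedBall p R, diam {y | r x y} ≤ R / 4) :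
    ∃ U₀ ∈ GR (closedBall p R) r, ball p (R / 2) ⊆ U₀ ∧ U₀ ⊆ ball p R := by
  have hO : IsOpen {x | x ∈ ball p R ∧ ∀ y, r x y → y ∈ ball p R} :=
    isOpen_star hr isOpen_ball ball_subset_closedBall
  have hint : ball p R ⊆ interior (closedBall p R) := interior_maximal ball_subset_closedBall
    isOpen_ball
  have hsub : ball p (R / 2) ⊆ {x | x ∈ ball p R ∧ ∀ y, r x y → y ∈ ball p R} := by
    intro x hx
    have hx1 : dist x p < R / 2 := hx
    have hxB : x ∈ closedBall p R := by
      rw [mem_closedBall]; linarith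
    refine ⟨by rw [mem_ball]; linarith, fun y hy => ?_⟩
    have h1 : dist x y ≤ diam {y | r x y} :=
      dist_le_diam_of_mem (isCompact_cl hr x).isBounded (hr.refl x hxB) hy
    have h2 := hd x hxB
    have h3 : dist y p ≤ dist x y + dist x p := by
      rw [dist_comm x y]; exact dist_triangle y x p
    rw [mem_ball]; linarith
  have hp : p ∈ ball p (R / 2) := mem_ball_self (by linarith)
  refine ⟨connectedComponentIn {x | x ∈ ball p R ∧ ∀ y, r x y → y ∈ ball p R} p,
    component_mem_GR hr hO (fun x hx => hint hx.1)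
      (fun x hx y hxy => ⟨hx.2 y hxy, fun z hz => hx.2 z (hr.trans x y z hxy hz)⟩) (hsub hp), ?_, ?_⟩
  · exact (convex_ball p (R / 2)).isPreconnected.subset_connectedComponentIn hp hsub
  · intro x hx
    exact (connectedComponentIn_subset _ _ hx).1

theorem exists_peano_of_preRel {p : ℂ} {R : ℝ} (hR : 0 < R) {r : ℂ → ℂ → Prop}
    (hr : PreRel (closedBall p R) r)
    (hd : ∀ x ∈ closedBall p R, diam {y | r x y} ≤ R / 4) (q : ℕ → ℂ) :
    ∃ S ⊆ ball p R, IsCompact S ∧ IsConnected S ∧ S.Nontrivial ∧ LocallyConnectedSpace S ∧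
      NoLocalCut S ∧ (∀ x ∈ S, ∀ y, r x y → y = x) ∧ ∀ i, q i ∉ S := by
  have hB : Convex ℝ (closedBall p R) := convex_closedBall p R
  obtain ⟨U₀, hU₀, -, h2⟩ := exists_start hR (hull_full hr hB).toPreRel (hull_diam hr hB hd)
  obtain ⟨S, hS, h⟩ := exists_peano_of_fullRel (hull_full hr hB) q hU₀
  refine ⟨S, hS.trans h2, h.1, h.2.1, h.2.2.1, h.2.2.2.1, h.2.2.2.2.1, ?_, h.2.2.2.2.2.2⟩
  intro x hx y hxy
  exact h.2.2.2.2.2.1 x hx y (le_hull hr hxy)

end Pool.Agent.Carp
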