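import Mathlib
import Pool.Agent.CarT.Sys
import Pool.Agent.Carp.Rel
import Pool.Agent.Carp.RA
import Pool.Agent.Carp.FA
import Pool.Agent.Carp.FB
import Pool.Agent.Carp.Topo
import Pool.Agent.Carp.TrDense
import Pool.Agent.Carp.PathTr

/-!
# Bridge: a full relation with small classes is a system in the sense of `CarT.Sys`
-/

namespace Pool.Agent.Carp

open Set Metric Topology

theorem sys_of_fullRel {p : ℂ} {R : ℝ} (hR : 0 < R) {r : ℂ → ℂ → Prop}
    (hr : FullRel (closedBall p R) r)
    (hd : ∀ x ∈ closedBall p R, diam {y | r x y} ≤ R / 4) :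
    CarT.Sys (ball p R) {x | x ∈ ball p R ∧ ∀ y, r x y → y = x} (fun x => {y | r x y}) := by
  have hint : ball p R ⊆ interior (closedBall p R) := interior_maximal ball_subset_closedBall
    isOpen_ball
  refine ⟨isOpen_ball, ?_, fun x hx => hx.1, fun x hx => hr.refl x (ball_subset_closedBall hx),
    fun x hx => (hr.conn x (ball_subset_closedBall hx)).isPreconnected, ?_, ?_, ?_, ?_, ?_, ?_, ?_⟩
  · intro J hJ hJW z hz
    obtain ⟨hzJ, hzb⟩ := hz
    have hfill : z ∈ fill J := by
      intro hext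
      obtain ⟨S, hS1, hS2, hS3, hS4⟩ := hext
      exact hS4 (hzb.subset (hS1.subset_connectedComponentIn hS3 hS2))
    rcases J.eq_empty_or_nonempty with hJe | hJne
    · exfalso
      rw [hJe, compl_empty, connectedComponentIn_univ,
        PreconnectedSpace.connectedComponent_eq_univ] at hzb
      exact NormedSpace.unbounded_univ ℝ ℂ hzb
    · obtain ⟨y, hy, hymax⟩ := hJ.exists_isMaxOn (f := fun w => dist w p) hJne
        (continuous_id.dist continuous_const).continuousOn
      have h1 : J ⊆ closedBall p (dist y p) := fun w hw => hymax hw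
      have h2 := fill_subset_convex (convex_closedBall p (dist y p)) isClosed_closedBall h1 hfill
      have h3 : dist y p < R := hJW hy
      exact lt_of_le_of_lt h2 h3
  · intro x hx y hy
    ext z
    exact ⟨fun hz => hr.trans x y z hy hz, fun hz => hr.trans y x z (hr.symm x y hy) hz⟩
  · intro x hx
    ext y
    constructor
    · intro hy
      exact hx.2 y hy
    · intro hy
      rw [mem_singleton_iff] at hy
      rw [hy]
      exact hr.refl x (ball_subset_closedBall hx.1)
  · intro x hx hxT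
    by_contra hcon
    push Not at hcon
    exact hxT ⟨hx, hcon⟩
  · intro C O hC hCT hO hCO
    have hO' : IsOpen (O ∩ ball p R) := hO.inter isOpen_ball
    refine ⟨{x | x ∈ O ∩ ball p R ∧ ∀ y, r x y → y ∈ O ∩ ball p R},
      isOpen_star hr.toPreRel hO' (fun x hx => ball_subset_closedBall hx.2), ?_, ?_,
      fun x hx => hx.1.1, fun x hx => hx.1.2⟩
    · intro x hx y hy
      exact ⟨hx.2 y hy, fun z hz => hx.2 z (hr.trans x y z hy hz)⟩
    · intro x hx
      have hxT := hCT hx
      have hxO : x ∈ O ∩ ball p R := ⟨hCO hx, hxT.1⟩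
      exact ⟨hxO, fun y hy => by rw [hxT.2 y hy]; exact hxO⟩
  · obtain ⟨U₀, hU₀, h1, h2⟩ := exists_start hR hr.toPreRel hd
    exact ⟨U₀, hU₀.1, fun x hx y hy => hU₀.2.2.2 x hx y hy, hU₀.2.1.nonempty, h2⟩
  · intro G hG hs hGW hne
    obtain ⟨x, hxG, hxT⟩ := exists_trivial hr.toPreRel hG (hGW.trans hint)
      (fun x hx y hy => hs x hx hy) hne
    exact ⟨x, hxG, hGW hxG, hxT.2⟩
  · intro G hG hs hGW hGc x hx y hy
    have hGR : G ∈ GR (closedBall p R) r :=
      ⟨hG, ⟨⟨x, hx.1⟩, hGc⟩, hGW.trans hint, fun x hx y hy => hs x hx hy⟩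
    have := joinedIn_Tr hr hGR (u := x) (v := y)
      ⟨hx.1, ball_subset_closedBall hx.2.1, hx.2.2⟩ ⟨hy.1, ball_subset_closedBall hy.2.1, hy.2.2⟩
    exact this.mono (fun z hz => ⟨hz.1, hGW hz.1, hz.2.2⟩)

end Pool.Agent.Carp
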