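import Mathlib
import Pool.Agent.Carp.SA

/-!
# If the range of `f ∈ A` carries no data then `A` contains `φ ∘ f` for all continuous `φ`

`Y = range f`, `j : C(K, Y)` the map `f` onto its range, `B = {ψ : C(Y, ℂ) | ψ ∘ j ∈ A}` (a `Subalgebra.comap`
under the composition algebra hom `ContinuousMap.compRightAlgHom`-like map). `B` is closed (the
composition is continuous), and it contains `1/(w - z)`, `z ∉ Y` (`exists_inverse` gives `h ∈ A` with
`h x (f x - z) = 1`, i.e. `h = (1/(w - z)) ∘ f`). If `B ≠ ⊤` then `exists_dat_of_inv` contradicts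
the hypothesis. So `B = ⊤` and the restriction of `φ` to `Y` is in `B`.
-/

namespace Pool.Agent.Carp

open MeasureTheory Set

theorem comp_mem {K : Type*} [TopologicalSpace K] [CompactSpace K] [T2Space K]
    (A : Subalgebra ℂ C(K, ℂ)) (hA : IsClosed (A : Set C(K, ℂ)))
    (hnat : ∀ φ : A →ₐ[ℂ] ℂ, ∃ x : K, ∀ f : A, φ f = (f : C(K, ℂ)) x)
    (f : C(K, ℂ)) (hf : f ∈ A)
    (hno : ∀ (F : ℂ → ℂ) (m : Measure ℂ), ¬ CarA.Dat (range f) F m) (φ : C(ℂ, ℂ)) :
    φ.comp f ∈ A := by
  have hY : IsCompact (range f) := isCompact_range f.continuous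
  have hYc : CompactSpace (range f) := isCompact_iff_compactSpace.mp hY
  let j : C(K, range f) := ⟨fun x => ⟨f x, mem_range_self x⟩, f.continuous.subtype_mk _⟩
  let B : Subalgebra ℂ C(range f, ℂ) := A.comap (ContinuousMap.compRightAlgHom ℂ ℂ j)
  have hmem : ∀ ψ : C(range f, ℂ), ψ ∈ B ↔ ψ.comp j ∈ A := fun ψ => Iff.rfl
  have hB : IsClosed (B : Set C(range f, ℂ)) := by
    have hc : Continuous (fun ψ : C(range f, ℂ) => ψ.comp j) := ContinuousMap.continuous_precomp j
    exact hA.preimage hc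
  have hBt : B = ⊤ := by
    by_contra hne
    have hinv : ∀ z, z ∉ range f → ∃ h ∈ B, ∀ y : range f, h y * ((y : ℂ) - z) = 1 := by
      intro z hz
      obtain ⟨h, hhA, hh⟩ := exists_inverse A hA hnat f hf z (fun x hx => hz ⟨x, hx⟩)
      have hnz : ∀ y : range f, (y : ℂ) - z ≠ 0 := by
        intro y h0
        exact hz ((sub_eq_zero.mp h0) ▸ y.2)
      let ψ : C(range f, ℂ) := ⟨fun y => ((y : ℂ) - z)⁻¹,
        (continuous_subtype_val.sub continuous_const).inv₀ hnz⟩
      refine ⟨ψ, (hmem ψ).2 ?_, fun y => inv_mul_cancel₀ (hnz y)⟩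
      have : ψ.comp j = h := by
        ext x
        show (f x - z)⁻¹ = h x
        exact (eq_inv_of_mul_eq_one_left (hh x)).symm
      rw [this]
      exact hhA
    obtain ⟨F, m, hD⟩ := exists_dat_of_inv hY B hB hne hinv
    exact hno F m hD
  have hφ : φ.restrict (range f) ∈ B := by rw [hBt]; exact Algebra.mem_top
  have h1 := (hmem _).1 hφ
  have h2 : (φ.restrict (range f)).comp j = φ.comp f := by
    ext x
    rfl
  rw [h2] at h1
  exact h1

end Pool.Agent.Carp
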