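import Mathlib
import Pool.Agent.Carp.SB

/-!
# Natural uniform algebras on countable compact spaces

Let `g ∈ A`. The range of `g` is a countable compact plane set, so it has measure zero and carries
no data (`Dat.off`, `Dat.ne`). By `comp_mem` the complex conjugate of `g` is in `A`. So `A` is
closed under conjugation and the Stone-Weierstrass theorem
(`ContinuousMap.starSubalgebra_topologicalClosure_eq_top_of_separatesPoints`) gives `A = ⊤`.
-/

namespace Pool.Agent.Carp

open MeasureTheory Set

theorem not_dat_of_null {Y : Set ℂ} (hY : volume Y = 0) (F : ℂ → ℂ) (m : Measure ℂ) :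
    ¬ CarA.Dat Y F m := by
  intro D
  refine D.ne ?_
  have h : volume {z | ¬ F z = (0 : ℂ → ℂ) z} = 0 := by
    refine measure_mono_null ?_ hY
    intro z hz
    by_contra h0
    exact hz (D.off z h0)
  exact h

theorem eq_top_of_countable {K : Type*} [TopologicalSpace K] [CompactSpace K] [T2Space K]
    [Countable K] (A : Subalgebra ℂ C(K, ℂ)) (hA : IsClosed (A : Set C(K, ℂ)))
    (hnat : ∀ φ : A →ₐ[ℂ] ℂ, ∃ x : K, ∀ f : A, φ f = (f : C(K, ℂ)) x)
    (hsep : A.SeparatesPoints) : A = ⊤ := by
  have hstar : ∀ g ∈ A, star g ∈ A := by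
    intro g hg
    have hY : volume (range g) = 0 := (countable_range g).measure_zero volume
    have h1 := comp_mem A hA hnat g hg (fun F m => not_dat_of_null hY F m)
      ⟨fun z => (starRingEnd ℂ) z, continuous_star⟩
    have h2 : (⟨fun z => (starRingEnd ℂ) z, continuous_star⟩ : C(ℂ, ℂ)).comp g = star g := by
      ext x
      rfl
    rw [h2] at h1
    exact h1
  let S : StarSubalgebra ℂ C(K, ℂ) := { A with star_mem' := fun {g} hg => hstar g hg }
  have hS : S.toSubalgebra = A := rfl
  have h1 : S.topologicalClosure = ⊤ := by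
    refine ContinuousMap.starSubalgebra_topologicalClosure_eq_top_of_separatesPoints S ?_
    exact hsep
  have h2 : IsClosed (S : Set C(K, ℂ)) := hA
  refine eq_top_iff.2 ?_
  intro f _
  have h3 : f ∈ S.topologicalClosure := by rw [h1]; exact StarSubalgebra.mem_top
  have h4 : f ∈ (S.topologicalClosure : Set C(K, ℂ)) := h3
  rw [StarSubalgebra.topologicalClosure_coe, h2.closure_eq] at h4
  exact h4

end Pool.Agent.Carp
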