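import Mathlib
import Pool.Agent.CarA.Defs
import Pool.Agent.Carp.SD
import Pool.Agent.Carp.PD

/-!
# Localization of the data to one set of a countable closed cover

Let `S = {z | ∀ ρ > 0, ¬ F = 0 a.e. on ball z ρ}` be the closed support of `F`: it is closed, `F = 0`
a.e. off `S` (Lindelöf), so `S ≠ ∅` (`Dat.ne`), and `S ⊆ Y` (`Y` is closed and `F = 0` off `Y`). `S` is a complete
metric space covered by the closed sets `Z i`, so by Baire (`nonempty_interior_of_iUnion_of_closed` in the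
subtype `S`) there are `i`, `x ∈ S` and `ρ > 0` with `S ∩ ball x ρ ⊆ Z i`. Let `Φ` be a bump function
(`exists_bump`: `C¹`, values in `[0,1]`, `1` on `ball x (ρ/4)`, `0` off `ball x ρ`, bounded gradient) and
`F' z = Φ z * F z` for `z ∈ Z i`, `0` otherwise. Then `F' = Φ F` a.e. (a.e. point of `ball x ρ` with
`F ≠ 0` is in `S ∩ ball x ρ ⊆ Z i`). With `m' = m + ‖F‖ ‖∇Φ‖ dA` (finite) we have `weak`:
`Φ ∂̄φ = ∂̄(Φφ) - φ ∂̄Φ` (`Pool.Agent.Carp.Pair.mul` in file PC is the same computation, up to the factor `π`).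
`small`: `‖F'‖ ≤ ‖F‖`. `ne`: `F' = F` a.e. on `ball x (ρ/4)` and `x ∈ S`.
-/

namespace Pool.Agent.Carp

open Set Metric Topology MeasureTheory Filter

theorem dat_localize {Y : Set ℂ} {F : ℂ → ℂ} {m : Measure ℂ} (h : CarA.Dat Y F m) (Z : ℕ → Set ℂ)
    (hZ : ∀ i, IsCompact (Z i)) (hcov : Y ⊆ ⋃ i, Z i) :
    ∃ (i : ℕ) (F' : ℂ → ℂ) (m' : Measure ℂ), CarA.Dat (Z i) F' m' := by
  have hFm := h.meas
  have hFi := h.int
  have hfin := h.fin
  obtain ⟨κ, hκd⟩ : ∃ κ : Measure ℂ, κ = volume.withDensity (fun z => ‖F z‖ₑ) := ⟨_, rfl⟩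
  have hκ : IsFiniteMeasure κ := by
    rw [hκd]
    exact isFiniteMeasure_withDensity hFi.2.ne
  have hκae : ∀ p : ℂ → Prop, (∀ᵐ z ∂κ, p z) ↔ ∀ᵐ z, ‖F z‖ₑ ≠ 0 → p z := fun p => by
    rw [hκd]
    exact ae_withDensity_iff hFm.enorm
  obtain ⟨S, hS⟩ : ∃ S : Set ℂ, S = κ.support := ⟨_, rfl⟩
  have hSc : IsClosed S := hS ▸ Measure.isClosed_support
  have hSae : ∀ᵐ z, F z ≠ 0 → z ∈ S := by
    have h1 : ∀ᵐ z ∂κ, z ∈ κ.support := Measure.support_mem_ae
    rw [hκae] at h1
    filter_upwards [h1] with z hz hF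
    rw [hS]
    exact hz (enorm_ne_zero.2 hF)
  have hκ0 : κ ≠ 0 := by
    intro h0
    apply h.ne
    have h1 : ∀ᵐ z ∂κ, False := by
      rw [h0]
      simp
    rw [hκae] at h1
    filter_upwards [h1] with z hz
    by_contra hF
    exact hz (enorm_ne_zero.2 hF)
  have hSne : S.Nonempty := hS ▸ Measure.nonempty_support hκ0
  have hSY : S ⊆ Y := by
    rw [hS]
    refine Measure.support_subset_of_isClosed h.comp.isClosed ?_
    have h1 : ∀ᵐ z ∂κ, z ∈ Y := by
      rw [hκae]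
      refine Eventually.of_forall fun z hz => ?_
      by_contra hzY
      exact enorm_ne_zero.1 hz (h.off z hzY)
    exact h1
  obtain ⟨i, x, hxS, ρ, hρ, hsub⟩ : ∃ i, ∃ x ∈ S, ∃ ρ > 0, S ∩ ball x ρ ⊆ Z i := by
    have : CompleteSpace S := hSc.completeSpace_coe
    have : Nonempty S := hSne.to_subtype
    obtain ⟨i, ⟨x, hx⟩⟩ := nonempty_interior_of_iUnion_of_closed (X := S)
      (f := fun i => Subtype.val ⁻¹' (Z i)) (fun i => (hZ i).isClosed.preimage continuous_subtype_val)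
      (by
        rw [← preimage_iUnion]
        exact eq_univ_of_forall fun x => hcov (hSY x.2))
    rw [mem_interior_iff_mem_nhds, Metric.mem_nhds_iff] at hx
    obtain ⟨ρ, hρ, hb⟩ := hx
    refine ⟨i, x, x.2, ρ, hρ, ?_⟩
    rintro z ⟨hzS, hzb⟩
    exact hb (show (⟨z, hzS⟩ : S) ∈ ball x ρ from hzb)
  obtain ⟨C, hC0, hC⟩ := exists_bump
  obtain ⟨Φ, hΦ1, hΦ01, hΦin, hΦout, hΦd⟩ := hC x ρ hρ
  have hCρ : 0 ≤ C / ρ := by positivity
  have hΦm : Measurable Φ := hΦ1.continuous.measurable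
  have hgm : Measurable (fun z => (Φ z : ℂ) * F z) := (Complex.measurable_ofReal.comp hΦm).mul hFm
  have hgle : ∀ z, ‖(Φ z : ℂ) * F z‖ ≤ ‖F z‖ := by
    intro z
    rw [norm_mul, Complex.norm_real, Real.norm_of_nonneg (hΦ01 z).1]
    exact mul_le_of_le_one_left (norm_nonneg _) (hΦ01 z).2
  obtain ⟨F', hF'⟩ : ∃ F' : ℂ → ℂ, F' = (Z i).indicator (fun z => (Φ z : ℂ) * F z) := ⟨_, rfl⟩
  have hF'm : Measurable F' := by
    rw [hF']
    exact hgm.indicator (hZ i).measurableSet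
  have hF'le : ∀ z, ‖F' z‖ ≤ ‖F z‖ := by
    intro z
    rw [hF']
    by_cases hz : z ∈ Z i
    · rw [indicator_of_mem hz]
      exact hgle z
    · rw [indicator_of_notMem hz, norm_zero]
      exact norm_nonneg _
  have hF'i : Integrable F' := hFi.mono hF'm.aestronglyMeasurable (Eventually.of_forall hF'le)
  have hae : ∀ᵐ z, F' z = (Φ z : ℂ) * F z := by
    filter_upwards [hSae] with z hz
    rw [hF']
    by_cases hzZ : z ∈ Z i
    · rw [indicator_of_mem hzZ]
    · rw [indicator_of_notMem hzZ]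
      by_cases hFz : F z = 0
      · rw [hFz, mul_zero]
      · have h1 : z ∉ ball x ρ := fun hb => hzZ (hsub ⟨hz hFz, hb⟩)
        rw [hΦout z h1]
        simp
  -- the pair
  have hpair : Pair F m := by
    refine ⟨hFm, hFi, hfin, fun φ hφ hc => (h.weak φ hφ hc).trans ?_⟩
    refine le_mul_of_one_le_left (integral_nonneg fun z => norm_nonneg _) ?_
    linarith [Real.pi_gt_three]
  obtain ⟨m', hm'⟩ : ∃ m' : Measure ℂ, m' = ENNReal.ofReal Real.pi • m +
      ENNReal.ofReal (C / ρ) • κ := ⟨_, rfl⟩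
  have hm1 : IsFiniteMeasure (ENNReal.ofReal Real.pi • m) := by
    refine ⟨?_⟩
    rw [Measure.smul_apply, smul_eq_mul]
    exact ENNReal.mul_lt_top ENNReal.ofReal_lt_top (measure_lt_top m _)
  have hm2 : IsFiniteMeasure (ENNReal.ofReal (C / ρ) • κ) := by
    refine ⟨?_⟩
    rw [Measure.smul_apply, smul_eq_mul]
    exact ENNReal.mul_lt_top ENNReal.ofReal_lt_top (measure_lt_top κ _)
  have hm'f : IsFiniteMeasure m' := by
    rw [hm']
    infer_instance
  refine ⟨i, F', m', hZ i, hm'f, hF'm, hF'i, ?_, ?_, ?_, ?_⟩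
  · intro z hz
    rw [hF', indicator_of_notMem hz]
  · intro φ hφ hc
    have h1 : ∫ z, F' z * Pool.Lib.dbar φ z = ∫ z, (Φ z : ℂ) * F z * Pool.Lib.dbar φ z := by
      refine integral_congr_ae ?_
      filter_upwards [hae] with z hz
      rw [hz]
    rw [h1]
    refine (hpair.mul hΦ1 hΦ01 hφ hc).trans ?_
    have hφi : ∀ (ν : Measure ℂ) [IsFiniteMeasure ν], Integrable (fun z => ‖φ z‖) ν :=
      fun ν _ => (hφ.continuous.integrable_of_hasCompactSupport hc).norm
    rw [hm', integral_add_measure (hφi _) (hφi _), integral_smul_measure, integral_smul_measure,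
      ENNReal.toReal_ofReal Real.pi_pos.le, ENNReal.toReal_ofReal hCρ, smul_eq_mul, smul_eq_mul]
    refine add_le_add le_rfl ?_
    have h2 : ∫ z, ‖φ z‖ ∂κ = ∫ z, ‖F z‖ * ‖φ z‖ := by
      rw [hκd, integral_withDensity_eq_integral_toReal_smul hFm.enorm
        (Eventually.of_forall fun w => enorm_lt_top)]
      refine integral_congr_ae (Eventually.of_forall fun w => ?_)
      show (‖F w‖ₑ).toReal • ‖φ w‖ = ‖F w‖ * ‖φ w‖
      rw [toReal_enorm, smul_eq_mul]
    rw [h2, ← integral_const_mul]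
    have hi : Integrable (fun z => ‖F z‖ * ‖φ z‖) := by
      refine (PCAux.int_mul hFi hφ.continuous hc).norm.congr (Eventually.of_forall fun z => ?_)
      show ‖F z * φ z‖ = ‖F z‖ * ‖φ z‖
      rw [norm_mul]
    have hb : ∀ z, ‖F z‖ * ‖φ z‖ * ‖fderiv ℝ Φ z‖ ≤ C / ρ * (‖F z‖ * ‖φ z‖) := by
      intro z
      rw [mul_comm (C / ρ)]
      exact mul_le_mul_of_nonneg_left (hΦd z) (by positivity)
    refine integral_mono_of_nonneg (Eventually.of_forall fun z => by positivity)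
      (hi.const_mul _) (Eventually.of_forall hb)
  · intro y
    have h0 := h.small y
    refine tendsto_of_tendsto_of_tendsto_of_le_of_le' tendsto_const_nhds h0 ?_ ?_
    · filter_upwards [self_mem_nhdsWithin] with r hr
      have hr' : (0 : ℝ) < r := hr
      have : 0 ≤ ∫ z in closedBall y r, ‖F' z‖ := integral_nonneg fun z => norm_nonneg _
      positivity
    · filter_upwards [self_mem_nhdsWithin] with r hr
      have hr' : (0 : ℝ) < r := hr
      refine div_le_div_of_nonneg_right ?_ hr'.le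
      exact integral_mono hF'i.norm.integrableOn hFi.norm.integrableOn hF'le
  · intro h0
    have h1 : ∀ᵐ z, ‖F z‖ₑ ≠ 0 → z ∉ ball x (ρ / 4) := by
      filter_upwards [hae, h0] with z hz1 hz2 hz3 hz4
      rw [hz1, hΦin z hz4] at hz2
      exact enorm_ne_zero.1 hz3 (by simpa using hz2)
    rw [← hκae] at h1
    have h2 : κ (ball x (ρ / 4)) = 0 := by
      have h3 := h1
      rw [ae_iff] at h3
      have h4 : {a | ¬ a ∉ ball x (ρ / 4)} = ball x (ρ / 4) := by
        ext a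
        exact not_not
      rwa [h4] at h3
    rw [hS, Measure.mem_support_iff_forall] at hxS
    have h3 := hxS _ (ball_mem_nhds x (show 0 < ρ / 4 by positivity))
    rw [h2] at h3
    exact lt_irrefl _ h3

end Pool.Agent.Carp
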