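import Mathlib
import Pool.Agent.Carp.Defs

/-!
# Transfer of the carpet to the original compact set

`K ⊆ ℂ` compact, `f : K → ℂ` continuous injective, `S' ⊆ range f` a compact connected nontrivial locally
connected set without local cut points, which misses the points `f (q i)` for a sequence `q` which is
dense in `K`. Then `S = {x ∈ K | f x ∈ S'}` is a carpet (`IsCarpet`): the map
`f : S → S'` is a homeomorphism (continuous bijection from a compact space to a Hausdorff space). All
properties but `interior S = ∅` are invariant under homeomorphisms (`LocallyConnectedSpace`: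
`Homeomorph.locallyConnectedSpace` or open embedding; `NoLocalCut`: take images of `W`). If an
open nonempty `O ⊆ ℂ` is contained in `S ⊆ K`, then some `q i ∈ O`, so `f (q i) ∈ S'`, contradiction.
-/

namespace Pool.Agent.Carp

open Set Metric Topology

theorem NoLocalCut.of_homeomorph {S S' : Set ℂ} (e : S ≃ₜ S') (h : NoLocalCut S') :
    NoLocalCut S := by
  intro x W hW hWc hx
  have h1 : IsOpen (e '' W) := e.isOpenMap W hW
  have h2 : IsConnected (e '' W) := hWc.image e e.continuous.continuousOn
  have h3 := h (e x) (e '' W) h1 h2 ⟨x, hx, rfl⟩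
  have h4 := h3.image e.symm e.symm.continuous.continuousOn
  have h5 : e.symm '' (e '' W \ {e x}) = W \ {x} := by
    ext y
    constructor
    · rintro ⟨z, ⟨⟨w, hw, rfl⟩, hz⟩, rfl⟩
      rw [e.symm_apply_apply]
      refine ⟨hw, fun hwx => hz ?_⟩
      rw [mem_singleton_iff] at hwx ⊢
      rw [hwx]
    · rintro ⟨hy, hyx⟩
      refine ⟨e y, ⟨⟨y, hy, rfl⟩, fun hh => hyx ?_⟩, e.symm_apply_apply y⟩
      exact e.injective hh
  rw [h5] at h4
  exact h4

theorem carpet_transfer {K : Set ℂ} (hK : IsCompact K) (f : K → ℂ) (hf : Continuous f)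
    (hinj : Function.Injective f) (q : ℕ → K) (hq : DenseRange q) {S' : Set ℂ}
    (hS' : S' ⊆ range f) (h1 : IsCompact S') (h2 : IsConnected S') (h3 : S'.Nontrivial)
    (h4 : LocallyConnectedSpace S') (h5 : NoLocalCut S') (h6 : ∀ i, f (q i) ∉ S') :
    ∃ S ⊆ K, IsCarpet S := by
  have : CompactSpace K := isCompact_iff_compactSpace.mp hK
  have hemb : IsClosedEmbedding f := hf.isClosedEmbedding hinj
  have him : f '' (f ⁻¹' S') = S' := image_preimage_eq_of_subset hS'
  let T : Set K := f ⁻¹' S'
  let S : Set ℂ := Subtype.val '' T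
  have hT : IsCompact T := (h1.isClosed.preimage hf).isCompact
  let e1 : T ≃ₜ S := IsEmbedding.subtypeVal.homeomorphImage T
  let e2 : T ≃ₜ (f '' T : Set ℂ) := hemb.isEmbedding.homeomorphImage T
  let e : S ≃ₜ S' := (e1.symm.trans e2).trans (Homeomorph.setCongr him)
  refine ⟨S, ?_, ?_, ?_, ?_, ?_, ?_, ?_⟩
  · rintro x ⟨y, _, rfl⟩
    exact y.2
  · exact hT.image continuous_subtype_val
  · have : ConnectedSpace S' := isConnected_iff_connectedSpace.mp h2
    exact isConnected_iff_connectedSpace.mpr
      (e.symm.surjective.connectedSpace e.symm.continuous)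
  · have : Nontrivial S' := nontrivial_coe_sort.mpr h3
    exact nontrivial_coe_sort.mp e.toEquiv.nontrivial
  · exact e.isOpenEmbedding.locallyConnectedSpace
  · by_contra hne
    obtain ⟨x, hx⟩ := nonempty_iff_ne_empty.mpr hne
    obtain ⟨y, _, hyx⟩ := interior_subset hx
    have ho : IsOpen ((Subtype.val : K → ℂ) ⁻¹' interior S) :=
      isOpen_interior.preimage continuous_subtype_val
    obtain ⟨i, hi⟩ := hq.exists_mem_open ho ⟨y, by rw [mem_preimage, hyx]; exact hx⟩
    obtain ⟨z, hz, hzi⟩ := interior_subset hi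
    have : z = q i := Subtype.ext hzi
    exact h6 i (this ▸ hz)
  · exact NoLocalCut.of_homeomorph e h5

end Pool.Agent.Carp
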