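import Mathlib
import Pool.Agent.Carp.MB
import Pool.Agent.Carp.MC
import Pool.Agent.Carp.UA

/-!
# From the uniform algebra to a measure on the plane

`L` from `exists_annihilator`, `ν` from `exists_measure_bound`, `g₀` from `exists_density`.
`m = Measure.map f ν`, `g = Function.extend f g₀ 0`. `f : K → ℂ` is a closed embedding (injective
continuous from a compact space), so a measurable embedding, with closed range.
* `Integrable g m` (`MeasurableEmbedding.integrable_map_iff`, `g ∘ f = g₀`).
* `m (range f)ᶜ = 0`.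
* for `z ∉ range f`: `∫ g w / (w - z) dm = ∫ g₀ x / (f x - z) dν = ∫ h x * g₀ x dν = L h = 0` with `h ∈ A`
  from `exists_inverse`.
* if `g = 0` `m`-almost everywhere, then `g₀ = 0` `ν`-almost everywhere and `L = 0`.
-/

namespace Pool.Agent.Carp

open MeasureTheory Set

theorem exists_plane_measure {K : Type*} [TopologicalSpace K] [CompactSpace K] [T2Space K]
    [MeasurableSpace K] [BorelSpace K]
    (A : Subalgebra ℂ C(K, ℂ)) (hA : IsClosed (A : Set C(K, ℂ))) (hne : A ≠ ⊤)
    (hnat : ∀ φ : A →ₐ[ℂ] ℂ, ∃ x : K, ∀ f : A, φ f = (f : C(K, ℂ)) x)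
    (f : C(K, ℂ)) (hf : f ∈ A) (hinj : Function.Injective f) :
    ∃ (m : Measure ℂ) (g : ℂ → ℂ), IsFiniteMeasure m ∧ Measurable g ∧ Integrable g m ∧
      m (range f)ᶜ = 0 ∧ (∀ z, z ∉ range f → ∫ w, g w / (w - z) ∂m = 0) ∧ ¬ g =ᵐ[m] 0 := by
  obtain ⟨L, hL0, hLA⟩ := exists_annihilator A hA hne
  obtain ⟨ν, hfin, hreg, hbd⟩ := exists_measure_bound L
  obtain ⟨g₀, hg₀m, hg₀i, hg₀⟩ := exists_density L ν hbd
  have hemb : Topology.IsClosedEmbedding f := f.continuous.isClosedEmbedding hinj
  have hme : MeasurableEmbedding f := hemb.measurableEmbedding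
  have hgf : ∀ x, Function.extend f g₀ 0 (f x) = g₀ x := fun x => hinj.extend_apply g₀ 0 x
  refine ⟨Measure.map f ν, Function.extend f g₀ 0, ?_, ?_, ?_, ?_, ?_, ?_⟩
  · exact Measure.isFiniteMeasure_map ν f
  · exact hme.measurable_extend hg₀m measurable_zero
  · rw [hme.integrable_map_iff]
    have : Function.extend f g₀ 0 ∘ f = g₀ := funext hgf
    rw [this]
    exact hg₀i
  · rw [Measure.map_apply hme.measurable hme.measurableSet_range.compl]
    have : f ⁻¹' (range f)ᶜ = ∅ := by
      ext x
      simp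
    rw [this, measure_empty]
  · intro z hz
    rw [hme.integral_map]
    obtain ⟨h, hhA, hh⟩ := exists_inverse A hA hnat f hf z (fun x hx => hz ⟨x, hx⟩)
    have : ∀ x, Function.extend f g₀ 0 (f x) / (f x - z) = h x * g₀ x := by
      intro x
      have hne : f x - z ≠ 0 := by
        intro h0
        exact hz ⟨x, sub_eq_zero.mp h0⟩
      rw [hgf, div_eq_iff hne]
      have := hh x
      calc g₀ x = (h x * (f x - z)) * g₀ x := by rw [this, one_mul]
        _ = h x * g₀ x * (f x - z) := by ring
    rw [integral_congr_ae (Filter.Eventually.of_forall this), ← hg₀ h, hLA h hhA]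
  · intro h0
    apply hL0
    have h1 : g₀ =ᵐ[ν] 0 := by
      have h2 := (hme.ae_map_iff).mp h0
      filter_upwards [h2] with x hx
      rw [← hgf x]
      exact hx
    ext h
    rw [hg₀ h]
    have h3 : (fun x => h x * g₀ x) =ᵐ[ν] fun _ => (0 : ℂ) := by
      filter_upwards [h1] with x hx
      rw [hx]
      simp
    rw [integral_congr_ae h3]
    simp

end Pool.Agent.Carp
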