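import Mathlib
import Pool.Agent.Carp.Defs
import Pool.Agent.Carp.Topo
import Pool.Agent.Carp.UB
import Pool.Agent.Carp.Transfer
import Pool.Agent.Carp.Ana

/-!
# MP_efd072_an: natural uniform algebras with an injective element

Whyburn form: the carpet is characterised by Whyburn's theorem.
-/

namespace Pool.Agent.Carp

open Set Metric Topology MeasureTheory

theorem carpet_of_natural (X : Set ℂ) (hX : IsCompact X) (A : Subalgebra ℂ C(X, ℂ))
    (hA : IsClosed (A : Set C(X, ℂ))) (hne : A ≠ ⊤)
    (hnat : ∀ φ : A →ₐ[ℂ] ℂ, ∃ x : X, ∀ f : A, φ f = (f : C(X, ℂ)) x)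
    (f : C(X, ℂ)) (hf : f ∈ A) (hinj : Function.Injective f) :
    ∃ S ⊆ X, IsCarpet S := by
  have hXc : CompactSpace X := isCompact_iff_compactSpace.mp hX
  obtain ⟨m, g, hm, hgm, hg, hmX, h0, hgne⟩ := exists_plane_measure A hA hne hnat f hf hinj
  have hR : IsCompact (range f) := isCompact_range f.continuous
  obtain ⟨p, R, r, hRpos, hr, hd, htr⟩ := exists_preRel hR m g hgm hg hmX h0 hgne
  have hXne : Nonempty X := by
    by_contra hcon
    rw [not_nonempty_iff] at hcon
    have : range f = ∅ := range_eq_empty f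
    rw [this, compl_empty] at hmX
    apply hgne
    have hm0 : m = 0 := Measure.measure_univ_eq_zero.mp hmX
    rw [hm0]
    rw [Filter.EventuallyEq, ae_zero]; exact Filter.eventually_bot
  obtain ⟨q, hq⟩ := TopologicalSpace.exists_dense_seq X
  obtain ⟨S', hS'b, h1, h2, h3, h4, h5, h6, h7⟩ :=
    exists_peano_of_preRel hRpos hr hd (fun i => f (q i))
  refine carpet_transfer hX f f.continuous hinj q hq (S' := S') ?_ h1 h2 h3 h4 h5 h7
  intro x hx
  exact htr x (hS'b hx) (h6 x hx)

end Pool.Agent.Carp
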