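import Mathlib

/-!
# Gluing over a function

`A` closed, all `φ ∘ f ∈ A` (`φ` continuous on the plane), and `h` can be approximated on every
fiber of `f` by elements of `A`. Then `h ∈ A`. Proof: let `ε > 0`. For `t ∈ range f` let `a_t ∈ A` be
`ε`-close to `h` on `f ⁻¹' {t}`; by compactness of `K` there is an open disc `D_t` about `t` with
`‖h x - a_t x‖ < ε` whenever `f x ∈ D_t`. Finitely many `D_t` cover the compact set `range f`; let
`φ_i` be a continuous partition of unity (`PartitionOfUnity.exists_isSubordinate`, or the quotients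
of the functions `max (r_i - |z - t_i|) 0` by their sum, extended continuously) with `φ_i : ℂ → [0,1]`,
`φ_i = 0` off `D_{t_i}`, `∑ φ_i = 1` on `range f`. Then `∑ (φ_i ∘ f) a_{t_i} ∈ A` is `ε`-close to `h`.
-/

namespace Pool.Agent.Carp

open Set

theorem mem_of_fibers {K : Type*} [TopologicalSpace K] [CompactSpace K] [T2Space K]
    (A : Subalgebra ℂ C(K, ℂ)) (hA : IsClosed (A : Set C(K, ℂ))) (f : C(K, ℂ))
    (hφ : ∀ φ : C(ℂ, ℂ), φ.comp f ∈ A) (h : C(K, ℂ))
    (hh : ∀ t : ℂ, ∀ ε > 0, ∃ a ∈ A, ∀ x, f x = t → ‖h x - a x‖ < ε) : h ∈ A := by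
  have hcl : h ∈ closure (A : Set C(K, ℂ)) := by
    refine Metric.mem_closure_iff.2 fun ε hε => ?_
    choose a haA hac using fun t => hh t (ε / 2) (half_pos hε)
    let C : ℂ → Set K := fun t => {x | ε / 2 ≤ ‖h x - a t x‖}
    have hC : ∀ t, IsCompact (C t) := fun t =>
      (isClosed_le continuous_const
        ((h.continuous.sub (a t).continuous).norm)).isCompact
    let U : ℂ → Set ℂ := fun t => (f '' C t)ᶜ
    have hUo : ∀ t, IsOpen (U t) := fun t =>
      ((hC t).image f.continuous).isClosed.isOpen_compl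
    have hUt : ∀ t, t ∈ U t := by
      rintro t ⟨x, hx, hxt⟩
      exact absurd (hac t x hxt) (not_lt.2 hx)
    have hUx : ∀ t x, f x ∈ U t → ‖h x - a t x‖ < ε / 2 := by
      intro t x hx
      by_contra hcon
      exact hx ⟨x, not_lt.1 hcon, rfl⟩
    have hrc : IsCompact (range f) := isCompact_range f.continuous
    obtain ⟨T, hT⟩ := hrc.elim_finite_subcover U hUo
      (fun z _ => mem_iUnion.2 ⟨z, hUt z⟩)
    have hT' : range f ⊆ ⋃ i : T, U i.1 := by
      intro z hz
      obtain ⟨t, ht, hzt⟩ := mem_iUnion₂.1 (hT hz)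
      exact mem_iUnion.2 ⟨⟨t, ht⟩, hzt⟩
    obtain ⟨p, hp⟩ := PartitionOfUnity.exists_isSubordinate hrc.isClosed
      (fun i : T => U i.1) (fun i => hUo i.1) hT'
    let φ : T → C(ℂ, ℂ) := fun i =>
      ⟨fun z => ((p i z : ℝ) : ℂ), Complex.continuous_ofReal.comp (p i).continuous⟩
    refine ⟨∑ i : T, (φ i).comp f * a i.1,
      Subalgebra.sum_mem _ fun i _ => mul_mem (hφ _) (haA _), ?_⟩
    rw [ContinuousMap.dist_lt_iff hε]
    intro x
    have hsum : ∑ i : T, p i (f x) = 1 := by
      have := p.sum_eq_one (mem_range_self x : f x ∈ range f)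
      rwa [finsum_eq_sum_of_fintype] at this
    have hval : (∑ i : T, (φ i).comp f * a i.1 : C(K, ℂ)) x
        = ∑ i : T, ((p i (f x) : ℝ) : ℂ) * a i.1 x := by
      simp [ContinuousMap.sum_apply, φ]
    have hhx : h x = ∑ i : T, ((p i (f x) : ℝ) : ℂ) * h x := by
      rw [← Finset.sum_mul, ← Complex.ofReal_sum, hsum]
      simp
    rw [dist_eq_norm, hval]
    have hdiff : h x - ∑ i : T, ((p i (f x) : ℝ) : ℂ) * a i.1 x
        = ∑ i : T, ((p i (f x) : ℝ) : ℂ) * (h x - a i.1 x) := by
      conv_lhs => rw [hhx]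
      rw [← Finset.sum_sub_distrib]
      exact Finset.sum_congr rfl fun i _ => by ring
    rw [hdiff]
    have hle : ‖∑ i : T, ((p i (f x) : ℝ) : ℂ) * (h x - a i.1 x)‖
        ≤ ∑ i : T, p i (f x) * (ε / 2) := by
      refine (norm_sum_le _ _).trans (Finset.sum_le_sum fun i _ => ?_)
      rw [norm_mul, Complex.norm_real, Real.norm_of_nonneg (p.nonneg i _)]
      rcases eq_or_ne (p i (f x)) 0 with h0 | h0
      · rw [h0]; simp
      · have hmem : f x ∈ U i.1 := hp i (subset_closure (Function.mem_support.2 h0))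
        exact mul_le_mul_of_nonneg_left (hUx _ _ hmem).le (p.nonneg i _)
    rw [← Finset.sum_mul, hsum, one_mul] at hle
    exact lt_of_le_of_lt hle (half_lt_self hε)
  rwa [hA.closure_eq] at hcl

end Pool.Agent.Carp
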