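import Mathlib
import Pool.Agent.Carp.SD

/-!
# Countable fibers

`E = f ⁻¹' {t}` (compact, countable), `A_t` the closure in `C(E, ℂ)` of the restrictions of the
elements of `A` (`Subalgebra.topologicalClosure` of `A.map (restriction)`). It is closed and
separates points. It is natural: let `φ` be a character of `A_t`; it is contractive
(`AlgHom.norm_apply_le_self`, `A_t` is a complete normed algebra); its composition with the
restriction is a character of `A`, so it is the evaluation at some `x : K`. For `a = f - t ∈ A` we get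
`|f x - t| ≤ ‖(f - t)|E‖ = 0`, so `x ∈ E`. Both `φ` and the evaluation at `x` are continuous on `A_t` and
agree on the dense subset of restrictions. So `A_t = ⊤` by `eq_top_of_countable`.
(If `E` is empty the conclusion is trivial with `a = 0`.)
-/

namespace Pool.Agent.Carp

open MeasureTheory Set

theorem fiber_approx {K : Type*} [TopologicalSpace K] [CompactSpace K] [T2Space K]
    (A : Subalgebra ℂ C(K, ℂ)) (hA : IsClosed (A : Set C(K, ℂ)))
    (hnat : ∀ φ : A →ₐ[ℂ] ℂ, ∃ x : K, ∀ f : A, φ f = (f : C(K, ℂ)) x)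
    (hsep : A.SeparatesPoints) (f : C(K, ℂ)) (hf : f ∈ A) (t : ℂ)
    (hc : {x | f x = t}.Countable) (h : C(K, ℂ)) {ε : ℝ} (hε : 0 < ε) :
    ∃ a ∈ A, ∀ x, f x = t → ‖h x - a x‖ < ε := by
  have _ := hA
  set E : Set K := {x | f x = t} with hE
  have hEc : IsClosed E := isClosed_eq f.continuous continuous_const
  haveI : CompactSpace E := isCompact_iff_compactSpace.1 hEc.isCompact
  haveI : Countable E := hc.to_subtype
  let ι : C(E, K) := ⟨Subtype.val, continuous_subtype_val⟩
  let ρ : C(K, ℂ) →ₐ[ℂ] C(E, ℂ) := ContinuousMap.compRightAlgHom ℂ ℂ ι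
  have hρ : ∀ (g : C(K, ℂ)) (x : E), ρ g x = g x := fun g x => rfl
  let B : Subalgebra ℂ C(E, ℂ) := A.map ρ
  let Bt : Subalgebra ℂ C(E, ℂ) := B.topologicalClosure
  have hBt : IsClosed (Bt : Set C(E, ℂ)) := B.isClosed_topologicalClosure
  have hBB : (B : Set C(E, ℂ)) ⊆ Bt := B.le_topologicalClosure
  have hmem : ∀ g ∈ A, ρ g ∈ Bt := fun g hg => hBB ⟨g, hg, rfl⟩
  have htop : Bt = ⊤ := by
    refine eq_top_of_countable Bt hBt ?_ ?_
    · intro φ
      haveI : CompleteSpace Bt := hBt.completeSpace_coe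
      have hφc : Continuous φ := (AlgHom.toContinuousLinearMap φ).continuous
      let r : A →ₐ[ℂ] Bt := (ρ.comp A.val).codRestrict Bt (fun g => hmem g g.2)
      obtain ⟨x, hx⟩ := hnat (φ.comp r)
      -- the point is in the fiber
      have hxE : x ∈ E := by
        have h1 := hx ⟨f - algebraMap ℂ C(K, ℂ) t, A.sub_mem hf (A.algebraMap_mem t)⟩
        have h2 : r ⟨f - algebraMap ℂ C(K, ℂ) t, A.sub_mem hf (A.algebraMap_mem t)⟩ = 0 := by
          apply Subtype.ext
          apply ContinuousMap.ext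
          intro y
          show f y - t = 0
          rw [sub_eq_zero]
          exact y.2
        rw [AlgHom.comp_apply, h2, map_zero] at h1
        have h3 : (0 : ℂ) = f x - t := h1
        exact (sub_eq_zero.1 h3.symm)
      refine ⟨⟨x, hxE⟩, ?_⟩
      have hd : DenseRange (Set.inclusion hBB) :=
        (denseRange_inclusion_iff hBB).2 (by
          intro b hb
          exact hb)
      have hev : Continuous (fun b : Bt => (b : C(E, ℂ)) ⟨x, hxE⟩) :=
        (continuous_eval_const (F := C(E, ℂ)) (⟨x, hxE⟩ : E)).comp continuous_subtype_val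
      have key := hd.equalizer (g := fun b : Bt => φ b)
        (h := fun b : Bt => (b : C(E, ℂ)) ⟨x, hxE⟩) hφc hev (by
          funext b
          obtain ⟨b, g, hg, hgb⟩ := b
          subst hgb
          have h1 := hx ⟨g, hg⟩
          exact h1)
      intro b
      exact congrFun key b
    · intro x y hxy
      have hxy' : (x : K) ≠ y := fun hc => hxy (Subtype.ext hc)
      obtain ⟨_, ⟨g, hg, rfl⟩, hne⟩ := hsep hxy'
      exact ⟨_, ⟨ρ g, hmem g hg, rfl⟩, hne⟩
  have h1 : ρ h ∈ Bt := by
    rw [htop]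
    exact Algebra.mem_top
  obtain ⟨b, hb, hbd⟩ := Metric.mem_closure_iff.1 (show ρ h ∈ closure (B : Set C(E, ℂ)) from h1) ε hε
  obtain ⟨a, ha, rfl⟩ := hb
  refine ⟨a, ha, fun x hx => ?_⟩
  have h2 : ‖(ρ h - ρ a) ⟨x, hx⟩‖ ≤ ‖ρ h - ρ a‖ := ContinuousMap.norm_coe_le_norm _ _
  have h3 : dist (ρ h) (ρ a) < ε := hbd
  rw [dist_eq_norm] at h3
  exact lt_of_le_of_lt h2 h3

end Pool.Agent.Carp
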