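import Mathlib
import Pool.Agent.Carp.SB
import Pool.Agent.Carp.SC
import Pool.Agent.Carp.SE

/-!
# A natural algebra with an element with countable fibers
-/

namespace Pool.Agent.Carp

open MeasureTheory Set

theorem exists_dat_range {K : Type*} [TopologicalSpace K] [CompactSpace K] [T2Space K]
    (A : Subalgebra ℂ C(K, ℂ)) (hA : IsClosed (A : Set C(K, ℂ))) (hne : A ≠ ⊤)
    (hnat : ∀ φ : A →ₐ[ℂ] ℂ, ∃ x : K, ∀ f : A, φ f = (f : C(K, ℂ)) x)
    (hsep : A.SeparatesPoints) (f : C(K, ℂ)) (hf : f ∈ A)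
    (hc : ∀ t, {x | f x = t}.Countable) :
    ∃ (F : ℂ → ℂ) (m : Measure ℂ), CarA.Dat (range f) F m := by
  by_contra hcon
  push Not at hcon
  apply hne
  rw [eq_top_iff]
  intro h _
  exact mem_of_fibers A hA f (fun φ => comp_mem A hA hnat f hf hcon φ) h
    fun t ε hε => fiber_approx A hA hnat hsep f hf t (hc t) h hε

end Pool.Agent.Carp
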