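import Mathlib
import Pool.Agent.Carp.Defs
import Pool.Agent.Carp.Topo
import Pool.Agent.Carp.Transfer
import Pool.Agent.Carp.Ana
import Pool.Agent.Carp.SF
import Pool.Agent.Carp.LA

/-!
# MP_efd072_an: natural uniform algebras with an element which is injective on each set of a
countable compact cover and has countable fibers

Whyburn form: the carpet is characterised by Whyburn's theorem.
-/

namespace Pool.Agent.Carp

open Set Metric Topology MeasureTheory

/-- A compact plane set `K` with an injective continuous function whose range carries the data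
contains a carpet. -/
theorem carpet_of_dat {K : Set ℂ} (hK : IsCompact K) (f : K → ℂ) (hf : Continuous f)
    (hinj : Function.Injective f) {F : ℂ → ℂ} {m : Measure ℂ} (h : CarA.Dat (range f) F m) :
    ∃ S ⊆ K, IsCarpet S := by
  have hKc : CompactSpace K := isCompact_iff_compactSpace.mp hK
  obtain ⟨p, R, r, hRpos, hr, hd, htr⟩ := exists_preRel_of_dat h
  have hne : Nonempty K := by
    by_contra hcon
    rw [not_nonempty_iff] at hcon
    apply h.ne
    have h0 : range f = ∅ := range_eq_empty f
    refine Filter.Eventually.of_forall fun z => ?_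
    exact h.off z (by rw [h0]; exact notMem_empty z)
  obtain ⟨q, hq⟩ := TopologicalSpace.exists_dense_seq K
  obtain ⟨S', hS'b, h1, h2, h3, h4, h5, h6, h7⟩ :=
    exists_peano_of_preRel hRpos hr hd (fun i => f (q i))
  refine carpet_transfer hK f hf hinj q hq (S' := S') ?_ h1 h2 h3 h4 h5 h7
  intro x hx
  exact htr x (hS'b hx) (h6 x hx)

theorem carpet_of_natural_sigma (X : Set ℂ) (hX : IsCompact X) (A : Subalgebra ℂ C(X, ℂ))
    (hA : IsClosed (A : Set C(X, ℂ))) (hne : A ≠ ⊤) (hsep : A.SeparatesPoints)
    (hnat : ∀ φ : A →ₐ[ℂ] ℂ, ∃ x : X, ∀ f : A, φ f = (f : C(X, ℂ)) x)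
    (f : C(X, ℂ)) (hf : f ∈ A) (hc : ∀ t, {x | f x = t}.Countable) (K : ℕ → Set X)
    (hK : ∀ i, IsCompact (K i)) (hcov : ⋃ i, K i = univ)
    (hKi : ∀ i, InjOn f (K i) ∨ volume (f '' K i) = 0) :
    ∃ S ⊆ X, IsCarpet S := by
  have hXc : CompactSpace X := isCompact_iff_compactSpace.mp hX
  obtain ⟨F, m, h⟩ := exists_dat_range A hA hne hnat hsep f hf hc
  obtain ⟨i, F', m', h'⟩ := dat_localize h (fun i => f '' K i)
    (fun i => (hK i).image f.continuous) (by
      rw [← image_iUnion, hcov, image_univ])
  have hinj : InjOn f (K i) := by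
    rcases hKi i with h1 | h1
    · exact h1
    · exact absurd h' (not_dat_of_null h1 F' m')
  have hKi' : IsCompact (Subtype.val '' K i : Set ℂ) := (hK i).image continuous_subtype_val
  have hsub : (Subtype.val '' K i : Set ℂ) ⊆ X := by
    rintro x ⟨y, _, rfl⟩
    exact y.2
  let j : (Subtype.val '' K i : Set ℂ) → X := fun x => ⟨x, hsub x.2⟩
  have hj : Continuous j := by
    apply Continuous.subtype_mk
    exact continuous_subtype_val
  have hjm : ∀ x, j x ∈ K i := by
    rintro ⟨x, y, hy, rfl⟩
    exact hy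
  have hjinj : Function.Injective j := by
    intro x y hxy
    have := congrArg Subtype.val hxy
    exact Subtype.ext this
  have hran : range (fun x => f (j x)) = f '' K i := by
    ext w
    constructor
    · rintro ⟨x, rfl⟩
      exact ⟨j x, hjm x, rfl⟩
    · rintro ⟨y, hy, rfl⟩
      exact ⟨⟨y, y, hy, rfl⟩, rfl⟩
  have h'' : CarA.Dat (range (fun x => f (j x))) F' m' := by rw [hran]; exact h'
  obtain ⟨S, hS, hcar⟩ := carpet_of_dat hKi' (fun x => f (j x)) (f.continuous.comp hj)
    (fun x y hxy => hjinj (hinj (hjm x) (hjm y) hxy)) h''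
  exact ⟨S, hS.trans hsub, hcar⟩

end Pool.Agent.Carp
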